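import Mathlib

/-! Definitions for the lower bound of the Mahler measure in terms of the length. -/

set_option autoImplicit false

open Polynomial Finset

namespace Pool.Agent.Lib.MP_7ab245_nt.Len

/-- inversion into the closed unit disc -/
noncomputable def refl (z : ℂ) : ℂ := if ‖z‖ ≤ 1 then z else (starRingEnd ℂ z)⁻¹

/-- regularised logarithmic kernel -/
noncomputable def ker (s : ℝ) (x y : ℂ) : ℝ :=
  -Real.log ‖1 - (Real.exp (-s) : ℂ) * (x * starRingEnd ℂ y)‖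

/-- mutual energy of the `a`-th powers and the `b`-th powers of the points `w i` -/
noncomputable def EE {n : ℕ} (w : Fin n → ℂ) (s : ℝ) (a b : ℕ) : ℝ :=
  ∑ i, ∑ j, ker s (w i ^ a) (w j ^ b)

/-- `log M` in terms of the roots of a monic polynomial -/
noncomputable def hh {n : ℕ} (α : Fin n → ℂ) : ℝ := ∑ i, Real.posLog ‖α i‖

/-- `α` lists the complex roots of the monic polynomial `f` with multiplicity -/
def IsRoots (f : ℤ[X]) {n : ℕ} (α : Fin n → ℂ) : Prop :=
  f.map (Int.castRingHom ℂ) = ∏ i, (X - C (α i))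

/-- the potential `Λ - log |F z|`, `F z = ∏ (1 - z * conj (w j))` -/
noncomputable def VV {n : ℕ} (w : Fin n → ℂ) (Λ : ℝ) (z : ℂ) : ℝ :=
  Λ - ∑ j, Real.log ‖1 - z * starRingEnd ℂ (w j)‖

/-- sum of Poisson kernels -/
noncomputable def KK {n : ℕ} (w : Fin n → ℂ) (z : ℂ) : ℝ :=
  ∑ j, (1 - ‖z * starRingEnd ℂ (w j)‖ ^ 2) / ‖1 - z * starRingEnd ℂ (w j)‖ ^ 2

/-- the point `e^{-s + iθ}` -/
noncomputable def pt (s θ : ℝ) : ℂ := Complex.exp (((-s : ℝ) : ℂ) + (θ : ℂ) * Complex.I)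

/-- average over the circle of radius `e^{-s}` of the positive part of `V - n s` -/
noncomputable def Phi {n : ℕ} (w : Fin n → ℂ) (Λ s : ℝ) : ℝ :=
  (2 * Real.pi)⁻¹ * ∫ θ in (0 : ℝ)..(2 * Real.pi), max (VV w Λ (pt s θ) - n * s) 0

end Pool.Agent.Lib.MP_7ab245_nt.Len
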