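import Mathlib
import Pool.Agent.Lib.MP_7ab245_nt.Len.Defs

/-! Elementary facts on the inversion `refl`. -/

set_option autoImplicit false

open Polynomial Finset

namespace Pool.Agent.Lib.MP_7ab245_nt.Len

lemma refl_of_le {z : ℂ} (h : ‖z‖ ≤ 1) : refl z = z := by simp [refl, h]

lemma refl_of_lt {z : ℂ} (h : 1 < ‖z‖) : refl z = (starRingEnd ℂ z)⁻¹ := by
  simp [refl, not_le.mpr h]

theorem norm_refl_le (z : ℂ) : ‖refl z‖ ≤ 1 := by
  rcases le_or_gt ‖z‖ 1 with h | h
  · rw [refl_of_le h]; exact h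
  · rw [refl_of_lt h, norm_inv, RCLike.norm_conj]
    exact inv_le_one_of_one_le₀ h.le

theorem refl_pow (z : ℂ) (m : ℕ) : refl (z ^ m) = refl z ^ m := by
  rcases le_or_gt ‖z‖ 1 with h | h
  · have h1 : ‖z ^ m‖ ≤ 1 := by rw [norm_pow]; exact pow_le_one₀ (norm_nonneg _) h
    rw [refl_of_le h, refl_of_le h1]
  · rcases Nat.eq_zero_or_pos m with rfl | hm
    · simp [refl]
    · have h1 : 1 < ‖z ^ m‖ := by rw [norm_pow]; exact one_lt_pow₀ h hm.ne'
      rw [refl_of_lt h, refl_of_lt h1, map_pow, inv_pow]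

theorem refl_mul (ω z : ℂ) (hω : ‖ω‖ = 1) : refl (ω * z) = ω * refl z := by
  have hn : ‖ω * z‖ = ‖z‖ := by rw [norm_mul, hω, one_mul]
  have hω0 : starRingEnd ℂ ω ≠ 0 := by
    intro h
    rw [map_eq_zero] at h
    rw [h, norm_zero] at hω
    exact zero_ne_one hω
  rcases le_or_gt ‖z‖ 1 with h | h
  · rw [refl_of_le h, refl_of_le (hn.trans_le h)]
  · rw [refl_of_lt h, refl_of_lt (hn ▸ h), map_mul, mul_inv]
    congr 1
    have h1 : ω * starRingEnd ℂ ω = 1 := by
      rw [Complex.mul_conj, Complex.normSq_eq_norm_sq, hω]; norm_num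
    exact (eq_inv_of_mul_eq_one_left h1).symm

theorem refl_ne_zero {z : ℂ} (hz : z ≠ 0) : refl z ≠ 0 := by
  rcases le_or_gt ‖z‖ 1 with h | h
  · rw [refl_of_le h]; exact hz
  · rw [refl_of_lt h]
    exact inv_ne_zero ((_root_.map_ne_zero _).mpr hz)

/-- `|x - y|² ≤ |1 - x conj y|²` in the closed disc -/
lemma norm_sub_le_of_le (x y : ℂ) (hx : ‖x‖ ≤ 1) (hy : ‖y‖ ≤ 1) :
    ‖x - y‖ ≤ ‖1 - x * starRingEnd ℂ y‖ := by
  rw [← sq_le_sq₀ (norm_nonneg _) (norm_nonneg _), ← Complex.normSq_eq_norm_sq,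
    ← Complex.normSq_eq_norm_sq]
  have hx' : x.re * x.re + x.im * x.im ≤ 1 := by
    have := Complex.normSq_eq_norm_sq x
    rw [Complex.normSq_apply] at this
    rw [this]; nlinarith [norm_nonneg x]
  have hy' : y.re * y.re + y.im * y.im ≤ 1 := by
    have := Complex.normSq_eq_norm_sq y
    rw [Complex.normSq_apply] at this
    rw [this]; nlinarith [norm_nonneg y]
  rw [Complex.normSq_apply, Complex.normSq_apply]
  simp only [Complex.sub_re, Complex.sub_im, Complex.one_re, Complex.one_im, Complex.mul_re,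
    Complex.mul_im, Complex.conj_re, Complex.conj_im]
  nlinarith [mul_nonneg (sub_nonneg.mpr hx') (sub_nonneg.mpr hy')]

lemma norm_sub_le_of_ge (x y : ℂ) (hx : 1 ≤ ‖x‖) (hy : 1 ≤ ‖y‖) :
    ‖x - y‖ ≤ ‖1 - x * starRingEnd ℂ y‖ := by
  rw [← sq_le_sq₀ (norm_nonneg _) (norm_nonneg _), ← Complex.normSq_eq_norm_sq,
    ← Complex.normSq_eq_norm_sq]
  have hx' : 1 ≤ x.re * x.re + x.im * x.im := by
    have := Complex.normSq_eq_norm_sq x
    rw [Complex.normSq_apply] at this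
    rw [this]; nlinarith [norm_nonneg x]
  have hy' : 1 ≤ y.re * y.re + y.im * y.im := by
    have := Complex.normSq_eq_norm_sq y
    rw [Complex.normSq_apply] at this
    rw [this]; nlinarith [norm_nonneg y]
  rw [Complex.normSq_apply, Complex.normSq_apply]
  simp only [Complex.sub_re, Complex.sub_im, Complex.one_re, Complex.one_im, Complex.mul_re,
    Complex.mul_im, Complex.conj_re, Complex.conj_im]
  nlinarith [mul_nonneg (sub_nonneg.mpr hx') (sub_nonneg.mpr hy')]

/-- `|x - y| ≤ max(1,|x|) max(1,|y|) |1 - refl x conj (refl y)|` -/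
lemma norm_sub_le_refl (x y : ℂ) :
    ‖x - y‖ ≤ max 1 ‖x‖ * max 1 ‖y‖ * ‖1 - refl x * starRingEnd ℂ (refl y)‖ := by
  rcases le_or_gt ‖x‖ 1 with hx | hx <;> rcases le_or_gt ‖y‖ 1 with hy | hy
  · rw [max_eq_left hx, max_eq_left hy, refl_of_le hx, refl_of_le hy, one_mul, one_mul]
    exact norm_sub_le_of_le x y hx hy
  · rw [max_eq_left hx, max_eq_right hy.le, refl_of_le hx, refl_of_lt hy, one_mul, ← norm_mul,
      map_inv₀, Complex.conj_conj]
    have hy0 : y ≠ 0 := by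
      rintro rfl
      rw [norm_zero] at hy
      exact absurd hy (by norm_num)
    have : y * (1 - x * y⁻¹) = y - x := by field_simp
    rw [this, norm_sub_rev]
  · rw [max_eq_right hx.le, max_eq_left hy, refl_of_lt hx, refl_of_le hy, mul_one]
    have hx0 : x ≠ 0 := by
      rintro rfl
      rw [norm_zero] at hx
      exact absurd hx (by norm_num)
    have hx1 : starRingEnd ℂ x ≠ 0 := (_root_.map_ne_zero _).mpr hx0
    rw [← RCLike.norm_conj x, ← norm_mul]
    have : starRingEnd ℂ x * (1 - (starRingEnd ℂ x)⁻¹ * starRingEnd ℂ y) =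
        starRingEnd ℂ (x - y) := by
      rw [map_sub]; field_simp
    rw [this, RCLike.norm_conj]
  · rw [max_eq_right hx.le, max_eq_right hy.le, refl_of_lt hx, refl_of_lt hy, map_inv₀,
      Complex.conj_conj]
    have hx0 : x ≠ 0 := by
      rintro rfl
      rw [norm_zero] at hx
      exact absurd hx (by norm_num)
    have hy0 : y ≠ 0 := by
      rintro rfl
      rw [norm_zero] at hy
      exact absurd hy (by norm_num)
    have hx1 : starRingEnd ℂ x ≠ 0 := (_root_.map_ne_zero _).mpr hx0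
    rw [← RCLike.norm_conj x, ← norm_mul, ← norm_mul]
    have : starRingEnd ℂ x * y * (1 - (starRingEnd ℂ x)⁻¹ * y⁻¹) =
        -(1 - y * starRingEnd ℂ x) := by
      field_simp
      ring
    rw [this, norm_neg, norm_sub_rev]
    exact norm_sub_le_of_ge y x hy.le hx.le

/-- `ρ |1 - u| ≤ |1 - ρ u|` for `|u| ≤ 1`, `0 ≤ ρ ≤ 1` -/
lemma mul_norm_one_sub_le (ρ : ℝ) (hρ : 0 ≤ ρ) (hρ1 : ρ ≤ 1) (u : ℂ) (hu : ‖u‖ ≤ 1) :
    ρ * ‖1 - u‖ ≤ ‖1 - (ρ : ℂ) * u‖ := by
  rw [← sq_le_sq₀ (by positivity) (norm_nonneg _), mul_pow, ← Complex.normSq_eq_norm_sq,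
    ← Complex.normSq_eq_norm_sq]
  have hre : u.re ≤ 1 := (Complex.re_le_norm u).trans hu
  rw [Complex.normSq_apply, Complex.normSq_apply]
  simp only [Complex.sub_re, Complex.sub_im, Complex.one_re, Complex.one_im, Complex.mul_re,
    Complex.mul_im, Complex.ofReal_re, Complex.ofReal_im]
  nlinarith [mul_nonneg (mul_nonneg hρ (sub_nonneg.mpr hρ1)) (sub_nonneg.mpr hre),
    sq_nonneg (1 - ρ)]

theorem ker_refl_le (s : ℝ) (hs : 0 ≤ s) (x y : ℂ) (hxy : x ≠ y) :
    ker s (refl x) (refl y) ≤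
      s - Real.log ‖x - y‖ + Real.posLog ‖x‖ + Real.posLog ‖y‖ := by
  have h1 := norm_sub_le_refl x y
  have h2 : 0 < ‖x - y‖ := norm_pos_iff.mpr (sub_ne_zero.mpr hxy)
  set u := refl x * starRingEnd ℂ (refl y) with hu
  have hu1 : ‖u‖ ≤ 1 := by
    rw [hu, norm_mul, RCLike.norm_conj]
    exact mul_le_one₀ (norm_refl_le _) (norm_nonneg _) (norm_refl_le _)
  have hmx : (0:ℝ) < max 1 ‖x‖ := lt_of_lt_of_le one_pos (le_max_left _ _)
  have hmy : (0:ℝ) < max 1 ‖y‖ := lt_of_lt_of_le one_pos (le_max_left _ _)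
  have h3 : 0 < ‖1 - u‖ := by
    by_contra h
    push Not at h
    have h0 : ‖1 - u‖ = 0 := le_antisymm h (norm_nonneg _)
    rw [h0, mul_zero] at h1
    linarith
  have h4 := mul_norm_one_sub_le (Real.exp (-s)) (Real.exp_pos _).le
    (Real.exp_le_one_iff.mpr (by linarith)) u hu1
  have h5 : Real.log (Real.exp (-s) * ‖1 - u‖) ≤ Real.log ‖1 - (Real.exp (-s) : ℂ) * u‖ :=
    Real.log_le_log (by positivity) h4
  rw [Real.log_mul (Real.exp_pos _).ne' h3.ne', Real.log_exp] at h5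
  have h6 := Real.log_le_log h2 h1
  rw [Real.log_mul (by positivity) h3.ne', Real.log_mul hmx.ne' hmy.ne'] at h6
  have h7 : Real.log (max 1 ‖x‖) = Real.posLog ‖x‖ := by
    rw [Real.posLog_eq_log_max_one (norm_nonneg _)]
  have h8 : Real.log (max 1 ‖y‖) = Real.posLog ‖y‖ := by
    rw [Real.posLog_eq_log_max_one (norm_nonneg _)]
  rw [h7, h8] at h6
  rw [ker, ← hu]
  linarith

/-! ### polynomials -/

lemma IsRoots.aeval_eq {f : ℤ[X]} {n : ℕ} {α : Fin n → ℂ} (hα : IsRoots f α) (z : ℂ) :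
    aeval z f = ∏ i, (z - α i) := by
  have h1 : aeval z f = (f.map (Int.castRingHom ℂ)).eval z := by
    rw [eval_map, aeval_def]
    congr 1
  rw [h1, hα, eval_prod]
  simp

lemma IsRoots.monic {f : ℤ[X]} {n : ℕ} {α : Fin n → ℂ} (hα : IsRoots f α) : f.Monic := by
  have h1 : (f.map (Int.castRingHom ℂ)).Monic := by
    rw [hα]; exact monic_prod_of_monic _ _ fun i _ => monic_X_sub_C _
  have hinj : Function.Injective (Int.castRingHom ℂ) := by
    intro a b hab
    simpa using hab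
  rw [Monic, leadingCoeff_map_of_injective hinj] at h1
  exact hinj (by simpa using h1)

lemma IsRoots.natDegree_eq {f : ℤ[X]} {n : ℕ} {α : Fin n → ℂ} (hα : IsRoots f α) :
    f.natDegree = n := by
  have h1 := congrArg natDegree hα
  rw [hα.monic.natDegree_map, natDegree_prod_of_monic _ _ fun i _ => monic_X_sub_C _] at h1
  simpa using h1

lemma IsRoots.aeval_root {f : ℤ[X]} {n : ℕ} {α : Fin n → ℂ} (hα : IsRoots f α) (i : Fin n) :
    aeval (α i) f = 0 := by
  rw [hα.aeval_eq]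
  exact Finset.prod_eq_zero (Finset.mem_univ i) (sub_self _)

lemma IsRoots.norm_coeff_zero {f : ℤ[X]} {n : ℕ} {α : Fin n → ℂ} (hα : IsRoots f α) :
    |(f.coeff 0 : ℝ)| = ∏ i, ‖α i‖ := by
  have h1 := hα.aeval_eq 0
  have h2 : aeval (0 : ℂ) f = ((f.coeff 0 : ℤ) : ℂ) := by
    rw [← coeff_zero_eq_aeval_zero']
    simp
  rw [h2] at h1
  have h3 := congrArg norm h1
  rw [Complex.norm_intCast, norm_prod] at h3
  rw [h3]
  simp

lemma IsRoots.ne_zero {f : ℤ[X]} {n : ℕ} {α : Fin n → ℂ} (hα : IsRoots f α)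
    (h0 : f.coeff 0 ≠ 0) (i : Fin n) : α i ≠ 0 := by
  intro h
  have h1 := hα.norm_coeff_zero
  rw [Finset.prod_eq_zero (Finset.mem_univ i) (by rw [h, norm_zero])] at h1
  exact h0 (by exact_mod_cast abs_eq_zero.mp h1)

theorem sum_delta_le (f : ℤ[X]) {n : ℕ} (α : Fin n → ℂ) (hα : IsRoots f α)
    (h0 : f.coeff 0 ≠ 0) : ∑ i, -Real.log ‖refl (α i)‖ ≤ 2 * hh α := by
  have hne : ∀ i, 0 < ‖α i‖ := fun i => norm_pos_iff.mpr (hα.ne_zero h0 i)
  have h1 : ∀ i, -Real.log ‖refl (α i)‖ = 2 * Real.posLog ‖α i‖ - Real.log ‖α i‖ := by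
    intro i
    rcases le_or_gt ‖α i‖ 1 with h | h
    · rw [refl_of_le h, (Real.posLog_eq_zero_iff _).mpr (by rw [abs_of_pos (hne i)]; exact h)]
      ring
    · rw [refl_of_lt h, norm_inv, RCLike.norm_conj, Real.log_inv,
        Real.posLog_eq_log (by rw [abs_of_pos (hne i)]; exact h.le)]
      ring
  rw [Finset.sum_congr rfl fun i _ => h1 i, Finset.sum_sub_distrib, ← Finset.mul_sum]
  have h2 : 0 ≤ ∑ i, Real.log ‖α i‖ := by
    rw [← Real.log_prod fun i _ => (hne i).ne', ← hα.norm_coeff_zero]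
    apply Real.log_nonneg
    have := Int.one_le_abs h0
    exact_mod_cast this
  rw [hh]
  linarith

theorem hh_eq_log_mahler (f : ℤ[X]) {n : ℕ} (α : Fin n → ℂ) (hα : IsRoots f α) :
    hh α = Real.log (f.map (Int.castRingHom ℂ)).mahlerMeasure := by
  have hm : (f.map (Int.castRingHom ℂ)).Monic := hα.monic.map _
  have hroots : (f.map (Int.castRingHom ℂ)).roots = univ.val.map α := by
    rw [hα]
    have := Polynomial.roots_multiset_prod_X_sub_C (univ.val.map α)
    rw [Multiset.map_map] at this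
    exact this
  rw [mahlerMeasure_eq_leadingCoeff_mul_prod_roots, hm.leadingCoeff, norm_one, one_mul, hroots,
    Multiset.map_map]
  have h1 : (Multiset.map ((fun a => max 1 ‖a‖) ∘ α) univ.val).prod = ∏ i, max 1 ‖α i‖ := rfl
  rw [h1, Real.log_prod fun i _ => (lt_of_lt_of_le one_pos (le_max_left _ _)).ne', hh]
  exact Finset.sum_congr rfl fun i _ => Real.posLog_eq_log_max_one (norm_nonneg _)

theorem exists_isRoots (f : ℤ[X]) (hf : f.Monic) :
    ∃ α : Fin f.natDegree → ℂ, IsRoots f α := by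
  classical
  set F := f.map (Int.castRingHom ℂ) with hF
  have hFm : F.Monic := hf.map _
  have hsplit : F = (F.roots.map fun a => X - C a).prod := by
    have := (IsAlgClosed.splits F).eq_prod_roots
    rw [hFm.leadingCoeff, C_1, one_mul] at this
    exact this
  have hcard : Multiset.card F.roots = f.natDegree := by
    rw [IsAlgClosed.card_roots_eq_natDegree, hF, hf.natDegree_map]
  obtain ⟨l, hl⟩ : ∃ l : List ℂ, (l : Multiset ℂ) = F.roots := ⟨F.roots.toList, by simp⟩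
  have hlen : l.length = f.natDegree := by rw [← hcard, ← hl, Multiset.coe_card]
  have hmap : (univ.val.map fun i : Fin l.length => l.get i) = F.roots := by
    rw [← hl, Fin.univ_val_map]
    simp
  rw [← hlen]
  refine ⟨fun i => l.get i, ?_⟩
  rw [IsRoots, ← hF, hsplit, ← hmap, Multiset.map_map]
  rfl

theorem log_eval_le (f : ℤ[X]) {n : ℕ} (α : Fin n → ℂ) (hα : IsRoots f α) (z : ℂ)
    (hz : ‖z‖ ≤ 1) (hne : aeval z f ≠ 0) :
    Real.log ‖aeval z f‖ - hh α ≤ ∑ j, Real.log ‖1 - z * starRingEnd ℂ (refl (α j))‖ := by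
  rw [hα.aeval_eq] at hne ⊢
  have hne' : ∀ j, z - α j ≠ 0 := fun j h => hne (Finset.prod_eq_zero (Finset.mem_univ j) h)
  rw [norm_prod, Real.log_prod fun j _ => norm_ne_zero_iff.mpr (hne' j), hh,
    ← Finset.sum_sub_distrib]
  apply Finset.sum_le_sum
  intro j _
  have h1 := norm_sub_le_refl z (α j)
  rw [max_eq_left hz, one_mul, refl_of_le hz] at h1
  have hmx : (0:ℝ) < max 1 ‖α j‖ := lt_of_lt_of_le one_pos (le_max_left _ _)
  have h0 : 0 < ‖z - α j‖ := norm_pos_iff.mpr (hne' j)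
  have h3 : 0 < ‖1 - z * starRingEnd ℂ (refl (α j))‖ := by
    by_contra h
    push Not at h
    have h4 : ‖1 - z * starRingEnd ℂ (refl (α j))‖ = 0 := le_antisymm h (norm_nonneg _)
    rw [h4, mul_zero] at h1
    linarith
  have h2 := Real.log_le_log h0 h1
  rw [Real.log_mul hmx.ne' h3.ne', ← Real.posLog_eq_log_max_one (norm_nonneg _)] at h2
  linarith

lemma norm_F_eq (α z : ℂ) (hz : ‖z‖ = 1) :
    ‖1 - z * starRingEnd ℂ (refl α)‖ * max 1 ‖α‖ = ‖z - α‖ := by
  have hz1 : z * starRingEnd ℂ z = 1 := by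
    rw [Complex.mul_conj, Complex.normSq_eq_norm_sq, hz]; norm_num
  rcases le_or_gt ‖α‖ 1 with h | h
  · rw [refl_of_le h, max_eq_left h, mul_one]
    have : 1 - z * starRingEnd ℂ α = z * starRingEnd ℂ (z - α) := by
      rw [map_sub, mul_sub, hz1]
    rw [this, norm_mul, RCLike.norm_conj, hz, one_mul]
  · rw [refl_of_lt h, max_eq_right h.le, map_inv₀, Complex.conj_conj]
    have h0 : α ≠ 0 := by
      rintro rfl
      rw [norm_zero] at h
      exact absurd h (by norm_num)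
    rw [← norm_mul]
    have : (1 - z * α⁻¹) * α = -(z - α) := by field_simp; ring
    rw [this, norm_neg]

lemma one_sub_ne_zero {z w : ℂ} (hz : ‖z‖ < 1) (hw : ‖w‖ ≤ 1) :
    1 - z * starRingEnd ℂ w ≠ 0 := by
  intro h
  have h1 : z * starRingEnd ℂ w = 1 := (sub_eq_zero.mp h).symm
  have h2 := congrArg norm h1
  rw [norm_mul, RCLike.norm_conj, norm_one] at h2
  have : ‖z‖ * ‖w‖ < 1 := by
    calc ‖z‖ * ‖w‖ ≤ ‖z‖ * 1 := by gcongr
      _ < 1 := by linarith
  linarith

theorem VV_nonneg (f : ℤ[X]) {n : ℕ} (α : Fin n → ℂ) (hα : IsRoots f α) (z : ℂ)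
    (hz : ‖z‖ < 1) :
    0 ≤ VV (fun i => refl (α i)) (Real.log (∑ m ∈ f.support, |(f.coeff m : ℝ)|)) z := by
  set F : ℂ → ℂ := fun z => ∏ j, (1 - z * starRingEnd ℂ (refl (α j))) with hF
  set L := ∑ m ∈ f.support, |(f.coeff m : ℝ)| with hL
  have hdiff : Differentiable ℂ F := by
    apply Differentiable.fun_finsetProd
    intro j _
    exact (differentiable_const _).sub (differentiable_id.mul_const _)
  have hbound : ∀ z : ℂ, ‖z‖ = 1 → ‖F z‖ ≤ L := by
    intro z hz
    have h1 : ‖F z‖ * ∏ j, max 1 ‖α j‖ = ‖aeval z f‖ := by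
      rw [hF, norm_prod, ← Finset.prod_mul_distrib, hα.aeval_eq, norm_prod]
      exact Finset.prod_congr rfl fun j _ => norm_F_eq (α j) z hz
    have h2 : 1 ≤ ∏ j, max 1 ‖α j‖ := by
      calc (1:ℝ) = ∏ _j : Fin n, (1:ℝ) := by simp
        _ ≤ _ := Finset.prod_le_prod (fun _ _ => zero_le_one) fun j _ => le_max_left _ _
    have h3 : ‖aeval z f‖ ≤ L := by
      rw [aeval_eq_sum_range, hL]
      have : f.sum (fun m a => |(a:ℝ)|) = ∑ m ∈ f.support, |(f.coeff m : ℝ)| := rfl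
      rw [← this, Polynomial.sum_over_range _ (by simp)]
      refine (norm_sum_le _ _).trans (Finset.sum_le_sum fun m _ => ?_)
      rw [zsmul_eq_mul, norm_mul, norm_pow, hz, one_pow, mul_one, Complex.norm_intCast]
    calc ‖F z‖ = ‖F z‖ * 1 := (mul_one _).symm
      _ ≤ ‖F z‖ * ∏ j, max 1 ‖α j‖ := by gcongr
      _ = ‖aeval z f‖ := h1
      _ ≤ L := h3
  have hmax : ‖F z‖ ≤ L := by
    apply Complex.norm_le_of_forall_mem_frontier_norm_le (U := Metric.ball (0:ℂ) 1)
      Metric.isBounded_ball hdiff.diffContOnCl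
    · intro w hw
      rw [frontier_ball (0:ℂ) one_ne_zero, mem_sphere_zero_iff_norm] at hw
      exact hbound w hw
    · apply subset_closure
      rw [mem_ball_zero_iff]; exact hz
  have hne : ∀ j, 1 - z * starRingEnd ℂ (refl (α j)) ≠ 0 := fun j =>
    one_sub_ne_zero hz (norm_refl_le _)
  have hFne : 0 < ‖F z‖ := norm_pos_iff.mpr (Finset.prod_ne_zero_iff.mpr fun j _ => hne j)
  rw [VV, ← Real.log_prod fun j _ => norm_ne_zero_iff.mpr (hne j), ← norm_prod]
  have := Real.log_le_log hFne hmax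
  rw [hF] at this
  simp only at this
  linarith

end Pool.Agent.Lib.MP_7ab245_nt.Len
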