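import Mathlib
import Pool.Agent.Lib.MP_7ab245_nt.Len.Refl

/-! From arithmetic lower bounds to upper bounds of energies. -/

set_option autoImplicit false

open Polynomial Finset

namespace Pool.Agent.Lib.MP_7ab245_nt.Len

theorem EE_offdiag_le {n : ℕ} (α : Fin n → ℂ) (s : ℝ) (hs : 0 ≤ s) (a b : ℕ)
    (hne : ∀ i j, α i ^ a ≠ α j ^ b) :
    EE (fun i => refl (α i)) s a b ≤
      (n : ℝ) ^ 2 * s + n * ((a : ℝ) + b) * hh α
        - Real.log (∏ i, ∏ j, ‖α i ^ a - α j ^ b‖) := by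
  have h1 : ∀ i j, ker s (refl (α i) ^ a) (refl (α j) ^ b) ≤
      s - Real.log ‖α i ^ a - α j ^ b‖ + a * Real.posLog ‖α i‖ + b * Real.posLog ‖α j‖ := by
    intro i j
    rw [← refl_pow, ← refl_pow]
    refine (ker_refl_le s hs _ _ (hne i j)).trans_eq ?_
    rw [norm_pow, norm_pow, Real.posLog_pow, Real.posLog_pow]
  have h2 : EE (fun i => refl (α i)) s a b ≤ ∑ i, ∑ j,
      (s - Real.log ‖α i ^ a - α j ^ b‖ + a * Real.posLog ‖α i‖ + b * Real.posLog ‖α j‖) :=
    Finset.sum_le_sum fun i _ => Finset.sum_le_sum fun j _ => h1 i j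
  refine h2.trans_eq ?_
  have h3 : Real.log (∏ i, ∏ j, ‖α i ^ a - α j ^ b‖) =
      ∑ i, ∑ j, Real.log ‖α i ^ a - α j ^ b‖ := by
    rw [Real.log_prod]
    · refine Finset.sum_congr rfl fun i _ => ?_
      rw [Real.log_prod]
      intro j _
      exact norm_ne_zero_iff.mpr (sub_ne_zero.mpr (hne i j))
    · intro i _
      exact Finset.prod_ne_zero_iff.mpr fun j _ =>
        norm_ne_zero_iff.mpr (sub_ne_zero.mpr (hne i j))
  rw [h3, hh]
  simp only [Finset.sum_add_distrib, Finset.sum_sub_distrib, Finset.sum_const, Finset.card_univ,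
    Fintype.card_fin, nsmul_eq_mul, ← Finset.mul_sum]
  ring

lemma prod_one_sub (N : ℕ) (hN : 0 < N) (u : ℂ) :
    ∏ ω ∈ nthRootsFinset N (1 : ℂ), (1 - ω * u) = 1 - u ^ N := by
  have := (Complex.isPrimitiveRoot_exp N hN.ne').pow_sub_pow_eq_prod_sub_mul 1 u hN
  rw [one_pow] at this
  exact this.symm

lemma ker_pow (N : ℕ) (hN : 0 < N) (s : ℝ) (hs : 0 < s) (x y : ℂ) (hx : ‖x‖ ≤ 1)
    (hy : ‖y‖ ≤ 1) :
    ker s (x ^ N) (y ^ N) = ∑ ω ∈ nthRootsFinset N (1 : ℂ), ker (s / N) (ω * x) y := by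
  have hN' : (0 : ℝ) < N := by exact_mod_cast hN
  have hω : ∀ ω ∈ nthRootsFinset N (1 : ℂ), ‖ω‖ = 1 := by
    intro ω hω
    rw [mem_nthRootsFinset hN] at hω
    exact Complex.norm_eq_one_of_pow_eq_one hω hN.ne'
  have he : (Real.exp (-s) : ℂ) = (Real.exp (-(s / N)) : ℂ) ^ N := by
    rw [← Complex.ofReal_pow, ← Real.exp_nat_mul]
    congr 2
    field_simp
  have h1 : 1 - (Real.exp (-s) : ℂ) * (x ^ N * starRingEnd ℂ (y ^ N)) =
      ∏ ω ∈ nthRootsFinset N (1 : ℂ),
        (1 - (Real.exp (-(s / N)) : ℂ) * (ω * x * starRingEnd ℂ y)) := by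
    rw [map_pow, he, ← mul_pow, ← mul_pow, ← prod_one_sub N hN]
    exact Finset.prod_congr rfl fun ω _ => by ring
  unfold ker
  rw [h1, norm_prod, Real.log_prod, Finset.sum_neg_distrib]
  intro ω hω1
  apply norm_ne_zero_iff.mpr
  intro h
  have h2 : (Real.exp (-(s / N)) : ℂ) * (ω * x * starRingEnd ℂ y) = 1 := (sub_eq_zero.mp h).symm
  have h3 := congrArg norm h2
  rw [norm_one, norm_mul, norm_mul, norm_mul, hω ω hω1, RCLike.norm_conj, Complex.norm_real,
    Real.norm_of_nonneg (Real.exp_pos _).le] at h3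
  have h4 : Real.exp (-(s / N)) < 1 := by
    rw [Real.exp_lt_one_iff]
    have : 0 < s / N := by positivity
    linarith
  have h5 : 1 * ‖x‖ * ‖y‖ ≤ 1 := by
    rw [one_mul]
    exact mul_le_one₀ hx (norm_nonneg _) hy
  have h6 : Real.exp (-(s / N)) * (1 * ‖x‖ * ‖y‖) ≤ Real.exp (-(s / N)) * 1 := by
    gcongr
  linarith

/-- counting: the pairs `(i, ω)` with `ω α_i` a root -/
lemma sum_roots {n : ℕ} (f : ℤ[X]) (α : Fin n → ℂ) (hα : IsRoots f α)
    (hinj : Function.Injective α) (N r : ℕ) (hN : 0 < N)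
    (hr : ∀ i, ((nthRootsFinset N (1 : ℂ)).filter
      fun ω => aeval (ω * α i) f = 0).card = r) (g : ℂ → ℝ) :
    ∑ i, ∑ ω ∈ (nthRootsFinset N (1 : ℂ)).filter (fun ω => aeval (ω * α i) f = 0),
      g (ω * refl (α i)) = r * ∑ i, g (refl (α i)) := by
  have hω : ∀ ω ∈ nthRootsFinset N (1 : ℂ), ‖ω‖ = 1 := by
    intro ω hω
    rw [mem_nthRootsFinset hN] at hω
    exact Complex.norm_eq_one_of_pow_eq_one hω hN.ne'
  have hω0 : ∀ ω ∈ nthRootsFinset N (1 : ℂ), ω ≠ 0 := by
    intro ω hω1 h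
    have := hω ω hω1
    rw [h, norm_zero] at this
    exact zero_ne_one this
  have hroot : ∀ z : ℂ, aeval z f = 0 ↔ ∃ j, z = α j := by
    intro z
    rw [hα.aeval_eq, Finset.prod_eq_zero_iff]
    constructor
    · rintro ⟨j, _, hj⟩
      exact ⟨j, sub_eq_zero.mp hj⟩
    · rintro ⟨j, hj⟩
      exact ⟨j, Finset.mem_univ _, sub_eq_zero.mpr hj⟩
  have h1 : ∀ i, ∀ ω ∈ nthRootsFinset N (1 : ℂ),
      (if aeval (ω * α i) f = 0 then g (ω * refl (α i)) else 0) =
        ∑ j, if ω * α i = α j then g (refl (α j)) else 0 := by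
    intro i ω hω1
    by_cases h : aeval (ω * α i) f = 0
    · obtain ⟨j, hj⟩ := (hroot _).mp h
      rw [if_pos h, Finset.sum_eq_single j]
      · rw [if_pos hj, ← hj, refl_mul _ _ (hω ω hω1)]
      · intro j' _ hj'
        rw [if_neg]
        intro h2
        exact hj' (hinj (h2.symm.trans hj))
      · intro h2; exact absurd (Finset.mem_univ _) h2
    · rw [if_neg h]
      symm
      apply Finset.sum_eq_zero
      intro j _
      rw [if_neg]
      intro h2
      exact h ((hroot _).mpr ⟨j, h2⟩)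
  have h2 : ∀ j, ∀ ω ∈ nthRootsFinset N (1 : ℂ),
      (∑ i, if ω * α i = α j then g (refl (α j)) else 0) =
        if aeval (ω⁻¹ * α j) f = 0 then g (refl (α j)) else 0 := by
    intro j ω hω1
    have h0 := hω0 ω hω1
    by_cases h : aeval (ω⁻¹ * α j) f = 0
    · obtain ⟨i, hi⟩ := (hroot _).mp h
      have hi' : ω * α i = α j := by rw [← hi]; field_simp
      rw [if_pos h, Finset.sum_eq_single i]
      · rw [if_pos hi']
      · intro i' _ hi2
        rw [if_neg]
        intro h2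
        apply hi2
        apply hinj
        exact mul_left_cancel₀ h0 (h2.trans hi'.symm)
      · intro h2; exact absurd (Finset.mem_univ _) h2
    · rw [if_neg h]
      apply Finset.sum_eq_zero
      intro i _
      rw [if_neg]
      intro h2
      apply h
      rw [hroot]
      exact ⟨i, by rw [← h2]; field_simp⟩
  have h3 : ∀ j, ∑ ω ∈ nthRootsFinset N (1 : ℂ),
      (if aeval (ω⁻¹ * α j) f = 0 then g (refl (α j)) else 0) = r * g (refl (α j)) := by
    intro j
    rw [← Finset.sum_filter, Finset.sum_const, nsmul_eq_mul]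
    congr 2
    rw [← hr j]
    refine Finset.card_bij' (fun ω _ => ω⁻¹) (fun ω _ => ω⁻¹) ?_ ?_ (fun ω _ => inv_inv ω)
      (fun ω _ => inv_inv ω)
    · intro ω hω1
      rw [Finset.mem_filter, mem_nthRootsFinset hN] at hω1 ⊢
      exact ⟨by rw [inv_pow, hω1.1, inv_one], hω1.2⟩
    · intro ω hω1
      rw [Finset.mem_filter, mem_nthRootsFinset hN] at hω1 ⊢
      exact ⟨by rw [inv_pow, hω1.1, inv_one], by rw [inv_inv]; exact hω1.2⟩
  calc ∑ i, ∑ ω ∈ (nthRootsFinset N (1 : ℂ)).filter (fun ω => aeval (ω * α i) f = 0),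
        g (ω * refl (α i))
      = ∑ i, ∑ ω ∈ nthRootsFinset N (1 : ℂ), ∑ j,
          (if ω * α i = α j then g (refl (α j)) else 0) := by
        refine Finset.sum_congr rfl fun i _ => ?_
        rw [Finset.sum_filter]
        exact Finset.sum_congr rfl fun ω hω1 => h1 i ω hω1
    _ = ∑ j, ∑ ω ∈ nthRootsFinset N (1 : ℂ), ∑ i,
          (if ω * α i = α j then g (refl (α j)) else 0) := by
        rw [Finset.sum_comm]
        simp_rw [Finset.sum_comm (s := (Finset.univ : Finset (Fin n)))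
          (t := nthRootsFinset N (1 : ℂ))]
        refine Finset.sum_congr rfl fun ω _ => ?_
        rw [Finset.sum_comm]
    _ = ∑ j, r * g (refl (α j)) := by
        refine Finset.sum_congr rfl fun j _ => ?_
        rw [← h3 j]
        exact Finset.sum_congr rfl fun ω hω1 => h2 j ω hω1
    _ = _ := by rw [Finset.mul_sum]

theorem EE_diag_le (f : ℤ[X]) {n : ℕ} (α : Fin n → ℂ) (hα : IsRoots f α)
    (hinj : Function.Injective α) (h0 : ∀ i, α i ≠ 0) (N r : ℕ) (hN : 0 < N)
    (hr : ∀ i, ((nthRootsFinset N (1 : ℂ)).filter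
      fun ω => aeval (ω * α i) f = 0).card = r) (s : ℝ) (hs : 0 < s)
    (hprod : 1 ≤ ∏ i, ∏ ω ∈ (nthRootsFinset N (1 : ℂ)).filter
      (fun ω => aeval (ω * α i) f ≠ 0), ‖aeval (ω * α i) f‖) :
    EE (fun i => refl (α i)) s N N ≤
      r * EE (fun i => refl (α i)) (s / N) 1 1 + 2 * n * ((N : ℝ) - r) * hh α
        + (n : ℝ) ^ 2 * ((N : ℝ) - r) * (s / N) := by
  have hN' : (0 : ℝ) < N := by exact_mod_cast hN
  set w : Fin n → ℂ := fun i => refl (α i) with hw
  set μ := nthRootsFinset N (1 : ℂ) with hμ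
  set σ := s / N with hσ
  have hσ0 : 0 < σ := by positivity
  have hω : ∀ ω ∈ μ, ‖ω‖ = 1 := by
    intro ω hω
    rw [hμ, mem_nthRootsFinset hN] at hω
    exact Complex.norm_eq_one_of_pow_eq_one hω hN.ne'
  have hcard : μ.card = N := (Complex.isPrimitiveRoot_exp N hN.ne').card_nthRootsFinset
  set g : ℂ → ℝ := fun x => ∑ j, ker σ x (w j) with hg
  have h1 : EE w s N N = ∑ i, ∑ ω ∈ μ, g (ω * w i) := by
    unfold EE
    refine Finset.sum_congr rfl fun i _ => ?_
    rw [hg]
    simp only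
    rw [Finset.sum_comm]
    refine Finset.sum_congr rfl fun j _ => ?_
    exact ker_pow N hN s hs (w i) (w j) (norm_refl_le _) (norm_refl_le _)
  have h2 : ∀ i, ∑ ω ∈ μ, g (ω * w i) =
      ∑ ω ∈ μ.filter (fun ω => aeval (ω * α i) f = 0), g (ω * w i) +
      ∑ ω ∈ μ.filter (fun ω => aeval (ω * α i) f ≠ 0), g (ω * w i) := by
    intro i
    rw [Finset.sum_filter_add_sum_filter_not]
  have h3 : ∑ i, ∑ ω ∈ μ.filter (fun ω => aeval (ω * α i) f = 0), g (ω * w i) =
      r * EE w σ 1 1 := by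
    have := sum_roots f α hα hinj N r hN hr g
    have e : EE w σ 1 1 = ∑ i, g (refl (α i)) := by
      unfold EE
      refine Finset.sum_congr rfl fun i _ => ?_
      rw [hg]
      simp only [pow_one]
      rfl
    rw [e, ← this]
  -- the nonzero part
  have h4 : ∀ i, ∀ ω ∈ μ.filter (fun ω => aeval (ω * α i) f ≠ 0), g (ω * w i) ≤
      n * σ - Real.log ‖aeval (ω * α i) f‖ + n * Real.posLog ‖α i‖ + hh α := by
    intro i ω hω1
    rw [Finset.mem_filter] at hω1
    have hne : ∀ j, ω * α i ≠ α j := by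
      intro j h
      apply hω1.2
      rw [h]
      exact hα.aeval_root j
    have h5 : ∀ j, ker σ (ω * w i) (w j) ≤ σ - Real.log ‖ω * α i - α j‖ + Real.posLog ‖α i‖ +
        Real.posLog ‖α j‖ := by
      intro j
      have := ker_refl_le σ hσ0.le (ω * α i) (α j) (hne j)
      rw [refl_mul _ _ (hω ω hω1.1), norm_mul, hω ω hω1.1, one_mul] at this
      exact this
    have h6 : Real.log ‖aeval (ω * α i) f‖ = ∑ j, Real.log ‖ω * α i - α j‖ := by
      rw [hα.aeval_eq, norm_prod, Real.log_prod]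
      intro j _
      exact norm_ne_zero_iff.mpr (sub_ne_zero.mpr (hne j))
    calc g (ω * w i) ≤ ∑ j, (σ - Real.log ‖ω * α i - α j‖ + Real.posLog ‖α i‖ +
          Real.posLog ‖α j‖) := Finset.sum_le_sum fun j _ => h5 j
      _ = _ := by
        rw [h6, hh]
        simp only [Finset.sum_add_distrib, Finset.sum_sub_distrib, Finset.sum_const,
          Finset.card_univ, Fintype.card_fin, nsmul_eq_mul]
  have hcard2 : ∀ i, ((μ.filter (fun ω => aeval (ω * α i) f ≠ 0)).card : ℝ) = N - r := by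
    intro i
    have h5 := Finset.card_filter_add_card_filter_not (s := μ) (fun ω => aeval (ω * α i) f = 0)
    rw [hcard] at h5
    have h6 : (μ.filter (fun ω => aeval (ω * α i) f = 0)).card = r := hr i
    rw [h6] at h5
    have : (N : ℝ) = r + ((μ.filter (fun ω => aeval (ω * α i) f ≠ 0)).card : ℝ) := by
      exact_mod_cast h5.symm
    linarith
  have h5 : ∑ i, ∑ ω ∈ μ.filter (fun ω => aeval (ω * α i) f ≠ 0), g (ω * w i) ≤
      2 * n * ((N : ℝ) - r) * hh α + (n : ℝ) ^ 2 * ((N : ℝ) - r) * σ := by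
    have h6 : ∑ i, ∑ ω ∈ μ.filter (fun ω => aeval (ω * α i) f ≠ 0), g (ω * w i) ≤
        ∑ i, ∑ ω ∈ μ.filter (fun ω => aeval (ω * α i) f ≠ 0),
          (n * σ - Real.log ‖aeval (ω * α i) f‖ + n * Real.posLog ‖α i‖ + hh α) :=
      Finset.sum_le_sum fun i _ => Finset.sum_le_sum fun ω hω1 => h4 i ω hω1
    refine h6.trans ?_
    have h7 : 0 ≤ ∑ i, ∑ ω ∈ μ.filter (fun ω => aeval (ω * α i) f ≠ 0),
        Real.log ‖aeval (ω * α i) f‖ := by
      have h8 : Real.log (∏ i, ∏ ω ∈ μ.filter (fun ω => aeval (ω * α i) f ≠ 0),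
          ‖aeval (ω * α i) f‖) = ∑ i, ∑ ω ∈ μ.filter (fun ω => aeval (ω * α i) f ≠ 0),
          Real.log ‖aeval (ω * α i) f‖ := by
        rw [Real.log_prod]
        · refine Finset.sum_congr rfl fun i _ => ?_
          rw [Real.log_prod]
          intro ω hω1
          rw [Finset.mem_filter] at hω1
          exact norm_ne_zero_iff.mpr hω1.2
        · intro i _
          refine Finset.prod_ne_zero_iff.mpr fun ω hω1 => ?_
          rw [Finset.mem_filter] at hω1
          exact norm_ne_zero_iff.mpr hω1.2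
      rw [← h8]
      exact Real.log_nonneg hprod
    simp only [Finset.sum_add_distrib, Finset.sum_sub_distrib, Finset.sum_const, nsmul_eq_mul,
      hcard2, Finset.card_univ, Fintype.card_fin, ← Finset.mul_sum]
    have h9 : ∑ i, Real.posLog ‖α i‖ = hh α := rfl
    rw [h9]
    linarith
  rw [h1, Finset.sum_congr rfl fun i _ => h2 i, Finset.sum_add_distrib, h3]
  linarith

end Pool.Agent.Lib.MP_7ab245_nt.Len
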