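import Mathlib
import Pool.Agent.Lib.MP_7ab245_nt.Len.Energy

/-! The energy of `g(X ^ q)`. -/

set_option autoImplicit false

open Polynomial Finset

namespace Pool.Agent.Lib.MP_7ab245_nt.Len

lemma IsRoots.roots_eq {f : ℤ[X]} {n : ℕ} {α : Fin n → ℂ} (hα : IsRoots f α) :
    (f.map (Int.castRingHom ℂ)).roots = univ.val.map α := by
  rw [hα]
  have := Polynomial.roots_multiset_prod_X_sub_C (univ.val.map α)
  rw [Multiset.map_map] at this
  exact this

/-- sums over the roots -/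
lemma sum_roots_eq {f : ℤ[X]} {n : ℕ} {α : Fin n → ℂ} (hα : IsRoots f α) (F : ℂ → ℝ) :
    ∑ i, F (α i) = ((f.map (Int.castRingHom ℂ)).roots.map F).sum := by
  rw [hα.roots_eq, Multiset.map_map]
  rfl

/-- sums over the roots of `g(X ^ q)` -/
lemma sum_roots_expand {f g : ℤ[X]} {q : ℕ} (hq : 0 < q) (hfg : f = expand ℤ q g) {n m : ℕ}
    {α : Fin n → ℂ} {β : Fin m → ℂ} (hα : IsRoots f α) (hβ : IsRoots g β) (ρ : Fin m → ℂ)
    (hρ : ∀ j, ρ j ^ q = β j) (F : ℂ → ℝ) :
    ∑ i, F (α i) = ∑ j, ∑ ω ∈ nthRootsFinset q (1 : ℂ), F (ω * ρ j) := by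
  rw [sum_roots_eq hα]
  have h1 : f.map (Int.castRingHom ℂ) =
      ∏ j : Fin m, ∏ ω ∈ nthRootsFinset q (1 : ℂ), (X - C (ω * ρ j)) := by
    rw [hfg, map_expand, hβ, map_prod]
    refine Finset.prod_congr rfl fun j _ => ?_
    have h2 := (Complex.isPrimitiveRoot_exp q hq.ne').map_of_injective (C_injective (R := ℂ))
    rw [map_sub, expand_X, expand_C, ← hρ j, C_pow]
    have h3 := (Complex.isPrimitiveRoot_exp q hq.ne').pow_sub_pow_eq_prod_sub_mul
    have h4 := h2.pow_sub_pow_eq_prod_sub_mul X (C (ρ j)) hq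
    rw [h4]
    -- transport the set of roots of unity of ℂ[X]
    have h5 : nthRootsFinset q (1 : ℂ[X]) = (nthRootsFinset q (1 : ℂ)).image C := by
      ext y
      rw [mem_nthRootsFinset hq, Finset.mem_image]
      constructor
      · intro hy
        have h6 : y.natDegree = 0 := by
          have h7 := congrArg natDegree hy
          rw [natDegree_pow, natDegree_one] at h7
          rcases Nat.mul_eq_zero.mp h7 with h8 | h8
          · omega
          · exact h8
        obtain ⟨c, rfl⟩ := natDegree_eq_zero.mp h6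
        refine ⟨c, ?_, rfl⟩
        rw [mem_nthRootsFinset hq]
        rw [← C_pow] at hy
        exact C_injective (by rw [hy, C_1])
      · rintro ⟨c, hc, rfl⟩
        rw [mem_nthRootsFinset hq] at hc
        rw [← C_pow, hc, C_1]
    rw [h5, Finset.prod_image (fun a _ b _ hab => C_injective hab)]
    refine Finset.prod_congr rfl fun ω _ => ?_
    rw [C_mul]
  rw [h1]
  have h6 : ∏ j : Fin m, ∏ ω ∈ nthRootsFinset q (1 : ℂ), (X - C (ω * ρ j)) =
      ∏ x ∈ (univ : Finset (Fin m)) ×ˢ nthRootsFinset q (1 : ℂ), (X - C (x.2 * ρ x.1)) := by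
    rw [Finset.prod_product]
  rw [h6]
  have h7 := Polynomial.roots_multiset_prod_X_sub_C
    (((univ : Finset (Fin m)) ×ˢ nthRootsFinset q (1 : ℂ)).val.map fun x => x.2 * ρ x.1)
  rw [Multiset.map_map] at h7
  have h8 : (∏ x ∈ (univ : Finset (Fin m)) ×ˢ nthRootsFinset q (1 : ℂ),
      (X - C (x.2 * ρ x.1))).roots =
      ((univ : Finset (Fin m)) ×ˢ nthRootsFinset q (1 : ℂ)).val.map fun x => x.2 * ρ x.1 := h7
  rw [h8, Multiset.map_map]
  have h9 : (((univ : Finset (Fin m)) ×ˢ nthRootsFinset q (1 : ℂ)).val.map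
      (F ∘ fun x => x.2 * ρ x.1)).sum =
      ∑ x ∈ (univ : Finset (Fin m)) ×ˢ nthRootsFinset q (1 : ℂ), F (x.2 * ρ x.1) := rfl
  rw [h9, Finset.sum_product]

lemma ker_rot (s : ℝ) (ω η x y : ℂ) (hη : ‖η‖ = 1) :
    ker s (ω * x) (η * y) = ker s (η⁻¹ * ω * x) y := by
  unfold ker
  congr 3
  rw [map_mul]
  have h1 : starRingEnd ℂ η = η⁻¹ := by
    have h2 : η * starRingEnd ℂ η = 1 := by
      rw [Complex.mul_conj, Complex.normSq_eq_norm_sq, hη]; norm_num
    exact eq_inv_of_mul_eq_one_right h2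
  rw [h1]
  ring

/-- energies of `g(X ^ q)` -/
theorem EE_expand {f g : ℤ[X]} {q : ℕ} (hq : 0 < q) (hfg : f = expand ℤ q g) {n m : ℕ}
    {α : Fin n → ℂ} {β : Fin m → ℂ} (hα : IsRoots f α) (hβ : IsRoots g β) (s : ℝ) (hs : 0 < s) :
    EE (fun i => refl (α i)) s 1 1 = q * EE (fun i => refl (β i)) (s * q) 1 1 := by
  have hq' : (0 : ℝ) < q := by exact_mod_cast hq
  have hex : ∀ j, ∃ ρ : ℂ, ρ ^ q = β j := fun j => IsAlgClosed.exists_pow_nat_eq (β j) hq
  choose ρ hρ using hex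
  set μ := nthRootsFinset q (1 : ℂ) with hμ
  have hω : ∀ ω ∈ μ, ‖ω‖ = 1 := by
    intro ω hω
    rw [hμ, mem_nthRootsFinset hq] at hω
    exact Complex.norm_eq_one_of_pow_eq_one hω hq.ne'
  have hω0 : ∀ ω ∈ μ, ω ≠ 0 := by
    intro ω hω1 h
    have := hω ω hω1
    rw [h, norm_zero] at this
    exact zero_ne_one this
  have hcard : μ.card = q := (Complex.isPrimitiveRoot_exp q hq.ne').card_nthRootsFinset
  have h1 : EE (fun i => refl (α i)) s 1 1 =
      ∑ j, ∑ ω ∈ μ, ∑ l, ∑ η ∈ μ, ker s (ω * refl (ρ j)) (η * refl (ρ l)) := by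
    unfold EE
    simp only [pow_one]
    have h2 : ∀ x : ℂ, ∑ i, ker s x (refl (α i)) = ∑ l, ∑ η ∈ μ, ker s x (η * refl (ρ l)) := by
      intro x
      rw [sum_roots_expand hq hfg hα hβ ρ hρ (fun y => ker s x (refl y))]
      refine Finset.sum_congr rfl fun l _ => Finset.sum_congr rfl fun η hη => ?_
      rw [refl_mul _ _ (hω η hη)]
    simp_rw [h2]
    rw [sum_roots_expand hq hfg hα hβ ρ hρ
      (fun x => ∑ l, ∑ η ∈ μ, ker s (refl x) (η * refl (ρ l)))]
    refine Finset.sum_congr rfl fun j _ => Finset.sum_congr rfl fun ω hω1 => ?_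
    rw [refl_mul _ _ (hω ω hω1)]
  rw [h1]
  have h3 : ∀ j l, ∑ ω ∈ μ, ∑ η ∈ μ, ker s (ω * refl (ρ j)) (η * refl (ρ l)) =
      q * ker (s * q) (refl (β j)) (refl (β l)) := by
    intro j l
    rw [Finset.sum_comm]
    have h4 : ∀ η ∈ μ, ∑ ω ∈ μ, ker s (ω * refl (ρ j)) (η * refl (ρ l)) =
        ker (s * q) (refl (β j)) (refl (β l)) := by
      intro η hη
      have h5 : ∀ ω ∈ μ, ker s (ω * refl (ρ j)) (η * refl (ρ l)) =
          ker s (η⁻¹ * ω * refl (ρ j)) (refl (ρ l)) := fun ω _ => ker_rot s ω η _ _ (hω η hη)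
      rw [Finset.sum_congr rfl h5]
      have h6 : ∑ ω ∈ μ, ker s (η⁻¹ * ω * refl (ρ j)) (refl (ρ l)) =
          ∑ ω ∈ μ, ker s (ω * refl (ρ j)) (refl (ρ l)) := by
        refine Finset.sum_bij' (fun ω _ => η⁻¹ * ω) (fun ω _ => η * ω) ?_ ?_ ?_ ?_ ?_
        · intro ω hω1
          rw [hμ, mem_nthRootsFinset hq] at hω1 hη ⊢
          rw [mul_pow, inv_pow, hη, hω1, inv_one, one_mul]
        · intro ω hω1
          rw [hμ, mem_nthRootsFinset hq] at hω1 hη ⊢
          rw [mul_pow, hη, hω1, one_mul]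
        · intro ω _
          have := hω0 η hη
          field_simp
        · intro ω _
          have := hω0 η hη
          field_simp
        · intro ω _; rfl
      rw [h6]
      have h7 := ker_pow q hq (s * q) (by positivity) (refl (ρ j)) (refl (ρ l))
        (norm_refl_le _) (norm_refl_le _)
      rw [← refl_pow, ← refl_pow, hρ, hρ, mul_div_assoc, div_self hq'.ne', mul_one] at h7
      exact h7.symm
    rw [Finset.sum_congr rfl h4, Finset.sum_const, hcard, nsmul_eq_mul]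
  unfold EE
  simp only [pow_one]
  rw [Finset.mul_sum]
  refine Finset.sum_congr rfl fun j _ => ?_
  rw [Finset.mul_sum, Finset.sum_comm]
  refine Finset.sum_congr rfl fun l _ => ?_
  rw [← h3 j l]

lemma natDegree_expand_eq {f g : ℤ[X]} {q : ℕ} (hfg : f = expand ℤ q g) {n m : ℕ}
    {α : Fin n → ℂ} {β : Fin m → ℂ} (hα : IsRoots f α) (hβ : IsRoots g β) : n = m * q := by
  rw [← hα.natDegree_eq, ← hβ.natDegree_eq, hfg, natDegree_expand]

end Pool.Agent.Lib.MP_7ab245_nt.Len
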