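import Mathlib
import Pool.Agent.Lib.MP_7ab245_nt.Len.Expand

/-! The energy of a polynomial and its discriminant. -/

set_option autoImplicit false

open Polynomial Finset

namespace Pool.Agent.Lib.MP_7ab245_nt.Len

/-- `|disc f| = ∏_{i ≠ j} |α_i - α_j|` -/
lemma abs_discr_eq {f : ℤ[X]} {n : ℕ} {α : Fin n → ℂ} (hα : IsRoots f α) (hn : 0 < n) :
    |(f.discr : ℝ)| = ∏ i, ∏ j ∈ univ.erase i, ‖α i - α j‖ := by
  have hm : f.Monic := hα.monic
  have hdeg : f.natDegree = n := hα.natDegree_eq
  set F := f.map (Int.castRingHom ℂ) with hF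
  have hFm : F.Monic := hm.map _
  have hFd : F.natDegree = n := by rw [hF, hm.natDegree_map, hdeg]
  have hpos : 0 < f.degree := by
    rw [← natDegree_pos_iff_degree_pos, hdeg]; exact hn
  have h1 := resultant_deriv hpos
  rw [hm.leadingCoeff, mul_one] at h1
  have h2 := congrArg (Int.castRingHom ℂ) h1
  rw [← resultant_map_map, map_mul] at h2
  have h3 : ‖(Int.castRingHom ℂ) f.discr‖ = ‖resultant F (f.derivative.map (Int.castRingHom ℂ))
      f.natDegree (f.natDegree - 1)‖ := by
    rw [hF, h2, norm_mul, map_pow, map_neg, map_one, norm_pow, norm_neg, norm_one, one_pow,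
      one_mul]
  have h4 : ‖(Int.castRingHom ℂ) f.discr‖ = |(f.discr : ℝ)| := by
    rw [eq_intCast, Complex.norm_intCast]
  have h5 : f.derivative.map (Int.castRingHom ℂ) = F.derivative := by
    rw [hF, derivative_map]
  have h6 : resultant F F.derivative n (n - 1) = ∏ i, F.derivative.eval (α i) := by
    have h7 := resultant_eq_prod_eval F F.derivative (n - 1)
      ((natDegree_derivative_le F).trans (by rw [hFd])) (IsAlgClosed.splits F)
    rw [hFm.leadingCoeff, one_pow, one_mul, hFd, hα.roots_eq, Multiset.map_map] at h7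
    rw [h7]
    rfl
  have h8 : ∀ i, F.derivative.eval (α i) = ∏ j ∈ univ.erase i, (α i - α j) := by
    intro i
    have h9 : F = ∏ j, (X - C (α j)) := hα
    rw [h9, derivative_prod_finset]
    simp only [derivative_sub, derivative_X, derivative_C, sub_zero, mul_one]
    rw [eval_finsetSum, Finset.sum_eq_single i]
    · rw [eval_prod]
      simp
    · intro k _ hk
      rw [eval_prod]
      apply Finset.prod_eq_zero (Finset.mem_erase.mpr ⟨hk.symm, Finset.mem_univ i⟩)
      simp
    · intro h; exact absurd (Finset.mem_univ i) h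
  rw [← h4, h3, h5, hdeg, h6, norm_prod]
  refine Finset.prod_congr rfl fun i _ => ?_
  rw [h8, norm_prod]

lemma ker_self_le (s : ℝ) (hs : 0 < s) (hs1 : s ≤ 1) (x : ℂ) (hx : ‖x‖ ≤ 1) :
    ker s x x ≤ Real.log (2 / s) := by
  unfold ker
  rw [Complex.mul_conj, Complex.normSq_eq_norm_sq, ← Complex.ofReal_mul, ← Complex.ofReal_one,
    ← Complex.ofReal_sub, Complex.norm_real]
  have h1 : Real.exp (-s) ≤ 1 - s / 2 := by
    have h3 : Real.exp (-s) ≤ 1 - s + s ^ 2 / 2 := by
      have h4 : 1 + s + s ^ 2 / 2 ≤ Real.exp s := Real.quadratic_le_exp_of_nonneg hs.le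
      rw [Real.exp_neg]
      rw [inv_le_comm₀ (Real.exp_pos _) (by nlinarith)]
      refine le_trans ?_ h4
      rw [inv_le_iff_one_le_mul₀ (by nlinarith)]
      nlinarith [sq_nonneg s, mul_nonneg hs.le (sq_nonneg s), sq_nonneg (s^2)]
    nlinarith
  have h2 : Real.exp (-s) * ‖x‖ ^ 2 ≤ 1 - s / 2 := by
    have : ‖x‖ ^ 2 ≤ 1 := pow_le_one₀ (norm_nonneg _) hx
    calc Real.exp (-s) * ‖x‖ ^ 2 ≤ Real.exp (-s) * 1 := by gcongr
      _ ≤ _ := by linarith
  have h3 : s / 2 ≤ ‖1 - Real.exp (-s) * ‖x‖ ^ 2‖ := by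
    rw [Real.norm_of_nonneg (by linarith)]
    linarith
  have h4 := Real.log_le_log (by positivity) h3
  have h5 : Real.log (2 / s) = -Real.log (s / 2) := by
    rw [← Real.log_inv, inv_div]
  rw [h5]
  linarith

/-- energy bound from the discriminant -/
theorem EE_le_disc {f : ℤ[X]} {n : ℕ} {α : Fin n → ℂ} (hα : IsRoots f α) (hn : 0 < n)
    (hinj : Function.Injective α) (hh1 : hh α ≤ 1) (B : ℝ) (hB : 1 ≤ B) :
    EE (fun i => refl (α i)) (1 / (n * B)) 1 1 ≤
      n * (Real.log (n / |(f.discr : ℝ)| ^ (1 / (n : ℝ))) + Real.log B + 4) := by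
  have hn' : (1 : ℝ) ≤ n := by exact_mod_cast hn
  have hB0 : 0 < B := by linarith
  set s : ℝ := 1 / (n * B) with hs
  have hs0 : 0 < s := by positivity
  have hs1 : s ≤ 1 := by
    rw [hs, div_le_one (by positivity)]
    nlinarith
  have hh0 : 0 ≤ hh α := Finset.sum_nonneg fun i _ => Real.posLog_nonneg
  have hne : ∀ i, ∀ j ∈ univ.erase i, α i ≠ α j := by
    intro i j hj h
    exact (Finset.mem_erase.mp hj).1 (hinj h).symm
  have h1 : EE (fun i => refl (α i)) s 1 1 = ∑ i, (ker s (refl (α i)) (refl (α i)) +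
      ∑ j ∈ univ.erase i, ker s (refl (α i)) (refl (α j))) := by
    unfold EE
    simp only [pow_one]
    refine Finset.sum_congr rfl fun i _ => ?_
    rw [Finset.add_sum_erase _ (fun j => ker s (refl (α i)) (refl (α j))) (Finset.mem_univ i)]
  have h2 : ∀ i, ∑ j ∈ univ.erase i, ker s (refl (α i)) (refl (α j)) ≤
      ∑ j ∈ univ.erase i, (s + Real.posLog ‖α i‖ + Real.posLog ‖α j‖) -
        ∑ j ∈ univ.erase i, Real.log ‖α i - α j‖ := by
    intro i
    rw [← Finset.sum_sub_distrib]
    apply Finset.sum_le_sum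
    intro j hj
    have := ker_refl_le s hs0.le (α i) (α j) (hne i j hj)
    linarith
  have h3 : ∀ i, ∑ j ∈ univ.erase i, (s + Real.posLog ‖α i‖ + Real.posLog ‖α j‖) ≤
      n * s + n * Real.posLog ‖α i‖ + hh α := by
    intro i
    calc ∑ j ∈ univ.erase i, (s + Real.posLog ‖α i‖ + Real.posLog ‖α j‖)
        ≤ ∑ j, (s + Real.posLog ‖α i‖ + Real.posLog ‖α j‖) := by
          apply Finset.sum_le_sum_of_subset_of_nonneg (Finset.erase_subset _ _)
          intro j _ _
          have h4 : 0 ≤ Real.posLog ‖α i‖ := Real.posLog_nonneg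
          have h5 : 0 ≤ Real.posLog ‖α j‖ := Real.posLog_nonneg
          linarith
      _ = _ := by
          rw [hh]
          simp only [Finset.sum_add_distrib, Finset.sum_const, Finset.card_univ,
            Fintype.card_fin, nsmul_eq_mul]
  have hlogdisc : Real.log |(f.discr : ℝ)| = ∑ i, ∑ j ∈ univ.erase i, Real.log ‖α i - α j‖ := by
    rw [abs_discr_eq hα hn, Real.log_prod]
    · refine Finset.sum_congr rfl fun i _ => ?_
      rw [Real.log_prod]
      intro j hj
      exact norm_ne_zero_iff.mpr (sub_ne_zero.mpr (hne i j hj))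
    · intro i _
      exact Finset.prod_ne_zero_iff.mpr fun j hj =>
        norm_ne_zero_iff.mpr (sub_ne_zero.mpr (hne i j hj))
  have hdisc0 : 0 < |(f.discr : ℝ)| := by
    rw [abs_discr_eq hα hn]
    exact Finset.prod_pos fun i _ => Finset.prod_pos fun j hj =>
      norm_pos_iff.mpr (sub_ne_zero.mpr (hne i j hj))
  have h4 : EE (fun i => refl (α i)) s 1 1 ≤ n * Real.log (2 / s) + n * (n * s) + 2 * n * hh α -
      Real.log |(f.discr : ℝ)| := by
    rw [h1, hlogdisc]
    have h5 : ∀ i, ker s (refl (α i)) (refl (α i)) +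
        ∑ j ∈ univ.erase i, ker s (refl (α i)) (refl (α j)) ≤
        Real.log (2 / s) + (n * s + n * Real.posLog ‖α i‖ + hh α) -
          ∑ j ∈ univ.erase i, Real.log ‖α i - α j‖ := by
      intro i
      have := ker_self_le s hs0 hs1 (refl (α i)) (norm_refl_le _)
      have := h2 i
      have := h3 i
      linarith
    refine (Finset.sum_le_sum fun i _ => h5 i).trans_eq ?_
    simp only [Finset.sum_add_distrib, Finset.sum_sub_distrib, Finset.sum_const,
      Finset.card_univ, Fintype.card_fin, nsmul_eq_mul, ← Finset.mul_sum]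
    have h9 : ∑ i, Real.posLog ‖α i‖ = hh α := rfl
    rw [h9]
    ring
  refine h4.trans ?_
  have h5 : Real.log (2 / s) = Real.log 2 + Real.log n + Real.log B := by
    rw [hs, div_div_eq_mul_div, div_one, Real.log_mul (by norm_num) (by positivity),
      Real.log_mul (by positivity) (by positivity)]
    ring
  have h6 : Real.log (n / |(f.discr : ℝ)| ^ (1 / (n : ℝ))) =
      Real.log n - 1 / n * Real.log |(f.discr : ℝ)| := by
    rw [Real.log_div (by positivity) (by positivity), Real.log_rpow hdisc0]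
  have h7 : (n : ℝ) * s ≤ 1 := by
    have : (n : ℝ) * s = 1 / B := by
      rw [hs]; field_simp
    rw [this, div_le_one hB0]; exact hB
  have h8 : Real.log 2 ≤ 1 := by
    have := Real.log_two_lt_d9
    linarith
  rw [h5, h6]
  have h9 : (n : ℝ) * (Real.log n - 1 / n * Real.log |(f.discr : ℝ)| + Real.log B + 4) =
      n * (Real.log n + Real.log B + 4) - Real.log |(f.discr : ℝ)| := by
    field_simp
    ring
  rw [h9]
  nlinarith

end Pool.Agent.Lib.MP_7ab245_nt.Len
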