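import Pool.Agent.Lib.MP_7ab245_nt.Len.Defs

/-! Positivity of the regularised energies. -/

set_option autoImplicit false

open Polynomial Finset

namespace Pool.Agent.Lib.MP_7ab245_nt.Len

/-- power sums -/
private noncomputable def pw {n : ℕ} (w : Fin n → ℂ) (m : ℕ) : ℂ := ∑ i, w i ^ m

private theorem hasSum_ker (s : ℝ) (hs : 0 < s) (x y : ℂ) (hx : ‖x‖ ≤ 1) (hy : ‖y‖ ≤ 1) :
    HasSum (fun l : ℕ => Real.exp (-s * l) / l * ((x * starRingEnd ℂ y) ^ l).re)
      (ker s x y) := by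
  set z : ℂ := (Real.exp (-s) : ℂ) * (x * starRingEnd ℂ y) with hz
  have hz1 : ‖z‖ < 1 := by
    rw [hz, norm_mul, norm_mul, Complex.norm_real, RCLike.norm_conj, Real.norm_eq_abs,
      abs_of_pos (Real.exp_pos _)]
    have h1 : ‖x‖ * ‖y‖ ≤ 1 := mul_le_one₀ hx (norm_nonneg _) hy
    have h2 : Real.exp (-s) < 1 := by
      rw [Real.exp_lt_one_iff]
      linarith
    calc Real.exp (-s) * (‖x‖ * ‖y‖) ≤ Real.exp (-s) * 1 :=
          mul_le_mul_of_nonneg_left h1 (Real.exp_pos _).le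
      _ < 1 := by linarith
  have h' := Complex.hasSum_re (Complex.hasSum_taylorSeries_neg_log hz1)
  have e1 : (-Complex.log (1 - z)).re = ker s x y := by
    rw [Complex.neg_re, Complex.log_re, ker]
  rw [e1] at h'
  have e2 : (fun l : ℕ => (z ^ l / (l : ℂ)).re) =
      fun l : ℕ => Real.exp (-s * l) / l * ((x * starRingEnd ℂ y) ^ l).re := by
    funext l
    have e3 : z ^ l / (l : ℂ) =
        ((Real.exp (-s * l) / l : ℝ) : ℂ) * (x * starRingEnd ℂ y) ^ l := by
      rw [hz, mul_pow, mul_comm (-s) (l : ℝ), Real.exp_nat_mul]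
      push_cast
      ring
    rw [e3, Complex.re_ofReal_mul]
  rwa [e2] at h'

/-- the general term -/
private noncomputable def tm {n : ℕ} (w : Fin n → ℂ) (s : ℝ) (a b l : ℕ) : ℝ :=
  Real.exp (-s * l) / l * (pw w (a * l) * starRingEnd ℂ (pw w (b * l))).re

private theorem hasSum_EE {n : ℕ} (w : Fin n → ℂ) (hw : ∀ i, ‖w i‖ ≤ 1) (s : ℝ) (hs : 0 < s)
    (a b : ℕ) : HasSum (tm w s a b) (EE w s a b) := by
  have hn : ∀ i (m : ℕ), ‖w i ^ m‖ ≤ 1 := fun i m => by
    rw [norm_pow]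
    exact pow_le_one₀ (norm_nonneg _) (hw i)
  have h : HasSum (fun l : ℕ => ∑ i, ∑ j,
      Real.exp (-s * l) / l * ((w i ^ a * starRingEnd ℂ (w j ^ b)) ^ l).re) (EE w s a b) :=
    hasSum_sum fun i _ => hasSum_sum fun j _ => hasSum_ker s hs _ _ (hn i a) (hn j b)
  have e : (fun l : ℕ => ∑ i, ∑ j,
      Real.exp (-s * l) / l * ((w i ^ a * starRingEnd ℂ (w j ^ b)) ^ l).re) = tm w s a b := by
    funext l
    rw [tm, pw, pw, map_sum, Finset.sum_mul_sum, Complex.re_sum, Finset.mul_sum]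
    refine Finset.sum_congr rfl fun i _ => ?_
    rw [Complex.re_sum, Finset.mul_sum]
    refine Finset.sum_congr rfl fun j _ => ?_
    rw [mul_pow, ← pow_mul, ← map_pow, ← pow_mul]
  rwa [e] at h

private theorem hasSum_dvd {n : ℕ} (w : Fin n → ℂ) (hw : ∀ i, ‖w i‖ ≤ 1) (s : ℝ) (hs : 0 < s)
    (a b c : ℕ) (hc : 0 < c) :
    HasSum (fun l => if c ∣ l then tm w s a b l else 0)
      ((1 / (c : ℝ)) * EE w (s * c) (a * c) (b * c)) := by
  have hc' : (0 : ℝ) < c := by exact_mod_cast hc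
  have h := (hasSum_EE w hw (s * c) (by positivity) (a * c) (b * c)).mul_left (1 / (c : ℝ))
  have hinj : Function.Injective (fun m : ℕ => c * m) := fun x y hxy =>
    Nat.eq_of_mul_eq_mul_left hc hxy
  rw [← hinj.hasSum_iff]
  · have e : (fun m : ℕ => 1 / (c : ℝ) * tm w (s * c) (a * c) (b * c) m) =
        (fun l => if c ∣ l then tm w s a b l else 0) ∘ (fun m : ℕ => c * m) := by
      funext m
      rw [Function.comp_apply, if_pos (Dvd.intro m rfl), tm, tm, mul_assoc a c m,
        mul_assoc b c m]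
      push_cast
      rw [show -(s * (c : ℝ)) * (m : ℝ) = -s * ((c : ℝ) * m) by ring, ← mul_assoc]
      congr 1
      rcases Nat.eq_zero_or_pos m with rfl | hm
      · simp
      · have hm' : (0 : ℝ) < m := by exact_mod_cast hm
        field_simp
    rwa [← e]
  · intro l hl
    rw [if_neg]
    rintro ⟨m, rfl⟩
    exact hl ⟨m, rfl⟩

theorem EE_self_nonneg {n : ℕ} (w : Fin n → ℂ) (hw : ∀ i, ‖w i‖ ≤ 1) (s : ℝ) (hs : 0 < s)
    (a : ℕ) : 0 ≤ EE w s a a := by
  refine (hasSum_EE w hw s hs a a).nonneg fun l => ?_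
  rw [tm, Complex.mul_conj, Complex.ofReal_re]
  exact mul_nonneg (div_nonneg (Real.exp_pos _).le (Nat.cast_nonneg _)) (Complex.normSq_nonneg _)

theorem psd_main {n : ℕ} (w : Fin n → ℂ) (hw : ∀ i, ‖w i‖ ≤ 1) (s : ℝ) (hs : 0 < s)
    (P : Finset ℕ) (c : ℕ → ℕ) (hc : ∀ q ∈ P, 0 < c q) (hP : ∀ q ∈ P, 0 < q)
    (hcop : ∀ p ∈ P, ∀ q ∈ P, p ≠ q → (c p).Coprime (c q)) (a : ℝ) :
    0 ≤ EE w s 1 1 + 2 * a * ∑ q ∈ P, (1 / (c q : ℝ)) * EE w (s * c q) (c q) (q * c q)
      + a ^ 2 * (∑ q ∈ P, (1 / (c q : ℝ)) * EE w (s * c q) (q * c q) (q * c q)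
        + ∑ p ∈ P, ∑ q ∈ P.erase p, (1 / ((c p : ℝ) * c q)) *
            EE w (s * (c p * c q)) (p * (c p * c q)) (q * (c p * c q))) := by
  have h1 := hasSum_EE w hw s hs 1 1
  have h2 : HasSum (fun l => 2 * a * ∑ q ∈ P, if c q ∣ l then tm w s 1 q l else 0)
      (2 * a * ∑ q ∈ P, (1 / (c q : ℝ)) * EE w (s * c q) (c q) (q * c q)) := by
    refine HasSum.mul_left _ (hasSum_sum fun q hq => ?_)
    have := hasSum_dvd w hw s hs 1 q (c q) (hc q hq)
    rwa [one_mul] at this
  have h3 : HasSum (fun l => ∑ q ∈ P, if c q ∣ l then tm w s q q l else 0)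
      (∑ q ∈ P, (1 / (c q : ℝ)) * EE w (s * c q) (q * c q) (q * c q)) :=
    hasSum_sum fun q hq => hasSum_dvd w hw s hs q q (c q) (hc q hq)
  have h4 : HasSum (fun l => ∑ p ∈ P, ∑ q ∈ P.erase p,
        if c p * c q ∣ l then tm w s p q l else 0)
      (∑ p ∈ P, ∑ q ∈ P.erase p, (1 / ((c p : ℝ) * c q)) *
            EE w (s * (c p * c q)) (p * (c p * c q)) (q * (c p * c q))) := by
    refine hasSum_sum fun p hp => hasSum_sum fun q hq => ?_
    have := hasSum_dvd w hw s hs p q (c p * c q)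
      (Nat.mul_pos (hc p hp) (hc q (Finset.mem_of_mem_erase hq)))
    push_cast at this
    exact this
  refine ((h1.add h2).add ((h3.add h4).mul_left (a ^ 2))).nonneg fun l => ?_
  -- the square
  set T : ℕ → ℂ := fun q => if c q ∣ l then pw w (q * l) else 0 with hT
  have key : Real.exp (-s * l) / l * Complex.normSq (pw w l + (a : ℂ) * ∑ q ∈ P, T q) =
      tm w s 1 1 l + 2 * a * (∑ q ∈ P, if c q ∣ l then tm w s 1 q l else 0) +
      a ^ 2 * ((∑ q ∈ P, if c q ∣ l then tm w s q q l else 0) +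
        ∑ p ∈ P, ∑ q ∈ P.erase p, if c p * c q ∣ l then tm w s p q l else 0) := by
    have t11 : tm w s 1 1 l = Real.exp (-s * l) / l * Complex.normSq (pw w l) := by
      rw [tm, one_mul, Complex.mul_conj, Complex.ofReal_re]
    have t1q : ∀ q ∈ P, (if c q ∣ l then tm w s 1 q l else 0) =
        Real.exp (-s * l) / l * (pw w l * starRingEnd ℂ (T q)).re := by
      intro q _
      by_cases h : c q ∣ l
      · simp only [hT, h, if_true, tm, one_mul]
      · simp only [hT, h, if_false, map_zero, mul_zero, Complex.zero_re]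
    have tqq : ∀ q ∈ P, (if c q ∣ l then tm w s q q l else 0) =
        Real.exp (-s * l) / l * (T q * starRingEnd ℂ (T q)).re := by
      intro q _
      by_cases h : c q ∣ l
      · simp only [hT, h, if_true, tm]
      · simp only [hT, h, if_false, map_zero, mul_zero, Complex.zero_re]
    have tpq : ∀ p ∈ P, ∀ q ∈ P.erase p, (if c p * c q ∣ l then tm w s p q l else 0) =
        Real.exp (-s * l) / l * (T p * starRingEnd ℂ (T q)).re := by
      intro p hp q hq
      have hne : p ≠ q := (Finset.ne_of_mem_erase hq).symm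
      have hco : (c p).Coprime (c q) := hcop p hp q (Finset.mem_of_mem_erase hq) hne
      by_cases h : c p * c q ∣ l
      · have h1 : c p ∣ l := (Dvd.intro _ rfl).trans h
        have h2 : c q ∣ l := (Dvd.intro_left _ rfl).trans h
        simp only [hT, h, h1, h2, if_true, tm]
      · by_cases h1 : c p ∣ l
        · by_cases h2 : c q ∣ l
          · exact absurd (hco.mul_dvd_of_dvd_of_dvd h1 h2) h
          · simp only [hT, h, h2, if_false, map_zero, mul_zero, Complex.zero_re]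
        · simp only [hT, h, h1, if_false, zero_mul, Complex.zero_re, mul_zero]
    have hsplit : ∀ p ∈ P, (∑ q ∈ P, (T p * starRingEnd ℂ (T q)).re) =
        (T p * starRingEnd ℂ (T p)).re + ∑ q ∈ P.erase p, (T p * starRingEnd ℂ (T q)).re :=
      fun p hp => (Finset.add_sum_erase P _ hp).symm
    have hnorm : Complex.normSq (pw w l + (a : ℂ) * ∑ q ∈ P, T q) =
        Complex.normSq (pw w l) + 2 * a * (∑ q ∈ P, (pw w l * starRingEnd ℂ (T q)).re) +
        a ^ 2 * ∑ p ∈ P, ∑ q ∈ P, (T p * starRingEnd ℂ (T q)).re := by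
      rw [Complex.normSq_add, map_mul, Complex.normSq_ofReal]
      have e1 : (pw w l * starRingEnd ℂ ((a : ℂ) * ∑ q ∈ P, T q)).re =
          a * ∑ q ∈ P, (pw w l * starRingEnd ℂ (T q)).re := by
        rw [map_mul, Complex.conj_ofReal, map_sum, mul_left_comm, Complex.re_ofReal_mul,
          Finset.mul_sum, Complex.re_sum]
      have e2 : Complex.normSq (∑ q ∈ P, T q) =
          ∑ p ∈ P, ∑ q ∈ P, (T p * starRingEnd ℂ (T q)).re := by
        have : ((Complex.normSq (∑ q ∈ P, T q) : ℝ) : ℂ).re =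
            ∑ p ∈ P, ∑ q ∈ P, (T p * starRingEnd ℂ (T q)).re := by
          rw [← Complex.mul_conj, map_sum, Finset.sum_mul_sum, Complex.re_sum]
          exact Finset.sum_congr rfl fun p _ => Complex.re_sum _ _
        rwa [Complex.ofReal_re] at this
      rw [e1, e2]
      ring
    rw [hnorm, t11, Finset.sum_congr rfl t1q, Finset.sum_congr rfl tqq,
      Finset.sum_congr rfl fun p hp => Finset.sum_congr rfl (tpq p hp),
      Finset.sum_congr rfl hsplit, Finset.sum_add_distrib]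
    simp only [← Finset.mul_sum]
    ring
  rw [← key]
  exact mul_nonneg (div_nonneg (Real.exp_pos _).le (Nat.cast_nonneg _)) (Complex.normSq_nonneg _)

end Pool.Agent.Lib.MP_7ab245_nt.Len
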