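import Mathlib
import Pool.Agent.Lib.MP_7ab245_nt.Len.Defs

/-! Further definitions: mixed energies and sums over cyclotomic roots. -/

set_option autoImplicit false

open Polynomial Finset

namespace Pool.Agent.Lib.MP_7ab245_nt.Len

/-- mutual energy of the `a`-th powers of `x` and the `b`-th powers of `y` -/
noncomputable def XX {m n : ℕ} (x : Fin m → ℂ) (y : Fin n → ℂ) (s : ℝ) (a b : ℕ) : ℝ :=
  ∑ i, ∑ j, ker s (x i ^ a) (y j ^ b)

/-- sum over the roots of the product of the cyclotomic polynomials with indices in `S` -/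
noncomputable def cyc (S : Multiset ℕ) (H : ℂ → ℝ) : ℝ :=
  (S.map fun j => ∑ ζ ∈ primitiveRoots j ℂ, H ζ).sum

/-- number of these roots -/
def cycdeg (S : Multiset ℕ) : ℕ := (S.map Nat.totient).sum

end Pool.Agent.Lib.MP_7ab245_nt.Len
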