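import Pool.Agent.Lib.MP_7ab245_nt.Len.Defs

/-! Radial calculus for the potential. -/

set_option autoImplicit false

open Polynomial Finset

namespace Pool.Agent.Lib.MP_7ab245_nt.Len

private noncomputable def pA (ρ s : ℝ) : ℝ := Real.exp s - ρ ^ 2 * Real.exp (-s)

private noncomputable def pB (ρ s : ℝ) : ℝ := Real.exp s + ρ ^ 2 * Real.exp (-s)

private lemma pA_deriv (ρ s : ℝ) : HasDerivAt (pA ρ) (pB ρ s) s := by
  have h1 : HasDerivAt (fun s : ℝ => Real.exp (-s)) (-Real.exp (-s)) s := by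
    have := (hasDerivAt_neg s).exp
    simpa using this
  have h2 := (Real.hasDerivAt_exp s).sub (h1.const_mul (ρ ^ 2))
  have h3 : Real.exp s - ρ ^ 2 * -Real.exp (-s) = pB ρ s := by
    unfold pB
    ring
  rw [h3] at h2
  exact h2

private lemma pB_deriv (ρ s : ℝ) : HasDerivAt (pB ρ) (pA ρ s) s := by
  have h1 : HasDerivAt (fun s : ℝ => Real.exp (-s)) (-Real.exp (-s)) s := by
    have := (hasDerivAt_neg s).exp
    simpa using this
  have h2 := (Real.hasDerivAt_exp s).add (h1.const_mul (ρ ^ 2))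
  have h3 : Real.exp s + ρ ^ 2 * -Real.exp (-s) = pA ρ s := by
    unfold pA
    ring
  rw [h3] at h2
  exact h2

private lemma pB_sub_pos {ρ x s : ℝ} (_ : 0 ≤ ρ) (h1 : ρ ≤ 1) (hx : x ≤ ρ) (hs : 0 < s) :
    0 < pB ρ s - 2 * x := by
  have hE : 1 < Real.exp s := Real.one_lt_exp_iff.mpr hs
  have h2 : pB ρ s - 2 * ρ = (Real.exp s - ρ) ^ 2 / Real.exp s := by
    unfold pB
    rw [Real.exp_neg]
    field_simp
    ring
  have h3 : 0 < (Real.exp s - ρ) ^ 2 / Real.exp s := by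
    have : 0 < Real.exp s - ρ := by linarith
    positivity
  linarith

private lemma pA_ge {ρ s : ℝ} (h0 : 0 ≤ ρ) (h1 : ρ ≤ 1) (hs : 0 ≤ s) : 2 * ρ * s ≤ pA ρ s := by
  have h2 : 2 * s ≤ Real.exp s - Real.exp (-s) := by
    have := Real.self_le_sinh_iff.mpr hs
    rw [Real.sinh_eq] at this
    linarith
  have h3 : 0 ≤ (1 - ρ ^ 2) * Real.exp (-s) := by
    have : 0 ≤ 1 - ρ ^ 2 := by nlinarith
    positivity
  unfold pA
  nlinarith [mul_nonneg (sub_nonneg.mpr h1) hs]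

private lemma pA_nonneg {ρ s : ℝ} (h0 : 0 ≤ ρ) (h1 : ρ ≤ 1) (hs : 0 ≤ s) : 0 ≤ pA ρ s :=
  le_trans (by positivity) (pA_ge h0 h1 hs)

private lemma pB_pos {ρ s : ℝ} : 0 < pB ρ s := by
  unfold pB
  positivity

private lemma pK_mono {ρ x s t : ℝ} (h0 : 0 ≤ ρ) (h1 : ρ ≤ 1) (hx : x ≤ ρ) (hs : 0 < s)
    (hst : s ≤ t) :
    s * (pA ρ s / (pB ρ s - 2 * x)) ≤ t * (pA ρ t / (pB ρ t - 2 * x)) := by
  have hd : ∀ τ ∈ Set.Ioi (0 : ℝ), HasDerivAt (fun τ : ℝ => τ * (pA ρ τ / (pB ρ τ - 2 * x)))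
      (1 * (pA ρ τ / (pB ρ τ - 2 * x)) +
        τ * ((pB ρ τ * (pB ρ τ - 2 * x) - pA ρ τ * pA ρ τ) / (pB ρ τ - 2 * x) ^ 2)) τ := by
    intro τ hτ
    have hpos := pB_sub_pos h0 h1 hx hτ
    exact (hasDerivAt_id τ).mul ((pA_deriv ρ τ).div ((pB_deriv ρ τ).sub_const _) hpos.ne')
  have hmono : MonotoneOn (fun τ : ℝ => τ * (pA ρ τ / (pB ρ τ - 2 * x))) (Set.Ioi 0) := by
    apply monotoneOn_of_deriv_nonneg (convex_Ioi 0)
    · exact fun τ hτ => (hd τ hτ).continuousAt.continuousWithinAt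
    · rw [interior_Ioi]
      exact fun τ hτ => (hd τ hτ).differentiableAt.differentiableWithinAt
    · rw [interior_Ioi]
      intro τ hτ
      rw [(hd τ hτ).deriv]
      have hpos := pB_sub_pos h0 h1 hx hτ
      have hpos' := pB_sub_pos h0 h1 le_rfl hτ
      have hτ0 : 0 < τ := hτ
      have e1 : 1 * (pA ρ τ / (pB ρ τ - 2 * x)) +
          τ * ((pB ρ τ * (pB ρ τ - 2 * x) - pA ρ τ * pA ρ τ) / (pB ρ τ - 2 * x) ^ 2) =
          ((pB ρ τ - 2 * ρ) * (pA ρ τ - 2 * ρ * τ) + 2 * (ρ - x) * (pA ρ τ + τ * pB ρ τ)) /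
            (pB ρ τ - 2 * x) ^ 2 := by
        have e2 : pB ρ τ ^ 2 - pA ρ τ ^ 2 = 4 * ρ ^ 2 := by
          unfold pA pB
          have : Real.exp τ * Real.exp (-τ) = 1 := by
            rw [← Real.exp_add]
            simp
          linear_combination (4 * ρ ^ 2) * this
        field_simp
        linear_combination τ * e2
      rw [e1]
      have a1 := pA_ge h0 h1 hτ0.le
      have a2 := pA_nonneg h0 h1 hτ0.le
      have a3 : 0 < pB ρ τ := pB_pos
      have : 0 ≤ pA ρ τ - 2 * ρ * τ := by linarith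
      have : 0 ≤ ρ - x := by linarith
      positivity
  exact hmono hs (lt_of_lt_of_le hs hst) hst

private lemma pLog_ge {ρ x s t : ℝ} (h0 : 0 ≤ ρ) (h1 : ρ ≤ 1) (hx : x ≤ ρ) (hs : 0 < s)
    (hst : s ≤ t) :
    s * (pA ρ s / (pB ρ s - 2 * x)) * Real.log (t / s) ≤
      Real.log (pB ρ t - 2 * x) - Real.log (pB ρ s - 2 * x) := by
  have ht : 0 < t := lt_of_lt_of_le hs hst
  set c : ℝ := s * (pA ρ s / (pB ρ s - 2 * x)) with hc
  have hd : ∀ τ ∈ Set.Ici s, HasDerivAt (fun τ : ℝ => Real.log (pB ρ τ - 2 * x) - c * Real.log τ)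
      (pA ρ τ / (pB ρ τ - 2 * x) - c * τ⁻¹) τ := by
    intro τ hτ
    have hτ0 : 0 < τ := lt_of_lt_of_le hs hτ
    have hpos := pB_sub_pos h0 h1 hx hτ0
    exact (((pB_deriv ρ τ).sub_const _).log hpos.ne').sub
      ((Real.hasDerivAt_log hτ0.ne').const_mul c)
  have hmono : MonotoneOn (fun τ : ℝ => Real.log (pB ρ τ - 2 * x) - c * Real.log τ)
      (Set.Ici s) := by
    apply monotoneOn_of_deriv_nonneg (convex_Ici s)
    · exact fun τ hτ => (hd τ hτ).continuousAt.continuousWithinAt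
    · rw [interior_Ici]
      exact fun τ hτ => (hd τ (Set.Ioi_subset_Ici_self hτ)).differentiableAt.differentiableWithinAt
    · rw [interior_Ici]
      intro τ hτ
      rw [(hd τ (Set.Ioi_subset_Ici_self hτ)).deriv]
      have hτ0 : 0 < τ := lt_trans hs hτ
      have h2 := pK_mono h0 h1 hx hs (le_of_lt hτ)
      rw [← hc] at h2
      have h3 : c * τ⁻¹ ≤ pA ρ τ / (pB ρ τ - 2 * x) := by
        rw [← div_eq_mul_inv, div_le_iff₀ hτ0]
        linarith
      linarith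
  have h4 := hmono (Set.self_mem_Ici) (show t ∈ Set.Ici s from hst) hst
  simp only at h4
  rw [Real.log_div ht.ne' hs.ne']
  linarith

private lemma pLog_le {ρ x s t : ℝ} (h0 : 0 ≤ ρ) (h1 : ρ ≤ 1) (hx : x ≤ ρ) (hs : 0 < s)
    (hst : s ≤ t) :
    Real.log (pB ρ t - 2 * x) - Real.log (pB ρ s - 2 * x) ≤
      t * (pA ρ t / (pB ρ t - 2 * x)) * Real.log (t / s) := by
  have ht : 0 < t := lt_of_lt_of_le hs hst
  set c : ℝ := t * (pA ρ t / (pB ρ t - 2 * x)) with hc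
  have hd : ∀ τ ∈ Set.Icc s t, HasDerivAt (fun τ : ℝ => c * Real.log τ - Real.log (pB ρ τ - 2 * x))
      (c * τ⁻¹ - pA ρ τ / (pB ρ τ - 2 * x)) τ := by
    intro τ hτ
    have hτ0 : 0 < τ := lt_of_lt_of_le hs hτ.1
    have hpos := pB_sub_pos h0 h1 hx hτ0
    exact ((Real.hasDerivAt_log hτ0.ne').const_mul c).sub
      (((pB_deriv ρ τ).sub_const _).log hpos.ne')
  have hmono : MonotoneOn (fun τ : ℝ => c * Real.log τ - Real.log (pB ρ τ - 2 * x))
      (Set.Icc s t) := by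
    apply monotoneOn_of_deriv_nonneg (convex_Icc s t)
    · exact fun τ hτ => (hd τ hτ).continuousAt.continuousWithinAt
    · rw [interior_Icc]
      exact fun τ hτ => (hd τ (Set.Ioo_subset_Icc_self hτ)).differentiableAt.differentiableWithinAt
    · rw [interior_Icc]
      intro τ hτ
      rw [(hd τ (Set.Ioo_subset_Icc_self hτ)).deriv]
      have hτ0 : 0 < τ := lt_trans hs hτ.1
      have h2 := pK_mono h0 h1 hx hτ0 (le_of_lt hτ.2)
      rw [← hc] at h2
      have h3 : pA ρ τ / (pB ρ τ - 2 * x) ≤ c * τ⁻¹ := by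
        rw [← div_eq_mul_inv, le_div_iff₀ hτ0]
        linarith
      linarith
  have h4 := hmono (Set.left_mem_Icc.mpr hst) (Set.right_mem_Icc.mpr hst) hst
  simp only at h4
  rw [Real.log_div ht.ne' hs.ne']
  linarith

/-- the real part occurring in the kernel -/
private noncomputable def px (θ : ℝ) (w : ℂ) : ℝ :=
  (Complex.exp ((θ : ℂ) * Complex.I) * starRingEnd ℂ w).re

private lemma px_le (θ : ℝ) (w : ℂ) : px θ w ≤ ‖w‖ := by
  unfold px
  refine (Complex.re_le_norm _).trans ?_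
  rw [norm_mul, Complex.norm_exp_ofReal_mul_I, one_mul, RCLike.norm_conj]

private lemma pt_mul (s θ : ℝ) (w : ℂ) : pt s θ * starRingEnd ℂ w =
    (Real.exp (-s) : ℂ) * (Complex.exp ((θ : ℂ) * Complex.I) * starRingEnd ℂ w) := by
  unfold pt
  rw [Complex.exp_add, ← Complex.ofReal_exp]
  ring

private lemma norm_pt_mul (s θ : ℝ) (w : ℂ) :
    ‖pt s θ * starRingEnd ℂ w‖ ^ 2 = Real.exp (-s) ^ 2 * ‖w‖ ^ 2 := by
  rw [pt_mul, norm_mul, norm_mul, Complex.norm_exp_ofReal_mul_I, one_mul, RCLike.norm_conj,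
    Complex.norm_real, Real.norm_of_nonneg (Real.exp_pos _).le]
  ring

private lemma norm_one_sub_pt (s θ : ℝ) (w : ℂ) :
    ‖1 - pt s θ * starRingEnd ℂ w‖ ^ 2 = Real.exp (-s) * (pB ‖w‖ s - 2 * px θ w) := by
  have h1 : ‖1 - pt s θ * starRingEnd ℂ w‖ ^ 2 =
      1 - 2 * (pt s θ * starRingEnd ℂ w).re + ‖pt s θ * starRingEnd ℂ w‖ ^ 2 := by
    rw [← Complex.normSq_eq_norm_sq, ← Complex.normSq_eq_norm_sq, Complex.normSq_apply,
      Complex.normSq_apply]
    simp only [Complex.sub_re, Complex.one_re, Complex.sub_im, Complex.one_im]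
    ring
  have h2 : (pt s θ * starRingEnd ℂ w).re = Real.exp (-s) * px θ w := by
    rw [pt_mul, Complex.re_ofReal_mul]
    rfl
  rw [h1, norm_pt_mul, h2]
  unfold pB
  have : Real.exp (-s) * Real.exp s = 1 := by
    rw [← Real.exp_add]
    simp
  linear_combination -this

private lemma KK_term (s θ : ℝ) (hs : 0 < s) (w : ℂ) (hw : ‖w‖ ≤ 1) :
    (1 - ‖pt s θ * starRingEnd ℂ w‖ ^ 2) / ‖1 - pt s θ * starRingEnd ℂ w‖ ^ 2 =
      pA ‖w‖ s / (pB ‖w‖ s - 2 * px θ w) := by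
  rw [norm_one_sub_pt, norm_pt_mul]
  have hpos := pB_sub_pos (norm_nonneg w) hw (px_le θ w) hs
  have hE := Real.exp_pos (-s)
  rw [div_eq_div_iff (by positivity) hpos.ne']
  unfold pA
  have : Real.exp (-s) * Real.exp s = 1 := by
    rw [← Real.exp_add]
    simp
  linear_combination -(pB ‖w‖ s - 2 * px θ w) * this

private lemma log_term (s θ : ℝ) (hs : 0 < s) (w : ℂ) (hw : ‖w‖ ≤ 1) :
    Real.log ‖1 - pt s θ * starRingEnd ℂ w‖ =
      1 / 2 * (Real.log (pB ‖w‖ s - 2 * px θ w) - s) := by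
  have hpos := pB_sub_pos (norm_nonneg w) hw (px_le θ w) hs
  have h1 : Real.log (‖1 - pt s θ * starRingEnd ℂ w‖ ^ 2) =
      Real.log (pB ‖w‖ s - 2 * px θ w) - s := by
    rw [norm_one_sub_pt, Real.log_mul (Real.exp_pos _).ne' hpos.ne', Real.log_exp]
    ring
  rw [Real.log_pow] at h1
  push_cast at h1
  linarith

theorem KK_mono {n : ℕ} (w : Fin n → ℂ) (hw : ∀ i, ‖w i‖ ≤ 1) (s t θ : ℝ) (hs : 0 < s)
    (hst : s ≤ t) : s * KK w (pt s θ) ≤ t * KK w (pt t θ) := by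
  have ht : 0 < t := lt_of_lt_of_le hs hst
  unfold KK
  rw [mul_sum, mul_sum]
  refine sum_le_sum fun j _ => ?_
  rw [KK_term s θ hs (w j) (hw j), KK_term t θ ht (w j) (hw j)]
  exact pK_mono (norm_nonneg _) (hw j) (px_le θ (w j)) hs hst

theorem KK_nonneg {n : ℕ} (w : Fin n → ℂ) (hw : ∀ i, ‖w i‖ ≤ 1) (s θ : ℝ) (hs : 0 < s) :
    0 ≤ KK w (pt s θ) := by
  unfold KK
  refine sum_nonneg fun j _ => ?_
  rw [KK_term s θ hs (w j) (hw j)]
  exact div_nonneg (pA_nonneg (norm_nonneg _) (hw j) hs.le)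
    (pB_sub_pos (norm_nonneg _) (hw j) (px_le θ (w j)) hs).le

theorem VV_sub_ge {n : ℕ} (w : Fin n → ℂ) (hw : ∀ i, ‖w i‖ ≤ 1) (Λ s t θ : ℝ) (hs : 0 < s)
    (hst : s ≤ t) :
    1 / 2 * (s * KK w (pt s θ)) * Real.log (t / s) - n * (t - s) / 2 ≤
      VV w Λ (pt s θ) - VV w Λ (pt t θ) := by
  have ht : 0 < t := lt_of_lt_of_le hs hst
  have h1 : VV w Λ (pt s θ) - VV w Λ (pt t θ) = ∑ j, (Real.log ‖1 - pt t θ * starRingEnd ℂ (w j)‖ -
      Real.log ‖1 - pt s θ * starRingEnd ℂ (w j)‖) := by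
    unfold VV
    rw [sum_sub_distrib]
    ring
  have h2 : 1 / 2 * (s * KK w (pt s θ)) * Real.log (t / s) - n * (t - s) / 2 =
      ∑ j, (1 / 2 * (s * (pA ‖w j‖ s / (pB ‖w j‖ s - 2 * px θ (w j))) * Real.log (t / s)) -
        (t - s) / 2) := by
    rw [sum_sub_distrib, sum_const, card_univ, Fintype.card_fin, nsmul_eq_mul, ← mul_sum,
      ← sum_mul, ← mul_sum]
    have : KK w (pt s θ) = ∑ j, pA ‖w j‖ s / (pB ‖w j‖ s - 2 * px θ (w j)) := by
      unfold KK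
      exact sum_congr rfl fun j _ => KK_term s θ hs (w j) (hw j)
    rw [this]
    ring
  rw [h1, h2]
  refine sum_le_sum fun j _ => ?_
  rw [log_term s θ hs (w j) (hw j), log_term t θ ht (w j) (hw j)]
  have := pLog_ge (norm_nonneg _) (hw j) (px_le θ (w j)) hs hst
  linarith

theorem VV_sub_le {n : ℕ} (w : Fin n → ℂ) (hw : ∀ i, ‖w i‖ ≤ 1) (Λ s t θ : ℝ) (hs : 0 < s)
    (hst : s ≤ t) :
    VV w Λ (pt s θ) - VV w Λ (pt t θ) ≤
      1 / 2 * (t * KK w (pt t θ)) * Real.log (t / s) := by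
  have ht : 0 < t := lt_of_lt_of_le hs hst
  have h1 : VV w Λ (pt s θ) - VV w Λ (pt t θ) = ∑ j, (Real.log ‖1 - pt t θ * starRingEnd ℂ (w j)‖ -
      Real.log ‖1 - pt s θ * starRingEnd ℂ (w j)‖) := by
    unfold VV
    rw [sum_sub_distrib]
    ring
  have h2 : 1 / 2 * (t * KK w (pt t θ)) * Real.log (t / s) =
      ∑ j, (1 / 2 * (t * (pA ‖w j‖ t / (pB ‖w j‖ t - 2 * px θ (w j))) * Real.log (t / s))) := by
    rw [← mul_sum, ← sum_mul, ← mul_sum]
    have : KK w (pt t θ) = ∑ j, pA ‖w j‖ t / (pB ‖w j‖ t - 2 * px θ (w j)) := by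
      unfold KK
      exact sum_congr rfl fun j _ => KK_term t θ ht (w j) (hw j)
    rw [this]
    ring
  rw [h1, h2]
  refine sum_le_sum fun j _ => ?_
  rw [log_term s θ hs (w j) (hw j), log_term t θ ht (w j) (hw j)]
  have := pLog_le (norm_nonneg _) (hw j) (px_le θ (w j)) hs hst
  linarith

private lemma aux_sinh {s : ℝ} (hs : 0 ≤ s) :
    2 * Real.cosh s - 2 + s ^ 2 ≤ 2 * s * Real.sinh s := by
  have hd : ∀ τ : ℝ, HasDerivAt (fun τ : ℝ => 2 * τ * Real.sinh τ - (2 * Real.cosh τ - 2 + τ ^ 2))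
      (2 * τ * (Real.cosh τ - 1)) τ := by
    intro τ
    have h1 : HasDerivAt (fun τ : ℝ => 2 * τ) 2 τ := by
      simpa using (hasDerivAt_id τ).const_mul 2
    have h2 := h1.mul (Real.hasDerivAt_sinh τ)
    have h3 := (((Real.hasDerivAt_cosh τ).const_mul 2).sub_const 2).add (hasDerivAt_pow 2 τ)
    have h4 := h2.sub h3
    have h5 : 2 * Real.sinh τ + 2 * τ * Real.cosh τ -
        (2 * Real.sinh τ + ((2 : ℕ) : ℝ) * τ ^ (2 - 1)) = 2 * τ * (Real.cosh τ - 1) := by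
      push_cast
      ring
    rw [← h5]
    exact h4
  have hmono : MonotoneOn (fun τ : ℝ => 2 * τ * Real.sinh τ - (2 * Real.cosh τ - 2 + τ ^ 2))
      (Set.Ici 0) := by
    apply monotoneOn_of_deriv_nonneg (convex_Ici 0)
    · exact fun τ _ => (hd τ).continuousAt.continuousWithinAt
    · exact fun τ _ => (hd τ).differentiableAt.differentiableWithinAt
    · rw [interior_Ici]
      intro τ hτ
      rw [(hd τ).deriv]
      have := Real.one_le_cosh τ
      have hτ0 : 0 < τ := hτ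
      have h5 : 0 ≤ Real.cosh τ - 1 := by linarith
      positivity
  have h := hmono (Set.self_mem_Ici) (show s ∈ Set.Ici (0 : ℝ) from hs) hs
  simp at h
  linarith

private lemma px_eq (θ : ℝ) (w : ℂ) : px θ w = ‖w‖ * Real.cos (θ - w.arg) := by
  unfold px
  have h1 : starRingEnd ℂ w = (‖w‖ : ℂ) * Complex.exp (((-w.arg : ℝ) : ℂ) * Complex.I) := by
    conv_lhs => rw [← Complex.norm_mul_exp_arg_mul_I w]
    rw [map_mul, Complex.conj_ofReal, ← Complex.exp_conj, map_mul, Complex.conj_ofReal,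
      Complex.conj_I, Complex.ofReal_neg, mul_neg, neg_mul]
  rw [h1]
  have h2 : Complex.exp ((θ : ℂ) * Complex.I) *
      ((‖w‖ : ℂ) * Complex.exp (((-w.arg : ℝ) : ℂ) * Complex.I)) =
      (‖w‖ : ℂ) * Complex.exp (((θ - w.arg : ℝ) : ℂ) * Complex.I) := by
    rw [mul_left_comm, ← Complex.exp_add, ← add_mul, ← Complex.ofReal_add, ← sub_eq_add_neg]
  rw [h2, Complex.re_ofReal_mul, Complex.exp_ofReal_mul_I_re]

theorem card_le_KK {n : ℕ} (w : Fin n → ℂ) (hw : ∀ i, ‖w i‖ ≤ 1) (h0 : ∀ i, w i ≠ 0)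
    (s θ : ℝ) (hs : 0 < s) (hs' : s ≤ Real.pi) :
    (1 / 2 : ℝ) * ((univ.filter fun j => Real.exp (-s) ≤ ‖w j‖ ∧
      Real.cos s ≤ Real.cos (θ - (w j).arg)).card : ℝ) ≤ s * KK w (pt s θ) := by
  have hterm : ∀ j, Real.exp (-s) ≤ ‖w j‖ → Real.cos s ≤ Real.cos (θ - (w j).arg) →
      1 / 2 ≤ s * (pA ‖w j‖ s / (pB ‖w j‖ s - 2 * px θ (w j))) := by
    intro j hj hcos
    set c : ℝ := Real.cos (θ - (w j).arg) with hc
    have hρ0 : 0 < ‖w j‖ := norm_pos_iff.mpr (h0 j)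
    set δ : ℝ := -Real.log ‖w j‖ with hδ
    have hδ0 : 0 ≤ δ := by
      have := Real.log_nonpos hρ0.le (hw j)
      linarith
    have hδs : δ ≤ s := by
      have := Real.log_le_log (Real.exp_pos _) hj
      rw [Real.log_exp] at this
      linarith
    have hρ : ‖w j‖ = Real.exp (-δ) := by
      rw [hδ, neg_neg, Real.exp_log hρ0]
    have hc1 : c ≤ 1 := Real.cos_le_one _
    have hf := pK_mono (ρ := 1) (x := c) (s := s) (t := s + δ) (by norm_num) le_rfl hc1 hs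
      (by linarith)
    have hposs := pB_sub_pos (ρ := 1) (x := c) (s := s) (by norm_num) le_rfl hc1 hs
    have h1 : 1 ≤ s * (pA 1 s / (pB 1 s - 2 * c)) := by
      rw [mul_div_assoc', le_div_iff₀ hposs, one_mul]
      have h2 := aux_sinh hs.le
      have h3 := Real.one_sub_sq_div_two_le_cos (x := s)
      rw [Real.cosh_eq, Real.sinh_eq] at h2
      unfold pA pB
      nlinarith
    have h4 : pA ‖w j‖ s / (pB ‖w j‖ s - 2 * px θ (w j)) =
        pA 1 (s + δ) / (pB 1 (s + δ) - 2 * c) := by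
      rw [px_eq, ← hc]
      have e1 : pA ‖w j‖ s = ‖w j‖ * pA 1 (s + δ) := by
        rw [hρ]
        unfold pA
        rw [one_pow, one_mul, mul_sub, ← Real.exp_add, ← Real.exp_add, ← Real.exp_nat_mul,
          ← Real.exp_add]
        push_cast
        congr 2 <;> ring
      have e2 : pB ‖w j‖ s = ‖w j‖ * pB 1 (s + δ) := by
        rw [hρ]
        unfold pB
        rw [one_pow, one_mul, mul_add, ← Real.exp_add, ← Real.exp_add, ← Real.exp_nat_mul,
          ← Real.exp_add]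
        push_cast
        congr 2 <;> ring
      rw [e1, e2]
      rw [show ‖w j‖ * pB 1 (s + δ) - 2 * (‖w j‖ * c) = ‖w j‖ * (pB 1 (s + δ) - 2 * c) by ring]
      rw [mul_div_mul_left _ _ hρ0.ne']
    rw [h4]
    set K : ℝ := pA 1 (s + δ) / (pB 1 (s + δ) - 2 * c) with hK
    have h5 : 1 ≤ (s + δ) * K := h1.trans hf
    have hK0 : 0 ≤ K := by
      by_contra hcon
      push Not at hcon
      nlinarith
    nlinarith
  have hsum : s * KK w (pt s θ) =
      ∑ j, s * (pA ‖w j‖ s / (pB ‖w j‖ s - 2 * px θ (w j))) := by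
    unfold KK
    rw [mul_sum]
    exact sum_congr rfl fun j _ => by rw [KK_term s θ hs (w j) (hw j)]
  rw [hsum]
  have hnn : ∀ j, 0 ≤ s * (pA ‖w j‖ s / (pB ‖w j‖ s - 2 * px θ (w j))) := fun j =>
    mul_nonneg hs.le (div_nonneg (pA_nonneg (norm_nonneg _) (hw j) hs.le)
      (pB_sub_pos (norm_nonneg _) (hw j) (px_le θ (w j)) hs).le)
  refine le_trans ?_ (sum_le_sum_of_subset_of_nonneg (filter_subset (fun j =>
    Real.exp (-s) ≤ ‖w j‖ ∧ Real.cos s ≤ Real.cos (θ - (w j).arg)) univ) fun j _ _ => hnn j)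
  rw [mul_comm, ← nsmul_eq_mul]
  refine card_nsmul_le_sum _ _ _ fun j hj => ?_
  rw [mem_filter] at hj
  exact hterm j hj.2.1 hj.2.2

end Pool.Agent.Lib.MP_7ab245_nt.Len
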