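import Mathlib
import Pool.Agent.Lib.MP_7ab245_nt.Len.Defs

/-! Harnack inequality for the potential `VV`. -/

set_option autoImplicit false

open Polynomial Finset

namespace Pool.Agent.Lib.MP_7ab245_nt.Len

/-- the potential of one point is harmonic in the open disc -/
theorem harmonicAt_log_one_sub {w z : ℂ} (hw : ‖w‖ ≤ 1) (hz : ‖z‖ < 1) :
    InnerProductSpace.HarmonicAt (fun z : ℂ => Real.log ‖1 - z * starRingEnd ℂ w‖) z := by
  have h1 : AnalyticAt ℂ (fun z : ℂ => 1 - z * starRingEnd ℂ w) z := by fun_prop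
  refine AnalyticAt.harmonicAt_log_norm h1 ?_
  intro h0
  have h2 : z * starRingEnd ℂ w = 1 := by
    have : (1 : ℂ) - z * starRingEnd ℂ w = 0 := h0
    linear_combination -this
  have h3 : ‖z‖ * ‖w‖ = 1 := by
    have := congrArg norm h2
    simpa using this
  have h4 : ‖z‖ * ‖w‖ ≤ ‖z‖ * 1 := mul_le_mul_of_nonneg_left hw (norm_nonneg _)
  linarith

theorem one_sub_mul_conj_ne_zero {w z : ℂ} (hw : ‖w‖ ≤ 1) (hz : ‖z‖ < 1) :
    1 - z * starRingEnd ℂ w ≠ 0 := by
  intro h0
  have h2 : z * starRingEnd ℂ w = 1 := by linear_combination -h0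
  have h3 : ‖z‖ * ‖w‖ = 1 := by
    have := congrArg norm h2
    simpa using this
  have h4 : ‖z‖ * ‖w‖ ≤ ‖z‖ * 1 := mul_le_mul_of_nonneg_left hw (norm_nonneg _)
  linarith

theorem harmonicAt_sum {ι : Type*} (s : Finset ι) (g : ι → ℂ → ℝ) (z : ℂ)
    (h : ∀ i ∈ s, InnerProductSpace.HarmonicAt (g i) z) :
    InnerProductSpace.HarmonicAt (fun z => ∑ i ∈ s, g i z) z := by
  classical
  induction s using Finset.induction_on with
  | empty => simp
  | insert a s ha ih =>
    have h1 := (h a (mem_insert_self _ _)).add (ih fun i hi => h i (mem_insert_of_mem hi))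
    have h2 : (fun z => ∑ i ∈ insert a s, g i z) = g a + fun z => ∑ i ∈ s, g i z := by
      funext z
      rw [sum_insert ha]
      rfl
    rw [h2]
    exact h1

/-- the potential is harmonic in the open unit disc -/
theorem VV_harmonicAt {n : ℕ} (w : Fin n → ℂ) (hw : ∀ i, ‖w i‖ ≤ 1) (Λ : ℝ) {z : ℂ}
    (hz : ‖z‖ < 1) : InnerProductSpace.HarmonicAt (VV w Λ) z := by
  have h1 : VV w Λ = (fun _ => Λ) - fun z => ∑ j, Real.log ‖1 - z * starRingEnd ℂ (w j)‖ := by
    funext z
    rfl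
  rw [h1]
  exact (InnerProductSpace.harmonicAt_const (x := z) Λ).sub
    (harmonicAt_sum _ _ _ fun i _ => harmonicAt_log_one_sub (hw i) hz)

/-- Harnack inequality on a ball -/
theorem harnack_ball {f : ℂ → ℝ} {c z : ℂ} {R : ℝ}
    (hf : InnerProductSpace.HarmonicOnNhd f (Metric.closedBall c R))
    (h0 : ∀ x ∈ Metric.closedBall c R, 0 ≤ f x) (hR : 0 < R) (hz : 2 * ‖z - c‖ ≤ R) :
    f c ≤ 3 * f z := by
  have hzb : z ∈ Metric.ball c R := by
    rw [Metric.mem_ball, dist_eq_norm]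
    have := norm_nonneg (z - c)
    linarith
  have hab : |R| = R := abs_of_pos hR
  have h1 : Real.circleAverage ((Complex.re ∘ herglotzRieszKernel c z) • f) c R = f z :=
    hf.circleAverage_re_herglotzRieszKernel_smul hzb
  have h2 : Real.circleAverage f c R = f c := by
    apply InnerProductSpace.HarmonicOnNhd.circleAverage_eq
    rw [hab]
    exact hf
  have hsph : ∀ x ∈ Metric.sphere c |R|, x ∈ Metric.closedBall c R := by
    intro x hx
    rw [hab] at hx
    exact Metric.sphere_subset_closedBall hx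
  have hfc : ContinuousOn f (Metric.sphere c |R|) := hf.continuousOn.mono hsph
  have hint1 : CircleIntegrable (fun x => (1 / 3 : ℝ) • f x) c R := by
    apply ContinuousOn.circleIntegrable'
    exact hfc.const_smul (1 / 3 : ℝ)
  have hint2 : CircleIntegrable ((Complex.re ∘ herglotzRieszKernel c z) • f) c R := by
    apply ContinuousOn.circleIntegrable'
    exact (Complex.continuous_re.comp_continuousOn
      (continuousOn_herglotzRieszKernel_sphere hzb)).smul hfc
  have h3 : Real.circleAverage (fun x => (1 / 3 : ℝ) • f x) c R ≤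
      Real.circleAverage ((Complex.re ∘ herglotzRieszKernel c z) • f) c R := by
    apply Real.circleAverage_mono hint1 hint2
    intro x hx
    have hx0 := h0 x (hsph x hx)
    rw [hab] at hx
    have h4 := le_re_herglotzRieszKernel hx hzb
    have h5 : (1 / 3 : ℝ) ≤ (R - ‖z - c‖) / (R + ‖z - c‖) := by
      rw [div_le_div_iff₀ (by norm_num) (by positivity)]
      linarith
    have h6 : (1 / 3 : ℝ) ≤ (herglotzRieszKernel c z x).re := by
      rw [herglotzRieszKernel_def]
      exact h5.trans h4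
    show (1 / 3 : ℝ) * f x ≤ (herglotzRieszKernel c z x).re * f x
    exact mul_le_mul_of_nonneg_right h6 hx0
  rw [Real.circleAverage_fun_smul, h1, h2, smul_eq_mul] at h3
  linarith

theorem norm_pt (s θ : ℝ) : ‖pt s θ‖ = Real.exp (-s) := by
  unfold pt
  rw [Complex.norm_exp]
  simp

theorem pt_sub_pt (s θ θ' : ℝ) : ‖pt s θ - pt s θ'‖ ^ 2 =
    Real.exp (-s) ^ 2 * (2 - 2 * Real.cos (θ - θ')) := by
  unfold pt
  rw [Complex.exp_add, Complex.exp_add, ← mul_sub, norm_mul, mul_pow, Complex.norm_exp]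
  have h1 : ‖Complex.exp ((θ : ℂ) * Complex.I) - Complex.exp ((θ' : ℂ) * Complex.I)‖ ^ 2 =
      2 - 2 * Real.cos (θ - θ') := by
    rw [← Complex.normSq_eq_norm_sq, Complex.normSq_apply]
    simp only [Complex.sub_re, Complex.sub_im, Complex.exp_ofReal_mul_I_re,
      Complex.exp_ofReal_mul_I_im]
    rw [Real.cos_sub]
    nlinarith [Real.sin_sq_add_cos_sq θ, Real.sin_sq_add_cos_sq θ']
  rw [h1]
  simp

/-! ## Harnack -/

theorem VV_harnack {n : ℕ} (w : Fin n → ℂ) (hw : ∀ i, ‖w i‖ ≤ 1) (Λ : ℝ)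
    (hV : ∀ z : ℂ, ‖z‖ < 1 → 0 ≤ VV w Λ z) (s θ θ' : ℝ) (hs : 0 < s) (hs' : s ≤ Real.pi)
    (hθ : Real.cos s ≤ Real.cos (θ - θ')) :
    VV w Λ (pt (2 * s) θ') ≤ 3 * VV w Λ (pt (2 * s) θ) := by
  have he : 0 < Real.exp (-(2 * s)) := Real.exp_pos _
  -- distance
  have hd : ‖pt (2 * s) θ - pt (2 * s) θ'‖ ≤ Real.exp (-(2 * s)) * s := by
    have h1 : ‖pt (2 * s) θ - pt (2 * s) θ'‖ ^ 2 ≤ (Real.exp (-(2 * s)) * s) ^ 2 := by
      rw [pt_sub_pt, mul_pow]
      have h2 : 1 - s ^ 2 / 2 ≤ Real.cos s := Real.one_sub_sq_div_two_le_cos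
      have h3 : 2 - 2 * Real.cos (θ - θ') ≤ s ^ 2 := by linarith
      exact mul_le_mul_of_nonneg_left h3 (by positivity)
    exact le_of_sq_le_sq h1 (by positivity)
  -- radius
  have hR1 : 2 * (Real.exp (-(2 * s)) * s) < 1 - Real.exp (-(2 * s)) := by
    have h1 : 2 * s + 1 < Real.exp (2 * s) := Real.add_one_lt_exp (by positivity)
    have h2 : Real.exp (-(2 * s)) * Real.exp (2 * s) = 1 := by
      rw [← Real.exp_add]
      simp
    have h3 : Real.exp (-(2 * s)) * (2 * s + 1) < Real.exp (-(2 * s)) * Real.exp (2 * s) :=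
      mul_lt_mul_of_pos_left h1 he
    rw [h2] at h3
    linarith
  set R : ℝ := 2 * (Real.exp (-(2 * s)) * s) with hR
  have hRpos : 0 < R := by positivity
  have hball : ∀ x ∈ Metric.closedBall (pt (2 * s) θ') R, ‖x‖ < 1 := by
    intro x hx
    rw [Metric.mem_closedBall, dist_eq_norm] at hx
    have h1 : ‖x‖ ≤ ‖x - pt (2 * s) θ'‖ + ‖pt (2 * s) θ'‖ := by
      have := norm_add_le (x - pt (2 * s) θ') (pt (2 * s) θ')
      simpa using this
    rw [norm_pt] at h1
    linarith
  refine harnack_ball (R := R) ?_ ?_ hRpos ?_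
  · intro x hx
    exact VV_harmonicAt w hw Λ (hball x hx)
  · intro x hx
    exact hV x (hball x hx)
  · rw [hR]
    linarith

end Pool.Agent.Lib.MP_7ab245_nt.Len
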