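import Mathlib
import Pool.Agent.Lib.MP_7ab245_nt.Len.Defs
import Pool.Agent.Lib.MP_7ab245_nt.Len.Pot1
import Pool.Agent.Lib.MP_7ab245_nt.Len.Pot2

/-! Averages of the potential, and the count of bad points. -/

set_option autoImplicit false

open Polynomial Finset

namespace Pool.Agent.Lib.MP_7ab245_nt.Len

theorem Phi_nonneg {n : ℕ} (w : Fin n → ℂ) (Λ s : ℝ) : 0 ≤ Phi w Λ s := by
  unfold Phi
  refine mul_nonneg (by positivity) ?_
  exact intervalIntegral.integral_nonneg (by positivity) fun θ _ => le_max_right _ _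

theorem pt_eq_circleMap (s θ : ℝ) : pt s θ = circleMap 0 (Real.exp (-s)) θ := by
  unfold pt circleMap
  rw [Complex.exp_add, zero_add, Complex.ofReal_exp]

theorem continuous_pt (s : ℝ) : Continuous (pt s) := by
  unfold pt
  fun_prop

theorem norm_pt_lt {s : ℝ} (hs : 0 < s) (θ : ℝ) : ‖pt s θ‖ < 1 := by
  rw [norm_pt]
  exact Real.exp_lt_one_iff.mpr (by linarith)

theorem continuous_VV_pt {n : ℕ} (w : Fin n → ℂ) (hw : ∀ i, ‖w i‖ ≤ 1) (Λ : ℝ) {s : ℝ}
    (hs : 0 < s) : Continuous fun θ => VV w Λ (pt s θ) := by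
  unfold VV
  refine continuous_const.sub (continuous_finsetSum _ fun j _ => ?_)
  refine Continuous.log ?_ ?_
  · exact (continuous_const.sub ((continuous_pt s).mul continuous_const)).norm
  · intro θ
    rw [norm_ne_zero_iff]
    exact one_sub_mul_conj_ne_zero (hw j) (norm_pt_lt hs θ)

/-- mean value property -/
theorem average_VV {n : ℕ} (w : Fin n → ℂ) (hw : ∀ i, ‖w i‖ ≤ 1) (Λ : ℝ) {s : ℝ}
    (hs : 0 < s) :
    (2 * Real.pi)⁻¹ * ∫ θ in (0 : ℝ)..(2 * Real.pi), VV w Λ (pt s θ) = Λ := by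
  have h1 : Real.circleAverage (VV w Λ) 0 (Real.exp (-s)) = VV w Λ 0 := by
    apply InnerProductSpace.HarmonicOnNhd.circleAverage_eq
    intro z hz
    apply VV_harmonicAt w hw Λ
    rw [mem_closedBall_zero_iff, abs_of_pos (Real.exp_pos _)] at hz
    exact lt_of_le_of_lt hz (Real.exp_lt_one_iff.mpr (by linarith))
  rw [Real.circleAverage_def, smul_eq_mul] at h1
  have h2 : VV w Λ 0 = Λ := by
    unfold VV
    simp
  rw [h2] at h1
  have h3 : (fun θ => VV w Λ (pt s θ)) = fun θ => VV w Λ (circleMap 0 (Real.exp (-s)) θ) := by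
    funext θ
    rw [pt_eq_circleMap]
  rw [h3]
  exact h1

theorem Phi_le {n : ℕ} (w : Fin n → ℂ) (hw : ∀ i, ‖w i‖ ≤ 1) (Λ : ℝ)
    (hV : ∀ z : ℂ, ‖z‖ < 1 → 0 ≤ VV w Λ z) (s : ℝ) (hs : 0 < s) : Phi w Λ s ≤ Λ := by
  have hc := continuous_VV_pt w hw Λ hs
  calc Phi w Λ s ≤ (2 * Real.pi)⁻¹ * ∫ θ in (0 : ℝ)..(2 * Real.pi), VV w Λ (pt s θ) := by
        unfold Phi
        refine mul_le_mul_of_nonneg_left ?_ (by positivity)
        apply intervalIntegral.integral_mono_on (by positivity)
        · exact ((hc.sub continuous_const).max continuous_const).intervalIntegrable _ _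
        · exact hc.intervalIntegrable _ _
        · intro θ _
          refine max_le ?_ (hV _ (norm_pt_lt hs θ))
          have : 0 ≤ (n : ℝ) * s := by positivity
          linarith
    _ = Λ := average_VV w hw Λ hs

/-- indicator of an arc of half-length `s` -/
noncomputable def gg (s θ : ℝ) : ℝ := if Real.cos s ≤ Real.cos θ then 1 else 0

theorem gg_nonneg (s θ : ℝ) : 0 ≤ gg s θ := by
  unfold gg
  split_ifs <;> norm_num

theorem gg_le (s θ : ℝ) : gg s θ ≤ 1 := by
  unfold gg
  split_ifs <;> norm_num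

theorem measurable_gg (s : ℝ) : Measurable (gg s) := by
  unfold gg
  exact Measurable.ite (measurableSet_le measurable_const Real.measurable_cos)
    measurable_const measurable_const

theorem intervalIntegrable_gg (s a b c : ℝ) :
    IntervalIntegrable (fun θ => gg s (θ - c)) MeasureTheory.volume a b := by
  refine (intervalIntegrable_const (c := (1 : ℝ))).mono_fun'
    ((measurable_gg s).comp (measurable_id.sub_const c)).aestronglyMeasurable ?_
  refine Filter.Eventually.of_forall fun θ => ?_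
  show ‖gg s (θ - c)‖ ≤ 1
  rw [Real.norm_eq_abs, abs_of_nonneg (gg_nonneg _ _)]
  exact gg_le _ _

theorem integral_gg (s a : ℝ) (hs : 0 < s) (hs' : s ≤ Real.pi) :
    2 * s ≤ ∫ θ in (0 : ℝ)..(2 * Real.pi), gg s (θ - a) := by
  rw [intervalIntegral.integral_comp_sub_right (fun θ => gg s θ) a]
  have hper : Function.Periodic (gg s) (2 * Real.pi) := by
    intro θ
    unfold gg
    rw [Real.cos_add_two_pi]
  have h1 := hper.intervalIntegral_add_eq (-a) (-Real.pi)
  have e1 : (0 : ℝ) - a = -a := by ring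
  have e2 : 2 * Real.pi - a = -a + 2 * Real.pi := by ring
  have e3 : -Real.pi + 2 * Real.pi = Real.pi := by ring
  rw [e1, e2, h1, e3]
  have hint : IntervalIntegrable (gg s) MeasureTheory.volume (-Real.pi) Real.pi := by
    simpa using intervalIntegrable_gg s (-Real.pi) Real.pi 0
  have h2 : ∫ θ in (-s)..s, gg s θ = 2 * s := by
    have h3 : ∫ θ in (-s)..s, gg s θ = ∫ θ in (-s)..s, (1 : ℝ) := by
      apply intervalIntegral.integral_congr
      intro θ hθ
      rw [Set.uIcc_of_le (by linarith)] at hθ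
      have h4 : Real.cos s ≤ Real.cos θ := by
        rw [← Real.cos_abs θ]
        exact Real.cos_le_cos_of_nonneg_of_le_pi (abs_nonneg _) hs' (abs_le.mpr hθ)
      show gg s θ = 1
      unfold gg
      rw [if_pos h4]
    rw [h3, intervalIntegral.integral_const]
    simp
    ring
  rw [← h2]
  apply intervalIntegral.integral_mono_interval (by linarith) (by linarith) hs'
  · exact Filter.Eventually.of_forall fun θ => gg_nonneg _ _
  · exact hint

/-- uses `VV_sub_ge`, `card_le_KK`, `VV_harnack` -/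
theorem count_bad {n : ℕ} (w : Fin n → ℂ) (hw : ∀ i, ‖w i‖ ≤ 1) (h0 : ∀ i, w i ≠ 0) (Λ : ℝ)
    (hV : ∀ z : ℂ, ‖z‖ < 1 → 0 ≤ VV w Λ z) (s : ℝ) (hs : 0 < s) (hs' : s ≤ Real.pi) :
    ((univ.filter fun i => Real.exp (-s) ≤ ‖w i‖ ∧
      6 * n * s < VV w Λ (pt (2 * s) (w i).arg)).card : ℝ) *
        (s * (Real.log 2 / (4 * Real.pi))) ≤ Phi w Λ s - Phi w Λ (2 * s) := by
  classical
  set bad : Finset (Fin n) := univ.filter fun i => Real.exp (-s) ≤ ‖w i‖ ∧
      6 * n * s < VV w Λ (pt (2 * s) (w i).arg) with hbad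
  have hlog2 : 0 < Real.log 2 := Real.log_pos (by norm_num)
  have h2s : 0 < 2 * s := by linarith
  have hns : 0 ≤ (n : ℝ) * s := by positivity
  have hc1 := continuous_VV_pt w hw Λ hs
  have hc2 := continuous_VV_pt w hw Λ h2s
  -- pointwise bound
  have hpt : ∀ θ : ℝ, Real.log 2 / 4 * ∑ i ∈ bad, gg s (θ - (w i).arg) ≤
      max (VV w Λ (pt s θ) - n * s) 0 - max (VV w Λ (pt (2 * s) θ) - n * (2 * s)) 0 := by
    intro θ
    have hsum : ∑ i ∈ bad, gg s (θ - (w i).arg) =
        ((bad.filter fun i => Real.cos s ≤ Real.cos (θ - (w i).arg)).card : ℝ) := by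
      unfold gg
      rw [sum_ite]
      simp
    rw [hsum]
    set near := bad.filter fun i => Real.cos s ≤ Real.cos (θ - (w i).arg) with hnear
    by_cases hcase : VV w Λ (pt (2 * s) θ) ≤ n * (2 * s)
    · have hempty : near = ∅ := by
        rw [Finset.eq_empty_iff_forall_notMem]
        intro i hi
        rw [hnear, mem_filter, hbad, mem_filter] at hi
        obtain ⟨⟨_, _, h6⟩, hcos⟩ := hi
        have hH := VV_harnack w hw Λ hV s θ (w i).arg hs hs' hcos
        linarith
      rw [hempty]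
      have h5 : max (VV w Λ (pt (2 * s) θ) - n * (2 * s)) 0 = 0 := by
        apply max_eq_right
        linarith
      rw [h5]
      simp
    · push Not at hcase
      have h5 : max (VV w Λ (pt (2 * s) θ) - n * (2 * s)) 0 =
          VV w Λ (pt (2 * s) θ) - n * (2 * s) := max_eq_left (by linarith)
      have h6 : VV w Λ (pt s θ) - n * s ≤ max (VV w Λ (pt s θ) - n * s) 0 := le_max_left _ _
      have h7 := VV_sub_ge w hw Λ s (2 * s) θ hs (by linarith)
      have h8 := card_le_KK w hw h0 s θ hs hs'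
      have h9 : (near.card : ℝ) ≤ ((univ.filter fun j => Real.exp (-s) ≤ ‖w j‖ ∧
          Real.cos s ≤ Real.cos (θ - (w j).arg)).card : ℝ) := by
        have : near ⊆ univ.filter fun j => Real.exp (-s) ≤ ‖w j‖ ∧
            Real.cos s ≤ Real.cos (θ - (w j).arg) := by
          intro i hi
          rw [hnear, mem_filter, hbad, mem_filter] at hi
          rw [mem_filter]
          exact ⟨mem_univ _, hi.1.2.1, hi.2⟩
        exact_mod_cast card_le_card this
      have h10 : 2 * s / s = 2 := by field_simp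
      rw [h10] at h7
      have h11 : 1 / 2 * (near.card : ℝ) ≤ s * KK w (pt s θ) :=
        (mul_le_mul_of_nonneg_left h9 (by norm_num)).trans h8
      have h12 : 1 / 2 * (near.card : ℝ) * Real.log 2 ≤ s * KK w (pt s θ) * Real.log 2 :=
        mul_le_mul_of_nonneg_right h11 hlog2.le
      rw [h5]
      linarith
  -- integrate
  have hI1 : IntervalIntegrable (fun θ => max (VV w Λ (pt s θ) - n * s) 0)
      MeasureTheory.volume 0 (2 * Real.pi) :=
    ((hc1.sub continuous_const).max continuous_const).intervalIntegrable _ _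
  have hI2 : IntervalIntegrable (fun θ => max (VV w Λ (pt (2 * s) θ) - n * (2 * s)) 0)
      MeasureTheory.volume 0 (2 * Real.pi) :=
    ((hc2.sub continuous_const).max continuous_const).intervalIntegrable _ _
  have hI3 : IntervalIntegrable (fun θ => ∑ i ∈ bad, gg s (θ - (w i).arg))
      MeasureTheory.volume 0 (2 * Real.pi) := by
    have e : (fun θ => ∑ i ∈ bad, gg s (θ - (w i).arg)) =
        ∑ i ∈ bad, fun θ => gg s (θ - (w i).arg) := by
      funext θ
      rw [Finset.sum_apply]
    rw [e]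
    apply IntervalIntegrable.sum
    intro i _
    exact intervalIntegrable_gg _ _ _ _
  have hint : ∫ θ in (0 : ℝ)..(2 * Real.pi), Real.log 2 / 4 * ∑ i ∈ bad, gg s (θ - (w i).arg) ≤
      ∫ θ in (0 : ℝ)..(2 * Real.pi), (max (VV w Λ (pt s θ) - n * s) 0 -
        max (VV w Λ (pt (2 * s) θ) - n * (2 * s)) 0) := by
    apply intervalIntegral.integral_mono_on (by positivity) (hI3.const_mul _) (hI1.sub hI2)
    intro θ _
    exact hpt θ
  rw [intervalIntegral.integral_const_mul, intervalIntegral.integral_sub hI1 hI2,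
    intervalIntegral.integral_finsetSum (fun i _ => intervalIntegrable_gg _ _ _ _)] at hint
  have hlow : (bad.card : ℝ) * (2 * s) ≤
      ∑ i ∈ bad, ∫ θ in (0 : ℝ)..(2 * Real.pi), gg s (θ - (w i).arg) := by
    rw [← nsmul_eq_mul]
    exact card_nsmul_le_sum _ _ _ fun i _ => integral_gg s _ hs hs'
  have hfin : Real.log 2 / 4 * ((bad.card : ℝ) * (2 * s)) ≤
      (∫ θ in (0 : ℝ)..(2 * Real.pi), max (VV w Λ (pt s θ) - n * s) 0) -
      ∫ θ in (0 : ℝ)..(2 * Real.pi), max (VV w Λ (pt (2 * s) θ) - n * (2 * s)) 0 :=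
    (mul_le_mul_of_nonneg_left hlow (by positivity)).trans hint
  unfold Phi
  rw [← mul_sub]
  have hpi := Real.pi_pos
  calc (bad.card : ℝ) * (s * (Real.log 2 / (4 * Real.pi)))
      = (2 * Real.pi)⁻¹ * (Real.log 2 / 4 * ((bad.card : ℝ) * (2 * s))) := by
        field_simp
    _ ≤ _ := mul_le_mul_of_nonneg_left hfin (by positivity)

end Pool.Agent.Lib.MP_7ab245_nt.Len
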