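import Pool.Agent.Lib.MP_7ab245_nt.Len.Refl
import Pool.Agent.Lib.MP_7ab245_nt.Mono.SmallBall

/-!
# T9: the average of the potential at large scales
-/

set_option autoImplicit false
set_option maxHeartbeats 1000000

open Polynomial Finset MeasureTheory

namespace Pool.Agent.Lib.MP_7ab245_nt.Len

/-- `f (e^{-s+iθ})` as a Laurent sum on the unit circle -/
lemma aeval_pt_eq (f : ℤ[X]) (s θ : ℝ) :
    aeval (pt s θ) f = Mono.ls (fun m : f.support => (f.coeff (m : ℕ) : ℂ) *
      (Real.exp (-(s * ((m : ℕ) : ℝ))) : ℂ)) (fun m => ((m : ℕ) : ℤ)) (circleMap 0 1 θ) := by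
  rw [aeval_eq_sum_range, Mono.ls]
  have h1 : ∑ i ∈ Finset.range (f.natDegree + 1), f.coeff i • (pt s θ) ^ i =
      ∑ i ∈ f.support, f.coeff i • (pt s θ) ^ i := by
    symm
    apply Finset.sum_subset
    · intro i hi
      exact Finset.mem_range_succ_iff.mpr (le_natDegree_of_mem_supp i hi)
    · intro i _ hi
      rw [notMem_support_iff.mp hi, zero_smul]
  rw [h1, ← Finset.sum_coe_sort f.support (fun i => f.coeff i • (pt s θ) ^ i)]
  apply Finset.sum_congr rfl
  intro m _
  have h2 : (pt s θ) ^ (m : ℕ) =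
      (Real.exp (-(s * ((m : ℕ) : ℝ))) : ℂ) * (circleMap 0 1 θ) ^ (((m : ℕ) : ℤ)) := by
    rw [zpow_natCast, circleMap, pt, zero_add, Complex.ofReal_one, one_mul, ← Complex.exp_nat_mul,
      ← Complex.exp_nat_mul, Complex.ofReal_exp, ← Complex.exp_add]
    congr 1
    push_cast
    ring
  rw [h2, zsmul_eq_mul]
  ring

lemma norm_pt (s θ : ℝ) : ‖pt s θ‖ = Real.exp (-s) := by
  rw [pt, Complex.norm_exp]
  congr 1
  simp

lemma measurable_VV {n : ℕ} (w : Fin n → ℂ) (Λ s : ℝ) :
    Measurable fun θ => VV w Λ (pt s θ) := by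
  unfold VV
  apply Measurable.sub measurable_const
  apply Finset.measurable_sum
  intro j _
  apply Real.measurable_log.comp
  apply Continuous.measurable
  unfold pt
  fun_prop

/-- the pointwise bound -/
lemma VV_pt_le (f : ℤ[X]) {n : ℕ} (α : Fin n → ℂ) (hα : IsRoots f α) (Λ s θ : ℝ)
    (hs : 0 < s) (hne : aeval (pt s θ) f ≠ 0) :
    VV (fun i => refl (α i)) Λ (pt s θ) ≤ Λ + hh α - Real.log ‖aeval (pt s θ) f‖ := by
  have h1 := log_eval_le f α hα (pt s θ) (by
    rw [norm_pt]; exact Real.exp_le_one_iff.mpr (by linarith)) hne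
  unfold VV
  linarith

theorem Phi_tail (f : ℤ[X]) {n : ℕ} (α : Fin n → ℂ) (hα : IsRoots f α) (hn : 0 < n)
    (h0 : f.coeff 0 ≠ 0) (hh1 : hh α ≤ 1) (Λ : ℝ) (hΛ : 0 ≤ Λ) (s : ℝ) (hs : 0 < s)
    (hns : 2 * (Λ + 1) ≤ n * s) :
    Phi (fun i => refl (α i)) Λ s ≤ 28 * (f.support.card : ℝ) ^ 3 / (n * s) := by
  classical
  have hpi : (0 : ℝ) < 2 * Real.pi := by positivity
  set κ : ℕ := f.support.card with hκ
  have hmem : 0 ∈ f.support := mem_support_iff.mpr h0
  have hκ1 : 1 ≤ κ := Finset.card_pos.mpr ⟨0, hmem⟩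
  have hκ0 : (0 : ℝ) < κ := by exact_mod_cast hκ1
  have hns0 : (0 : ℝ) < n * s := by
    have : (0 : ℝ) < n := by exact_mod_cast hn
    positivity
  set U : ℝ → ℝ := fun θ => max (VV (fun i => refl (α i)) Λ (pt s θ) - n * s) 0 with hU
  have hU0 : ∀ θ, 0 ≤ U θ := fun θ => le_max_right _ _
  have hUm : Measurable U := ((measurable_VV _ Λ s).sub measurable_const).max measurable_const
  set c' : f.support → ℂ := fun m => (f.coeff (m : ℕ) : ℂ) *
      (Real.exp (-(s * ((m : ℕ) : ℝ))) : ℂ) with hc'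
  set e' : f.support → ℤ := fun m => ((m : ℕ) : ℤ) with he'
  -- small values
  have hball : ∀ t : ℝ, 0 < t → volume {θ ∈ Set.Ioc 0 (2 * Real.pi) |
      ‖Mono.ls c' e' (circleMap 0 1 θ)‖ ≤ t} ≤
      ENNReal.ofReal (2 * Real.pi * (14 * κ * t ^ (1 / (κ : ℝ)))) := by
    intro t ht
    have h1 := Mono.small_ball κ hκ1 (by simp [hκ]) c' e' (by
      intro a b hab
      apply Subtype.ext
      simpa [he'] using hab) ⟨0, hmem⟩ (by
      simp only [hc']
      have : (1 : ℝ) ≤ |(f.coeff 0 : ℝ)| := by exact_mod_cast Int.one_le_abs h0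
      simpa using this) t ht
    have h2 : volume {θ ∈ Set.Ioc 0 (2 * Real.pi) |
      ‖Mono.ls c' e' (circleMap 0 1 θ)‖ ≤ t} ≠ ⊤ := by
      apply ne_top_of_le_ne_top _ (measure_mono (t := Set.Ioc 0 (2 * Real.pi))
        (fun θ hθ => hθ.1))
      rw [Real.volume_Ioc]
      exact ENNReal.ofReal_ne_top
    rw [← ENNReal.ofReal_toReal h2]
    exact ENNReal.ofReal_le_ofReal h1
  -- the level sets
  have hlevel : ∀ u : ℝ, 0 < u → (volume.restrict (Set.Ioc 0 (2 * Real.pi))) {θ | u ≤ U θ} ≤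
      ENNReal.ofReal ((28 * Real.pi * κ * Real.exp (-(n * s / (2 * κ)))) *
        Real.exp (-(1 / (κ : ℝ)) * u)) := by
    intro u hu
    rw [Measure.restrict_apply' measurableSet_Ioc]
    have hsub : {θ | u ≤ U θ} ∩ Set.Ioc 0 (2 * Real.pi) ⊆ {θ ∈ Set.Ioc 0 (2 * Real.pi) |
        ‖Mono.ls c' e' (circleMap 0 1 θ)‖ ≤ Real.exp (-(n * s / 2) - u)} := by
      rintro θ ⟨hθ, hθ2⟩
      refine ⟨hθ2, ?_⟩
      rw [← aeval_pt_eq f s θ]
      by_cases hne : aeval (pt s θ) f = 0
      · rw [hne, norm_zero]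
        exact (Real.exp_pos _).le
      · have h1 := VV_pt_le f α hα Λ s θ hs hne
        have h2 : u ≤ VV (fun i => refl (α i)) Λ (pt s θ) - n * s := by
          rcases le_max_iff.mp (show u ≤ max (VV (fun i => refl (α i)) Λ (pt s θ) - n * s) 0
            from hθ) with h | h
          · exact h
          · linarith
        rw [← Real.log_le_iff_le_exp (norm_pos_iff.mpr hne)]
        linarith
    refine (measure_mono hsub).trans ((hball _ (Real.exp_pos _)).trans (le_of_eq ?_))
    congr 1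
    rw [← Real.exp_mul]
    have : (-(n * s / 2) - u) * (1 / (κ : ℝ)) = -(n * s / (2 * κ)) + -(1 / (κ : ℝ)) * u := by
      field_simp
      ring
    rw [this, Real.exp_add]
    ring
  have hneg : -(1 / (κ : ℝ)) < 0 := by
    have : 0 < 1 / (κ : ℝ) := by positivity
    linarith
  have hint := integrableOn_exp_mul_Ioi hneg 0
  have hval := integral_exp_mul_Ioi hneg 0
  -- layer cake
  have hlay : ∫⁻ θ in Set.Ioc 0 (2 * Real.pi), ENNReal.ofReal (U θ) ≤
      ENNReal.ofReal (28 * Real.pi * κ * Real.exp (-(n * s / (2 * κ))) * κ) := by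
    rw [lintegral_eq_lintegral_meas_le _ (Filter.Eventually.of_forall hU0) hUm.aemeasurable]
    calc ∫⁻ t in Set.Ioi 0, (volume.restrict (Set.Ioc 0 (2 * Real.pi))) {a | t ≤ U a}
        ≤ ∫⁻ t in Set.Ioi 0, ENNReal.ofReal ((28 * Real.pi * κ *
            Real.exp (-(n * s / (2 * κ)))) * Real.exp (-(1 / (κ : ℝ)) * t)) := by
          apply setLIntegral_mono' measurableSet_Ioi
          intro t ht
          exact hlevel t ht
      _ = ENNReal.ofReal (∫ t in Set.Ioi 0, (28 * Real.pi * κ *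
            Real.exp (-(n * s / (2 * κ)))) * Real.exp (-(1 / (κ : ℝ)) * t)) := by
          rw [ofReal_integral_eq_lintegral_ofReal]
          · exact hint.const_mul _
          · apply Filter.Eventually.of_forall
            intro t
            positivity
      _ ≤ _ := by
          apply ENNReal.ofReal_le_ofReal
          rw [integral_const_mul, hval]
          apply le_of_eq
          rw [mul_zero, Real.exp_zero]
          field_simp
  have hfin : ∫ θ in (0 : ℝ)..(2 * Real.pi), U θ ≤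
      28 * Real.pi * κ * Real.exp (-(n * s / (2 * κ))) * κ := by
    rw [intervalIntegral.integral_of_le hpi.le, integral_eq_lintegral_of_nonneg_ae
      (Filter.Eventually.of_forall hU0) hUm.aestronglyMeasurable]
    have h1 := ENNReal.toReal_mono ENNReal.ofReal_ne_top hlay
    rwa [ENNReal.toReal_ofReal (by positivity)] at h1
  have hexp : Real.exp (-(n * s / (2 * κ))) ≤ 2 * κ / (n * s) := by
    have hx : 0 < n * s / (2 * κ) := by positivity
    rw [Real.exp_neg]
    have h1 := Real.add_one_le_exp (n * s / (2 * (κ : ℝ)))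
    have h2 : (n * s / (2 * (κ : ℝ))) ≤ Real.exp (n * s / (2 * κ)) := by linarith
    have h3 := inv_anti₀ hx h2
    refine h3.trans (le_of_eq ?_)
    rw [inv_div]
  unfold Phi
  calc (2 * Real.pi)⁻¹ * ∫ θ in (0 : ℝ)..(2 * Real.pi), U θ
      ≤ (2 * Real.pi)⁻¹ * (28 * Real.pi * κ * Real.exp (-(n * s / (2 * κ))) * κ) :=
        mul_le_mul_of_nonneg_left hfin (by positivity)
    _ ≤ (2 * Real.pi)⁻¹ * (28 * Real.pi * κ * (2 * κ / (n * s)) * κ) := by
        apply mul_le_mul_of_nonneg_left _ (by positivity)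
        gcongr
    _ = 28 * (κ : ℝ) ^ 3 / (n * s) := by
        field_simp

end Pool.Agent.Lib.MP_7ab245_nt.Len
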