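import Pool.Agent.Lib.MP_7ab245_nt.Len.Refl
import Pool.Agent.Lib.MP_7ab245_nt.Len.Pot1
import Pool.Agent.Lib.MP_7ab245_nt.Len.Pot3
import Pool.Agent.Lib.MP_7ab245_nt.Len.Pot4

/-! `energy_bound`: the energy of the reflected roots at scale `1/(nB)`. -/

set_option autoImplicit false

open Polynomial Finset

namespace Pool.Agent.Lib.MP_7ab245_nt.Len

namespace P5

theorem norm_pt (s θ : ℝ) : ‖pt s θ‖ = Real.exp (-s) := by
  unfold pt
  rw [Complex.norm_exp]
  simp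

theorem neg_log_le {u : ℂ} {ρ : ℝ} (hu : ‖u‖ ≤ ρ) (hρ : ρ < 1) :
    -Real.log ‖1 - u‖ ≤ -Real.log (1 - ρ) := by
  have h1 : 1 - ρ ≤ ‖1 - u‖ := by
    have := norm_sub_norm_le (1 : ℂ) u
    rw [norm_one] at this
    linarith
  have := Real.log_le_log (by linarith) h1
  linarith

theorem norm_mul_conj_le {x y : ℂ} {ρ : ℝ} (hx : ‖x‖ ≤ ρ) (hy : ‖y‖ ≤ 1) :
    ‖x * starRingEnd ℂ y‖ ≤ ρ := by
  rw [norm_mul, RCLike.norm_conj]
  calc ‖x‖ * ‖y‖ ≤ ‖x‖ * 1 := mul_le_mul_of_nonneg_left hy (norm_nonneg _)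
    _ = ‖x‖ := mul_one _
    _ ≤ ρ := hx

theorem VV_le {n : ℕ} (w : Fin n → ℂ) (hw : ∀ i, ‖w i‖ ≤ 1) (Λ s θ : ℝ) (hs : 0 < s) :
    VV w Λ (pt s θ) ≤ Λ + n * (-Real.log (1 - Real.exp (-s))) := by
  unfold VV
  have h1 : ∀ j, -Real.log ‖1 - pt s θ * starRingEnd ℂ (w j)‖ ≤
      -Real.log (1 - Real.exp (-s)) := fun j =>
    neg_log_le (norm_mul_conj_le (norm_pt s θ).le (hw j)) (by
      rw [Real.exp_lt_one_iff]; linarith)
  have h2 : ∑ j, -Real.log ‖1 - pt s θ * starRingEnd ℂ (w j)‖ ≤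
      ∑ _j : Fin n, -Real.log (1 - Real.exp (-s)) := Finset.sum_le_sum fun j _ => h1 j
  rw [Finset.sum_neg_distrib, Finset.sum_const, Finset.card_univ, Fintype.card_fin,
    nsmul_eq_mul] at h2
  linarith

theorem pt_eq (s0 : ℝ) {z : ℂ} (hz : z ≠ 0) :
    pt (s0 + -Real.log ‖z‖) z.arg = (Real.exp (-s0) : ℂ) * z := by
  unfold pt
  have h1 : (((-(s0 + -Real.log ‖z‖) : ℝ) : ℂ) + (z.arg : ℂ) * Complex.I) =
      (((-s0 : ℝ)) : ℂ) + ((Real.log ‖z‖ : ℝ) : ℂ) + (z.arg : ℂ) * Complex.I := by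
    push_cast
    ring
  rw [h1, Complex.exp_add, Complex.exp_add, ← Complex.ofReal_exp, ← Complex.ofReal_exp,
    Real.exp_log (norm_pos_iff.2 hz), mul_assoc, Complex.norm_mul_exp_arg_mul_I]

theorem EE_eq {n : ℕ} (w : Fin n → ℂ) (h0 : ∀ i, w i ≠ 0) (Λ s0 : ℝ) :
    EE w s0 1 1 = ∑ i, (VV w Λ (pt (s0 + -Real.log ‖w i‖) (w i).arg) - Λ) := by
  unfold EE VV ker
  refine Finset.sum_congr rfl fun i _ => ?_
  rw [pt_eq s0 (h0 i)]
  simp only [pow_one]
  rw [Finset.sum_neg_distrib]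
  have : ∀ j, (Real.exp (-s0) : ℂ) * (w i * starRingEnd ℂ (w j)) =
      (Real.exp (-s0) : ℂ) * w i * starRingEnd ℂ (w j) := fun j => by ring
  simp only [this]
  ring

/-- trivial bound for the energy -/
theorem EE_trivial {n : ℕ} (w : Fin n → ℂ) (hw : ∀ i, ‖w i‖ ≤ 1) (s0 : ℝ) (hs0 : 0 < s0)
    (hs1 : s0 ≤ 1) : EE w s0 1 1 ≤ (n : ℝ) ^ 2 * Real.log (2 / s0) := by
  have h1 : ∀ i j, ker s0 (w i ^ 1) (w j ^ 1) ≤ Real.log (2 / s0) := by
    intro i j
    unfold ker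
    rw [pow_one, pow_one]
    have h2 : ‖(Real.exp (-s0) : ℂ) * (w i * starRingEnd ℂ (w j))‖ ≤ Real.exp (-s0) := by
      rw [norm_mul]
      have h3 : ‖(Real.exp (-s0) : ℂ)‖ = Real.exp (-s0) := by
        rw [Complex.norm_real, Real.norm_eq_abs, abs_of_pos (Real.exp_pos _)]
      rw [h3]
      have h4 := norm_mul_conj_le (hw i) (hw j)
      calc Real.exp (-s0) * ‖w i * starRingEnd ℂ (w j)‖ ≤ Real.exp (-s0) * 1 :=
            mul_le_mul_of_nonneg_left h4 (Real.exp_pos _).le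
        _ = Real.exp (-s0) := mul_one _
    have h3 : Real.exp (-s0) ≤ 1 - s0 / 2 := by
      have h4 : Real.exp (-s0) = (Real.exp s0)⁻¹ := Real.exp_neg _
      have h5 : 1 + s0 ≤ Real.exp s0 := by linarith [Real.add_one_le_exp s0]
      rw [h4]
      calc (Real.exp s0)⁻¹ ≤ (1 + s0)⁻¹ := inv_anti₀ (by linarith) h5
        _ ≤ 1 - s0 / 2 := by
          rw [inv_le_iff_one_le_mul₀ (by linarith)]
          nlinarith only [hs0, hs1]
    have h4 := neg_log_le h2 (by rw [Real.exp_lt_one_iff]; linarith)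
    have h5 : Real.log (s0 / 2) ≤ Real.log (1 - Real.exp (-s0)) :=
      Real.log_le_log (by linarith) (by linarith)
    have h6 : Real.log (2 / s0) = -Real.log (s0 / 2) := by
      rw [← Real.log_inv, inv_div]
    rw [h6]
    linarith
  unfold EE
  calc ∑ i, ∑ j, ker s0 (w i ^ 1) (w j ^ 1) ≤ ∑ _i : Fin n, ∑ _j : Fin n, Real.log (2 / s0) :=
        Finset.sum_le_sum fun i _ => Finset.sum_le_sum fun j _ => h1 i j
    _ = (n : ℝ) ^ 2 * Real.log (2 / s0) := by
        rw [Finset.sum_const, Finset.sum_const, Finset.card_univ, Fintype.card_fin,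
          nsmul_eq_mul, nsmul_eq_mul]
        ring

theorem log_two_gt : (7 : ℝ) / 12 < Real.log 2 := by
  have := Real.log_two_gt_d9
  norm_num at this ⊢
  linarith

/-- radial estimate -/
theorem radial {n : ℕ} (w : Fin n → ℂ) (hw : ∀ i, ‖w i‖ ≤ 1) (Λ : ℝ)
    (hV : ∀ z : ℂ, ‖z‖ < 1 → 0 ≤ VV w Λ z) (s τ θ : ℝ) (hs : 0 < s) (hsτ : s ≤ τ)
    (hτ : VV w Λ (pt τ θ) ≤ 3 * (n * τ)) :
    VV w Λ (pt s θ) ≤ n * τ * (3 + 6 * Real.log (τ / s)) := by
  have hτ0 : 0 < τ := lt_of_lt_of_le hs hsτ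
  have hn : (0 : ℝ) ≤ n := Nat.cast_nonneg n
  have h1 := VV_sub_ge w hw Λ τ (2 * τ) θ hτ0 (by linarith)
  have h2 : 0 ≤ VV w Λ (pt (2 * τ) θ) := hV _ (by
    rw [norm_pt, Real.exp_lt_one_iff]; linarith)
  have h3 : Real.log (2 * τ / τ) = Real.log 2 := by
    rw [mul_div_assoc, div_self hτ0.ne', mul_one]
  rw [h3] at h1
  set K := τ * KK w (pt τ θ) with hK
  have h4 : K * Real.log 2 ≤ 7 * (n * τ) := by linarith only [h1, h2, hτ]
  have h5 : K ≤ 12 * (n * τ) := by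
    by_contra hcon
    push Not at hcon
    have h6 : 12 * (n * τ) * Real.log 2 < K * Real.log 2 :=
      mul_lt_mul_of_pos_right hcon (by linarith only [log_two_gt])
    have h7 : 12 * (n * τ) * (7 / 12) ≤ 12 * (n * τ) * Real.log 2 :=
      mul_le_mul_of_nonneg_left log_two_gt.le (by positivity)
    linarith only [h1, h2, h6, h7, hτ]
  have h8 := VV_sub_le w hw Λ s τ θ hs hsτ
  rw [← hK] at h8
  have hlog : 0 ≤ Real.log (τ / s) := Real.log_nonneg (by
    rw [le_div_iff₀ hs]; linarith only [hsτ])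
  have h9 : 1 / 2 * K * Real.log (τ / s) ≤ 1 / 2 * (12 * (n * τ)) * Real.log (τ / s) :=
    mul_le_mul_of_nonneg_right (by linarith only [h5]) hlog
  have h10 : n * τ * (3 + 6 * Real.log (τ / s)) =
      3 * (n * τ) + 1 / 2 * (12 * (n * τ)) * Real.log (τ / s) := by ring
  rw [h10]
  linarith only [h8, h9, hτ]

/-- `i` is bad at scale `2^j/n` -/
def Bad {n : ℕ} (w : Fin n → ℂ) (Λ : ℝ) (j : ℕ) (i : Fin n) : Prop :=
  Real.exp (-((2 : ℝ) ^ j / n)) ≤ ‖w i‖ ∧
    6 * n * ((2 : ℝ) ^ j / n) < VV w Λ (pt (2 * ((2 : ℝ) ^ j / n)) (w i).arg)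

/-- bad scales are smaller than one -/
theorem bad_lt {n : ℕ} (hn : 0 < n) (w : Fin n → ℂ) (hw : ∀ i, ‖w i‖ ≤ 1) (Λ : ℝ)
    (hΛ : Λ < n) (j : ℕ) (θ : ℝ)
    (h : 6 * n * ((2 : ℝ) ^ j / n) < VV w Λ (pt (2 * ((2 : ℝ) ^ j / n)) θ)) :
    (2 : ℝ) ^ j < n := by
  by_contra hcon
  push Not at hcon
  have hnR : (0 : ℝ) < n := by exact_mod_cast hn
  set σ : ℝ := (2 : ℝ) ^ j / n with hσ
  have hσ1 : 1 ≤ σ := by rw [hσ, le_div_iff₀ hnR]; linarith
  have h1 := VV_le w hw Λ (2 * σ) θ (by linarith)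
  have he1 : Real.exp (-1) ≤ 1 / 2 := by
    rw [Real.exp_neg]
    have := Real.add_one_le_exp (1 : ℝ)
    calc (Real.exp 1)⁻¹ ≤ (2 : ℝ)⁻¹ := inv_anti₀ (by norm_num) (by linarith)
      _ = 1 / 2 := by norm_num
  have he2 : Real.exp (-(2 * σ)) ≤ Real.exp (-1) := Real.exp_le_exp.2 (by linarith)
  have h2 : Real.exp (-1) ≤ 1 - Real.exp (-(2 * σ)) := by linarith
  have h3 := Real.log_le_log (Real.exp_pos _) h2
  rw [Real.log_exp] at h3
  have h4 : (n : ℝ) * (-Real.log (1 - Real.exp (-(2 * σ)))) ≤ n * 1 :=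
    mul_le_mul_of_nonneg_left (by linarith) hnR.le
  have h5 : 6 * (n : ℝ) * 1 ≤ 6 * n * σ := mul_le_mul_of_nonneg_left hσ1 (by positivity)
  linarith

open scoped Classical in
/-- pointwise dichotomy -/
theorem pointwise {n : ℕ} (hn : 0 < n) (w : Fin n → ℂ) (hw : ∀ i, ‖w i‖ ≤ 1)
    (h0 : ∀ i, w i ≠ 0) (Λ : ℝ) (hV : ∀ z : ℂ, ‖z‖ < 1 → 0 ≤ VV w Λ z) (hΛ : Λ < n)
    (B : ℝ) (hB : 1 ≤ B) (J0 : ℕ) (hJ0 : (n : ℝ) ≤ 2 ^ J0) (i : Fin n) :
    VV w Λ (pt (1 / (n * B) + -Real.log ‖w i‖) (w i).arg) ≤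
      (2 + 4 * n * (-Real.log ‖w i‖)) * (3 + 6 * Real.log (4 * B)) +
      ∑ j ∈ range J0, if Bad w Λ j i then
        4 * (2 : ℝ) ^ j * (3 + 6 * Real.log (4 * 2 ^ j * B)) else 0 := by
  have hnR : (0 : ℝ) < n := by exact_mod_cast hn
  set δ := -Real.log ‖w i‖ with hδ
  have hδ0 : 0 ≤ δ := by
    rw [hδ, neg_nonneg]
    exact Real.log_nonpos (norm_nonneg _) (hw i)
  set s0 : ℝ := 1 / (n * B) with hs0
  have hs0pos : 0 < s0 := by rw [hs0]; positivity
  have hs0n : s0 ≤ 1 / n := by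
    rw [hs0]
    exact one_div_le_one_div_of_le hnR (by nlinarith only [hB])
  have hexp : ∀ j : ℕ, (δ ≤ (2 : ℝ) ^ j / n ↔ Real.exp (-((2 : ℝ) ^ j / n)) ≤ ‖w i‖) := by
    intro j
    rw [← Real.le_log_iff_exp_le (norm_pos_iff.2 (h0 i)), hδ]
    constructor <;> intro h <;> linarith only [h]
  -- the first good scale
  have hex : ∃ j : ℕ, δ ≤ (2 : ℝ) ^ j / n ∧
      VV w Λ (pt (2 * ((2 : ℝ) ^ j / n)) (w i).arg) ≤ 6 * n * ((2 : ℝ) ^ j / n) := by
    obtain ⟨j, hj⟩ := pow_unbounded_of_one_lt (n * max 1 δ) (one_lt_two (α := ℝ))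
    refine ⟨j, ?_, ?_⟩
    · rw [le_div_iff₀ hnR]
      have : n * δ ≤ n * max 1 δ := mul_le_mul_of_nonneg_left (le_max_right _ _) hnR.le
      linarith
    · by_contra hcon
      push Not at hcon
      have h1 := bad_lt hn w hw Λ hΛ j _ hcon
      have : n * 1 ≤ n * max 1 δ := mul_le_mul_of_nonneg_left (le_max_left _ _) hnR.le
      linarith
  set j := Nat.find hex with hj
  obtain ⟨hj1, hj2⟩ := Nat.find_spec hex
  rw [← hj] at hj1 hj2
  set τ : ℝ := 2 * ((2 : ℝ) ^ j / n) with hτ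
  have hpow1 : ∀ m : ℕ, (1 : ℝ) ≤ 2 ^ m := fun m => one_le_pow₀ (by norm_num)
  have hσn : 1 / (n : ℝ) ≤ (2 : ℝ) ^ j / n := div_le_div_of_nonneg_right (hpow1 j) hnR.le
  have hs'pos : 0 < s0 + δ := by linarith only [hs0pos, hδ0]
  have hs'τ : s0 + δ ≤ τ := by rw [hτ]; linarith only [hj1, hs0n, hσn]
  have hVτ : VV w Λ (pt τ (w i).arg) ≤ 3 * (n * τ) := by
    refine hj2.trans (le_of_eq ?_)
    rw [hτ]; ring
  have hrad := radial w hw Λ hV (s0 + δ) τ (w i).arg hs'pos hs'τ hVτ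
  have hτpos : 0 < τ := lt_of_lt_of_le hs'pos hs'τ
  have hlogB : 0 ≤ Real.log (4 * B) := Real.log_nonneg (by linarith)
  have hsumnn : 0 ≤ ∑ j ∈ range J0, (if Bad w Λ j i then
        4 * (2 : ℝ) ^ j * (3 + 6 * Real.log (4 * 2 ^ j * B)) else 0) := by
    refine Finset.sum_nonneg fun m _ => ?_
    split_ifs
    · have : 0 ≤ Real.log (4 * 2 ^ m * B) := Real.log_nonneg (by
        have := hpow1 m
        nlinarith only [hB, this])
      positivity
    · exact le_rfl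
  have hAnn : 0 ≤ (2 + 4 * n * δ) * (3 + 6 * Real.log (4 * B)) := by positivity
  by_cases hA : τ ≤ 2 / n + 4 * δ
  · -- case A
    have h1 : τ / (s0 + δ) ≤ 4 * B := by
      rw [div_le_iff₀ hs'pos]
      have h2 : 4 * B * s0 = 4 / n := by
        rw [hs0]; field_simp
      have h3 : 4 * δ ≤ 4 * B * δ := by nlinarith only [hB, hδ0]
      have h4 : 2 / (n : ℝ) ≤ 4 / n := div_le_div_of_nonneg_right (by norm_num) hnR.le
      rw [mul_add, h2]
      linarith only [h3, h4, hA]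
    have h2 : Real.log (τ / (s0 + δ)) ≤ Real.log (4 * B) :=
      Real.log_le_log (by positivity) h1
    have h3 : (n : ℝ) * τ ≤ 2 + 4 * n * δ := by
      calc (n : ℝ) * τ ≤ n * (2 / n + 4 * δ) := mul_le_mul_of_nonneg_left hA hnR.le
        _ = 2 + 4 * n * δ := by field_simp
    have h4 : n * τ * (3 + 6 * Real.log (τ / (s0 + δ))) ≤
        (2 + 4 * n * δ) * (3 + 6 * Real.log (4 * B)) := by
      have h5 : 0 ≤ Real.log (τ / (s0 + δ)) := Real.log_nonneg (by
        rw [le_div_iff₀ hs'pos]; linarith only [hj1, hs0n, hσn])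
      exact mul_le_mul h3 (by linarith) (by linarith) (by positivity)
    linarith
  · -- case B
    push Not at hA
    have hjne : j ≠ 0 := by
      intro hj0
      rw [hτ, hj0, pow_zero] at hA
      have : 2 * (1 / (n : ℝ)) = 2 / n := by ring
      linarith
    obtain ⟨m, hm⟩ := Nat.exists_eq_succ_of_ne_zero hjne
    have hnot := Nat.find_min hex (m := m) (by rw [← hj, hm]; exact Nat.lt_succ_self m)
    have hτm : τ = 4 * ((2 : ℝ) ^ m / n) := by
      rw [hτ, hm, Nat.succ_eq_add_one, pow_succ]; ring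
    have hδm : δ ≤ (2 : ℝ) ^ m / n := by
      by_contra hcon
      push Not at hcon
      have : 0 < 2 / (n : ℝ) := by positivity
      linarith only [hA, hcon, hτm, this]
    have hbadV : 6 * n * ((2 : ℝ) ^ m / n) < VV w Λ (pt (2 * ((2 : ℝ) ^ m / n)) (w i).arg) := by
      by_contra hcon
      push Not at hcon
      exact hnot ⟨hδm, hcon⟩
    have hbad : Bad w Λ m i := ⟨(hexp m).1 hδm, hbadV⟩
    have hmn := bad_lt hn w hw Λ hΛ m _ hbadV
    have hmJ : m ∈ range J0 := by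
      rw [Finset.mem_range]
      by_contra hcon
      push Not at hcon
      have : (2 : ℝ) ^ J0 ≤ 2 ^ m := pow_le_pow_right₀ (by norm_num) hcon
      linarith only [hJ0, hmn, this]
    have hterm : 4 * (2 : ℝ) ^ m * (3 + 6 * Real.log (4 * 2 ^ m * B)) ≤
        ∑ j ∈ range J0, (if Bad w Λ j i then
        4 * (2 : ℝ) ^ j * (3 + 6 * Real.log (4 * 2 ^ j * B)) else 0) := by
      have h1 := Finset.single_le_sum (f := fun j => if Bad w Λ j i then
        4 * (2 : ℝ) ^ j * (3 + 6 * Real.log (4 * 2 ^ j * B)) else 0) (s := range J0) (by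
          intro l _
          show 0 ≤ if Bad w Λ l i then _ else _
          split_ifs
          · have : 0 ≤ Real.log (4 * 2 ^ l * B) := Real.log_nonneg (by
              have := hpow1 l
              nlinarith only [hB, this])
            positivity
          · exact le_rfl) hmJ
      simp only [hbad, if_true] at h1
      exact h1
    have h1 : (n : ℝ) * τ = 4 * 2 ^ m := by rw [hτm]; field_simp
    have h2 : Real.log (τ / (s0 + δ)) ≤ Real.log (4 * 2 ^ m * B) := by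
      refine Real.log_le_log (by positivity) ?_
      calc τ / (s0 + δ) ≤ τ / s0 := div_le_div_of_nonneg_left hτpos.le hs0pos (by linarith only [hδ0])
        _ = 4 * 2 ^ m * B := by rw [hτm, hs0]; field_simp
    have h3 : n * τ * (3 + 6 * Real.log (τ / (s0 + δ))) ≤
        4 * (2 : ℝ) ^ m * (3 + 6 * Real.log (4 * 2 ^ m * B)) := by
      rw [h1]
      exact mul_le_mul_of_nonneg_left (by linarith) (by positivity)
    linarith only [h3, hAnn, hrad, hterm]

/-- Abel summation -/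
theorem abel (Φ : ℕ → ℝ) (a b : ℝ) (m : ℕ) :
    ∑ j ∈ range m, (Φ j - Φ (j + 1)) * (a + b * j) + (a + b * m) * Φ m =
      (a - b) * Φ 0 + b * ∑ j ∈ range (m + 1), Φ j := by
  induction m with
  | zero =>
    simp
    ring
  | succ m ih =>
    rw [Finset.sum_range_succ, Finset.sum_range_succ _ (m + 1), mul_add b, ← add_assoc, ← ih]
    push_cast
    ring

theorem abel_le (Φ : ℕ → ℝ) (hΦ : ∀ j, 0 ≤ Φ j) (a b : ℝ) (hb : 0 ≤ b) (hab : b ≤ a) (m : ℕ) :
    ∑ j ∈ range m, (Φ j - Φ (j + 1)) * (a + b * j) ≤ a * Φ 0 + b * ∑ j ∈ range m, Φ j := by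
  have h := abel Φ a b m
  rw [Finset.sum_range_succ] at h
  have h1 : 0 ≤ (a + b * m - b) * Φ m := by
    have : 0 ≤ b * (m : ℝ) := by positivity
    exact mul_nonneg (by linarith) (hΦ m)
  have h2 : 0 ≤ b * Φ 0 := mul_nonneg hb (hΦ 0)
  nlinarith only [h, h1, h2]

/-- sum of the `Φ_j` -/
theorem sum_Phi (Φ : ℕ → ℝ) (Λ K : ℝ) (hΛ : 0 ≤ Λ) (J m : ℕ) (h1 : ∀ j, Φ j ≤ Λ)
    (h2 : ∀ j, J ≤ j → Φ j ≤ K / 2 ^ j) (hJ : 2 * K ≤ 2 ^ J) :
    ∑ j ∈ range m, Φ j ≤ J * Λ + 1 := by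
  have h3 : ∀ j, Φ j ≤ (if j < J then Λ else 0) + (if J ≤ j then (1 / 2 : ℝ) ^ (j - J) * (1 / 2)
      else 0) := by
    intro j
    by_cases hj : j < J
    · rw [if_pos hj, if_neg (by omega), add_zero]
      exact h1 j
    · rw [if_neg hj, if_pos (by omega), zero_add]
      refine (h2 j (by omega)).trans ?_
      obtain ⟨l, rfl⟩ := Nat.exists_eq_add_of_le (show J ≤ j by omega)
      rw [Nat.add_sub_cancel_left, div_le_iff₀ (by positivity), pow_add, one_div, inv_pow]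
      have : ((2 : ℝ) ^ l)⁻¹ * 2⁻¹ * (2 ^ J * 2 ^ l) = 2 ^ J / 2 := by
        field_simp
      rw [this]
      linarith only [hJ]
  calc ∑ j ∈ range m, Φ j ≤ ∑ j ∈ range m, ((if j < J then Λ else 0) +
        (if J ≤ j then (1 / 2 : ℝ) ^ (j - J) * (1 / 2) else 0)) :=
        Finset.sum_le_sum fun j _ => h3 j
    _ = ∑ j ∈ range m, (if j < J then Λ else 0) +
        ∑ j ∈ range m, (if J ≤ j then (1 / 2 : ℝ) ^ (j - J) * (1 / 2) else 0) :=
        Finset.sum_add_distrib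
    _ ≤ J * Λ + 1 := by
        refine add_le_add ?_ ?_
        · rw [← Finset.sum_filter, Finset.sum_const, nsmul_eq_mul]
          refine mul_le_mul_of_nonneg_right ?_ hΛ
          have : ((range m).filter fun j => j < J) ⊆ range J := by
            intro j hj
            rw [Finset.mem_filter] at hj
            exact Finset.mem_range.2 hj.2
          have h4 := Finset.card_le_card this
          rw [Finset.card_range] at h4
          exact_mod_cast h4
        · have h4 : ∀ m : ℕ, ∑ j ∈ range m, (if J ≤ j then (1 / 2 : ℝ) ^ (j - J) * (1 / 2) else 0)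
              ≤ 1 - (1 / 2 : ℝ) ^ (m - J) := by
            intro m
            induction m with
            | zero => simp
            | succ m ih =>
              rw [Finset.sum_range_succ]
              by_cases hm : J ≤ m
              · rw [if_pos hm, show m + 1 - J = (m - J) + 1 by omega, pow_succ]
                linarith only [ih]
              · rw [if_neg hm, show m + 1 - J = 0 by omega]
                rw [show m - J = 0 by omega] at ih
                linarith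
          have h5 := h4 m
          have h6 : (0 : ℝ) ≤ (1 / 2 : ℝ) ^ (m - J) := by positivity
          linarith

theorem root_ne_zero {f : ℤ[X]} {n : ℕ} {α : Fin n → ℂ} (hα : IsRoots f α)
    (h0 : f.coeff 0 ≠ 0) (i : Fin n) : α i ≠ 0 := by
  intro hi
  have h1 : (f.map (Int.castRingHom ℂ)).eval 0 = 0 := by
    rw [hα, Polynomial.eval_prod]
    exact Finset.prod_eq_zero (Finset.mem_univ i) (by simp [hi])
  rw [← Polynomial.coeff_zero_eq_eval_zero, Polynomial.coeff_map] at h1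
  simp only [eq_intCast, Int.cast_eq_zero] at h1
  exact h0 h1

theorem one_le_length {f : ℤ[X]} (h0 : f.coeff 0 ≠ 0) :
    (1 : ℝ) ≤ ∑ m ∈ f.support, |(f.coeff m : ℝ)| := by
  have h1 : (1 : ℝ) ≤ |(f.coeff 0 : ℝ)| := by
    have : (1 : ℤ) ≤ |f.coeff 0| := Int.one_le_abs h0
    exact_mod_cast this
  refine h1.trans ?_
  exact Finset.single_le_sum (f := fun m => |(f.coeff m : ℝ)|) (fun m _ => abs_nonneg _)
    (Polynomial.mem_support_iff.2 h0)

/-- choice of the scale from which the tail bound is used -/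
theorem exists_J (k Λ B : ℝ) (hk : 1 ≤ k) (hΛ : 0 ≤ Λ) (hB : 1 ≤ B) :
    ∃ J : ℕ, 56 * k ^ 3 + 2 * (Λ + 1) ≤ (2 : ℝ) ^ J ∧
      (J : ℝ) ≤ 7 + 6 * Real.log (B * (k + Λ + 2)) := by
  set X : ℝ := 56 * k ^ 3 + 2 * (Λ + 1) with hX
  have hXpos : 1 ≤ X := by
    have : 0 ≤ k ^ 3 := by positivity
    rw [hX]; linarith
  have hl2 : 0 < Real.log 2 := Real.log_pos (by norm_num)
  refine ⟨⌈Real.logb 2 X⌉₊, ?_, ?_⟩
  · have h1 : X = (2 : ℝ) ^ (Real.logb 2 X) := (Real.rpow_logb (by norm_num) (by norm_num)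
      (by linarith)).symm
    calc X = (2 : ℝ) ^ (Real.logb 2 X) := h1
      _ ≤ (2 : ℝ) ^ ((⌈Real.logb 2 X⌉₊ : ℕ) : ℝ) :=
          Real.rpow_le_rpow_of_exponent_le (by norm_num) (Nat.le_ceil _)
      _ = (2 : ℝ) ^ ⌈Real.logb 2 X⌉₊ := Real.rpow_natCast _ _
  · have h1 : (⌈Real.logb 2 X⌉₊ : ℝ) < Real.logb 2 X + 1 :=
      Nat.ceil_lt_add_one (Real.logb_nonneg (by norm_num) hXpos)
    have hS : (1 : ℝ) ≤ k + Λ + 2 := by linarith
    have hS0 : 0 ≤ (k + Λ + 2) := by linarith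
    have h2 : X ≤ 2 ^ 6 * (B * (k + Λ + 2)) ^ 3 := by
      have h3 : k ^ 3 ≤ (k + Λ + 2) ^ 3 := pow_le_pow_left₀ (by linarith) (by linarith) 3
      have h4 : 2 * (Λ + 1) ≤ 2 * (k + Λ + 2) ^ 3 := by
        have h5 : (k + Λ + 2) ^ 1 ≤ (k + Λ + 2) ^ 3 := pow_le_pow_right₀ hS (by norm_num)
        rw [pow_one] at h5
        linarith
      have h5 : (k + Λ + 2) ^ 3 ≤ (B * (k + Λ + 2)) ^ 3 :=
        pow_le_pow_left₀ hS0 (by nlinarith only [hB, hk, hΛ]) 3
      have h6 : 0 ≤ (k + Λ + 2) ^ 3 := by positivity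
      rw [hX]
      norm_num
      linarith
    have h3 : Real.log X ≤ 6 * Real.log 2 + 3 * Real.log (B * (k + Λ + 2)) := by
      have h4 := Real.log_le_log (by linarith) h2
      have h5 : (B * (k + Λ + 2)) ≠ 0 := by positivity
      rw [Real.log_mul (by positivity) (by positivity), Real.log_pow, Real.log_pow] at h4
      push_cast at h4
      exact h4
    have h4 : Real.logb 2 X ≤ 6 + 6 * Real.log (B * (k + Λ + 2)) := by
      rw [Real.logb, div_le_iff₀ hl2]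
      have h5 : 0 ≤ Real.log (B * (k + Λ + 2)) := Real.log_nonneg (by nlinarith only [hB, hk, hΛ])
      have h6 : 3 * Real.log (B * (k + Λ + 2)) ≤ 6 * Real.log (B * (k + Λ + 2)) * Real.log 2 := by
        have h7 := mul_le_mul_of_nonneg_left log_two_gt.le h5
        linarith
      linarith
    linarith

end P5

open P5 in
theorem energy_bound : ∃ C : ℝ, 0 < C ∧ ∀ (f : ℤ[X]) (n : ℕ) (α : Fin n → ℂ), IsRoots f α →
    0 < n → f.coeff 0 ≠ 0 → hh α ≤ 1 → ∀ B : ℝ, 1 ≤ B →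
    EE (fun i => refl (α i)) (1 / (n * B)) 1 1 ≤
      C * n * (1 + Real.log (∑ m ∈ f.support, |(f.coeff m : ℝ)|)) *
        Real.log (B * (f.support.card + Real.log (∑ m ∈ f.support, |(f.coeff m : ℝ)|) + 2)) := by
  classical
  refine ⟨10000, by norm_num, ?_⟩
  intro f n α hα hn hf0 hh1 B hB
  have hL := one_le_length hf0
  set L : ℝ := ∑ m ∈ f.support, |(f.coeff m : ℝ)| with hLdef
  set Λ : ℝ := Real.log L with hΛdef
  have hΛ0 : 0 ≤ Λ := Real.log_nonneg hL
  have hk1 : (1 : ℝ) ≤ (f.support.card : ℝ) := by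
    have : 0 < f.support.card := Finset.card_pos.2 ⟨0, Polynomial.mem_support_iff.2 hf0⟩
    exact_mod_cast this
  set k : ℝ := (f.support.card : ℝ) with hkdef
  set w : Fin n → ℂ := fun i => refl (α i) with hwdef
  have hnR : (0 : ℝ) < n := by exact_mod_cast hn
  have hα0 : ∀ i, α i ≠ 0 := root_ne_zero hα hf0
  have hw : ∀ i, ‖w i‖ ≤ 1 := fun i => norm_refl_le _
  have hw0 : ∀ i, w i ≠ 0 := fun i => refl_ne_zero (hα0 i)
  have hV : ∀ z : ℂ, ‖z‖ < 1 → 0 ≤ VV w Λ z := fun z hz => VV_nonneg f α hα z hz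
  set ℓ : ℝ := Real.log (B * (k + Λ + 2)) with hℓdef
  have hS3 : 3 ≤ B * (k + Λ + 2) := by nlinarith only [hB, hk1, hΛ0]
  have hℓ1 : 1 ≤ ℓ := by
    rw [hℓdef, Real.le_log_iff_exp_le (by linarith)]
    have := Real.exp_one_lt_d9
    linarith
  have hlogBℓ : Real.log B ≤ ℓ := Real.log_le_log (by linarith) (by nlinarith only [hB, hS3, hk1, hΛ0])
  by_cases hcase : (n : ℝ) ≤ Λ
  · -- the trivial case
    have hs0 : (0 : ℝ) < 1 / (n * B) := by positivity
    have hs1 : 1 / (n * B) ≤ 1 := by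
      rw [div_le_one (by positivity)]
      have : (1 : ℝ) ≤ n := by exact_mod_cast hn
      nlinarith only [hB, this]
    have h1 := EE_trivial w hw (1 / (n * B)) hs0 hs1
    have h2 : 2 / (1 / ((n : ℝ) * B)) = 2 * n * B := by field_simp
    rw [h2] at h1
    have h3 : Real.log (2 * n * B) ≤ 2 * ℓ := by
      have h4 : 2 * n * B ≤ (B * (k + Λ + 2)) ^ 2 := by
        have h5 : 3 * (B * (k + Λ + 2)) ≤ (B * (k + Λ + 2)) ^ 2 := by nlinarith only [hB, hS3, hcase, hk1, hnR, hΛ0]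
        have h6 : n * B ≤ B * (k + Λ + 2) := by nlinarith only [hB, hcase, hk1]
        nlinarith only [h5, h6, hS3]
      have h5 := Real.log_le_log (by positivity) h4
      rw [Real.log_pow] at h5
      push_cast at h5
      exact h5
    calc EE w (1 / (n * B)) 1 1 ≤ (n : ℝ) ^ 2 * Real.log (2 * n * B) := h1
      _ ≤ (n : ℝ) ^ 2 * (2 * ℓ) := mul_le_mul_of_nonneg_left h3 (by positivity)
      _ = n * n * (2 * ℓ) := by ring
      _ ≤ n * Λ * (2 * ℓ) := mul_le_mul_of_nonneg_right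
          (mul_le_mul_of_nonneg_left hcase hnR.le) (by linarith)
      _ ≤ 10000 * n * (1 + Λ) * ℓ := by
          have h4 : 0 ≤ n * ℓ := by positivity
          have h5 : 0 ≤ n * ℓ * Λ := by positivity
          nlinarith only [h4, h5]
  · push Not at hcase
    -- the number of scales
    have hex : ∃ j : ℕ, (n : ℝ) ≤ 2 ^ j := by
      obtain ⟨j, hj⟩ := pow_unbounded_of_one_lt (n : ℝ) (one_lt_two (α := ℝ))
      exact ⟨j, hj.le⟩
    obtain ⟨J0, hJ0, hJmin⟩ : ∃ J0 : ℕ, (n : ℝ) ≤ 2 ^ J0 ∧ ∀ j < J0, (2 : ℝ) ^ j < n :=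
      ⟨Nat.find hex, Nat.find_spec hex, fun j hj => not_le.1 (Nat.find_min hex hj)⟩
    set a : ℝ := 3 + 6 * Real.log (4 * B) with ha
    set b : ℝ := 6 * Real.log 2 with hb
    set Φ : ℕ → ℝ := fun j => Phi w Λ ((2 : ℝ) ^ j / n) with hΦ
    have hσpos : ∀ j : ℕ, (0 : ℝ) < (2 : ℝ) ^ j / n := fun j => by positivity
    have hΦ0 : ∀ j, 0 ≤ Φ j := fun j => Phi_nonneg _ _ _
    have hΦΛ : ∀ j, Φ j ≤ Λ := fun j => Phi_le w hw Λ hV _ (hσpos j)
    have hlogB0 : 0 ≤ Real.log B := Real.log_nonneg hB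
    have hl2 : 0 < Real.log 2 := Real.log_pos (by norm_num)
    have hl2' : Real.log 2 ≤ 7 / 10 := by
      have := Real.log_two_lt_d9
      norm_num at this ⊢
      linarith
    have hlog4B : Real.log (4 * B) = 2 * Real.log 2 + Real.log B := by
      rw [Real.log_mul (by norm_num) (by linarith), show (4 : ℝ) = 2 ^ 2 by norm_num, Real.log_pow]
      push_cast
      ring
    have hb0 : 0 ≤ b := by rw [hb]; positivity
    have hab : b ≤ a := by rw [ha, hb, hlog4B]; linarith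
    have hb5 : b ≤ 5 := by rw [hb]; linarith
    have ha18 : a ≤ 18 * ℓ := by rw [ha, hlog4B]; linarith
    have ha0 : 0 ≤ a := by linarith
    -- step 1
    have step1 : EE w (1 / (n * B)) 1 1 ≤ ∑ i, ((2 + 4 * n * (-Real.log ‖w i‖)) * a +
        ∑ j ∈ range J0, if Bad w Λ j i then
          4 * (2 : ℝ) ^ j * (3 + 6 * Real.log (4 * 2 ^ j * B)) else 0) := by
      rw [EE_eq w hw0 Λ]
      refine Finset.sum_le_sum fun i _ => ?_
      have := pointwise hn w hw hw0 Λ hV hcase B hB J0 hJ0 i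
      linarith
    have step2 : ∑ i, (2 + 4 * n * (-Real.log ‖w i‖)) * a ≤ 10 * n * a := by
      rw [← Finset.sum_mul]
      refine mul_le_mul_of_nonneg_right ?_ ha0
      rw [Finset.sum_add_distrib, Finset.sum_const, Finset.card_univ, Fintype.card_fin,
        nsmul_eq_mul, ← Finset.mul_sum]
      have h1 := sum_delta_le f α hα hf0
      have h2 : ∑ i, -Real.log ‖w i‖ ≤ 2 := by
        have : ∑ i, -Real.log ‖w i‖ = ∑ i, -Real.log ‖refl (α i)‖ := rfl
        linarith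
      have h3 : 4 * (n : ℝ) * ∑ i, -Real.log ‖w i‖ ≤ 4 * n * 2 :=
        mul_le_mul_of_nonneg_left h2 (by positivity)
      linarith
    -- number of bad points
    set κ : ℝ := 4 * Real.pi / Real.log 2 with hκ
    have hκ0 : 0 < κ := by rw [hκ]; positivity
    have hκ22 : κ ≤ 22 := by
      rw [hκ, div_le_iff₀ hl2]
      have h1 := Real.pi_lt_d2
      have h2 := log_two_gt
      norm_num at h1 h2 ⊢
      linarith
    have hcount : ∀ j < J0, ((univ.filter fun i => Bad w Λ j i).card : ℝ) * (2 : ℝ) ^ j ≤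
        n * κ * (Φ j - Φ (j + 1)) := by
      intro j hj
      have hj1 := hJmin j hj
      have h1 : (2 : ℝ) ^ j / n ≤ Real.pi := by
        have h2 : (2 : ℝ) ^ j / n < 1 := by rw [div_lt_one hnR]; exact hj1
        linarith [Real.pi_gt_three]
      have h2 := count_bad w hw hw0 Λ hV _ (hσpos j) h1
      have h3 : 2 * ((2 : ℝ) ^ j / n) = (2 : ℝ) ^ (j + 1) / n := by rw [pow_succ]; ring
      have h4 : (univ.filter fun i => Bad w Λ j i) = (univ.filter fun i =>
          Real.exp (-((2 : ℝ) ^ j / n)) ≤ ‖w i‖ ∧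
          6 * n * ((2 : ℝ) ^ j / n) < VV w Λ (pt (2 * ((2 : ℝ) ^ j / n)) (w i).arg)) := by
        ext i
        rw [Finset.mem_filter, Finset.mem_filter]
        exact Iff.rfl
      rw [h4]
      rw [h3] at h2 ⊢
      have h5 : Φ j - Φ (j + 1) = Phi w Λ ((2 : ℝ) ^ j / n) - Phi w Λ ((2 : ℝ) ^ (j + 1) / n) := rfl
      rw [h5]
      have h6 := mul_le_mul_of_nonneg_left h2 (show 0 ≤ n * κ by positivity)
      refine le_trans (le_of_eq ?_) h6
      rw [hκ]
      field_simp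
    have step3 : ∑ i, ∑ j ∈ range J0, (if Bad w Λ j i then
          4 * (2 : ℝ) ^ j * (3 + 6 * Real.log (4 * 2 ^ j * B)) else 0) ≤
        4 * n * κ * (a * Φ 0 + b * ∑ j ∈ range J0, Φ j) := by
      rw [Finset.sum_comm]
      calc ∑ j ∈ range J0, ∑ i, (if Bad w Λ j i then
          4 * (2 : ℝ) ^ j * (3 + 6 * Real.log (4 * 2 ^ j * B)) else 0)
          ≤ ∑ j ∈ range J0, 4 * n * κ * ((Φ j - Φ (j + 1)) * (a + b * j)) := by
            refine Finset.sum_le_sum fun j hj => ?_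
            rw [← Finset.sum_filter, Finset.sum_const, nsmul_eq_mul]
            have h1 := hcount j (Finset.mem_range.1 hj)
            have h2 : 3 + 6 * Real.log (4 * 2 ^ j * B) = a + b * j := by
              rw [ha, hb, show 4 * (2 : ℝ) ^ j * B = (4 * B) * 2 ^ j by ring,
                Real.log_mul (by positivity) (by positivity), Real.log_pow]
              ring
            rw [h2]
            have h3 : 0 ≤ a + b * (j : ℝ) := by (clear * - ha0; positivity)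
            have h4 := mul_le_mul_of_nonneg_right h1 h3
            calc ((univ.filter fun i => Bad w Λ j i).card : ℝ) *
                  (4 * (2 : ℝ) ^ j * (a + b * j)) =
                4 * (((univ.filter fun i => Bad w Λ j i).card : ℝ) * (2 : ℝ) ^ j *
                  (a + b * j)) := by ring
              _ ≤ 4 * (n * κ * (Φ j - Φ (j + 1)) * (a + b * j)) :=
                  mul_le_mul_of_nonneg_left h4 (by norm_num)
              _ = _ := by ring
        _ = 4 * n * κ * ∑ j ∈ range J0, (Φ j - Φ (j + 1)) * (a + b * j) := by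
            rw [Finset.mul_sum]
        _ ≤ _ := mul_le_mul_of_nonneg_left (abel_le Φ hΦ0 a b hb0 hab J0) (by positivity)
    -- the tail
    obtain ⟨J, hJ1, hJ2⟩ := exists_J k Λ B hk1 hΛ0 hB
    have hsum : ∑ j ∈ range J0, Φ j ≤ J * Λ + 1 := by
      refine sum_Phi Φ Λ (28 * k ^ 3) hΛ0 J J0 hΦΛ (fun j hj => ?_) (by linarith)
      have h1 : (2 : ℝ) ^ J ≤ 2 ^ j := pow_le_pow_right₀ (by norm_num) hj
      have h2 : (n : ℝ) * ((2 : ℝ) ^ j / n) = 2 ^ j := by field_simp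
      have h3 := Phi_tail f α hα hn hf0 hh1 Λ hΛ0 ((2 : ℝ) ^ j / n) (hσpos j) (by
        rw [h2]
        have : 0 ≤ 56 * k ^ 3 := by (clear * - hk1; positivity)
        linarith)
      rw [h2] at h3
      exact h3
    have hJ13 : (J : ℝ) ≤ 13 * ℓ := by linarith
    have step4 : a * Φ 0 + b * ∑ j ∈ range J0, Φ j ≤ 18 * ℓ * Λ + 5 * (13 * ℓ * Λ + 1) := by
      have h1 : a * Φ 0 ≤ 18 * ℓ * Λ := mul_le_mul ha18 (hΦΛ 0) (hΦ0 0) (by linarith)
      have h2 : (J : ℝ) * Λ + 1 ≤ 13 * ℓ * Λ + 1 := by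
        have := mul_le_mul_of_nonneg_right hJ13 hΛ0
        linarith
      have h3 : b * ∑ j ∈ range J0, Φ j ≤ 5 * (13 * ℓ * Λ + 1) :=
        mul_le_mul hb5 (hsum.trans h2) (Finset.sum_nonneg fun j _ => hΦ0 j) (by norm_num)
      linarith
    have step5 : 4 * n * κ * (a * Φ 0 + b * ∑ j ∈ range J0, Φ j) ≤
        4 * n * 22 * (18 * ℓ * Λ + 5 * (13 * ℓ * Λ + 1)) := by
      refine mul_le_mul (mul_le_mul_of_nonneg_left hκ22 (by positivity)) step4 ?_ (by positivity)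
      exact add_nonneg (mul_nonneg ha0 (hΦ0 0))
        (mul_nonneg hb0 (Finset.sum_nonneg fun j _ => hΦ0 j))
    rw [Finset.sum_add_distrib] at step1
    have h18 : 10 * n * a ≤ 10 * n * (18 * ℓ) := mul_le_mul_of_nonneg_left ha18 (by positivity)
    have hfin : 10 * (n : ℝ) * (18 * ℓ) + 4 * n * 22 * (18 * ℓ * Λ + 5 * (13 * ℓ * Λ + 1)) ≤
        10000 * n * (1 + Λ) * ℓ := by
      have h1 : (n : ℝ) * 1 ≤ n * ℓ := mul_le_mul_of_nonneg_left hℓ1 hnR.le
      have h2 : 0 ≤ n * ℓ * Λ := by positivity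
      have h3 : 0 ≤ n * ℓ := by positivity
      nlinarith only [h1, h2, hnR]
    linarith

end Pool.Agent.Lib.MP_7ab245_nt.Len
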