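import Pool.Agent.Lib.MP_7ab245_nt.Len.Refl
import Pool.Agent.Lib.MP_7ab245_nt.Few.Count

/-! Galois invariance: products over the conjugates are nonzero rational integers. -/

set_option autoImplicit false

open Polynomial Finset

namespace Pool.Agent.Lib.MP_7ab245_nt.Len

open Few

lemma exists_emb : Nonempty (QQ →+* ℂ) := by
  have := alg_QQ
  exact ⟨(IsAlgClosed.lift (R := ℚ) (S := QQ) (M := ℂ)).toRingHom⟩

/-- a fixed embedding of the algebraic numbers in the complex numbers -/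
noncomputable def phi : QQ →+* ℂ := exists_emb.some

lemma phi_inj : Function.Injective phi := phi.injective

lemma phi_aeval (f : ℤ[X]) (x : QQ) : aeval (phi x) f = phi (aeval x f) := by
  rw [aeval_def, aeval_def, hom_eval₂]
  congr 1
  exact RingHom.ext_int _ _

lemma aut_aeval (f : ℤ[X]) (σ : QQ ≃ₐ[ℚ] QQ) (x : QQ) : aeval (σ x) f = σ (aeval x f) := by
  have := aeval_algHom_apply (σ.toAlgHom.restrictScalars ℤ) x f
  simpa using this

lemma aut_mem_RR {f : ℤ[X]} (hf : f.Monic) (σ : QQ ≃ₐ[ℚ] QQ) {x : QQ} (hx : x ∈ RR f) :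
    σ x ∈ RR f := by
  rw [mem_RR hf] at hx ⊢
  rw [aut_aeval, hx, map_zero]

lemma isIntegral_of_mem_RR {f : ℤ[X]} (hf : f.Monic) {x : QQ} (hx : x ∈ RR f) :
    IsIntegral ℤ x := ⟨f, hf, (mem_RR hf).mp hx⟩

/-- every complex root of `f` is the image of a root of `f` in `QQ` -/
lemma exists_preimage (f : ℤ[X]) (hf : f.Monic) (z : ℂ) (hz : aeval z f = 0) :
    ∃ x ∈ RR f, phi x = z := by
  classical
  set F : QQ[X] := f.map (algebraMap ℤ QQ) with hF
  have hsplit : F = (F.roots.map fun a => X - C a).prod := by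
    have := (IsAlgClosed.splits F).eq_prod_roots
    rw [(hf.map _).leadingCoeff, C_1, one_mul] at this
    exact this
  have h1 : (F.map phi).eval z = 0 := by
    rw [hF, Polynomial.map_map, eval_map]
    rw [aeval_def] at hz
    rw [← hz]
    congr 1
    exact RingHom.ext_int _ _
  rw [hsplit, Polynomial.map_multiset_prod, eval_multiset_prod, Multiset.map_map,
    Multiset.map_map] at h1
  rw [Multiset.prod_eq_zero_iff, Multiset.mem_map] at h1
  obtain ⟨x, hx, hx2⟩ := h1
  refine ⟨x, ?_, ?_⟩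
  · unfold RR
    rw [Multiset.mem_toFinset]
    exact hx
  · simp only [Function.comp_apply, Polynomial.map_sub, map_X, map_C, eval_sub, eval_X, eval_C]
      at hx2
    exact (sub_eq_zero.mp hx2).symm

/-- the complex roots as images of the elements of `RR f` -/
lemma exists_xs (f : ℤ[X]) (hf : f.Monic) (hirr : Irreducible f) {n : ℕ} (α : Fin n → ℂ)
    (hα : IsRoots f α) : ∃ x : Fin n → QQ, (∀ i, phi (x i) = α i) ∧ Function.Injective x ∧
      (∀ i, x i ∈ RR f) ∧ ∀ y ∈ RR f, ∃ i, x i = y := by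
  classical
  have h1 : ∀ i, ∃ x ∈ RR f, phi x = α i := fun i => exists_preimage f hf (α i) (hα.aeval_root i)
  choose x hx hx2 using h1
  have himg : Finset.univ.image x = RR f := by
    apply Finset.Subset.antisymm
    · intro y hy
      rw [Finset.mem_image] at hy
      obtain ⟨i, _, rfl⟩ := hy
      exact hx i
    · intro y hy
      have h2 : aeval (phi y) f = 0 := by rw [phi_aeval, (mem_RR hf).mp hy, map_zero]
      rw [hα.aeval_eq, Finset.prod_eq_zero_iff] at h2
      obtain ⟨i, _, hi⟩ := h2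
      rw [Finset.mem_image]
      refine ⟨i, Finset.mem_univ i, phi_inj ?_⟩
      rw [hx2 i]
      exact (sub_eq_zero.mp hi).symm
  have hcard : (Finset.univ.image x).card = (Finset.univ : Finset (Fin n)).card := by
    rw [himg, card_RR hf hirr, hα.natDegree_eq, Finset.card_univ, Fintype.card_fin]
  have hinj : Function.Injective x := by
    have := Finset.card_image_iff.mp hcard
    rwa [Finset.coe_univ, Set.injOn_univ] at this
  refine ⟨x, hx2, hinj, hx, ?_⟩
  intro y hy
  rw [← himg, Finset.mem_image] at hy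
  obtain ⟨i, _, hi⟩ := hy
  exact ⟨i, hi⟩

/-- products over the indices are products over `RR f` -/
lemma prod_xs {f : ℤ[X]} {n : ℕ} {x : Fin n → QQ} (hinj : Function.Injective x)
    (hmem : ∀ i, x i ∈ RR f) (hsurj : ∀ y ∈ RR f, ∃ i, x i = y) {M : Type*} [CommMonoid M]
    (g : QQ → M) : ∏ i, g (x i) = ∏ y ∈ RR f, g y := by
  apply Finset.prod_bij (fun i _ => x i) (fun i _ => hmem i) (fun a _ b _ hab => hinj hab)
  · intro y hy
    obtain ⟨i, hi⟩ := hsurj y hy
    exact ⟨i, Finset.mem_univ i, hi⟩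
  · intro i _
    rfl

/-- an automorphism permutes the conjugates -/
lemma prod_aut {f : ℤ[X]} (hf : f.Monic) (σ : QQ ≃ₐ[ℚ] QQ) {M : Type*} [CommMonoid M]
    (g : QQ → M) : ∏ y ∈ RR f, g (σ y) = ∏ y ∈ RR f, g y := by
  refine Finset.prod_bij' (fun y _ => σ y) (fun y _ => σ.symm y) ?_ ?_ ?_ ?_ ?_
  · intro y hy
    exact aut_mem_RR hf σ hy
  · intro y hy
    exact aut_mem_RR hf σ.symm hy
  · intro y _
    simp
  · intro y _
    simp
  · intro y _
    rfl

/-- a product over the conjugates of an equivariant family is Galois invariant -/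
lemma aut_prod {f : ℤ[X]} (hf : f.Monic) (σ : QQ ≃ₐ[ℚ] QQ) (g : QQ → QQ)
    (hg : ∀ y ∈ RR f, σ (g y) = g (σ y)) : σ (∏ y ∈ RR f, g y) = ∏ y ∈ RR f, g y := by
  classical
  rw [map_prod, Finset.prod_congr rfl hg]
  exact prod_aut hf σ g

/-- a Galois invariant nonzero algebraic integer is a nonzero rational integer -/
lemma one_le_norm_of_fixed (z : QQ) (hint : IsIntegral ℤ z) (h0 : z ≠ 0)
    (hfix : ∀ σ : QQ ≃ₐ[ℚ] QQ, σ z = z) : 1 ≤ ‖phi z‖ := by
  have := normal_QQ
  have := alg_QQ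
  have : IsGalois ℚ QQ := {}
  have h1 : z ∈ (⊥ : IntermediateField ℚ QQ) :=
    (InfiniteGalois.mem_bot_iff_fixed z).mpr hfix
  obtain ⟨r, hr⟩ := IntermediateField.mem_bot.mp h1
  have h2 : IsIntegral ℤ r := by
    rw [← hr] at hint
    exact (isIntegral_algebraMap_iff (algebraMap ℚ QQ).injective).mp hint
  obtain ⟨m, hm⟩ := IsIntegrallyClosed.isIntegral_iff.mp h2
  have h3 : phi z = (m : ℂ) := by
    rw [← hr, ← hm]
    simp
  rw [h3, Complex.norm_intCast]
  have hm0 : m ≠ 0 := by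
    rintro rfl
    apply h0
    rw [← hr, ← hm]
    simp
  exact_mod_cast Int.one_le_abs hm0

/-- a root of unity among the roots forces `M(f) = 1` -/
lemma no_torsion (f : ℤ[X]) (hf : f.Monic) (hirr : Irreducible f)
    (hM : 1 < (f.map (Int.castRingHom ℂ)).mahlerMeasure) {n : ℕ} (α : Fin n → ℂ)
    (hα : IsRoots f α) (x : QQ) (hx : x ∈ RR f) (m : ℕ) (hm : 0 < m) : x ^ m ≠ 1 := by
  intro h
  have hdvd : f ∣ X ^ m - 1 := by
    apply dvd_of_root' f hf hirr x ((mem_RR hf).mp hx)
    simp [h]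
  have hroot : ∀ i, α i ^ m = 1 := by
    intro i
    obtain ⟨g, hg⟩ := hdvd
    have h1 := congrArg (aeval (α i)) hg
    rw [map_mul, hα.aeval_root i, zero_mul, map_sub, map_pow, aeval_X, map_one] at h1
    exact sub_eq_zero.mp h1
  have hnorm : ∀ i, ‖α i‖ = 1 := by
    intro i
    exact Complex.norm_eq_one_of_pow_eq_one (hroot i) hm.ne'
  have h2 : hh α = 0 := by
    rw [hh]
    apply Finset.sum_eq_zero
    intro i _
    rw [hnorm i]
    simp
  rw [hh_eq_log_mahler f α hα] at h2
  have := Real.log_pos hM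
  linarith

lemma RR_ne_zero (f : ℤ[X]) (hf : f.Monic) (hirr : Irreducible f)
    (hM : 1 < (f.map (Int.castRingHom ℂ)).mahlerMeasure) {n : ℕ} (α : Fin n → ℂ)
    (hα : IsRoots f α) (x : QQ) (hx : x ∈ RR f) : x ≠ 0 := by
  rintro rfl
  have hdvd : f ∣ X := by
    apply dvd_of_root' f hf hirr 0 ((mem_RR hf).mp hx)
    simp
  have hroot : ∀ i, α i = 0 := by
    intro i
    obtain ⟨g, hg⟩ := hdvd
    have h1 := congrArg (aeval (α i)) hg
    rw [map_mul, hα.aeval_root i, zero_mul, aeval_X] at h1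
    exact h1
  have h2 : hh α = 0 := by
    rw [hh]
    apply Finset.sum_eq_zero
    intro i _
    rw [hroot i]
    simp
  rw [hh_eq_log_mahler f α hα] at h2
  have := Real.log_pos hM
  linarith

/-- no multiplicative relation between conjugates with different exponents, in `QQ` -/
lemma RR_pow_ne_pow (f : ℤ[X]) (hf : f.Monic) (hirr : Irreducible f)
    (hM : 1 < (f.map (Int.castRingHom ℂ)).mahlerMeasure) {n : ℕ} (α : Fin n → ℂ)
    (hα : IsRoots f α) (a b : ℕ) (hab : a ≠ b) (x y : QQ) (hx : x ∈ RR f) (hy : y ∈ RR f) :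
    x ^ a ≠ y ^ b := by
  intro h
  obtain ⟨m, hm, hm1⟩ := torsion_of_pow_eq f hf hirr x y ((mem_RR hf).mp hx) ((mem_RR hf).mp hy)
    (RR_ne_zero f hf hirr hM α hα x hx) a b hab h
  exact no_torsion f hf hirr hM α hα x hx m hm hm1

/-- no multiplicative relation between conjugates with different exponents -/
theorem pow_ne_pow (f : ℤ[X]) (hf : f.Monic) (hirr : Irreducible f)
    (hM : 1 < (f.map (Int.castRingHom ℂ)).mahlerMeasure) {n : ℕ} (α : Fin n → ℂ)
    (hα : IsRoots f α) (a b : ℕ) (hab : a ≠ b) (i j : Fin n) : α i ^ a ≠ α j ^ b := by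
  obtain ⟨x, hx, -, hmem, -⟩ := exists_xs f hf hirr α hα
  intro h
  rw [← hx i, ← hx j, ← map_pow, ← map_pow] at h
  exact RR_pow_ne_pow f hf hirr hM α hα a b hab (x i) (x j) (hmem i) (hmem j) (phi_inj h)

theorem one_le_prod_sub (f : ℤ[X]) (hf : f.Monic) (hirr : Irreducible f)
    (hM : 1 < (f.map (Int.castRingHom ℂ)).mahlerMeasure) {n : ℕ} (α : Fin n → ℂ)
    (hα : IsRoots f α) (a b : ℕ) (hab : a ≠ b) :
    1 ≤ ∏ i, ∏ j, ‖α i ^ a - α j ^ b‖ := by
  classical
  obtain ⟨x, hx, hinj, hmem, hsurj⟩ := exists_xs f hf hirr α hα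
  set z : QQ := ∏ u ∈ RR f, ∏ v ∈ RR f, (u ^ a - v ^ b) with hz
  have h1 : ∏ i, ∏ j, ‖α i ^ a - α j ^ b‖ = ‖phi z‖ := by
    rw [hz, ← prod_xs hinj hmem hsurj (fun u => ∏ v ∈ RR f, (u ^ a - v ^ b)), map_prod, norm_prod]
    apply Finset.prod_congr rfl
    intro i _
    rw [← prod_xs hinj hmem hsurj (fun v => (x i ^ a - v ^ b)), map_prod, norm_prod]
    apply Finset.prod_congr rfl
    intro j _
    rw [map_sub, map_pow, map_pow, hx i, hx j]
  rw [h1]
  apply one_le_norm_of_fixed
  · rw [hz]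
    apply IsIntegral.prod
    intro u hu
    apply IsIntegral.prod
    intro v hv
    exact ((isIntegral_of_mem_RR hf hu).pow a).sub ((isIntegral_of_mem_RR hf hv).pow b)
  · rw [hz, Finset.prod_ne_zero_iff]
    intro u hu
    rw [Finset.prod_ne_zero_iff]
    intro v hv
    exact sub_ne_zero.mpr (RR_pow_ne_pow f hf hirr hM α hα a b hab u v hu hv)
  · intro σ
    apply aut_prod hf σ
    intro u hu
    rw [map_prod]
    have h2 : ∀ v ∈ RR f, σ (u ^ a - v ^ b) = (fun v => (σ u) ^ a - v ^ b) (σ v) := by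
      intro v _
      simp
    rw [Finset.prod_congr rfl h2]
    exact prod_aut hf σ fun v => (σ u) ^ a - v ^ b

/-- the `N`-th roots of unity of `ℂ` are the images of those of `QQ` -/
lemma image_nthRoots [DecidableEq ℂ] (N : ℕ) (hN : 0 < N) :
    (nthRootsFinset N (1 : QQ)).image phi = nthRootsFinset N (1 : ℂ) := by
  apply Finset.Subset.antisymm
  · intro y hy
    rw [Finset.mem_image] at hy
    obtain ⟨w, hw, rfl⟩ := hy
    rw [mem_nthRootsFinset hN] at hw ⊢
    rw [← map_pow, hw, map_one]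
  · intro y hy
    rw [mem_nthRootsFinset hN] at hy
    have hmon : (X ^ N - 1 : ℤ[X]).Monic := by
      have := monic_X_pow_sub_C (R := ℤ) 1 hN.ne'
      simpa using this
    obtain ⟨x, hx, rfl⟩ := exists_preimage (X ^ N - 1) hmon y (by simp [hy])
    rw [mem_RR hmon] at hx
    rw [Finset.mem_image]
    refine ⟨x, ?_, rfl⟩
    rw [mem_nthRootsFinset hN]
    simp only [map_sub, map_pow, aeval_X, map_one] at hx
    exact sub_eq_zero.mp hx

theorem one_le_prod_eval (f : ℤ[X]) (hf : f.Monic) (hirr : Irreducible f) {n : ℕ}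
    (α : Fin n → ℂ) (hα : IsRoots f α) (N : ℕ) (hN : 0 < N) :
    1 ≤ ∏ i, ∏ ω ∈ (nthRootsFinset N (1 : ℂ)).filter
      (fun ω => aeval (ω * α i) f ≠ 0), ‖aeval (ω * α i) f‖ := by
  classical
  obtain ⟨x, hx, hinj, hmem, hsurj⟩ := exists_xs f hf hirr α hα
  set g : QQ → QQ := fun u => ∏ ω ∈ (nthRootsFinset N (1 : QQ)).filter
      (fun ω => aeval (ω * u) f ≠ 0), aeval (ω * u) f with hg
  set z : QQ := ∏ u ∈ RR f, g u with hz
  have h1 : ∏ i, ∏ ω ∈ (nthRootsFinset N (1 : ℂ)).filter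
      (fun ω => aeval (ω * α i) f ≠ 0), ‖aeval (ω * α i) f‖ = ‖phi z‖ := by
    rw [hz, ← prod_xs hinj hmem hsurj g, map_prod, norm_prod]
    apply Finset.prod_congr rfl
    intro i _
    rw [hg, map_prod, norm_prod]
    rw [← image_nthRoots N hN, Finset.filter_image, Finset.prod_image fun a _ b _ hab => phi_inj hab]
    apply Finset.prod_congr
    · apply Finset.filter_congr
      intro ω _
      rw [← hx i, ← map_mul, phi_aeval, ne_eq, map_eq_zero]
    · intro ω _
      rw [← hx i, ← map_mul, phi_aeval]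
  rw [h1]
  apply one_le_norm_of_fixed
  · rw [hz]
    apply IsIntegral.prod
    intro u hu
    rw [hg]
    apply IsIntegral.prod
    intro ω hω
    rw [Finset.mem_filter, mem_nthRootsFinset hN] at hω
    have h2 : IsIntegral ℤ ω := by
      refine ⟨X ^ N - 1, ?_, by simp [hω.1]⟩
      have := monic_X_pow_sub_C (R := ℤ) 1 hN.ne'
      simpa using this
    have h3 : IsIntegral ℤ (ω * u) := h2.mul (isIntegral_of_mem_RR hf hu)
    rw [aeval_eq_sum_range]
    apply IsIntegral.sum
    intro k _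
    exact (h3.pow k).zsmul _
  · rw [hz, Finset.prod_ne_zero_iff]
    intro u hu
    rw [hg, Finset.prod_ne_zero_iff]
    intro ω hω
    rw [Finset.mem_filter] at hω
    exact hω.2
  · intro σ
    apply aut_prod hf σ
    intro u hu
    rw [hg]
    simp only
    rw [map_prod]
    refine Finset.prod_bij' (fun ω _ => σ ω) (fun ω _ => σ.symm ω) ?_ ?_ ?_ ?_ ?_
    · intro ω hω
      rw [Finset.mem_filter, mem_nthRootsFinset hN] at hω ⊢
      refine ⟨by rw [← map_pow, hω.1, map_one], ?_⟩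
      rw [← map_mul, aut_aeval, ne_eq, map_eq_zero_iff _ σ.injective]
      exact hω.2
    · intro ω hω
      rw [Finset.mem_filter, mem_nthRootsFinset hN] at hω ⊢
      refine ⟨by rw [← map_pow, hω.1, map_one], ?_⟩
      intro h
      apply hω.2
      have : ω * σ u = σ (σ.symm ω * u) := by rw [map_mul, AlgEquiv.apply_symm_apply]
      rw [this, aut_aeval, h, map_zero]
    · intro ω _
      simp
    · intro ω _
      simp
    · intro ω _
      rw [← map_mul, aut_aeval]

end Pool.Agent.Lib.MP_7ab245_nt.Len
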