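import Mathlib

/-! Combinatorics of a finite Galois orbit: multiplicative fibres (for `prime_package`). -/

set_option autoImplicit false

open Polynomial Finset

namespace Pool.Agent.Lib.MP_7ab245_nt.Len

section Comb

variable {K : Type*} [Field K]

/-- the fibre of `y ↦ y ^ N` on `R` -/
noncomputable def fib (R : Finset K) (N : ℕ) (x : K) : Finset K := by
  classical exact R.filter (fun y => y ^ N = x ^ N)

lemma mem_fib {R : Finset K} {N : ℕ} {x y : K} : y ∈ fib R N x ↔ y ∈ R ∧ y ^ N = x ^ N := by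
  classical
  simp only [fib, Finset.mem_filter]

/-- a transitive action on a finite set by field endomorphisms -/
structure Act (R : Finset K) (G : Set (K →+* K)) : Prop where
  ne : ∀ x ∈ R, x ≠ 0
  maps : ∀ σ ∈ G, ∀ x ∈ R, σ x ∈ R
  trans : ∀ x ∈ R, ∀ y ∈ R, ∃ σ ∈ G, σ x = y

lemma self_mem_fib {R : Finset K} {N : ℕ} {x : K} (hx : x ∈ R) : x ∈ fib R N x :=
  mem_fib.mpr ⟨hx, rfl⟩

lemma fib_eq {R : Finset K} {N : ℕ} {x y : K} (hy : y ∈ fib R N x) : fib R N y = fib R N x := by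
  ext z
  rw [mem_fib, mem_fib, (mem_fib.mp hy).2]

lemma Act.surj {R : Finset K} {G : Set (K →+* K)} (h : Act R G) {σ : K →+* K} (hσ : σ ∈ G)
    {z : K} (hz : z ∈ R) : ∃ y ∈ R, σ y = z := by
  classical
  have h1 : R.image σ ⊆ R := by
    intro a ha
    obtain ⟨b, hb, rfl⟩ := Finset.mem_image.mp ha
    exact h.maps σ hσ b hb
  have h2 : R.image σ = R := Finset.eq_of_subset_of_card_le h1
    (by rw [Finset.card_image_of_injective _ σ.injective])
  rw [← h2, Finset.mem_image] at hz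
  exact hz

lemma Act.image_eq {R : Finset K} {G : Set (K →+* K)} [DecidableEq K] (h : Act R G)
    {σ : K →+* K} (hσ : σ ∈ G) : R.image σ = R := by
  apply Finset.eq_of_subset_of_card_le
  · intro a ha
    obtain ⟨b, hb, rfl⟩ := Finset.mem_image.mp ha
    exact h.maps σ hσ b hb
  · rw [Finset.card_image_of_injective _ σ.injective]

lemma Act.image_fib {R : Finset K} {G : Set (K →+* K)} [DecidableEq K] (h : Act R G)
    {σ : K →+* K} (hσ : σ ∈ G) (N : ℕ) (x : K) : (fib R N x).image σ = fib R N (σ x) := by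
  ext z
  rw [Finset.mem_image, mem_fib]
  constructor
  · rintro ⟨y, hy, rfl⟩
    rw [mem_fib] at hy
    refine ⟨h.maps σ hσ y hy.1, ?_⟩
    rw [← map_pow, hy.2, map_pow]
  · rintro ⟨hz, hz2⟩
    obtain ⟨y, hy, rfl⟩ := h.surj hσ hz
    refine ⟨y, mem_fib.mpr ⟨hy, σ.injective ?_⟩, rfl⟩
    rw [map_pow, hz2, map_pow]

lemma Act.card_fib_map {R : Finset K} {G : Set (K →+* K)} (h : Act R G)
    {σ : K →+* K} (hσ : σ ∈ G) (N : ℕ) (x : K) : (fib R N (σ x)).card = (fib R N x).card := by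
  classical
  rw [← h.image_fib hσ, Finset.card_image_of_injective _ σ.injective]

lemma Act.card_fib {R : Finset K} {G : Set (K →+* K)} (h : Act R G) (N : ℕ) {x y : K}
    (hx : x ∈ R) (hy : y ∈ R) : (fib R N x).card = (fib R N y).card := by
  obtain ⟨σ, hσ, rfl⟩ := h.trans x hx y hy
  exact (h.card_fib_map hσ N x).symm

/-- the product of the ratios over the fibre -/
noncomputable def ww (R : Finset K) (N : ℕ) (x : K) : K :=
  (∏ y ∈ fib R N x, y) / x ^ (fib R N x).card

lemma Act.ww_map {R : Finset K} {G : Set (K →+* K)} (h : Act R G)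
    {σ : K →+* K} (hσ : σ ∈ G) (N : ℕ) (x : K) : σ (ww R N x) = ww R N (σ x) := by
  classical
  unfold ww
  rw [map_div₀, map_prod, map_pow, h.card_fib_map hσ N x, ← h.image_fib hσ N x,
    Finset.prod_image (fun a _ b _ hab => σ.injective hab)]

lemma Act.ww_pow {R : Finset K} {G : Set (K →+* K)} (h : Act R G) (N : ℕ) {x : K}
    (hx : x ∈ R) : ww R N x ^ N = 1 := by
  unfold ww
  rw [div_pow, ← Finset.prod_pow, Finset.prod_congr rfl (fun y hy => (mem_fib.mp hy).2),
    Finset.prod_const, ← pow_mul, ← pow_mul, mul_comm]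
  exact div_self (pow_ne_zero _ (h.ne x hx))

lemma Act.ww_fib {R : Finset K} {G : Set (K →+* K)} (h : Act R G) (N : ℕ) {x y : K}
    (hx : x ∈ R) (hy : y ∈ fib R N x) :
    ww R N y = ww R N x * (x / y) ^ (fib R N x).card := by
  unfold ww
  rw [fib_eq hy]
  have hy0 := h.ne y (mem_fib.mp hy).1
  have hx0 := h.ne x hx
  rw [div_pow]
  field_simp

lemma eq_of_pow_eq_of_coprime {x y : K} (hx : x ≠ 0) {m n : ℕ} (hmn : Nat.Coprime m n)
    (h1 : x ^ m = y ^ m) (h2 : x ^ n = y ^ n) : y = x := by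
  have e1 : (y / x) ^ m = 1 := by
    rw [div_pow, ← h1, div_self (pow_ne_zero _ hx)]
  have e2 : (y / x) ^ n = 1 := by
    rw [div_pow, ← h2, div_self (pow_ne_zero _ hx)]
  have e3 : orderOf (y / x) ∣ Nat.gcd m n :=
    Nat.dvd_gcd (orderOf_dvd_of_pow_eq_one e1) (orderOf_dvd_of_pow_eq_one e2)
  rw [hmn] at e3
  have e4 : y / x = 1 := by
    rw [← orderOf_eq_one_iff]
    exact Nat.dvd_one.mp e3
  exact (div_eq_one_iff_eq hx).mp e4

/-- if all ratio products are trivial the fibre is trivial, in the coprime case -/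
lemma Act.fib_trivial {R : Finset K} {G : Set (K →+* K)} (h : Act R G) (N : ℕ) {x0 x : K}
    (hx0 : x0 ∈ R) (hw : ww R N x0 = 1) (hx : x ∈ R) (y : K) (hy : y ∈ fib R N x)
    (hcop : Nat.Coprime (fib R N x).card N) : y = x := by
  have hall : ∀ z ∈ R, ww R N z = 1 := by
    intro z hz
    obtain ⟨σ, hσ, rfl⟩ := h.trans x0 hx0 z hz
    rw [← h.ww_map hσ, hw, map_one]
  have h1 := h.ww_fib N hx hy
  rw [hall x hx, hall y (mem_fib.mp hy).1, one_mul] at h1
  have hy0 := h.ne y (mem_fib.mp hy).1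
  have hxx := h.ne x hx
  have h2 : x ^ (fib R N x).card = y ^ (fib R N x).card := by
    rw [div_pow] at h1
    exact (div_eq_one_iff_eq (pow_ne_zero _ hy0)).mp h1.symm
  exact eq_of_pow_eq_of_coprime hxx hcop h2 (mem_fib.mp hy).2.symm

/-- the bad case: the `q`-th powers are not distinct but the orbit is not `μ_q`-stable -/
lemma Act.ww_ne_one {R : Finset K} {G : Set (K →+* K)} (h : Act R G) (q : ℕ) (hq : q.Prime)
    {x : K} (hx : x ∈ R) (h1 : 1 < (fib R q x).card) (h2 : (fib R q x).card < q) :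
    ww R q x ≠ 1 := by
  intro hw
  have hcop : Nat.Coprime (fib R q x).card q :=
    (Nat.coprime_of_lt_prime (by omega) h2 hq).symm
  have : (fib R q x).card ≤ 1 := by
    rw [Finset.card_le_one]
    intro a ha b hb
    rw [h.fib_trivial q hx hw hx a ha hcop, h.fib_trivial q hx hw hx b hb hcop]
  omega

lemma Act.fib_sq {R : Finset K} {G : Set (K →+* K)} (h : Act R G) (q : ℕ) (hq : q.Prime)
    {x : K} (hx : x ∈ R) (h1 : 1 < (fib R q x).card) (h2 : (fib R q x).card < q) :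
    fib R (q * q) x = fib R q x := by
  classical
  set r := (fib R q x).card with hr
  have hrall : ∀ z ∈ R, (fib R q z).card = r := fun z hz => h.card_fib q hz hx
  have hcop : Nat.Coprime r q := (Nat.coprime_of_lt_prime (by omega) h2 hq).symm
  obtain ⟨u, _, hu⟩ := Nat.exists_mul_mod_eq_one_of_coprime hcop hq.one_lt
  set γ : K → K := fun z => ww R q z ^ u * z with hγ
  have hww0 : ∀ z ∈ R, ww R q z ≠ 0 := by
    intro z hz h0
    have := h.ww_pow q hz
    rw [h0, zero_pow hq.ne_zero] at this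
    exact zero_ne_one this
  have hγpow : ∀ z ∈ R, γ z ^ q = z ^ q := by
    intro z hz
    simp only [hγ]
    rw [mul_pow, ← pow_mul, mul_comm u q, pow_mul, h.ww_pow q hz, one_pow, one_mul]
  have hγfib : ∀ z ∈ R, ∀ y ∈ fib R q z, γ y = γ z := by
    intro z hz y hy
    have hy0 := h.ne y (mem_fib.mp hy).1
    have hz0 := h.ne z hz
    simp only [hγ]
    rw [h.ww_fib q hz hy, hrall z hz, mul_pow, ← pow_mul]
    have e1 : (z / y) ^ q = 1 := by
      rw [div_pow, (mem_fib.mp hy).2, div_self (pow_ne_zero _ hz0)]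
    have e2 : (z / y) ^ (r * u) = z / y := by
      conv_lhs => rw [← Nat.div_add_mod (r * u) q, hu, pow_add, pow_mul, e1, one_pow, one_mul,
        pow_one]
    rw [e2]
    field_simp
  have hγinj : ∀ z ∈ R, ∀ y ∈ R, γ y ^ q = γ z ^ q → γ y = γ z := by
    intro z hz y hy hyz
    rw [hγpow z hz, hγpow y hy] at hyz
    exact hγfib z hz y (mem_fib.mpr ⟨hy, hyz⟩)
  have hγσ : ∀ σ ∈ G, ∀ z, σ (γ z) = γ (σ z) := by
    intro σ hσ z
    simp only [hγ]
    rw [map_mul, map_pow, h.ww_map hσ]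
  set Γ := R.image γ with hΓ
  have hγmem : ∀ z ∈ R, γ z ∈ Γ := fun z hz => Finset.mem_image_of_mem _ hz
  have hact : Act Γ G := by
    refine ⟨?_, ?_, ?_⟩
    · intro g hg
      obtain ⟨z, hz, rfl⟩ := Finset.mem_image.mp hg
      exact mul_ne_zero (pow_ne_zero _ (hww0 z hz)) (h.ne z hz)
    · intro σ hσ g hg
      obtain ⟨z, hz, rfl⟩ := Finset.mem_image.mp hg
      rw [hγσ σ hσ]
      exact hγmem _ (h.maps σ hσ z hz)
    · intro g hg g' hg'
      obtain ⟨z, hz, rfl⟩ := Finset.mem_image.mp hg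
      obtain ⟨z', hz', rfl⟩ := Finset.mem_image.mp hg'
      obtain ⟨σ, hσ, rfl⟩ := h.trans z hz z' hz'
      exact ⟨σ, hσ, hγσ σ hσ z⟩
  have hqq : 0 < q * q := Nat.mul_pos hq.pos hq.pos
  set t := (fib Γ (q * q) (γ x)).card with ht
  have htpos : 0 < t := Finset.card_pos.mpr ⟨γ x, self_mem_fib (hγmem x hx)⟩
  have htle : t ≤ q := by
    have hsub : (fib Γ (q * q) (γ x)).image (fun g => g ^ q) ⊆
        (nthRoots q (γ x ^ (q * q))).toFinset := by
      intro a ha
      obtain ⟨g, hg, rfl⟩ := Finset.mem_image.mp ha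
      rw [Multiset.mem_toFinset, mem_nthRoots hq.pos, ← pow_mul]
      exact (mem_fib.mp hg).2
    have hinj : Set.InjOn (fun g : K => g ^ q) (fib Γ (q * q) (γ x) : Set K) := by
      intro a ha b hb hab
      rw [Finset.mem_coe] at ha hb
      obtain ⟨za, hza, rfl⟩ := Finset.mem_image.mp (mem_fib.mp ha).1
      obtain ⟨zb, hzb, rfl⟩ := Finset.mem_image.mp (mem_fib.mp hb).1
      exact hγinj zb hzb za hza hab
    calc t = ((fib Γ (q * q) (γ x)).image (fun g => g ^ q)).card :=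
          (Finset.card_image_of_injOn hinj).symm
      _ ≤ (nthRoots q (γ x ^ (q * q))).toFinset.card := Finset.card_le_card hsub
      _ ≤ Multiset.card (nthRoots q (γ x ^ (q * q))) := Multiset.toFinset_card_le _
      _ ≤ q := card_nthRoots _ _
  -- a second element of the fibre
  obtain ⟨y, hy, hyx⟩ : ∃ y ∈ fib R q x, y ≠ x := by
    by_contra hcon
    push Not at hcon
    have : (fib R q x).card ≤ 1 := by
      rw [Finset.card_le_one]
      intro a ha b hb
      rw [hcon a ha, hcon b hb]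
    omega
  have hyR := (mem_fib.mp hy).1
  have hy0 := h.ne y hyR
  have hx0 := h.ne x hx
  obtain ⟨σ, hσ, hσx⟩ := h.trans x hx y hyR
  have hne : (x / y) ^ r ≠ 1 := by
    intro h3
    apply hyx
    have h4 : x ^ r = y ^ r := by
      rw [div_pow] at h3
      exact (div_eq_one_iff_eq (pow_ne_zero _ hy0)).mp h3
    exact eq_of_pow_eq_of_coprime hx0 hcop h4 (mem_fib.mp hy).2.symm
  have hσw : σ (ww R q x) ≠ ww R q x := by
    rw [h.ww_map hσ, hσx, h.ww_fib q hx hy]
    intro h3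
    exact hne (mul_left_cancel₀ (hww0 x hx) (h3.trans (mul_one _).symm))
  have hσπ : σ (ww Γ (q * q) (γ x)) = ww Γ (q * q) (γ x) := by
    rw [hact.ww_map hσ, hγσ σ hσ, hσx, hγfib x hx y hy]
  have hππ := hact.ww_pow (q * q) (hγmem x hx)
  have hπ : ww Γ (q * q) (γ x) = 1 := by
    by_contra hπ1
    obtain ⟨ζ, hζq, hζ1, hσζ⟩ : ∃ ζ : K, ζ ^ q = 1 ∧ ζ ≠ 1 ∧ σ ζ = ζ := by
      by_cases h3 : ww Γ (q * q) (γ x) ^ q = 1
      · exact ⟨_, h3, hπ1, hσπ⟩
      · refine ⟨ww Γ (q * q) (γ x) ^ q, ?_, h3, ?_⟩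
        · rw [← pow_mul, hππ]
        · rw [map_pow, hσπ]
    haveI := Fact.mk hq
    have hord := orderOf_eq_prime hζq hζ1
    have hprim : IsPrimitiveRoot ζ q := IsPrimitiveRoot.iff_orderOf.mpr hord
    obtain ⟨i, _, hi⟩ := hprim.eq_pow_of_pow_eq_one (h.ww_pow q hx)
    apply hσw
    rw [← hi, map_pow, hσζ]
  have hΩ : ∀ g ∈ fib Γ (q * q) (γ x), g = γ x := by
    intro g hg
    rcases Nat.lt_or_ge t q with h3 | h3
    · have hc : Nat.Coprime t (q * q) := by
        have := (Nat.coprime_of_lt_prime (by omega) h3 hq).symm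
        exact Nat.Coprime.mul_right this this
      exact hact.fib_trivial (q * q) (hγmem x hx) hπ (hγmem x hx) g hg hc
    · have htq : t = q := le_antisymm htle h3
      have h4 := hact.ww_fib (q * q) (hγmem x hx) hg
      have hall : ww Γ (q * q) g = 1 := by
        obtain ⟨τ, hτ, hτg⟩ := hact.trans (γ x) (hγmem x hx) g (mem_fib.mp hg).1
        rw [← hτg, ← hact.ww_map hτ, hπ, map_one]
      rw [hall, hπ, one_mul, ← ht, htq] at h4
      obtain ⟨z, hz, rfl⟩ := Finset.mem_image.mp (mem_fib.mp hg).1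
      have hz0 : γ z ≠ 0 := hact.ne _ (hγmem z hz)
      have h5 : γ x ^ q = γ z ^ q := by
        rw [div_pow] at h4
        exact (div_eq_one_iff_eq (pow_ne_zero _ hz0)).mp h4.symm
      exact hγinj x hx z hz h5.symm
  ext z
  constructor
  · intro hz
    obtain ⟨hzR, hz2⟩ := mem_fib.mp hz
    have h3 : γ z ∈ fib Γ (q * q) (γ x) := by
      refine mem_fib.mpr ⟨hγmem z hzR, ?_⟩
      rw [pow_mul, pow_mul, hγpow z hzR, hγpow x hx, ← pow_mul, ← pow_mul, hz2]
    have h4 := hΩ _ h3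
    refine mem_fib.mpr ⟨hzR, ?_⟩
    rw [← hγpow z hzR, ← hγpow x hx, h4]
  · intro hz
    obtain ⟨hzR, hz2⟩ := mem_fib.mp hz
    refine mem_fib.mpr ⟨hzR, ?_⟩
    rw [pow_mul, pow_mul, hz2]

end Comb

end Pool.Agent.Lib.MP_7ab245_nt.Len
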