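import Mathlib
import Pool.Agent.Lib.MP_7ab245_nt.Few.Count

/-! The twisted congruence `∏ (X - w y * y ^ q) ≡ f mod q` (for `prime_package`). -/

set_option autoImplicit false

open Polynomial Finset

namespace Pool.Agent.Lib.MP_7ab245_nt.Len

open Few (QQ alg_QQ normal_QQ RR mem_RR card_RR)

lemma galois_QQ : IsGalois ℚ QQ := by
  have := normal_QQ
  have := alg_QQ
  exact {}

lemma rat_of_fixed (x : QQ) (h : ∀ σ : QQ ≃ₐ[ℚ] QQ, σ x = x) : ∃ a : ℚ, algebraMap ℚ QQ a = x := by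
  have := galois_QQ
  have h1 := (InfiniteGalois.mem_bot_iff_fixed (k := ℚ) x).mpr h
  exact IntermediateField.mem_bot.mp h1

lemma int_of_rat (a : ℚ) (h : IsIntegral ℤ (algebraMap ℚ QQ a)) : ∃ m : ℤ, (m : ℚ) = a := by
  have h1 : IsIntegral ℤ a := by
    obtain ⟨p, hp, hp2⟩ := h
    refine ⟨p, hp, (algebraMap ℚ QQ).injective ?_⟩
    rw [map_zero, ← hp2, hom_eval₂]
    congr 1
  obtain ⟨m, hm⟩ := IsIntegrallyClosed.isIntegral_iff.mp h1
  exact ⟨m, hm⟩

lemma int_of_fixed (x : QQ) (hint : IsIntegral ℤ x) (h : ∀ σ : QQ ≃ₐ[ℚ] QQ, σ x = x) :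
    ∃ m : ℤ, (m : QQ) = x := by
  obtain ⟨a, ha⟩ := rat_of_fixed x h
  rw [← ha] at hint
  obtain ⟨m, hm⟩ := int_of_rat a hint
  refine ⟨m, ?_⟩
  rw [← ha, ← hm]
  simp

lemma integral_RR {f : ℤ[X]} (hf : f.Monic) {x : QQ} (hx : x ∈ RR f) : IsIntegral ℤ x :=
  ⟨f, hf, (mem_RR hf).mp hx⟩

lemma aeval_apply_QQ (σ : QQ ≃ₐ[ℚ] QQ) (x : QQ) (f : ℤ[X]) : aeval (σ x) f = σ (aeval x f) := by
  have := aeval_algHom_apply (σ.toAlgHom.restrictScalars ℤ) x f
  simpa using this

lemma map_RR {f : ℤ[X]} (hf : f.Monic) (σ : QQ ≃ₐ[ℚ] QQ) {x : QQ} (hx : x ∈ RR f) :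
    σ x ∈ RR f := by
  rw [mem_RR hf] at hx ⊢
  rw [aeval_apply_QQ, hx, map_zero]

lemma image_RR [DecidableEq QQ] {f : ℤ[X]} (hf : f.Monic) (σ : QQ ≃ₐ[ℚ] QQ) :
    (RR f).image σ = RR f := by
  apply Finset.eq_of_subset_of_card_le
  · intro a ha
    obtain ⟨b, hb, rfl⟩ := Finset.mem_image.mp ha
    exact map_RR hf σ hb
  · rw [Finset.card_image_of_injective _ σ.injective]

/-- `f` is the product of the linear factors -/
lemma prod_RR {f : ℤ[X]} (hf : f.Monic) (hirr : Irreducible f) :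
    f.map (algebraMap ℤ QQ) = ∏ x ∈ RR f, (X - C x) := by
  classical
  have hirrQ : Irreducible (f.map (algebraMap ℤ ℚ)) :=
    (hf.irreducible_iff_irreducible_map_fraction_map (K := ℚ)).mp hirr
  have hsep := hirrQ.separable.map (f := algebraMap ℚ QQ)
  rw [Polynomial.map_map] at hsep
  have heq : (algebraMap ℚ QQ).comp (algebraMap ℤ ℚ) = algebraMap ℤ QQ := RingHom.ext_int _ _
  rw [heq] at hsep
  have hsplit : (f.map (algebraMap ℤ QQ)).Splits := IsAlgClosed.splits _
  have h1 := hsplit.eq_prod_roots_of_monic (hf.map (algebraMap ℤ QQ))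
  have h2 : (RR f).val = (f.map (algebraMap ℤ QQ)).roots := by
    unfold RR
    rw [Multiset.toFinset_val, Multiset.dedup_eq_self]
    exact nodup_roots hsep
  conv_lhs => rw [h1]
  rw [← h2]
  rfl

lemma lift_poly (B : QQ[X]) (hint : ∀ m, IsIntegral ℤ (B.coeff m))
    (hfix : ∀ σ : QQ ≃ₐ[ℚ] QQ, B.map (σ : QQ →+* QQ) = B) :
    ∃ B0 : ℤ[X], B0.map (algebraMap ℤ QQ) = B := by
  have h1 : B ∈ Polynomial.lifts (algebraMap ℤ QQ) := by
    rw [Polynomial.lifts_iff_coeff_lifts]
    intro m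
    obtain ⟨a, ha⟩ := int_of_fixed (B.coeff m) (hint m) (by
      intro σ
      have := congrArg (fun p => p.coeff m) (hfix σ)
      simpa using this)
    exact ⟨a, by simpa using ha⟩
  rw [Polynomial.mem_lifts] at h1
  exact h1

lemma integral_coeff_prod (S : Finset QQ) (g : QQ → QQ) (hg : ∀ x ∈ S, IsIntegral ℤ (g x)) :
    ∀ m, IsIntegral ℤ ((∏ x ∈ S, (X - C (g x))).coeff m) := by
  have h : ∏ x ∈ S, (X - C (g x)) ∈
      Polynomial.lifts (algebraMap (integralClosure ℤ QQ) QQ) := by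
    apply Subsemiring.prod_mem
    intro x hx
    refine ⟨X - C (⟨g x, hg x hx⟩ : integralClosure ℤ QQ), ?_⟩
    simp
  intro m
  obtain ⟨a, ha⟩ := (Polynomial.lifts_iff_coeff_lifts _).mp h m
  rw [← ha]
  exact a.2

/-- a maximal ideal above `q`: a ring hom from the algebraic integers to a field of
characteristic `q` -/
lemma exists_residue (q : ℕ) (hq : q.Prime) :
    ∃ (k : Type) (_ : Field k) (_ : CharP k q), Nonempty (integralClosure ℤ QQ →+* k) := by
  set Z := integralClosure ℤ QQ with hZ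
  have hI : Ideal.span {(q : Z)} ≠ ⊤ := by
    intro h
    rw [Ideal.span_singleton_eq_top] at h
    obtain ⟨a, ha⟩ := isUnit_iff_exists_inv.mp h
    have h1 : (q : QQ) * (a : QQ) = 1 := by
      have := congrArg (fun z : Z => (z : QQ)) ha
      simpa using this
    have hq0 : (q : QQ) ≠ 0 := Nat.cast_ne_zero.mpr hq.ne_zero
    have h2 : (a : QQ) = algebraMap ℚ QQ (1 / (q : ℚ)) := by
      rw [map_div₀, map_one, map_natCast]
      field_simp
      rw [mul_comm]; exact h1
    have h3 : IsIntegral ℤ (a : QQ) := a.2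
    rw [h2] at h3
    obtain ⟨m, hm⟩ := int_of_rat _ h3
    have hq0' : (q : ℚ) ≠ 0 := Nat.cast_ne_zero.mpr hq.ne_zero
    have h4 : (m : ℚ) * q = 1 := by rw [hm]; field_simp
    have h5 : m * (q : ℤ) = 1 := by exact_mod_cast h4
    have h6 : (q : ℤ) ∣ 1 := ⟨m, by rw [← h5]; ring⟩
    have h7 : q ∣ 1 := by exact_mod_cast h6
    exact hq.one_lt.ne' (Nat.dvd_one.mp h7)
  obtain ⟨M, hM, hle⟩ := Ideal.exists_le_maximal _ hI
  let _ : Field (Z ⧸ M) := Ideal.Quotient.field M
  refine ⟨Z ⧸ M, inferInstance, ?_, ⟨Ideal.Quotient.mk M⟩⟩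
  obtain ⟨p, hp⟩ := CharP.exists (Z ⧸ M)
  have h1 : ((q : ℕ) : Z ⧸ M) = 0 := by
    have h2 : (Ideal.Quotient.mk M) (q : Z) = 0 :=
      Ideal.Quotient.eq_zero_iff_mem.mpr (hle (Ideal.mem_span_singleton_self _))
    rw [map_natCast] at h2
    exact h2
  have h2 : p ∣ q := (CharP.cast_eq_zero_iff (Z ⧸ M) p q).mp h1
  rcases (Nat.dvd_prime hq).mp h2 with h3 | h3
  · exact absurd h3 (CharP.char_ne_one (Z ⧸ M) p)
  · rw [← h3]; exact hp

theorem twisted_congr (f : ℤ[X]) (hf : f.Monic) (hirr : Irreducible f) (q : ℕ) (hq : q.Prime)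
    (w : QQ → QQ) (hw : ∀ x ∈ RR f, w x ^ q = 1)
    (hσ : ∀ σ : QQ ≃ₐ[ℚ] QQ, ∀ x ∈ RR f, σ (w x) = w (σ x)) :
    ∃ B0 u : ℤ[X], B0.map (algebraMap ℤ QQ) = ∏ y ∈ RR f, (X - C (w y * y ^ q)) ∧
      B0 = f + C (q : ℤ) * u := by
  classical
  have hwint : ∀ x ∈ RR f, IsIntegral ℤ (w x) := by
    intro x hx
    refine IsIntegral.of_pow hq.pos ?_
    rw [hw x hx]
    exact isIntegral_one
  have hint : ∀ x ∈ RR f, IsIntegral ℤ (w x * x ^ q) := fun x hx =>
    (hwint x hx).mul ((integral_RR hf hx).pow q)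
  obtain ⟨B0, hB0⟩ := lift_poly (∏ y ∈ RR f, (X - C (w y * y ^ q)))
    (integral_coeff_prod (RR f) _ hint) (by
      intro σ
      rw [Polynomial.map_prod]
      have h1 : ∀ y ∈ RR f, (X - C (w y * y ^ q) : QQ[X]).map (σ : QQ →+* QQ) =
          X - C (w (σ y) * (σ y) ^ q) := by
        intro y hy
        rw [Polynomial.map_sub, Polynomial.map_X, Polynomial.map_C]
        congr 2
        rw [← hσ σ y hy]
        simp
      rw [Finset.prod_congr rfl h1, ← Finset.prod_image
        (f := fun z => (X - C (w z * z ^ q) : QQ[X])) (s := RR f) (g := fun y => σ y)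
        (fun a _ b _ hab => σ.injective hab)]
      congr 1
      exact image_RR hf σ)
  obtain ⟨k, _, _, ⟨π⟩⟩ := exists_residue q hq
  have := Fact.mk hq
  -- lifts to the ring of integers
  set L : QQ → integralClosure ℤ QQ := fun x => if h : IsIntegral ℤ x then ⟨x, h⟩ else 0
    with hL
  have hLval : ∀ x, IsIntegral ℤ x → (L x : QQ) = x := by
    intro x hx
    simp only [hL, dif_pos hx]
  have hcoe : Function.Injective (algebraMap (integralClosure ℤ QQ) QQ) :=
    Subtype.coe_injective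
  have hfZ : f.map (algebraMap ℤ (integralClosure ℤ QQ)) = ∏ x ∈ RR f, (X - C (L x)) := by
    apply Polynomial.map_injective _ hcoe
    rw [Polynomial.map_map, Polynomial.map_prod]
    have e1 : (algebraMap (integralClosure ℤ QQ) QQ).comp (algebraMap ℤ (integralClosure ℤ QQ)) =
        algebraMap ℤ QQ := RingHom.ext_int _ _
    rw [e1, prod_RR hf hirr]
    apply Finset.prod_congr rfl
    intro x hx
    rw [Polynomial.map_sub, Polynomial.map_X, Polynomial.map_C]
    congr 2
    exact (hLval x (integral_RR hf hx)).symm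
  have hBZ : B0.map (algebraMap ℤ (integralClosure ℤ QQ)) =
      ∏ x ∈ RR f, (X - C (L (w x) * L x ^ q)) := by
    apply Polynomial.map_injective _ hcoe
    rw [Polynomial.map_map, Polynomial.map_prod]
    have e1 : (algebraMap (integralClosure ℤ QQ) QQ).comp (algebraMap ℤ (integralClosure ℤ QQ)) =
        algebraMap ℤ QQ := RingHom.ext_int _ _
    rw [e1, hB0]
    apply Finset.prod_congr rfl
    intro x hx
    have h1 : algebraMap (integralClosure ℤ QQ) QQ (L (w x) * L x ^ q) = w x * x ^ q := by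
      rw [map_mul, map_pow]
      have h2 := hLval _ (hwint x hx)
      have h3 := hLval x (integral_RR hf hx)
      exact congrArg₂ (fun a b : QQ => a * b ^ q) h2 h3
    rw [Polynomial.map_sub, Polynomial.map_X, Polynomial.map_C, h1]
  have hkw : ∀ x ∈ RR f, π (L (w x)) = 1 := by
    intro x hx
    have h1 : (L (w x)) ^ q = 1 := by
      apply hcoe
      rw [map_pow, map_one]
      have := hLval _ (hwint x hx)
      rw [← hw x hx]
      exact congrArg (fun z : QQ => z ^ q) this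
    have h2 : (π (L (w x))) ^ q = 1 := by rw [← map_pow, h1, map_one]
    have h3 : frobenius k q (π (L (w x))) = frobenius k q 1 := by
      rw [frobenius_def, frobenius_def, h2, one_pow]
    exact (frobenius_inj k q) h3
  have hmod : B0.map (Int.castRingHom k) = f.map (Int.castRingHom k) := by
    have e2 : π.comp (algebraMap ℤ (integralClosure ℤ QQ)) = Int.castRingHom k :=
      RingHom.ext_int _ _
    have e3 : (frobenius k q).comp (Int.castRingHom k) = Int.castRingHom k :=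
      RingHom.ext_int _ _
    calc B0.map (Int.castRingHom k) = (B0.map (algebraMap ℤ (integralClosure ℤ QQ))).map π := by
          rw [Polynomial.map_map, e2]
      _ = ∏ x ∈ RR f, (X - C (frobenius k q (π (L x)))) := by
          rw [hBZ, Polynomial.map_prod]
          apply Finset.prod_congr rfl
          intro x hx
          rw [Polynomial.map_sub, Polynomial.map_X, Polynomial.map_C, map_mul, map_pow,
            hkw x hx, one_mul, frobenius_def]
      _ = ((f.map (algebraMap ℤ (integralClosure ℤ QQ))).map π).map (frobenius k q) := by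
          rw [hfZ, Polynomial.map_prod, Polynomial.map_prod]
          apply Finset.prod_congr rfl
          intro x hx
          rw [Polynomial.map_sub, Polynomial.map_X, Polynomial.map_C, Polynomial.map_sub,
            Polynomial.map_X, Polynomial.map_C]
      _ = f.map (Int.castRingHom k) := by
          rw [Polynomial.map_map, Polynomial.map_map, RingHom.comp_assoc, e2, e3]
  have hdvd : C (q : ℤ) ∣ B0 - f := by
    rw [Polynomial.C_dvd_iff_dvd_coeff]
    intro m
    rw [← CharP.intCast_eq_zero_iff k q]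
    have := congrArg (fun p => p.coeff m) hmod
    simp only [coeff_map] at this
    rw [coeff_sub, Int.cast_sub]
    exact sub_eq_zero.mpr this
  obtain ⟨u, hu⟩ := hdvd
  exact ⟨B0, u, hB0, by rw [← hu]; ring⟩

/-- a product over a Galois-stable family of algebraic integers is an integer -/
lemma int_of_prod_RR (f : ℤ[X]) (hf : f.Monic) (g : QQ → QQ)
    (hint : ∀ x ∈ RR f, IsIntegral ℤ (g x))
    (hσ : ∀ σ : QQ ≃ₐ[ℚ] QQ, ∀ x ∈ RR f, σ (g x) = g (σ x)) :
    ∃ m : ℤ, (m : QQ) = ∏ x ∈ RR f, g x := by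
  classical
  apply int_of_fixed
  · exact IsIntegral.prod _ hint
  · intro σ
    rw [map_prod, Finset.prod_congr rfl (fun x hx => hσ σ x hx), ← Finset.prod_image
      (f := g) (s := RR f) (g := fun y => σ y) (fun a _ b _ hab => σ.injective hab)]
    congr 1
    exact image_RR hf σ

/-- lower bound for the twisted resultant -/
theorem twisted_bound (f : ℤ[X]) (hf : f.Monic) (hirr : Irreducible f) (q : ℕ) (hq : q.Prime)
    (w : QQ → QQ) (hw : ∀ x ∈ RR f, w x ^ q = 1)
    (hσ : ∀ σ : QQ ≃ₐ[ℚ] QQ, ∀ x ∈ RR f, σ (w x) = w (σ x))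
    (hne : ∀ x ∈ RR f, ∀ y ∈ RR f, x ≠ w y * y ^ q) (ι : QQ →+* ℂ) :
    (q : ℝ) ^ (RR f).card ≤ ∏ x ∈ RR f, ∏ y ∈ RR f, ‖ι x - ι (w y) * ι y ^ q‖ := by
  obtain ⟨B0, u, hB0, hBu⟩ := twisted_congr f hf hirr q hq w hw hσ
  have hB0x : ∀ x, aeval x B0 = ∏ y ∈ RR f, (x - w y * y ^ q) := by
    intro x
    have h1 : aeval x B0 = (B0.map (algebraMap ℤ QQ)).eval x := by
      rw [eval_map]; rfl
    rw [h1, hB0, eval_prod]
    simp
  have hux : ∀ x ∈ RR f, aeval x B0 = (q : QQ) * aeval x u := by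
    intro x hx
    rw [hBu, map_add, map_mul, (mem_RR hf).mp hx, zero_add]
    simp
  obtain ⟨m, hm⟩ := int_of_prod_RR f hf (fun x => aeval x u)
    (fun x hx => by
      have h1 := (aeval (⟨x, integral_RR hf hx⟩ : integralClosure ℤ QQ) u).2
      have h2 := aeval_algebraMap_apply QQ (⟨x, integral_RR hf hx⟩ : integralClosure ℤ QQ) u
      have h3 : algebraMap (integralClosure ℤ QQ) QQ ⟨x, integral_RR hf hx⟩ = x := rfl
      rw [h3] at h2
      rw [h2]
      exact h1)
    (fun σ x _ => (aeval_apply_QQ σ x u).symm)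
  have hprod : ∏ x ∈ RR f, ∏ y ∈ RR f, (x - w y * y ^ q) = (q : QQ) ^ (RR f).card * (m : QQ) := by
    rw [hm, ← Finset.prod_const, ← Finset.prod_mul_distrib]
    apply Finset.prod_congr rfl
    intro x hx
    rw [← hB0x, hux x hx]
  have hne0 : ∏ x ∈ RR f, ∏ y ∈ RR f, (x - w y * y ^ q) ≠ 0 := by
    rw [Finset.prod_ne_zero_iff]
    intro x hx
    rw [Finset.prod_ne_zero_iff]
    intro y hy
    exact sub_ne_zero.mpr (hne x hx y hy)
  have hm0 : m ≠ 0 := by
    rintro rfl
    apply hne0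
    rw [hprod]; simp
  have h2 : ∏ x ∈ RR f, ∏ y ∈ RR f, ‖ι x - ι (w y) * ι y ^ q‖ =
      ‖ι (∏ x ∈ RR f, ∏ y ∈ RR f, (x - w y * y ^ q))‖ := by
    rw [map_prod, norm_prod]
    apply Finset.prod_congr rfl
    intro x _
    rw [map_prod, norm_prod]
    apply Finset.prod_congr rfl
    intro y _
    rw [map_sub, map_mul, map_pow]
  rw [h2, hprod, map_mul, map_pow, map_natCast, map_intCast, norm_mul, norm_pow]
  have h3 : (1 : ℝ) ≤ ‖((m : ℤ) : ℂ)‖ := by
    rw [Complex.norm_intCast]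
    exact_mod_cast Int.one_le_abs hm0
  have h4 : ‖((q : ℕ) : ℂ)‖ = (q : ℝ) := by simp
  rw [h4]
  have h5 : (0 : ℝ) ≤ (q : ℝ) ^ (RR f).card := by positivity
  nlinarith

end Pool.Agent.Lib.MP_7ab245_nt.Len
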