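import Mathlib
import Pool.Agent.Lib.MP_7ab245_nt.Few.Count
import Pool.Agent.Lib.MP_7ab245_nt.Len.Defs
import Pool.Agent.Lib.MP_7ab245_nt.Len.ArithComb
import Pool.Agent.Lib.MP_7ab245_nt.Len.ArithCongr

/-! The arithmetic package for one odd prime. -/

set_option autoImplicit false

open Polynomial Finset

namespace Pool.Agent.Lib.MP_7ab245_nt.Len

open Few (QQ alg_QQ normal_QQ RR mem_RR card_RR)

lemma mahler_eq_one (f : ℤ[X]) (hf : f.Monic) (h : ∀ z : ℂ, aeval z f = 0 → ‖z‖ ≤ 1) :
    (f.map (Int.castRingHom ℂ)).mahlerMeasure = 1 := by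
  have hm : (f.map (Int.castRingHom ℂ)).Monic := hf.map _
  rw [mahlerMeasure_eq_leadingCoeff_mul_prod_roots, hm.leadingCoeff, norm_one, one_mul]
  apply Multiset.prod_eq_one
  intro r hr
  obtain ⟨z, hz, rfl⟩ := Multiset.mem_map.mp hr
  rw [mem_roots hm.ne_zero, IsRoot.def, eval_map] at hz
  exact max_eq_left (h z hz)

lemma not_torsion (f : ℤ[X]) (hf : f.Monic) (hirr : Irreducible f)
    (hM : 1 < (f.map (Int.castRingHom ℂ)).mahlerMeasure) {x : QQ} (hx : x ∈ RR f) :
    x ≠ 0 ∧ ∀ m : ℕ, 0 < m → x ^ m ≠ 1 := by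
  have hroot := (mem_RR hf).mp hx
  constructor
  · rintro rfl
    have h1 : f ∣ X := Few.dvd_of_root' f hf hirr 0 hroot X (by simp)
    obtain ⟨g, hg⟩ := h1
    have := mahler_eq_one f hf (fun z hz => by
      have h2 := congrArg (fun p => aeval z p) hg
      simp only [map_mul, hz, zero_mul, aeval_X] at h2
      rw [h2]; simp)
    linarith
  · intro m hm h1
    have h2 : f ∣ X ^ m - 1 := Few.dvd_of_root' f hf hirr x hroot _ (by simp [h1])
    obtain ⟨g, hg⟩ := h2
    have := mahler_eq_one f hf (fun z hz => by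
      have h2 := congrArg (fun p => aeval z p) hg
      simp only [map_mul, hz, zero_mul, map_sub, map_pow, aeval_X, map_one] at h2
      have h3 : z ^ m = 1 := sub_eq_zero.mp h2
      exact (Complex.norm_eq_one_of_pow_eq_one h3 hm.ne').le)
    linarith

lemma exists_emb : Nonempty (QQ →+* ℂ) := by
  have := alg_QQ
  exact ⟨(IsAlgClosed.lift (R := ℚ) (S := QQ) (M := ℂ) : QQ →ₐ[ℚ] ℂ).toRingHom⟩

lemma exists_conj (f : ℤ[X]) (hf : f.Monic) (hirr : Irreducible f) {x y : QQ} (hx : x ∈ RR f)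
    (hy : y ∈ RR f) : ∃ σ : QQ ≃ₐ[ℚ] QQ, σ x = y := by
  have hnorm : Normal ℚ QQ := normal_QQ
  have hmin : ∀ z : QQ, aeval z f = 0 → minpoly ℚ z = f.map (algebraMap ℤ ℚ) := by
    intro z hz
    have h1 := Few.eq_minpoly_of_root' f hf hirr z hz
    have hint : IsIntegral ℤ z := ⟨f, hf, hz⟩
    rw [h1]
    exact minpoly.isIntegrallyClosed_eq_field_fractions' ℚ hint
  have hconj : IsConjRoot ℚ y x := by
    rw [IsConjRoot, hmin x ((mem_RR hf).mp hx), hmin y ((mem_RR hf).mp hy)]
  obtain ⟨σ, hσ⟩ := isConjRoot_iff_exists_algEquiv.mp hconj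
  exact ⟨σ, hσ⟩

/-- the Galois group, as ring endomorphisms -/
def GG : Set (QQ →+* QQ) := Set.range (fun σ : QQ ≃ₐ[ℚ] QQ => (σ : QQ →+* QQ))

lemma act_RR (f : ℤ[X]) (hf : f.Monic) (hirr : Irreducible f)
    (hM : 1 < (f.map (Int.castRingHom ℂ)).mahlerMeasure) : Act (RR f) GG := by
  refine ⟨fun x hx => (not_torsion f hf hirr hM hx).1, ?_, ?_⟩
  · rintro _ ⟨σ, rfl⟩ x hx
    exact map_RR hf σ hx
  · intro x hx y hy
    obtain ⟨σ, hσ⟩ := exists_conj f hf hirr hx hy
    exact ⟨_, ⟨σ, rfl⟩, hσ⟩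

lemma roots_transfer (f : ℤ[X]) (hf : f.Monic) (hirr : Irreducible f) {n : ℕ} (α : Fin n → ℂ)
    (hα : IsRoots f α) (ι : QQ →+* ℂ) :
    (Finset.univ : Finset (Fin n)).val.map α = (RR f).val.map ι := by
  have h1 : f.map (Int.castRingHom ℂ) = ((RR f).val.map ι |>.map fun a => X - C a).prod := by
    have h2 : (f.map (algebraMap ℤ QQ)).map ι = f.map (Int.castRingHom ℂ) := by
      rw [Polynomial.map_map]
      congr 1
      exact RingHom.ext_int _ _
    rw [← h2, prod_RR hf hirr, Polynomial.map_prod, Multiset.map_map]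
    change ∏ x ∈ RR f, _ = ∏ x ∈ RR f, _
    apply Finset.prod_congr rfl
    intro x _
    simp
  have h3 : f.map (Int.castRingHom ℂ) =
      ((Finset.univ : Finset (Fin n)).val.map α |>.map fun a => X - C a).prod := by
    rw [hα, Multiset.map_map]
    rfl
  rw [← roots_multiset_prod_X_sub_C ((Finset.univ : Finset (Fin n)).val.map α), ← h3, h1,
    roots_multiset_prod_X_sub_C]

lemma prod_transfer (f : ℤ[X]) (hf : f.Monic) (hirr : Irreducible f) {n : ℕ} (α : Fin n → ℂ)
    (hα : IsRoots f α) (ι : QQ →+* ℂ) (F : ℂ → ℝ) :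
    ∏ i, F (α i) = ∏ x ∈ RR f, F (ι x) := by
  have h := congrArg (fun s => (Multiset.map F s).prod) (roots_transfer f hf hirr α hα ι)
  simp only [Multiset.map_map] at h
  exact h

lemma exists_of_root (f : ℤ[X]) (hf : f.Monic) (hirr : Irreducible f) {n : ℕ} (α : Fin n → ℂ)
    (hα : IsRoots f α) (ι : QQ →+* ℂ) (i : Fin n) : ∃ x ∈ RR f, ι x = α i := by
  have h : α i ∈ (Finset.univ : Finset (Fin n)).val.map α :=
    Multiset.mem_map_of_mem _ (Finset.mem_univ i)
  rw [roots_transfer f hf hirr α hα ι, Multiset.mem_map] at h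
  exact h

lemma exists_of_aeval (f : ℤ[X]) (hf : f.Monic) (hirr : Irreducible f) (ι : QQ →+* ℂ) (z : ℂ)
    (hz : aeval z f = 0) : ∃ x ∈ RR f, ι x = z := by
  have h2 : (f.map (algebraMap ℤ QQ)).map ι = f.map (Int.castRingHom ℂ) := by
    rw [Polynomial.map_map]
    congr 1
    exact RingHom.ext_int _ _
  have h1 : (f.map (Int.castRingHom ℂ)).eval z = 0 := by
    rw [eval_map]; exact hz
  rw [← h2, prod_RR hf hirr, Polynomial.map_prod, eval_prod, Finset.prod_eq_zero_iff] at h1
  obtain ⟨x, hx, hx2⟩ := h1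
  refine ⟨x, hx, ?_⟩
  simp only [Polynomial.map_sub, Polynomial.map_X, Polynomial.map_C, eval_sub, eval_X,
    eval_C] at hx2
  exact (sub_eq_zero.mp hx2).symm

lemma card_transfer (f : ℤ[X]) (hf : f.Monic) (hirr : Irreducible f) {n : ℕ} (α : Fin n → ℂ)
    (ι : QQ →+* ℂ) (N : ℕ) (hN : 0 < N) (i : Fin n) (x : QQ)
    (hx0 : x ≠ 0) (hxi : ι x = α i) :
    ((nthRootsFinset N (1 : ℂ)).filter fun ω => aeval (ω * α i) f = 0).card =
      (fib (RR f) N x).card := by
  classical
  have hιx : ι x ≠ 0 := fun h => hx0 (ι.injective (by rw [h, map_zero]))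
  symm
  apply Finset.card_bij (fun y _ => ι y / ι x)
  · intro y hy
    obtain ⟨hyR, hy2⟩ := mem_fib.mp hy
    rw [Finset.mem_filter, mem_nthRootsFinset hN]
    constructor
    · rw [div_pow, ← map_pow, ← map_pow, hy2]
      exact div_self (by rw [map_pow]; exact pow_ne_zero _ hιx)
    · rw [← hxi, div_mul_cancel₀ _ hιx]
      have h1 := (mem_RR hf).mp hyR
      have h2 := congrArg ι h1
      rw [map_zero] at h2
      have h3 := aeval_algHom_apply (ι.toIntAlgHom) y f
      rw [h1, map_zero] at h3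
      exact h3
  · intro a _ b _ hab
    have h1 := (div_left_inj' hιx).mp hab
    exact ι.injective h1
  · intro ω hω
    rw [Finset.mem_filter, mem_nthRootsFinset hN] at hω
    obtain ⟨y, hy, hy2⟩ := exists_of_aeval f hf hirr ι _ hω.2
    refine ⟨y, mem_fib.mpr ⟨hy, ι.injective ?_⟩, ?_⟩
    · rw [map_pow, map_pow, hy2, mul_pow, hω.1, one_mul, hxi]
    · rw [hy2, hxi, mul_div_cancel_right₀]
      rw [← hxi]; exact hιx

/-- if the fibre of the `q`-th power map is full, `f` is a polynomial in `X ^ q` -/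
lemma expand_of_full (f : ℤ[X]) (hf : f.Monic) (hirr : Irreducible f)
    (hM : 1 < (f.map (Int.castRingHom ℂ)).mahlerMeasure) (q : ℕ) (hq : q.Prime)
    (x0 : QQ) (hx0 : x0 ∈ RR f) (hfull : q ≤ (fib (RR f) q x0).card) :
    ∃ g : ℤ[X], f = expand ℤ q g := by
  classical
  have hact := act_RR f hf hirr hM
  obtain ⟨y, hy, hyx⟩ : ∃ y ∈ fib (RR f) q x0, y ≠ x0 := by
    by_contra hcon
    push Not at hcon
    have : (fib (RR f) q x0).card ≤ 1 := by
      rw [Finset.card_le_one]
      intro a ha b hb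
      rw [hcon a ha, hcon b hb]
    have := hq.two_le
    omega
  have hx00 := hact.ne x0 hx0
  set ζ := y / x0 with hζ
  have hζq : ζ ^ q = 1 := by
    rw [hζ, div_pow, (mem_fib.mp hy).2]
    exact div_self (pow_ne_zero _ hx00)
  have hζ1 : ζ ≠ 1 := by
    intro h
    exact hyx ((div_eq_one_iff_eq hx00).mp h)
  have hζ0 : ζ ≠ 0 := by
    intro h
    rw [h, zero_pow hq.ne_zero] at hζq
    exact zero_ne_one hζq
  have := Fact.mk hq
  have hord := orderOf_eq_prime hζq hζ1
  have hprim : IsPrimitiveRoot ζ q := IsPrimitiveRoot.iff_orderOf.mpr hord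
  -- stability
  have hstab : ∀ z ∈ RR f, ζ * z ∈ RR f := by
    intro z hz
    have h1 : (fib (RR f) q z).card = (fib (RR f) q x0).card := hact.card_fib q hz hx0
    have h2 : fib (RR f) q z ⊆ (nthRoots q (z ^ q)).toFinset := by
      intro a ha
      rw [Multiset.mem_toFinset, mem_nthRoots hq.pos]
      exact (mem_fib.mp ha).2
    have h3 : (nthRoots q (z ^ q)).toFinset.card ≤ q :=
      (Multiset.toFinset_card_le _).trans (card_nthRoots _ _)
    have h4 : fib (RR f) q z = (nthRoots q (z ^ q)).toFinset :=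
      Finset.eq_of_subset_of_card_le h2 (by omega)
    have h5 : ζ * z ∈ (nthRoots q (z ^ q)).toFinset := by
      rw [Multiset.mem_toFinset, mem_nthRoots hq.pos, mul_pow, hζq, one_mul]
    rw [← h4] at h5
    exact (mem_fib.mp h5).1
  have himg : (RR f).image (fun z => ζ * z) = RR f := by
    apply Finset.eq_of_subset_of_card_le
    · intro a ha
      obtain ⟨b, hb, rfl⟩ := Finset.mem_image.mp ha
      exact hstab b hb
    · rw [Finset.card_image_of_injective _ (mul_right_injective₀ hζ0)]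
  set p := f.map (algebraMap ℤ QQ) with hp
  have hpprod := prod_RR hf hirr
  have hcomp : p.comp (C ζ * X) = C (ζ ^ (RR f).card) * p := by
    rw [hp, hpprod, Polynomial.prod_comp]
    have h1 : ∏ z ∈ RR f, (X - C z : QQ[X]).comp (C ζ * X) =
        ∏ z ∈ (RR f).image (fun z => ζ * z), (X - C z : QQ[X]).comp (C ζ * X) := by
      rw [himg]
    rw [h1, Finset.prod_image (fun a _ b _ hab => mul_right_injective₀ hζ0 hab), map_pow,
      ← Finset.prod_const, ← Finset.prod_mul_distrib]
    apply Finset.prod_congr rfl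
    intro z _
    rw [sub_comp, X_comp, C_comp, C_mul, mul_sub]
  have hcoeff : ∀ m, p.coeff m * ζ ^ m = ζ ^ (RR f).card * p.coeff m := by
    intro m
    have := congrArg (fun r => r.coeff m) hcomp
    simp only [comp_C_mul_X_coeff, coeff_C_mul] at this
    exact this
  have hp0 : p.coeff 0 ≠ 0 := by
    rw [hp, hpprod, coeff_zero_eq_eval_zero, eval_prod, Finset.prod_ne_zero_iff]
    intro z hz
    simpa using hact.ne z hz
  have hζn : ζ ^ (RR f).card = 1 := by
    have h1 := hcoeff 0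
    rw [pow_zero, mul_one] at h1
    exact mul_right_cancel₀ hp0 (by rw [one_mul]; exact h1.symm)
  refine ⟨contract q f, (Few.expand_contract_of_dvd hq.pos f ?_).symm⟩
  intro m hm
  rw [mem_support_iff] at hm
  have h1 : p.coeff m ≠ 0 := by
    rw [hp, coeff_map]
    simpa using hm
  have h2 := hcoeff m
  rw [hζn, one_mul] at h2
  have h3 : ζ ^ m = 1 := mul_left_cancel₀ h1 (by rw [mul_one]; exact h2)
  exact (hprim.pow_eq_one_iff_dvd m).mp h3

lemma prod_range_eq {K : Type*} [Field K] {ζ : K} {q : ℕ} (hq : 0 < q) (h : IsPrimitiveRoot ζ q)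
    (x y : K) : ∏ t ∈ Finset.range q, (x - ζ ^ t * y) = x ^ q - y ^ q := by
  classical
  rw [h.pow_sub_pow_eq_prod_sub_mul x y hq]
  have h1 : (Finset.range q).image (fun t => ζ ^ t) = nthRootsFinset q (1 : K) := by
    apply Finset.eq_of_subset_of_card_le
    · intro a ha
      obtain ⟨t, _, rfl⟩ := Finset.mem_image.mp ha
      rw [mem_nthRootsFinset hq, ← pow_mul, mul_comm, pow_mul, h.pow_eq_one, one_pow]
    · rw [h.card_nthRootsFinset, Finset.card_image_of_injOn, Finset.card_range]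
      intro a ha b hb hab
      exact h.pow_inj (Finset.mem_range.mp ha) (Finset.mem_range.mp hb) hab
  rw [← h1, Finset.prod_image]
  intro a ha b hb hab
  exact h.pow_inj (Finset.mem_range.mp ha) (Finset.mem_range.mp hb) hab

/-- the package for one odd prime: `c = 1` (the `q`-th powers of the roots are distinct) or
`c = q` (they are not, but `f` is not a polynomial in `X ^ q`) -/
theorem prime_package (f : ℤ[X]) (hf : f.Monic) (hirr : Irreducible f)
    (hM : 1 < (f.map (Int.castRingHom ℂ)).mahlerMeasure) {n : ℕ} (α : Fin n → ℂ)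
    (hα : IsRoots f α) (q : ℕ) (hq : q.Prime) (hq2 : q ≠ 2)
    (hexp : ¬ ∃ g : ℤ[X], f = expand ℤ q g) :
    ∃ c : ℕ, (c = 1 ∨ c = q) ∧
      (q : ℝ) ^ (c * n) ≤ ∏ i, ∏ j, ‖α i ^ c - α j ^ (q * c)‖ ∧
      ∃ r : ℕ, 0 < r ∧ r ≤ c ∧ ∀ i, ((nthRootsFinset (q * c) (1 : ℂ)).filter
        fun ω => aeval (ω * α i) f = 0).card = r := by
  classical
  obtain ⟨ι⟩ := exists_emb
  have hact := act_RR f hf hirr hM
  have hcardR : (RR f).card = n := by
    have := congrArg Multiset.card (roots_transfer f hf hirr α hα ι)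
    simpa using this.symm
  have hRpos : 0 < (RR f).card := by
    rw [card_RR hf hirr]
    rcases Nat.eq_zero_or_pos f.natDegree with h1 | h1
    · exfalso
      have := hf.natDegree_eq_zero.mp h1
      rw [this] at hirr
      exact not_irreducible_one hirr
    · exact h1
  obtain ⟨x0, hx0⟩ := Finset.card_pos.mp hRpos
  -- torsion
  have hpow : ∀ x ∈ RR f, ∀ y ∈ RR f, ∀ a b : ℕ, a ≠ b → x ^ a ≠ y ^ b := by
    intro x hx y hy a b hab h
    obtain ⟨hx1, hx2⟩ := not_torsion f hf hirr hM hx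
    obtain ⟨m, hm, hm1⟩ := Few.torsion_of_pow_eq f hf hirr x y ((mem_RR hf).mp hx)
      ((mem_RR hf).mp hy) hx1 a b hab h
    exact hx2 m hm hm1
  set r := (fib (RR f) q x0).card with hr
  have hr1 : 0 < r := Finset.card_pos.mpr ⟨x0, self_mem_fib hx0⟩
  have htrans : ∀ N : ℕ, 0 < N → ∀ i, ((nthRootsFinset N (1 : ℂ)).filter
        fun ω => aeval (ω * α i) f = 0).card = (fib (RR f) N x0).card := by
    intro N hN i
    obtain ⟨x, hx, hxi⟩ := exists_of_root f hf hirr α hα ι i
    rw [card_transfer f hf hirr α ι N hN i x (hact.ne x hx) hxi, hact.card_fib N hx hx0]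
  rcases Nat.lt_or_ge r q with hrq | hrq
  swap
  · exact absurd (expand_of_full f hf hirr hM q hq x0 hx0 hrq) hexp
  rcases Nat.lt_or_ge 1 r with h1r | h1r
  · -- the bad case
    refine ⟨q, Or.inr rfl, ?_, r, hr1, hrq.le, ?_⟩
    swap
    · intro i
      rw [htrans (q * q) (Nat.mul_pos hq.pos hq.pos) i, hact.fib_sq q hq hx0 h1r hrq]
    have hcard : ∀ x ∈ RR f, (fib (RR f) q x).card = r := fun x hx => hact.card_fib q hx hx0
    have hprim : ∀ y ∈ RR f, IsPrimitiveRoot (ww (RR f) q y) q := by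
      intro y hy
      have h2 := hact.ww_ne_one q hq hy (by rw [hcard y hy]; exact h1r)
        (by rw [hcard y hy]; exact hrq)
      have := Fact.mk hq
      exact IsPrimitiveRoot.iff_orderOf.mpr (orderOf_eq_prime (hact.ww_pow q hy) h2)
    have hbound : ∀ t ∈ Finset.range q, (q : ℝ) ^ (RR f).card ≤
        ∏ x ∈ RR f, ∏ y ∈ RR f, ‖ι x - ι (ww (RR f) q y ^ t) * ι y ^ q‖ := by
      intro t _
      apply twisted_bound f hf hirr q hq (fun y => ww (RR f) q y ^ t)
      · intro x hx
        rw [← pow_mul, mul_comm, pow_mul, hact.ww_pow q hx, one_pow]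
      · intro σ x _
        rw [map_pow]
        congr 1
        exact hact.ww_map ⟨σ, rfl⟩ q x
      · intro x hx y hy h
        apply hpow x hx y hy q (q * q) _
        · rw [h, mul_pow, ← pow_mul, mul_comm t q, pow_mul, hact.ww_pow q hy, one_pow, one_mul,
            ← pow_mul]
        · intro h2
          have := hq.two_le
          nlinarith
    have hprod := Finset.prod_le_prod (s := Finset.range q)
      (f := fun _ => (q : ℝ) ^ (RR f).card)
      (g := fun t => ∏ x ∈ RR f, ∏ y ∈ RR f, ‖ι x - ι (ww (RR f) q y ^ t) * ι y ^ q‖)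
      (fun _ _ => by positivity) hbound
    rw [Finset.prod_const, Finset.card_range, ← pow_mul, hcardR, mul_comm n q] at hprod
    refine hprod.trans (le_of_eq ?_)
    rw [prod_transfer f hf hirr α hα ι (fun z => ∏ j, ‖z ^ q - α j ^ (q * q)‖), Finset.prod_comm]
    apply Finset.prod_congr rfl
    intro x _
    rw [prod_transfer f hf hirr α hα ι (fun z => ‖ι x ^ q - z ^ (q * q)‖), Finset.prod_comm]
    apply Finset.prod_congr rfl
    intro y hy
    rw [← norm_prod]
    congr 1
    have h2 := prod_range_eq hq.pos ((hprim y hy).map_of_injective ι.injective) (ι x) (ι y ^ q)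
    rw [pow_mul, ← h2]
    apply Finset.prod_congr rfl
    intro t _
    rw [map_pow]
  · -- the good case
    have hr' : r = 1 := by omega
    refine ⟨1, Or.inl rfl, ?_, 1, one_pos, le_refl _, ?_⟩
    swap
    · intro i
      rw [mul_one, htrans q hq.pos i, ← hr, hr']
    have hb := twisted_bound f hf hirr q hq (fun _ => 1) (fun _ _ => one_pow _)
      (fun σ _ _ => map_one σ) (by
        intro x hx y hy h
        apply hpow x hx y hy 1 q hq.one_lt.ne
        rw [pow_one, h, one_mul]) ι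
    rw [hcardR] at hb
    rw [one_mul]
    refine hb.trans (le_of_eq ?_)
    rw [prod_transfer f hf hirr α hα ι (fun z => ∏ j, ‖z ^ 1 - α j ^ (q * 1)‖)]
    apply Finset.prod_congr rfl
    intro x _
    rw [prod_transfer f hf hirr α hα ι (fun z => ‖ι x ^ 1 - z ^ (q * 1)‖)]
    apply Finset.prod_congr rfl
    intro y _
    rw [map_one, one_mul, pow_one, mul_one]

end Pool.Agent.Lib.MP_7ab245_nt.Len
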