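import Pool.Agent.Lib.MP_7ab245_nt.Len.ArithA
import Pool.Agent.Lib.MP_7ab245_nt.Len.ArithB

/-! Integrality with cyclotomic polynomials and with `g(-X)`. -/

set_option autoImplicit false

open Polynomial Finset

namespace Pool.Agent.Lib.MP_7ab245_nt.Len

open Few (QQ alg_QQ normal_QQ RR mem_RR card_RR)

/-- a root of unity of `QQ` is an algebraic integer -/
lemma arithC_isIntegral_of_pow_eq_one {N : ℕ} (hN : 0 < N) {ω : QQ} (h : ω ^ N = 1) :
    IsIntegral ℤ ω := by
  refine ⟨X ^ N - 1, ?_, by simp [h]⟩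
  have := monic_X_pow_sub_C (R := ℤ) 1 hN.ne'
  simpa using this

/-- the primitive `N`-th roots of unity of `ℂ` are the images of those of `QQ` -/
lemma arithC_image_primitiveRoots [DecidableEq ℂ] (N : ℕ) (hN : 0 < N) :
    (primitiveRoots N QQ).image phi = primitiveRoots N ℂ := by
  apply Finset.Subset.antisymm
  · intro y hy
    rw [Finset.mem_image] at hy
    obtain ⟨w, hw, rfl⟩ := hy
    rw [mem_primitiveRoots hN] at hw ⊢
    exact hw.map_of_injective phi_inj
  · intro y hy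
    have h1 : y ∈ (nthRootsFinset N (1 : QQ)).image phi := by
      rw [image_nthRoots N hN, mem_nthRootsFinset hN]
      exact ((mem_primitiveRoots hN).mp hy).pow_eq_one
    rw [Finset.mem_image] at h1 ⊢
    obtain ⟨w, _, rfl⟩ := h1
    refine ⟨w, ?_, rfl⟩
    rw [mem_primitiveRoots hN] at hy ⊢
    exact IsPrimitiveRoot.of_map_of_injective hy phi_inj

theorem cyc_pow_ne (f : ℤ[X]) (hf : f.Monic) (hirr : Irreducible f)
    (hM : 1 < (f.map (Int.castRingHom ℂ)).mahlerMeasure) {n : ℕ} (α : Fin n → ℂ)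
    (hα : IsRoots f α) (j a b : ℕ) (hj : 0 < j) (hb : 0 < b) (ζ : ℂ)
    (hζ : ζ ∈ primitiveRoots j ℂ) (i : Fin n) : ζ ^ a ≠ α i ^ b := by
  intro h
  obtain ⟨x, hx, -, hmem, -⟩ := exists_xs f hf hirr α hα
  have hζ1 : ζ ^ j = 1 := ((mem_primitiveRoots hj).mp hζ).pow_eq_one
  have h1 : α i ^ (b * j) = 1 := by
    rw [pow_mul, ← h, ← pow_mul, mul_comm, pow_mul, hζ1, one_pow]
  rw [← hx i, ← map_pow] at h1
  have h2 : x i ^ (b * j) = 1 := phi_inj (by rw [h1, map_one])
  exact no_torsion f hf hirr hM α hα (x i) (hmem i) (b * j) (Nat.mul_pos hb hj) h2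

theorem one_le_prod_cyc (f : ℤ[X]) (hf : f.Monic) (hirr : Irreducible f)
    (hM : 1 < (f.map (Int.castRingHom ℂ)).mahlerMeasure) {n : ℕ} (α : Fin n → ℂ)
    (hα : IsRoots f α) (j a b : ℕ) (hj : 0 < j) (hb : 0 < b) :
    1 ≤ ∏ ζ ∈ primitiveRoots j ℂ, ∏ i, ‖ζ ^ a - α i ^ b‖ := by
  classical
  obtain ⟨x, hx, hinj, hmem, hsurj⟩ := exists_xs f hf hirr α hα
  set z : QQ := ∏ ζ ∈ primitiveRoots j QQ, ∏ u ∈ RR f, (ζ ^ a - u ^ b) with hz
  have h1 : ∏ ζ ∈ primitiveRoots j ℂ, ∏ i, ‖ζ ^ a - α i ^ b‖ = ‖phi z‖ := by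
    rw [hz, map_prod, norm_prod, ← arithC_image_primitiveRoots j hj,
      Finset.prod_image fun a _ b _ hab => phi_inj hab]
    apply Finset.prod_congr rfl
    intro ζ _
    rw [← prod_xs hinj hmem hsurj (fun u => ζ ^ a - u ^ b), map_prod, norm_prod]
    apply Finset.prod_congr rfl
    intro i _
    rw [map_sub, map_pow, map_pow, hx i]
  rw [h1]
  apply one_le_norm_of_fixed
  · rw [hz]
    apply IsIntegral.prod
    intro ζ hζ
    apply IsIntegral.prod
    intro u hu
    have hζ1 := ((mem_primitiveRoots hj).mp hζ).pow_eq_one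
    exact ((arithC_isIntegral_of_pow_eq_one hj hζ1).pow a).sub
      ((isIntegral_of_mem_RR hf hu).pow b)
  · rw [hz, Finset.prod_ne_zero_iff]
    intro ζ hζ
    rw [Finset.prod_ne_zero_iff]
    intro u hu
    obtain ⟨i, rfl⟩ := hsurj u hu
    intro h
    have hζ' : phi ζ ∈ primitiveRoots j ℂ := by
      rw [← arithC_image_primitiveRoots j hj]
      exact Finset.mem_image_of_mem _ hζ
    apply cyc_pow_ne f hf hirr hM α hα j a b hj hb (phi ζ) hζ' i
    rw [← hx i, ← map_pow, ← map_pow, sub_eq_zero.mp h]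
  · intro σ
    rw [hz, map_prod]
    have h2 : ∀ ζ ∈ primitiveRoots j QQ, σ (∏ u ∈ RR f, (ζ ^ a - u ^ b)) =
        (fun ζ => ∏ u ∈ RR f, (ζ ^ a - u ^ b)) (σ ζ) := by
      intro ζ _
      rw [map_prod]
      have h3 : ∀ v ∈ RR f, σ (ζ ^ a - v ^ b) = (fun v => (σ ζ) ^ a - v ^ b) (σ v) := by
        intro v _
        simp
      rw [Finset.prod_congr rfl h3]
      exact prod_aut hf σ fun v => (σ ζ) ^ a - v ^ b
    rw [Finset.prod_congr rfl h2]
    refine Finset.prod_bij' (fun y _ => σ y) (fun y _ => σ.symm y) ?_ ?_ ?_ ?_ ?_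
    · intro y hy
      rw [mem_primitiveRoots hj] at hy ⊢
      exact hy.map_of_injective σ.injective
    · intro y hy
      rw [mem_primitiveRoots hj] at hy ⊢
      exact hy.map_of_injective σ.symm.injective
    · intro y _
      simp
    · intro y _
      simp
    · intro y _
      rfl

theorem add_ne_zero_of_not_expand (f : ℤ[X]) (hf : f.Monic) (hirr : Irreducible f)
    (hM : 1 < (f.map (Int.castRingHom ℂ)).mahlerMeasure) {n : ℕ} (α : Fin n → ℂ)
    (hα : IsRoots f α) (hexp : ¬ ∃ g : ℤ[X], f = expand ℤ 2 g) (i j : Fin n) :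
    -(α i) ≠ α j := by
  intro h
  obtain ⟨x, hx, -, hmem, -⟩ := exists_xs f hf hirr α hα
  apply hexp
  apply expand_of_full f hf hirr hM 2 Nat.prime_two (x i) (hmem i)
  have h1 : x j = -(x i) := by
    apply phi_inj
    rw [map_neg, hx, hx, h]
  have h0 : x i ≠ 0 := RR_ne_zero f hf hirr hM α hα (x i) (hmem i)
  have hne : x i ≠ x j := by
    rw [h1]
    intro h2
    exact h0 (self_eq_neg.mp h2)
  have h2 : 1 < (fib (RR f) 2 (x i)).card := by
    rw [Finset.one_lt_card]
    refine ⟨x i, self_mem_fib (hmem i), x j, mem_fib.mpr ⟨hmem j, ?_⟩, hne⟩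
    rw [h1, neg_sq]
  exact h2

theorem one_le_prod_add (f : ℤ[X]) (hf : f.Monic) (hirr : Irreducible f)
    (hM : 1 < (f.map (Int.castRingHom ℂ)).mahlerMeasure) {n : ℕ} (α : Fin n → ℂ)
    (hα : IsRoots f α) (hexp : ¬ ∃ g : ℤ[X], f = expand ℤ 2 g) :
    1 ≤ ∏ i, ∏ j, ‖-(α i) - α j‖ := by
  classical
  obtain ⟨x, hx, hinj, hmem, hsurj⟩ := exists_xs f hf hirr α hα
  set z : QQ := ∏ u ∈ RR f, ∏ v ∈ RR f, (-u - v) with hz
  have h1 : ∏ i, ∏ j, ‖-(α i) - α j‖ = ‖phi z‖ := by
    rw [hz, ← prod_xs hinj hmem hsurj (fun u => ∏ v ∈ RR f, (-u - v)), map_prod, norm_prod]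
    apply Finset.prod_congr rfl
    intro i _
    rw [← prod_xs hinj hmem hsurj (fun v => (-(x i) - v)), map_prod, norm_prod]
    apply Finset.prod_congr rfl
    intro j _
    rw [map_sub, map_neg, hx i, hx j]
  rw [h1]
  apply one_le_norm_of_fixed
  · rw [hz]
    apply IsIntegral.prod
    intro u hu
    apply IsIntegral.prod
    intro v hv
    exact (isIntegral_of_mem_RR hf hu).neg.sub (isIntegral_of_mem_RR hf hv)
  · rw [hz, Finset.prod_ne_zero_iff]
    intro u hu
    rw [Finset.prod_ne_zero_iff]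
    intro v hv
    obtain ⟨i, rfl⟩ := hsurj u hu
    obtain ⟨j, rfl⟩ := hsurj v hv
    intro h
    apply add_ne_zero_of_not_expand f hf hirr hM α hα hexp i j
    rw [← hx i, ← hx j, ← sub_eq_zero.mp h, map_neg]
  · intro σ
    apply aut_prod hf σ
    intro u hu
    rw [map_prod]
    have h2 : ∀ v ∈ RR f, σ (-u - v) = (fun v => -(σ u) - v) (σ v) := by
      intro v _
      simp
    rw [Finset.prod_congr rfl h2]
    exact prod_aut hf σ fun v => -(σ u) - v

/-- number of `ω ∈ μ_N` with `ω α_i` a root: independent of `i` -/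
theorem exists_card_torsion (f : ℤ[X]) (hf : f.Monic) (hirr : Irreducible f) {n : ℕ}
    (α : Fin n → ℂ) (hα : IsRoots f α) (N : ℕ) (hN : 0 < N) :
    ∃ r : ℕ, r ≤ N ∧ ∀ i, ((nthRootsFinset N (1 : ℂ)).filter
      fun ω => aeval (ω * α i) f = 0).card = r := by
  classical
  obtain ⟨x, hx, hinj, hmem, hsurj⟩ := exists_xs f hf hirr α hα
  have h1 : ∀ i, ((nthRootsFinset N (1 : ℂ)).filter
      fun ω => aeval (ω * α i) f = 0).card =
      ((nthRootsFinset N (1 : QQ)).filter fun ω => aeval (ω * x i) f = 0).card := by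
    intro i
    rw [← image_nthRoots N hN, Finset.filter_image, Finset.card_image_of_injective _ phi_inj]
    congr 1
    apply Finset.filter_congr
    intro ω _
    rw [← hx i, ← map_mul, phi_aeval, map_eq_zero]
  have h2 : ∀ i k, ((nthRootsFinset N (1 : QQ)).filter fun ω => aeval (ω * x i) f = 0).card =
      ((nthRootsFinset N (1 : QQ)).filter fun ω => aeval (ω * x k) f = 0).card := by
    intro i k
    obtain ⟨σ, hσ⟩ := exists_conj f hf hirr (hmem i) (hmem k)
    refine Finset.card_bij' (fun ω _ => σ ω) (fun ω _ => σ.symm ω) ?_ ?_ ?_ ?_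
    · intro ω hω
      rw [Finset.mem_filter, mem_nthRootsFinset hN] at hω ⊢
      refine ⟨by rw [← map_pow, hω.1, map_one], ?_⟩
      rw [← hσ, ← map_mul, aut_aeval, hω.2, map_zero]
    · intro ω hω
      rw [Finset.mem_filter, mem_nthRootsFinset hN] at hω ⊢
      refine ⟨by rw [← map_pow, hω.1, map_one], ?_⟩
      have h3 : σ.symm ω * x i = σ.symm (ω * x k) := by
        rw [map_mul, ← hσ, AlgEquiv.symm_apply_apply]
      rw [h3, aut_aeval, hω.2, map_zero]
    · intro ω _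
      simp
    · intro ω _
      simp
  rcases Nat.eq_zero_or_pos n with hn | hn
  · subst hn
    exact ⟨0, Nat.zero_le _, fun i => i.elim0⟩
  · refine ⟨_, ?_, fun i => (h1 i).trans (h2 i ⟨0, hn⟩)⟩
    calc ((nthRootsFinset N (1 : QQ)).filter fun ω => aeval (ω * x ⟨0, hn⟩) f = 0).card
        ≤ (nthRootsFinset N (1 : QQ)).card := Finset.card_filter_le _ _
      _ ≤ (nthRoots N (1 : QQ)).card := by
          unfold nthRootsFinset
          exact Multiset.toFinset_card_le _
      _ ≤ N := card_nthRoots _ _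

end Pool.Agent.Lib.MP_7ab245_nt.Len
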