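import Mathlib
import Pool.Agent.Lib.MP_7ab245_nt.Len.Defs

/-! The length theorem: reductions (expansion, monic case). -/

set_option autoImplicit false

open Polynomial Finset

namespace Pool.Agent.Lib.MP_7ab245_nt.Len

/-- the Mahler measure of an integer polynomial -/
noncomputable def mm (f : ℤ[X]) : ℝ := (f.map (Int.castRingHom ℂ)).mahlerMeasure

/-- the length -/
noncomputable def len (f : ℤ[X]) : ℝ := ∑ m ∈ f.support, |(f.coeff m : ℝ)|

lemma mm_mul (f g : ℤ[X]) : mm (f * g) = mm f * mm g := by
  unfold mm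
  rw [Polynomial.map_mul, mahlerMeasure_mul]

lemma mm_neg (f : ℤ[X]) : mm (-f) = mm f := by
  have h2 : (-f : ℤ[X]) = C (-1 : ℤ) * f := by simp
  rw [h2, mm_mul]
  unfold mm
  rw [map_C, mahlerMeasure_const]
  simp

lemma mm_C (a : ℤ) : mm (C a) = ((|a| : ℤ) : ℝ) := by
  unfold mm
  rw [map_C, mahlerMeasure_const]
  simp

lemma mm_X : mm (X : ℤ[X]) = 1 := by
  unfold mm
  rw [map_X]
  have := mahlerMeasure_X_sub_C 0
  rw [C_0, sub_zero] at this
  rw [this]; simp

lemma mm_le_len (f : ℤ[X]) : mm f ≤ len f := by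
  unfold mm len
  have h := mahlerMeasure_le_sum_norm_coeff (f.map (Int.castRingHom ℂ))
  refine h.trans (le_of_eq ?_)
  rw [Polynomial.sum_def, support_map_of_injective _ (Int.castRingHom ℂ).injective_int]
  apply Finset.sum_congr rfl
  intro m _
  rw [coeff_map]
  simp

lemma len_neg (f : ℤ[X]) : len (-f) = len f := by
  unfold len
  rw [support_neg]
  apply Finset.sum_congr rfl
  intro m _
  rw [coeff_neg]
  push_cast
  rw [abs_neg]

lemma support_expand_card {q : ℕ} (hq : 0 < q) (g : ℤ[X]) :
    (expand ℤ q g).support.card = g.support.card := by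
  classical
  have h : (expand ℤ q g).support = g.support.image (fun i => i * q) := by
    ext n
    simp only [mem_support_iff, coeff_expand hq, Finset.mem_image]
    constructor
    · intro h
      split_ifs at h with h1
      · exact ⟨n / q, h, Nat.div_mul_cancel h1⟩
      · exact absurd rfl h
    · rintro ⟨a, ha, rfl⟩
      rw [if_pos (Dvd.intro_left a rfl), Nat.mul_div_cancel _ hq]
      exact ha
  rw [h, Finset.card_image_of_injective]
  intro a b hab
  exact Nat.eq_of_mul_eq_mul_right hq hab

lemma len_expand {q : ℕ} (hq : 0 < q) (g : ℤ[X]) : len (expand ℤ q g) = len g := by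
  classical
  have h : (expand ℤ q g).support = g.support.image (fun i => i * q) := by
    ext n
    simp only [mem_support_iff, coeff_expand hq, Finset.mem_image]
    constructor
    · intro h
      split_ifs at h with h1
      · exact ⟨n / q, h, Nat.div_mul_cancel h1⟩
      · exact absurd rfl h
    · rintro ⟨a, ha, rfl⟩
      rw [if_pos (Dvd.intro_left a rfl), Nat.mul_div_cancel _ hq]
      exact ha
  unfold len
  rw [h, Finset.sum_image]
  · apply Finset.sum_congr rfl
    intro m _
    rw [coeff_expand_mul hq]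
  · intro a _ b _ hab
    exact Nat.eq_of_mul_eq_mul_right hq hab

lemma integral_comp_pow (F : ℂ → ℝ) (q : ℕ) (hq : 0 < q)
    (hint : IntervalIntegrable (fun t => F (circleMap 0 1 t)) MeasureTheory.volume 0
      (2 * Real.pi)) :
    (∫ θ in (0 : ℝ)..(2 * Real.pi), F ((circleMap 0 1 θ) ^ q)) =
      ∫ θ in (0 : ℝ)..(2 * Real.pi), F (circleMap 0 1 θ) := by
  have hq' : (q : ℝ) ≠ 0 := by exact_mod_cast hq.ne'
  have h1 : ∀ θ : ℝ, F ((circleMap 0 1 θ) ^ q) = (fun t => F (circleMap 0 1 t)) (q * θ) := by
    intro θ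
    show F _ = F _
    congr 1
    unfold circleMap
    simp only [Complex.ofReal_one, one_mul, zero_add]
    rw [← Complex.exp_nat_mul]
    congr 1
    push_cast
    ring
  simp_rw [h1]
  rw [intervalIntegral.integral_comp_mul_left (fun t => F (circleMap 0 1 t)) hq']
  have hper : Function.Periodic (fun t => F (circleMap 0 1 t)) (2 * Real.pi) := by
    intro t
    show F _ = F _
    rw [periodic_circleMap 0 1 t]
  rw [mul_zero]
  have h2 : (∫ x in (0 : ℝ)..(q * (2 * Real.pi)), F (circleMap 0 1 x)) =
      q * ∫ x in (0 : ℝ)..(2 * Real.pi), F (circleMap 0 1 x) := by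
    have := hper.intervalIntegral_add_zsmul_eq (q : ℤ) 0
      (hper.intervalIntegrable₀ (by positivity) hint)
    simpa using this
  rw [h2, smul_eq_mul, inv_mul_cancel_left₀ hq']

lemma mm_expand {q : ℕ} (hq : 0 < q) (g : ℤ[X]) : mm (expand ℤ q g) = mm g := by
  by_cases hg : g = 0
  · rw [hg, map_zero]
  · have hne : g.map (Int.castRingHom ℂ) ≠ 0 := by
      rw [Ne, Polynomial.map_eq_zero_iff (Int.castRingHom ℂ).injective_int]; exact hg
    have hne' : (expand ℤ q g).map (Int.castRingHom ℂ) ≠ 0 := by
      rw [Ne, Polynomial.map_eq_zero_iff (Int.castRingHom ℂ).injective_int, expand_eq_zero hq]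
      exact hg
    unfold mm
    rw [mahlerMeasure_def_of_ne_zero hne, mahlerMeasure_def_of_ne_zero hne']
    congr 2
    rw [← integral_comp_pow (fun x => Real.log ‖eval x (g.map (Int.castRingHom ℂ))‖) q hq
      (intervalIntegrable_mahlerMeasure _)]
    congr 1
    ext x
    rw [map_expand, expand_eval]

end Pool.Agent.Lib.MP_7ab245_nt.Len
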