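import Mathlib
import Pool.Agent.Lib.MP_7ab245_nt.Len.Defs
import Pool.Agent.Lib.MP_7ab245_nt.Len.MainA
import Pool.Agent.Lib.MP_7ab245_nt.Len.Refl
import Pool.Agent.Lib.MP_7ab245_nt.Len.Psd
import Pool.Agent.Lib.MP_7ab245_nt.Len.Energy
import Pool.Agent.Lib.MP_7ab245_nt.Len.ArithA
import Pool.Agent.Lib.MP_7ab245_nt.Len.ArithB

/-! The length theorem: the inequality obtained from positivity and the arithmetic input. -/

set_option autoImplicit false

open Polynomial Finset

namespace Pool.Agent.Lib.MP_7ab245_nt.Len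

lemma hh_nonneg {n : ℕ} (α : Fin n → ℂ) : 0 ≤ hh α :=
  Finset.sum_nonneg fun _ _ => Real.posLog_nonneg

lemma roots_injective (f : ℤ[X]) (hf : f.Monic) (hirr : Irreducible f) {n : ℕ} (α : Fin n → ℂ)
    (hα : IsRoots f α) : Function.Injective α := by
  have h1 : Irreducible (f.map (algebraMap ℤ ℚ)) :=
    (hf.irreducible_iff_irreducible_map_fraction_map).mp hirr
  have h2 : (f.map (algebraMap ℤ ℚ)).Separable := h1.separable
  have h3 := h2.map (f := algebraMap ℚ ℂ)
  rw [Polynomial.map_map, ← IsScalarTower.algebraMap_eq] at h3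
  have h4 : f.map (algebraMap ℤ ℂ) = ∏ i, (X - C (α i)) := hα
  rw [h4, separable_prod_X_sub_C_iff] at h3
  exact h3

lemma roots_ne_zero (f : ℤ[X]) (h0 : f.coeff 0 ≠ 0) {n : ℕ} (α : Fin n → ℂ)
    (hα : IsRoots f α) (i : Fin n) : α i ≠ 0 := by
  intro hi
  apply h0
  have h1 : (f.map (Int.castRingHom ℂ)).coeff 0 = 0 := by
    rw [hα, coeff_zero_eq_eval_zero, eval_prod]
    apply Finset.prod_eq_zero (Finset.mem_univ i)
    rw [eval_sub, eval_X, eval_C, hi, sub_zero]
  rw [coeff_map] at h1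
  simpa using h1

/-- off-diagonal bound with the prime `q` -/
lemma term_one (f : ℤ[X]) (hf : f.Monic) (hirr : Irreducible f)
    (hM : 1 < (f.map (Int.castRingHom ℂ)).mahlerMeasure) {n : ℕ} (α : Fin n → ℂ)
    (hα : IsRoots f α) (q c : ℕ) (hq : 2 ≤ q) (hc : 0 < c)
    (hprod : (q : ℝ) ^ (c * n) ≤ ∏ i, ∏ j, ‖α i ^ c - α j ^ (q * c)‖) (s : ℝ) (hs : 0 < s) :
    (1 / (c : ℝ)) * EE (fun i => refl (α i)) (s * c) c (q * c) ≤
      (n : ℝ) ^ 2 * s + n * (1 + q) * hh α - n * Real.log q := by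
  have hcR : (0 : ℝ) < c := by exact_mod_cast hc
  have hqR : (0 : ℝ) < q := by exact_mod_cast (by omega : 0 < q)
  have hne : c ≠ q * c := by
    intro h
    nlinarith
  have h1 := EE_offdiag_le α (s * c) (by positivity) c (q * c)
    (fun i j => pow_ne_pow f hf hirr hM α hα c (q * c) hne i j)
  have h2 : (c : ℝ) * n * Real.log q ≤ Real.log (∏ i, ∏ j, ‖α i ^ c - α j ^ (q * c)‖) := by
    have := Real.log_le_log (by positivity) hprod
    rw [Real.log_pow] at this
    push_cast at this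
    exact this
  rw [div_mul_eq_mul_div, one_mul, div_le_iff₀ hcR]
  push_cast at h1
  calc EE (fun i => refl (α i)) (s * c) c (q * c)
      ≤ (n : ℝ) ^ 2 * (s * c) + n * (c + q * c) * hh α - c * n * Real.log q := by linarith
    _ = ((n : ℝ) ^ 2 * s + n * (1 + q) * hh α - n * Real.log q) * c := by ring

/-- diagonal bound -/
lemma term_two (f : ℤ[X]) (hf : f.Monic) (hirr : Irreducible f) (h0 : f.coeff 0 ≠ 0)
    {n : ℕ} (α : Fin n → ℂ) (hα : IsRoots f α) (q c r : ℕ) (hq : 0 < q) (hc : 0 < c)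
    (hrc : r ≤ c)
    (hr : ∀ i, ((nthRootsFinset (q * c) (1 : ℂ)).filter
        fun ω => aeval (ω * α i) f = 0).card = r) (s : ℝ) (hs : 0 < s) :
    (1 / (c : ℝ)) * EE (fun i => refl (α i)) (s * c) (q * c) (q * c) ≤
      EE (fun i => refl (α i)) (s / q) 1 1 + 2 * n * q * hh α + (n : ℝ) ^ 2 * s := by
  have hcR : (0 : ℝ) < c := by exact_mod_cast hc
  have hqR : (0 : ℝ) < q := by exact_mod_cast hq
  have hrR : (r : ℝ) ≤ c := by exact_mod_cast hrc
  have hr0 : (0 : ℝ) ≤ r := by positivity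
  have hh0 := hh_nonneg α
  have h1 := EE_diag_le f α hα (roots_injective f hf hirr α hα) (roots_ne_zero f h0 α hα)
    (q * c) r (by positivity) hr (s * c) (by positivity)
    (one_le_prod_eval f hf hirr α hα (q * c) (by positivity))
  have h2 : s * c / ((q * c : ℕ) : ℝ) = s / q := by
    push_cast
    field_simp
  rw [h2] at h1
  push_cast at h1
  have hE : 0 ≤ EE (fun i => refl (α i)) (s / q) 1 1 :=
    EE_self_nonneg _ (fun i => norm_refl_le _) _ (by positivity) 1
  rw [div_mul_eq_mul_div, one_mul, div_le_iff₀ hcR]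
  have h3 : (r : ℝ) * EE (fun i => refl (α i)) (s / q) 1 1 ≤
      c * EE (fun i => refl (α i)) (s / q) 1 1 := by gcongr
  have h4 : 2 * (n : ℝ) * (q * c - r) * hh α ≤ 2 * n * (q * c) * hh α := by
    gcongr
    linarith
  have h5 : (n : ℝ) ^ 2 * (q * c - r) * (s / q) ≤ (n : ℝ) ^ 2 * (q * c) * (s / q) := by
    gcongr
    linarith
  have h6 : (n : ℝ) ^ 2 * (q * c) * (s / q) = (n : ℝ) ^ 2 * s * c := by
    field_simp
  calc EE (fun i => refl (α i)) (s * c) (q * c) (q * c)
      ≤ c * EE (fun i => refl (α i)) (s / q) 1 1 + 2 * n * (q * c) * hh α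
        + (n : ℝ) ^ 2 * s * c := by linarith
    _ = _ := by ring

/-- mixed bound -/
lemma term_three (f : ℤ[X]) (hf : f.Monic) (hirr : Irreducible f)
    (hM : 1 < (f.map (Int.castRingHom ℂ)).mahlerMeasure) {n : ℕ} (α : Fin n → ℂ)
    (hα : IsRoots f α) (p q c c' : ℕ) (hpq : p ≠ q) (hc : 0 < c) (hc' : 0 < c')
    (s : ℝ) (hs : 0 < s) :
    (1 / ((c : ℝ) * c')) * EE (fun i => refl (α i)) (s * (c * c')) (p * (c * c')) (q * (c * c')) ≤
      (n : ℝ) ^ 2 * s + n * (p + q) * hh α := by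
  have hcR : (0 : ℝ) < c := by exact_mod_cast hc
  have hcR' : (0 : ℝ) < c' := by exact_mod_cast hc'
  have hne : p * (c * c') ≠ q * (c * c') := by
    intro h
    exact hpq (Nat.eq_of_mul_eq_mul_right (by positivity) h)
  have h1 := EE_offdiag_le α (s * (c * c')) (by positivity) (p * (c * c')) (q * (c * c'))
    (fun i j => pow_ne_pow f hf hirr hM α hα _ _ hne i j)
  have h2 : 0 ≤ Real.log (∏ i, ∏ j, ‖α i ^ (p * (c * c')) - α j ^ (q * (c * c'))‖) :=
    Real.log_nonneg (one_le_prod_sub f hf hirr hM α hα _ _ hne)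
  rw [div_mul_eq_mul_div, one_mul, div_le_iff₀ (by positivity)]
  push_cast at h1
  calc EE (fun i => refl (α i)) (s * (c * c')) (p * (c * c')) (q * (c * c'))
      ≤ (n : ℝ) ^ 2 * (s * (c * c')) + n * (p * (c * c') + q * (c * c')) * hh α := by linarith
    _ = _ := by ring

/-- the main inequality -/
theorem core_ineq (f : ℤ[X]) (hf : f.Monic) (hirr : Irreducible f)
    (hM : 1 < (f.map (Int.castRingHom ℂ)).mahlerMeasure) (h0 : f.coeff 0 ≠ 0)
    {n : ℕ} (hn : 0 < n) (α : Fin n → ℂ) (hα : IsRoots f α) (P : Finset ℕ) (R Q : ℝ)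
    (hR : 2 ≤ R) (hP : ∀ q ∈ P, q.Prime ∧ R < q ∧ (q : ℝ) ≤ Q)
    (hexp : ∀ q ∈ P, ¬ ∃ g : ℤ[X], f = expand ℤ q g) (s E a : ℝ) (hs : 0 < s) (ha : 0 ≤ a)
    (hE1 : EE (fun i => refl (α i)) s 1 1 ≤ n * E)
    (hE2 : ∀ q ∈ P, EE (fun i => refl (α i)) (s / q) 1 1 ≤ n * E) :
    0 ≤ E + 2 * a * P.card * (n * s + (1 + Q) * hh α - Real.log R)
      + a ^ 2 * (P.card * (E + 2 * Q * hh α + n * s)
        + (P.card : ℝ) ^ 2 * (n * s + 2 * Q * hh α)) := by
  classical
  have hnR : (0 : ℝ) < n := by exact_mod_cast hn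
  have hh0 := hh_nonneg α
  have key : ∀ q : ℕ, ∃ c : ℕ, q ∈ P → ((c = 1 ∨ c = q) ∧
      (q : ℝ) ^ (c * n) ≤ ∏ i, ∏ j, ‖α i ^ c - α j ^ (q * c)‖ ∧
      ∃ r : ℕ, 0 < r ∧ r ≤ c ∧ ∀ i, ((nthRootsFinset (q * c) (1 : ℂ)).filter
        fun ω => aeval (ω * α i) f = 0).card = r) := by
    intro q
    by_cases hq : q ∈ P
    · obtain ⟨hq1, hq2, hq3⟩ := hP q hq
      have hq4 : q ≠ 2 := by
        rintro rfl
        push_cast at hq2
        linarith
      obtain ⟨c, h1, h2, h3⟩ := prime_package f hf hirr hM α hα q hq1 hq4 (hexp q hq)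
      exact ⟨c, fun _ => ⟨h1, h2, h3⟩⟩
    · exact ⟨1, fun h => absurd h hq⟩
  choose c hc using key
  have hcpos : ∀ q ∈ P, 0 < c q := by
    intro q hq
    rcases (hc q hq).1 with h | h
    · omega
    · rw [h]; exact (hP q hq).1.pos
  have hmain := psd_main (fun i => refl (α i)) (fun i => norm_refl_le _) s hs P c hcpos
    (fun q hq => (hP q hq).1.pos) (by
      intro p hp q hq hpq
      rcases (hc p hp).1 with h | h
      · rw [h]; exact Nat.coprime_one_left _
      · rcases (hc q hq).1 with h' | h'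
        · rw [h']; exact Nat.coprime_one_right _
        · rw [h, h']; exact (Nat.coprime_primes (hP p hp).1 (hP q hq).1).mpr hpq) a
  have hsum1 : ∑ q ∈ P, (1 / (c q : ℝ)) * EE (fun i => refl (α i)) (s * c q) (c q) (q * c q) ≤
      ∑ _q ∈ P, (n : ℝ) * (n * s + (1 + Q) * hh α - Real.log R) := by
    apply Finset.sum_le_sum
    intro q hq
    obtain ⟨hq1, hq2, hq3⟩ := hP q hq
    have h1 := term_one f hf hirr hM α hα q (c q) hq1.two_le (hcpos q hq) (hc q hq).2.1 s hs
    refine h1.trans ?_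
    have h2 : Real.log R ≤ Real.log q := Real.log_le_log (by linarith) hq2.le
    have h3 : (n : ℝ) * (1 + q) * hh α ≤ n * (1 + Q) * hh α := by gcongr
    have h4 : (n : ℝ) * Real.log R ≤ n * Real.log q := by gcongr
    nlinarith
  have hsum2 : ∑ q ∈ P, (1 / (c q : ℝ)) *
      EE (fun i => refl (α i)) (s * c q) (q * c q) (q * c q) ≤
      ∑ _q ∈ P, (n : ℝ) * (E + 2 * Q * hh α + n * s) := by
    apply Finset.sum_le_sum
    intro q hq
    obtain ⟨hq1, hq2, hq3⟩ := hP q hq
    obtain ⟨_, _, r, hr0, hrc, hr⟩ := hc q hq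
    have h1 := term_two f hf hirr h0 α hα q (c q) r hq1.pos (hcpos q hq) hrc hr s hs
    refine h1.trans ?_
    have h2 := hE2 q hq
    have h3 : 2 * (n : ℝ) * q * hh α ≤ 2 * n * Q * hh α := by gcongr
    nlinarith
  have hsum3 : ∑ p ∈ P, ∑ q ∈ P.erase p, (1 / ((c p : ℝ) * c q)) *
            EE (fun i => refl (α i)) (s * (c p * c q)) (p * (c p * c q)) (q * (c p * c q)) ≤
      (P.card : ℝ) ^ 2 * (n * (n * s + 2 * Q * hh α)) := by
    have hQ0 : 0 ≤ n * (n * s + 2 * Q * hh α) ∨ P = ∅ := by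
      rcases P.eq_empty_or_nonempty with h | ⟨q, hq⟩
      · exact Or.inr h
      · left
        have hQ : 0 ≤ Q := le_trans (by positivity) (hP q hq).2.2
        positivity
    rcases hQ0 with hQ0 | hQ0
    swap
    · rw [hQ0]; simp
    calc ∑ p ∈ P, ∑ q ∈ P.erase p, (1 / ((c p : ℝ) * c q)) *
            EE (fun i => refl (α i)) (s * (c p * c q)) (p * (c p * c q)) (q * (c p * c q))
        ≤ ∑ p ∈ P, ∑ _q ∈ P.erase p, ((n : ℝ) * (n * s + 2 * Q * hh α)) := by
          apply Finset.sum_le_sum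
          intro p hp
          apply Finset.sum_le_sum
          intro q hq
          have hq' := Finset.mem_of_mem_erase hq
          have hpq : p ≠ q := (Finset.ne_of_mem_erase hq).symm
          have h1 := term_three f hf hirr hM α hα p q (c p) (c q) hpq (hcpos p hp)
            (hcpos q hq') s hs
          refine h1.trans ?_
          have h2 : (n : ℝ) * (p + q) * hh α ≤ n * (Q + Q) * hh α := by
            have := (hP p hp).2.2
            have := (hP q hq').2.2
            gcongr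
          nlinarith
      _ ≤ ∑ p ∈ P, ∑ _q ∈ P, ((n : ℝ) * (n * s + 2 * Q * hh α)) := by
          apply Finset.sum_le_sum
          intro p hp
          apply Finset.sum_le_sum_of_subset_of_nonneg (Finset.erase_subset _ _)
          intro _ _ _
          exact hQ0
      _ = _ := by
          rw [Finset.sum_const, Finset.sum_const, nsmul_eq_mul, nsmul_eq_mul]
          ring
  rw [Finset.sum_const, nsmul_eq_mul] at hsum1 hsum2
  have h7 := mul_le_mul_of_nonneg_left hsum1 (by positivity : 0 ≤ 2 * a)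
  have h8 := mul_le_mul_of_nonneg_left (add_le_add hsum2 hsum3) (by positivity : 0 ≤ a ^ 2)
  have h9 : 0 ≤ (n : ℝ) * (E + 2 * a * P.card * (n * s + (1 + Q) * hh α - Real.log R)
      + a ^ 2 * (P.card * (E + 2 * Q * hh α + n * s)
        + (P.card : ℝ) ^ 2 * (n * s + 2 * Q * hh α))) := by
    calc (0 : ℝ) ≤ _ := hmain
      _ ≤ n * E + 2 * a * ((P.card : ℝ) * (n * (n * s + (1 + Q) * hh α - Real.log R)))
          + a ^ 2 * ((P.card : ℝ) * (n * (E + 2 * Q * hh α + n * s))
            + (P.card : ℝ) ^ 2 * (n * (n * s + 2 * Q * hh α))) :=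
          add_le_add (add_le_add hE1 h7) h8
      _ = _ := by ring
  exact nonneg_of_mul_nonneg_right h9 hnR

end Pool.Agent.Lib.MP_7ab245_nt.Len
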