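import Mathlib
import Pool.Agent.Lib.MP_7ab245_nt.Len.Defs2
import Pool.Agent.Lib.MP_7ab245_nt.Len.Refl
import Pool.Agent.Lib.MP_7ab245_nt.Len.Energy
import Pool.Agent.Lib.MP_7ab245_nt.Len.ArithA
import Pool.Agent.Lib.MP_7ab245_nt.Len.ArithC
import Pool.Agent.Lib.MP_7ab245_nt.Len.MainB

/-! Upper bounds of energies with cyclotomic points, with `-α`, and of higher powers. -/

set_option autoImplicit false

open Polynomial Finset

namespace Pool.Agent.Lib.MP_7ab245_nt.Len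

/-! ### monotonicity in the regularisation parameter -/

private noncomputable def energy2_pw {n : ℕ} (w : Fin n → ℂ) (m : ℕ) : ℂ := ∑ i, w i ^ m

private theorem energy2_hasSum_ker (s : ℝ) (hs : 0 < s) (x y : ℂ) (hx : ‖x‖ ≤ 1)
    (hy : ‖y‖ ≤ 1) :
    HasSum (fun l : ℕ => Real.exp (-s * l) / l * ((x * starRingEnd ℂ y) ^ l).re)
      (ker s x y) := by
  set z : ℂ := (Real.exp (-s) : ℂ) * (x * starRingEnd ℂ y) with hz
  have hz1 : ‖z‖ < 1 := by
    rw [hz, norm_mul, norm_mul, Complex.norm_real, RCLike.norm_conj, Real.norm_eq_abs,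
      abs_of_pos (Real.exp_pos _)]
    have h1 : ‖x‖ * ‖y‖ ≤ 1 := mul_le_one₀ hx (norm_nonneg _) hy
    have h2 : Real.exp (-s) < 1 := by
      rw [Real.exp_lt_one_iff]
      linarith
    calc Real.exp (-s) * (‖x‖ * ‖y‖) ≤ Real.exp (-s) * 1 :=
          mul_le_mul_of_nonneg_left h1 (Real.exp_pos _).le
      _ < 1 := by linarith
  have h' := Complex.hasSum_re (Complex.hasSum_taylorSeries_neg_log hz1)
  have e1 : (-Complex.log (1 - z)).re = ker s x y := by
    rw [Complex.neg_re, Complex.log_re, ker]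
  rw [e1] at h'
  have e2 : (fun l : ℕ => (z ^ l / (l : ℂ)).re) =
      fun l : ℕ => Real.exp (-s * l) / l * ((x * starRingEnd ℂ y) ^ l).re := by
    funext l
    have e3 : z ^ l / (l : ℂ) =
        ((Real.exp (-s * l) / l : ℝ) : ℂ) * (x * starRingEnd ℂ y) ^ l := by
      rw [hz, mul_pow, mul_comm (-s) (l : ℝ), Real.exp_nat_mul]
      push_cast
      ring
    rw [e3, Complex.re_ofReal_mul]
  rwa [e2] at h'

private theorem energy2_hasSum {n : ℕ} (w : Fin n → ℂ) (hw : ∀ i, ‖w i‖ ≤ 1) (s : ℝ)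
    (hs : 0 < s) :
    HasSum (fun l : ℕ => Real.exp (-s * l) / l * Complex.normSq (energy2_pw w l))
      (EE w s 1 1) := by
  have h : HasSum (fun l : ℕ => ∑ i, ∑ j,
      Real.exp (-s * l) / l * ((w i ^ 1 * starRingEnd ℂ (w j ^ 1)) ^ l).re) (EE w s 1 1) :=
    hasSum_sum fun i _ => hasSum_sum fun j _ => energy2_hasSum_ker s hs _ _
      (by rw [pow_one]; exact hw i) (by rw [pow_one]; exact hw j)
  have e : (fun l : ℕ => ∑ i, ∑ j,
      Real.exp (-s * l) / l * ((w i ^ 1 * starRingEnd ℂ (w j ^ 1)) ^ l).re) =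
      fun l : ℕ => Real.exp (-s * l) / l * Complex.normSq (energy2_pw w l) := by
    funext l
    have h1 : Complex.normSq (energy2_pw w l) =
        (energy2_pw w l * starRingEnd ℂ (energy2_pw w l)).re := by
      rw [Complex.mul_conj, Complex.ofReal_re]
    rw [h1, energy2_pw, map_sum, Finset.sum_mul_sum, Complex.re_sum, Finset.mul_sum]
    refine Finset.sum_congr rfl fun i _ => ?_
    rw [Complex.re_sum, Finset.mul_sum]
    refine Finset.sum_congr rfl fun j _ => ?_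
    rw [pow_one, pow_one, mul_pow, ← map_pow]
  rwa [e] at h

/-- the self energy decreases with the parameter -/
theorem energy2_anti {n : ℕ} (w : Fin n → ℂ) (hw : ∀ i, ‖w i‖ ≤ 1) (s t : ℝ) (hs : 0 < s)
    (hst : s ≤ t) : EE w t 1 1 ≤ EE w s 1 1 := by
  refine hasSum_le (fun l => ?_) (energy2_hasSum w hw t (hs.trans_le hst))
    (energy2_hasSum w hw s hs)
  refine mul_le_mul_of_nonneg_right ?_ (Complex.normSq_nonneg _)
  refine div_le_div_of_nonneg_right (Real.exp_le_exp.mpr ?_) (Nat.cast_nonneg _)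
  have : s * (l : ℝ) ≤ t * l := mul_le_mul_of_nonneg_right hst (Nat.cast_nonneg _)
  linarith

/-! ### the energies -/

theorem cyc_energy_le (f : ℤ[X]) (hf : f.Monic) (hirr : Irreducible f)
    (hM : 1 < (f.map (Int.castRingHom ℂ)).mahlerMeasure) {n : ℕ} (α : Fin n → ℂ)
    (hα : IsRoots f α) (j a b : ℕ) (hj : 0 < j) (hb : 0 < b) (s : ℝ) (hs : 0 ≤ s) :
    ∑ ζ ∈ primitiveRoots j ℂ, ∑ i, ker s (ζ ^ a) (refl (α i) ^ b) ≤
      j.totient * (n * s + b * hh α) := by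
  have hne : ∀ ζ ∈ primitiveRoots j ℂ, ∀ i, ζ ^ a ≠ α i ^ b := fun ζ hζ i =>
    cyc_pow_ne f hf hirr hM α hα j a b hj hb ζ hζ i
  have hn1 : ∀ ζ ∈ primitiveRoots j ℂ, ‖ζ ^ a‖ = 1 := by
    intro ζ hζ
    have h1 : ζ ^ j = 1 := ((mem_primitiveRoots hj).mp hζ).pow_eq_one
    rw [norm_pow, Complex.norm_eq_one_of_pow_eq_one h1 hj.ne', one_pow]
  have h1 : ∀ ζ ∈ primitiveRoots j ℂ, ∀ i, ker s (ζ ^ a) (refl (α i) ^ b) ≤
      s - Real.log ‖ζ ^ a - α i ^ b‖ + b * Real.posLog ‖α i‖ := by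
    intro ζ hζ i
    have h2 := ker_refl_le s hs (ζ ^ a) (α i ^ b) (hne ζ hζ i)
    rw [refl_of_le (hn1 ζ hζ).le, hn1 ζ hζ, refl_pow, norm_pow, Real.posLog_pow] at h2
    have h3 : Real.posLog (1 : ℝ) = 0 := (Real.posLog_eq_zero_iff _).mpr (by simp)
    rw [h3, add_zero] at h2
    exact h2
  have h2 : 0 ≤ ∑ ζ ∈ primitiveRoots j ℂ, ∑ i, Real.log ‖ζ ^ a - α i ^ b‖ := by
    have h3 : Real.log (∏ ζ ∈ primitiveRoots j ℂ, ∏ i, ‖ζ ^ a - α i ^ b‖) =
        ∑ ζ ∈ primitiveRoots j ℂ, ∑ i, Real.log ‖ζ ^ a - α i ^ b‖ := by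
      rw [Real.log_prod]
      · refine Finset.sum_congr rfl fun ζ hζ => ?_
        rw [Real.log_prod]
        intro i _
        exact norm_ne_zero_iff.mpr (sub_ne_zero.mpr (hne ζ hζ i))
      · intro ζ hζ
        exact Finset.prod_ne_zero_iff.mpr fun i _ =>
          norm_ne_zero_iff.mpr (sub_ne_zero.mpr (hne ζ hζ i))
    rw [← h3]
    exact Real.log_nonneg (one_le_prod_cyc f hf hirr hM α hα j a b hj hb)
  have h3 : ∑ ζ ∈ primitiveRoots j ℂ, ∑ i, ker s (ζ ^ a) (refl (α i) ^ b) ≤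
      ∑ ζ ∈ primitiveRoots j ℂ, ∑ i, (s - Real.log ‖ζ ^ a - α i ^ b‖ + b * Real.posLog ‖α i‖) :=
    Finset.sum_le_sum fun ζ hζ => Finset.sum_le_sum fun i _ => h1 ζ hζ i
  refine h3.trans ?_
  have h4 : ∑ i, Real.posLog ‖α i‖ = hh α := rfl
  simp only [Finset.sum_add_distrib, Finset.sum_sub_distrib, Finset.sum_const, Finset.card_univ,
    Fintype.card_fin, nsmul_eq_mul, ← Finset.mul_sum, Complex.card_primitiveRoots, h4]
  linarith

theorem neg_energy_le (f : ℤ[X]) (hf : f.Monic) (hirr : Irreducible f)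
    (hM : 1 < (f.map (Int.castRingHom ℂ)).mahlerMeasure) {n : ℕ} (α : Fin n → ℂ)
    (hα : IsRoots f α) (hexp : ¬ ∃ g : ℤ[X], f = expand ℤ 2 g) (s : ℝ) (hs : 0 ≤ s) :
    ∑ i, ∑ j, ker s (-(refl (α i))) (refl (α j)) ≤ n * (n * s + 2 * hh α) := by
  have hne : ∀ i j, -(α i) ≠ α j := add_ne_zero_of_not_expand f hf hirr hM α hα hexp
  have h1 : ∀ i j, ker s (-(refl (α i))) (refl (α j)) ≤
      s - Real.log ‖-(α i) - α j‖ + Real.posLog ‖α i‖ + Real.posLog ‖α j‖ := by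
    intro i j
    have h2 := ker_refl_le s hs (-(α i)) (α j) (hne i j)
    have h3 : refl (-(α i)) = -(refl (α i)) := by
      have := refl_mul (-1) (α i) (by simp)
      rwa [neg_one_mul, neg_one_mul] at this
    rwa [h3, norm_neg] at h2
  have h2 : 0 ≤ ∑ i, ∑ j, Real.log ‖-(α i) - α j‖ := by
    have h3 : Real.log (∏ i, ∏ j, ‖-(α i) - α j‖) = ∑ i, ∑ j, Real.log ‖-(α i) - α j‖ := by
      rw [Real.log_prod]
      · refine Finset.sum_congr rfl fun i _ => ?_
        rw [Real.log_prod]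
        intro j _
        exact norm_ne_zero_iff.mpr (sub_ne_zero.mpr (hne i j))
      · intro i _
        exact Finset.prod_ne_zero_iff.mpr fun j _ =>
          norm_ne_zero_iff.mpr (sub_ne_zero.mpr (hne i j))
    rw [← h3]
    exact Real.log_nonneg (one_le_prod_add f hf hirr hM α hα hexp)
  have h3 : ∑ i, ∑ j, ker s (-(refl (α i))) (refl (α j)) ≤
      ∑ i, ∑ j, (s - Real.log ‖-(α i) - α j‖ + Real.posLog ‖α i‖ + Real.posLog ‖α j‖) :=
    Finset.sum_le_sum fun i _ => Finset.sum_le_sum fun j _ => h1 i j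
  refine h3.trans ?_
  have h4 : ∑ i, Real.posLog ‖α i‖ = hh α := rfl
  simp only [Finset.sum_add_distrib, Finset.sum_sub_distrib, Finset.sum_const, Finset.card_univ,
    Fintype.card_fin, nsmul_eq_mul, ← Finset.mul_sum, h4]
  linarith

theorem EE_two_four_le (f : ℤ[X]) (hf : f.Monic) (hirr : Irreducible f)
    (hM : 1 < (f.map (Int.castRingHom ℂ)).mahlerMeasure) {n : ℕ} (α : Fin n → ℂ)
    (hα : IsRoots f α) (s : ℝ) (hs : 0 ≤ s) :
    EE (fun i => refl (α i)) (4 * s) 2 4 ≤ n * (4 * (n * s) + 6 * hh α) := by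
  have h1 := EE_offdiag_le α (4 * s) (by positivity) 2 4
    (fun i j => pow_ne_pow f hf hirr hM α hα 2 4 (by norm_num) i j)
  have h2 := Real.log_nonneg (one_le_prod_sub f hf hirr hM α hα 2 4 (by norm_num))
  push_cast at h1
  linarith

theorem EE_four_four_le (f : ℤ[X]) (hf : f.Monic) (hirr : Irreducible f)
    (hM : 1 < (f.map (Int.castRingHom ℂ)).mahlerMeasure) (h0 : f.coeff 0 ≠ 0) {n : ℕ}
    (α : Fin n → ℂ) (hα : IsRoots f α) (s : ℝ) (hs : 0 < s) :
    EE (fun i => refl (α i)) (6 * s) 4 4 ≤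
      4 * EE (fun i => refl (α i)) s 1 1 + n * (8 * hh α + 6 * (n * s)) := by
  obtain ⟨r, hr4, hr⟩ := exists_card_torsion f hf hirr α hα 4 (by norm_num)
  have hrR : (r : ℝ) ≤ 4 := by exact_mod_cast hr4
  have hr0 : (0 : ℝ) ≤ r := Nat.cast_nonneg _
  have hh0 := hh_nonneg α
  have h1 := EE_diag_le f α hα (roots_injective f hf hirr α hα) (roots_ne_zero f h0 α hα)
    4 r (by norm_num) hr (6 * s) (by positivity)
    (one_le_prod_eval f hf hirr α hα 4 (by norm_num))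
  have h2 : EE (fun i => refl (α i)) (6 * s / (4 : ℕ)) 1 1 ≤ EE (fun i => refl (α i)) s 1 1 :=
    energy2_anti _ (fun i => norm_refl_le _) s _ hs (by push_cast; linarith)
  have hE : 0 ≤ EE (fun i => refl (α i)) (6 * s / (4 : ℕ)) 1 1 :=
    EE_self_nonneg _ (fun i => norm_refl_le _) _ (by positivity) 1
  have h3 : (r : ℝ) * EE (fun i => refl (α i)) (6 * s / (4 : ℕ)) 1 1 ≤
      4 * EE (fun i => refl (α i)) s 1 1 :=
    (mul_le_mul_of_nonneg_right hrR hE).trans (mul_le_mul_of_nonneg_left h2 (by norm_num))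
  have h4 : 2 * (n : ℝ) * (4 - r) * hh α ≤ 2 * n * 4 * hh α := by
    gcongr
    linarith
  have h5 : (n : ℝ) ^ 2 * (4 - r) * (6 * s / 4) ≤ (n : ℝ) ^ 2 * 4 * (6 * s / 4) := by
    gcongr
    linarith
  push_cast at h1 h3
  have h6 : (n : ℝ) ^ 2 * 4 * (6 * s / 4) = n * (6 * (n * s)) := by ring
  linarith

end Pool.Agent.Lib.MP_7ab245_nt.Len
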