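import Mathlib
import Pool.Agent.Lib.MP_7ab245_nt.Few.Primes
import Pool.Agent.Lib.MP_7ab245_nt.Len.Defs
import Pool.Agent.Lib.MP_7ab245_nt.Len.MainA
import Pool.Agent.Lib.MP_7ab245_nt.Len.MainB
import Pool.Agent.Lib.MP_7ab245_nt.Len.Expand

/-! From an energy bound to a lower bound of the Mahler measure. -/

set_option autoImplicit false

open Polynomial Finset

namespace Pool.Agent.Lib.MP_7ab245_nt.Len

/-- choice of the primes -/
lemma exists_primes (E : ℝ) (hE : 40000 ≤ E) : ∃ (R : ℕ) (P : Finset ℕ), 40000 ≤ R ∧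
    (∀ q ∈ P, q.Prime ∧ (R : ℝ) < q ∧ (q : ℝ) ≤ 16 * R) ∧
    4 * E ^ 2 / Real.log E ^ 2 ≤ P.card ∧ (P.card : ℝ) ≤ 5 * E ^ 2 / Real.log E ^ 2 ∧
    Real.log E ≤ Real.log R ∧ (R : ℝ) ≤ 4 * E ^ 2 / Real.log E ∧ 16 * (R : ℝ) ≤ E ^ 5 := by
  classical
  obtain ⟨lam, hlam⟩ : ∃ x, x = Real.log E := ⟨_, rfl⟩
  obtain ⟨v, hv⟩ : ∃ x, x = Real.sqrt E := ⟨_, rfl⟩
  have hE0 : 0 < E := by linarith
  have hv0 : 0 ≤ v := by rw [hv]; exact Real.sqrt_nonneg _
  have hv2 : v ^ 2 = E := by rw [hv]; exact Real.sq_sqrt hE0.le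
  have hv200 : 200 ≤ v := by nlinarith
  have hlamv : lam ≤ 2 * v := by
    rw [hlam, ← hv2, Real.log_pow]
    have := Real.log_le_sub_one_of_pos (x := v) (by linarith)
    push_cast
    linarith
  have hlam1 : 1 ≤ lam := by
    rw [hlam, Real.le_log_iff_exp_le hE0]
    have := Real.exp_one_lt_d9
    linarith
  rw [← hlam]
  obtain ⟨Z, hZ⟩ : ∃ Z, Z = 4 * E ^ 2 / lam ^ 2 := ⟨_, rfl⟩
  have hlam2 : lam ^ 2 ≤ 4 * E := by
    calc lam ^ 2 ≤ (2 * v) ^ 2 := by gcongr
      _ = 4 * E := by rw [mul_pow, hv2]; norm_num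
  have hZE : E ≤ Z := by
    rw [hZ, le_div_iff₀ (by positivity)]
    nlinarith
  have hZ4 : Z ≤ 4 * E ^ 2 := by
    rw [hZ]
    apply div_le_self (by positivity)
    exact one_le_pow₀ hlam1
  have hZ0 : 0 ≤ Z := by linarith
  obtain ⟨R, hR1, hR2, hR3⟩ := Few.exists_R Z (by linarith)
  have hRR : (40000 : ℝ) ≤ R := by exact_mod_cast hR1
  have hR0 : (0 : ℝ) < R := by linarith
  have hlog13 : 13 ≤ Real.log (16 * R) := by
    have h3 : ((2 : ℝ) ^ 19) ≤ 16 * R := by
      have : (2 : ℝ) ^ 19 = 524288 := by norm_num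
      rw [this]; linarith
    have h4 := Real.log_le_log (by norm_num) h3
    rw [Real.log_pow] at h4
    push_cast at h4
    have := Real.log_two_gt_d9
    linarith
  have hZR : Z ≤ R := by
    have : Z * 13 ≤ Z * Real.log (16 * R) := mul_le_mul_of_nonneg_left hlog13 hZ0
    linarith
  obtain ⟨w, hw⟩ : ∃ x, x = Real.sqrt R := ⟨_, rfl⟩
  have hw0 : 0 ≤ w := by rw [hw]; exact Real.sqrt_nonneg _
  have hw2 : w ^ 2 = R := by rw [hw]; exact Real.sq_sqrt hR0.le
  have hw200 : 200 ≤ w := by nlinarith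
  have hlb := Few.log_bound R hR1
  rw [← hw] at hlb
  have hwZ : w ≤ Z / 9 := by
    have h1 : 9 * w ^ 2 ≤ Z * (0.067 * w) + 9 := by
      rw [hw2]
      have : Z * Real.log (16 * R) ≤ Z * (0.067 * w) := by
        have : 0 ≤ Z := by linarith
        gcongr
      linarith
    have h2 : w * (9 * w) ≤ w * Z := by nlinarith
    have h3 := le_of_mul_le_mul_left h2 (by linarith)
    linarith
  have hR5 : 16 * (R : ℝ) ≤ E ^ 5 := by
    calc 16 * (R : ℝ) = 16 * w ^ 2 := by rw [hw2]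
      _ ≤ 16 * (Z / 9) ^ 2 := by gcongr
      _ ≤ 16 * (4 * E ^ 2 / 9) ^ 2 := by
          have : 0 ≤ Z / 9 := by positivity
          gcongr
      _ = 256 / 81 * E ^ 4 := by ring
      _ ≤ E * E ^ 4 := by
          gcongr
          linarith
      _ = E ^ 5 := by ring
  have hlogR5 : Real.log (16 * R) ≤ 5 * lam := by
    have := Real.log_le_log (by positivity) hR5
    rw [Real.log_pow] at this
    push_cast at this
    rw [hlam]
    exact this
  have hRZ : (R : ℝ) ≤ 4 * E ^ 2 / lam := by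
    have h1 : 4 * E ^ 2 / lam = Z * lam := by
      rw [hZ]; field_simp
    rw [h1]
    have h2 : Z * Real.log (16 * R) ≤ Z * (5 * lam) := by
      have : 0 ≤ Z := by linarith
      gcongr
    have h3 : Z ≤ Z * lam := by
      have : 0 ≤ Z := by linarith
      nlinarith
    linarith
  have hcard : ⌈Z⌉₊ ≤ (Few.PP R).card := by
    rw [Nat.ceil_le]
    have h1 := Few.primes_many R hR1
    have h2 : Z * Real.log (16 * R) ≤ (Few.PP R).card * Real.log (16 * R) := by linarith
    exact le_of_mul_le_mul_right h2 (by linarith)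
  obtain ⟨P, hPsub, hPcard⟩ := Finset.exists_subset_card_eq hcard
  refine ⟨R, P, hR1, ?_, ?_, ?_, ?_, hRZ, hR5⟩
  · intro q hq
    have := Few.mem_PP.mp (hPsub hq)
    refine ⟨this.2.1, by exact_mod_cast this.2.2, by exact_mod_cast this.1⟩
  · rw [hPcard, ← hZ]
    exact Nat.le_ceil _
  · rw [hPcard]
    have h1 := Nat.ceil_lt_add_one (show 0 ≤ Z by linarith)
    have h2 : 5 * E ^ 2 / lam ^ 2 = Z + Z / 4 := by
      rw [hZ]; ring
    rw [h2]
    linarith
  · rw [hlam]
    exact Real.log_le_log hE0 (by linarith)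

/-- the conclusion drawn from the inequality -/
lemma final_numeric (E lam N R LR B a x h : ℝ) (hE : 40000 ≤ E) (hlam1 : 1 ≤ lam)
    (hlamE : lam ≤ E) (hN1 : 4 * E ^ 2 / lam ^ 2 ≤ N) (hN2 : N ≤ 5 * E ^ 2 / lam ^ 2)
    (hR1 : 1 ≤ R) (hR2 : R ≤ 4 * E ^ 2 / lam) (hLR : lam ≤ LR) (ha : a = lam / E)
    (hx : x = a * N) (hB : B = 2 * x ^ 2) (hh : 0 ≤ h)
    (hmain : 0 ≤ E + 2 * a * N * (1 / B + (1 + 16 * R) * h - LR)
      + a ^ 2 * (N * (E + 2 * (16 * R) * h + 1 / B)
        + N ^ 2 * (1 / B + 2 * (16 * R) * h))) :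
    lam ^ 3 / (6400 * E ^ 3) ≤ h ∧ 1 ≤ x ∧ x ≤ 5 * E / lam := by
  have hE0 : 0 < E := by linarith
  have hlam0 : 0 < lam := by linarith
  have ha0 : 0 < a := by rw [ha]; positivity
  have ha1 : a ≤ 1 := by
    rw [ha, div_le_one hE0]; exact hlamE
  have hx1 : 4 * E / lam ≤ x := by
    rw [hx, ha]
    calc 4 * E / lam = lam / E * (4 * E ^ 2 / lam ^ 2) := by field_simp
      _ ≤ lam / E * N := by gcongr
  have hx2 : x ≤ 5 * E / lam := by
    rw [hx, ha]
    calc lam / E * N ≤ lam / E * (5 * E ^ 2 / lam ^ 2) := by gcongr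
      _ = 5 * E / lam := by field_simp
  have hx1' : 1 ≤ x := by
    refine le_trans ?_ hx1
    rw [le_div_iff₀ hlam0]
    linarith
  have hx0 : 0 < x := by linarith
  have hxlam : 4 * E ≤ x * lam := by
    rw [div_le_iff₀ hlam0] at hx1
    exact hx1
  refine ⟨?_, hx1', hx2⟩
  have haE : a * E = lam := by rw [ha]; field_simp
  have hB0 : 0 < B := by rw [hB]; positivity
  have h1 : 0 ≤ E - x * lam + h * (2 * x * (1 + 16 * R) + 2 * a * x * (16 * R)
      + 2 * x ^ 2 * (16 * R)) + (2 * x + a * x + x ^ 2) / B := by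
    calc (0 : ℝ) ≤ _ := hmain
      _ = E + (a * E) * (a * N) - 2 * (a * N) * LR + h * (2 * (a * N) * (1 + 16 * R)
          + 2 * a * (a * N) * (16 * R) + 2 * (a * N) ^ 2 * (16 * R))
          + (2 * (a * N) + a * (a * N) + (a * N) ^ 2) / B := by ring
      _ = E + lam * x - 2 * x * LR + h * (2 * x * (1 + 16 * R) + 2 * a * x * (16 * R)
          + 2 * x ^ 2 * (16 * R)) + (2 * x + a * x + x ^ 2) / B := by rw [← hx, haE]
      _ ≤ E + lam * x - 2 * x * lam + h * (2 * x * (1 + 16 * R) + 2 * a * x * (16 * R)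
          + 2 * x ^ 2 * (16 * R)) + (2 * x + a * x + x ^ 2) / B := by
          gcongr
      _ = _ := by ring
  have h2 : (2 * x + a * x + x ^ 2) / B ≤ 2 := by
    rw [div_le_iff₀ hB0, hB]
    have : x ≤ x ^ 2 := by nlinarith
    have : a * x ≤ 1 * x := by gcongr
    linarith
  have h3 : 2 * x * (1 + 16 * R) + 2 * a * x * (16 * R) + 2 * x ^ 2 * (16 * R) ≤
      8 * x ^ 2 * (16 * R) := by
    have hxx : x ≤ x ^ 2 := by nlinarith
    have e1 : 2 * x * (1 + 16 * R) ≤ 2 * x ^ 2 * (16 * R + 16 * R) := by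
      gcongr
      linarith
    have e2 : 2 * a * x * (16 * R) ≤ 2 * 1 * x ^ 2 * (16 * R) := by
      gcongr
    linarith
  have h4 : h * (2 * x * (1 + 16 * R) + 2 * a * x * (16 * R) + 2 * x ^ 2 * (16 * R)) ≤
      h * (8 * x ^ 2 * (16 * R)) := by gcongr
  have h5 : E ≤ 4 * x ^ 2 * (16 * R) * h := by linarith
  have h6 : 4 * x ^ 2 * (16 * R) * h ≤ 4 * (5 * E / lam) ^ 2 * (16 * (4 * E ^ 2 / lam)) * h := by
    gcongr
  have h7 : E ≤ (6400 * E ^ 4 / lam ^ 3) * h := by
    calc E ≤ _ := h5.trans h6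
      _ = (6400 * E ^ 4 / lam ^ 3) * h := by
        field_simp
        ring
  rw [div_le_iff₀ (by positivity)]
  have h8 : E * lam ^ 3 ≤ E * (h * (6400 * E ^ 3)) := by
    have h9 : E * lam ^ 3 ≤ (6400 * E ^ 4 / lam ^ 3) * h * lam ^ 3 := by gcongr
    have h10 : (6400 * E ^ 4 / lam ^ 3) * h * lam ^ 3 = E * (h * (6400 * E ^ 3)) := by
      field_simp
    rw [h10] at h9
    exact h9
  exact le_of_mul_le_mul_left h8 hE0

lemma coeff_zero_ne_zero (f : ℤ[X]) (hirr : Irreducible f) (hM : 1 < mm f) : f.coeff 0 ≠ 0 := by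
  intro h0
  have h1 : X ∣ f := X_dvd_iff.mpr h0
  obtain ⟨c, hc⟩ := h1
  rcases hirr.isUnit_or_isUnit hc with h2 | h2
  · exact not_isUnit_X h2
  · obtain ⟨u, hu, hcu⟩ := Polynomial.isUnit_iff.mp h2
    have h3 : mm f = 1 := by
      rw [hc, mm_mul, mm_X, one_mul, ← hcu, mm_C]
      rcases Int.isUnit_iff.mp hu with h4 | h4 <;> rw [h4] <;> simp
    linarith

/-- elementary facts on `E = A + b log (A + b)` -/
lemma E_facts (A b E : ℝ) (hA : 1 ≤ A) (hb : 1 ≤ b) (hE : E = A + b * Real.log (A + b)) :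
    1 ≤ E ∧ A + 8 * b * Real.log (40000 * E) ≤ 40000 * E := by
  obtain ⟨t, ht⟩ : ∃ t, t = Real.log (A + b) := ⟨_, rfl⟩
  have h2 : Real.log 2 ≤ t := by
    rw [ht]; exact Real.log_le_log (by norm_num) (by linarith)
  have hl2 := Real.log_two_gt_d9
  have ht0 : 0.69 ≤ t := by linarith
  rw [← ht] at hE
  have hbt : 0.69 ≤ b * t := by nlinarith
  have hE1 : 1 ≤ E := by linarith
  refine ⟨hE1, ?_⟩
  have htab : t ≤ A + b := by
    have := Real.log_le_sub_one_of_pos (x := A + b) (by linarith)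
    linarith
  have hE2 : E ≤ (A + b) ^ 2 := by
    rw [hE]
    have : b * t ≤ b * (A + b) := by gcongr
    nlinarith
  have h3 : Real.log (40000 * E) ≤ 11.1 + 2 * t := by
    rw [Real.log_mul (by norm_num) (by linarith)]
    have h4 : Real.log E ≤ 2 * t := by
      have := Real.log_le_log (by linarith) hE2
      rw [Real.log_pow, ← ht] at this
      push_cast at this
      exact this
    have h5 : Real.log 40000 ≤ 11.1 := by
      have h6 : Real.log 40000 ≤ Real.log ((2 : ℝ) ^ 16) :=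
        Real.log_le_log (by norm_num) (by norm_num)
      rw [Real.log_pow] at h6
      push_cast at h6
      have := Real.log_two_lt_d9
      linarith
    linarith
  have h6 : 8 * b * Real.log (40000 * E) ≤ 8 * b * (11.1 + 2 * t) := by gcongr
  have h7 : 8 * b * (11.1 + 2 * t) ≤ 150 * (b * t) := by nlinarith
  rw [hE]
  rw [hE] at h6
  linarith

/-- the main step -/
lemma energy_step (A b E0 : ℝ) (hA : 1 ≤ A) (hb : 1 ≤ b) (hE0 : E0 = A + b * Real.log (A + b))
    (f : ℤ[X]) (hf : f.Monic) (hirr : Irreducible f) (hM : 1 < mm f) (hM2 : mm f < 2)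
    {n : ℕ} (hn : 0 < n) (α : Fin n → ℂ) (hα : IsRoots f α)
    (hEB : ∀ B : ℝ, 1 ≤ B → EE (fun i => refl (α i)) (1 / (n * B)) 1 1 ≤
      n * (A + b * Real.log B))
    (E : ℝ) (hE : E = 40000 * E0) (R : ℕ) (P : Finset ℕ) (hR : 40000 ≤ R)
    (hP : ∀ q ∈ P, q.Prime ∧ (R : ℝ) < q ∧ (q : ℝ) ≤ 16 * R)
    (hN1 : 4 * E ^ 2 / Real.log E ^ 2 ≤ P.card) (hN2 : (P.card : ℝ) ≤ 5 * E ^ 2 / Real.log E ^ 2)
    (hLR : Real.log E ≤ Real.log R) (hR2 : (R : ℝ) ≤ 4 * E ^ 2 / Real.log E)
    (hR5 : 16 * (R : ℝ) ≤ E ^ 5)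
    (hexp : ∀ q ∈ P, ¬ ∃ g : ℤ[X], f = expand ℤ q g) :
    Real.log E ^ 3 / (6400 * E ^ 3) ≤ Real.log (mm f) := by
  have h0 := coeff_zero_ne_zero f hirr hM
  obtain ⟨hE01, hE02⟩ := E_facts A b E0 hA hb hE0
  rw [← hE] at hE02
  have hE4 : 40000 ≤ E := by
    rw [hE]; linarith
  have hEpos : 0 < E := by linarith
  have hlam1 : 1 ≤ Real.log E := by
    rw [Real.le_log_iff_exp_le hEpos]
    have := Real.exp_one_lt_d9
    linarith
  have hlamE : Real.log E ≤ E := by
    have := Real.log_le_sub_one_of_pos hEpos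
    linarith
  have hRR : (40000 : ℝ) ≤ R := by exact_mod_cast hR
  have hnR : (0 : ℝ) < n := by exact_mod_cast hn
  have hhlog : hh α = Real.log (mm f) := hh_eq_log_mahler f α hα
  have hh0 : 0 ≤ hh α := hh_nonneg α
  -- parameters
  obtain ⟨a, ha⟩ : ∃ a, a = Real.log E / E := ⟨_, rfl⟩
  obtain ⟨x, hx⟩ : ∃ x, x = a * P.card := ⟨_, rfl⟩
  obtain ⟨B, hB⟩ : ∃ B, B = 2 * x ^ 2 := ⟨_, rfl⟩
  have ha0 : 0 ≤ a := by rw [ha]; positivity
  have hx12 : 1 ≤ x ∧ x ≤ 5 * E / Real.log E := by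
    have hlam0 : 0 < Real.log E := by linarith
    constructor
    · rw [hx, ha]
      calc (1 : ℝ) ≤ 4 * E / Real.log E := by
            rw [le_div_iff₀ hlam0]; linarith
        _ = Real.log E / E * (4 * E ^ 2 / Real.log E ^ 2) := by field_simp
        _ ≤ Real.log E / E * P.card := by gcongr
    · rw [hx, ha]
      calc Real.log E / E * P.card ≤ Real.log E / E * (5 * E ^ 2 / Real.log E ^ 2) := by gcongr
        _ = 5 * E / Real.log E := by field_simp
  obtain ⟨hx1, hx2⟩ := hx12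
  have hB1 : 1 ≤ B := by rw [hB]; nlinarith
  have hxE : x ≤ 5 * E := by
    refine hx2.trans ?_
    exact div_le_self (by linarith) hlam1
  have hBE : B ≤ 50 * E ^ 2 := by
    rw [hB]
    calc 2 * x ^ 2 ≤ 2 * (5 * E) ^ 2 := by gcongr
      _ = 50 * E ^ 2 := by ring
  -- the energy bound
  have hen : ∀ B' : ℝ, 1 ≤ B' → B' ≤ 50 * E ^ 7 →
      EE (fun i => refl (α i)) (1 / (n * B')) 1 1 ≤ n * E := by
    intro B' hB'1 hB'2
    refine (hEB B' hB'1).trans ?_
    have h2 : Real.log B' ≤ 8 * Real.log E := by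
      have h3 : B' ≤ E ^ 8 := by
        calc B' ≤ 50 * E ^ 7 := hB'2
          _ ≤ E * E ^ 7 := by gcongr; linarith
          _ = E ^ 8 := by ring
      have h4 := Real.log_le_log (by linarith) h3
      rw [Real.log_pow] at h4
      push_cast at h4
      exact h4
    have h5 : b * Real.log B' ≤ b * (8 * Real.log E) := by gcongr
    have h6 : A + b * Real.log B' ≤ E := by linarith
    gcongr
  have hE5 : 1 ≤ E ^ 5 := one_le_pow₀ (by linarith)
  have hcore := core_ineq f hf hirr hM h0 hn α hα P R (16 * R) (by linarith) hP hexp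
    (1 / (n * B)) E a (by positivity) ha0
    (hen B hB1 (by
      calc B ≤ 50 * E ^ 2 := hBE
        _ = 50 * (E ^ 2 * 1) := by ring
        _ ≤ 50 * (E ^ 2 * E ^ 5) := by gcongr
        _ = 50 * E ^ 7 := by ring))
    (by
      intro q hq
      obtain ⟨hq1, hq2, hq3⟩ := hP q hq
      have hq0 : (1 : ℝ) ≤ q := by linarith
      have h1 : 1 / (n * B) / q = 1 / (n * (B * q)) := by
        field_simp
      rw [h1]
      apply hen
      · nlinarith
      · calc B * q ≤ (50 * E ^ 2) * E ^ 5 := by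
              gcongr
              linarith
          _ = 50 * E ^ 7 := by ring)
  have hns : (n : ℝ) * (1 / (n * B)) = 1 / B := by
    field_simp
  rw [hns] at hcore
  have hfin := final_numeric E (Real.log E) P.card R (Real.log R) B a x (hh α) hE4 hlam1 hlamE
    hN1 hN2 (by linarith) hR2 hLR ha hx hB hh0 hcore
  rw [← hhlog]
  exact hfin.1

lemma IsRoots.pos {f : ℤ[X]} (hirr : Irreducible f) {n : ℕ} {α : Fin n → ℂ}
    (hα : IsRoots f α) : 0 < n := by
  have hf := hα.monic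
  rw [← hα.natDegree_eq]
  rcases Nat.eq_zero_or_pos f.natDegree with h1 | h1
  · exfalso
    have := hf.natDegree_eq_zero.mp h1
    rw [this] at hirr
    exact not_irreducible_one hirr
  · exact h1

/-- From energies to the Mahler measure: the monic case with `M(f) < 2`. -/
theorem core_energy_monic (A b E0 : ℝ) (hA : 1 ≤ A) (hb : 1 ≤ b)
    (hE0 : E0 = A + b * Real.log (A + b)) (d : ℕ) :
    ∀ f : ℤ[X], f.natDegree ≤ d → Irreducible f → 1 < mm f → mm f < 2 →
      ∀ (n : ℕ) (α : Fin n → ℂ), IsRoots f α →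
      (∀ B : ℝ, 1 ≤ B → EE (fun i => refl (α i)) (1 / (n * B)) 1 1 ≤
        n * (A + b * Real.log B)) →
      1 / (6400 * 40000 ^ 3) * (Real.log E0 / E0) ^ 3 ≤ Real.log (mm f) := by
  induction d with
  | zero =>
    intro f hd hirr hM hM2 n α hα hEB
    exfalso
    have h1 := hα.pos hirr
    rw [← hα.natDegree_eq] at h1
    omega
  | succ d ih =>
    intro f hd hirr hM hM2 n α hα hEB
    have hf : f.Monic := hα.monic
    have hn := hα.pos hirr
    obtain ⟨hE01, hE02⟩ := E_facts A b E0 hA hb hE0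
    obtain ⟨E, hE⟩ : ∃ E, E = 40000 * E0 := ⟨_, rfl⟩
    have hE4 : 40000 ≤ E := by
      rw [hE]; linarith
    obtain ⟨R, P, hR, hP, hN1, hN2, hLR, hR2, hR5⟩ := exists_primes E hE4
    by_cases hexp : ∀ q ∈ P, ¬ ∃ g : ℤ[X], f = expand ℤ q g
    · have h1 := energy_step A b E0 hA hb hE0 f hf hirr hM hM2 hn α hα hEB E hE R P hR hP hN1 hN2
        hLR hR2 hR5 hexp
      refine le_trans ?_ h1
      have h2 : Real.log E0 ≤ Real.log E := by
        apply Real.log_le_log (by linarith)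
        rw [hE]
        linarith
      have h3 : 0 ≤ Real.log E0 := Real.log_nonneg hE01
      calc 1 / (6400 * 40000 ^ 3) * (Real.log E0 / E0) ^ 3
          = Real.log E0 ^ 3 / (6400 * (40000 * E0) ^ 3) := by
            field_simp
        _ ≤ Real.log E ^ 3 / (6400 * (40000 * E0) ^ 3) := by
            gcongr
        _ = _ := by rw [hE]
    · push Not at hexp
      obtain ⟨q, hq, g, hg⟩ := hexp
      obtain ⟨hq1, _, _⟩ := hP q hq
      have hq0 := hq1.pos
      have hqR : (0 : ℝ) < q := by exact_mod_cast hq0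
      have hgm : g.Monic := by
        rw [hg] at hf
        exact (monic_expand_iff hq0).mp hf
      have hgirr : Irreducible g := by
        rw [hg] at hirr
        exact of_irreducible_expand hq0.ne' hirr
      have hmm : mm f = mm g := by rw [hg, mm_expand hq0]
      obtain ⟨β, hβ⟩ := exists_isRoots g hgm
      have hnm := natDegree_expand_eq hg hα hβ
      have hm := hβ.pos hgirr
      have hdeg : g.natDegree ≤ d := by
        have h1 : f.natDegree = g.natDegree * q := by rw [hg, natDegree_expand]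
        have h2 := hq1.two_le
        nlinarith
      rw [hmm]
      refine ih g hdeg hgirr (by rw [← hmm]; exact hM) (by rw [← hmm]; exact hM2) _ β hβ ?_
      intro B hB
      have h1 := hEB B hB
      have hmR : (0 : ℝ) < g.natDegree := by exact_mod_cast hm
      have hnR : (n : ℝ) = g.natDegree * q := by rw [hnm]; push_cast; rfl
      have hB0 : 0 < B := by linarith
      rw [EE_expand hq0 hg hα hβ _ (by rw [hnR]; positivity), hnR] at h1
      have h2 : 1 / ((g.natDegree : ℝ) * q * B) * q = 1 / (g.natDegree * B) := by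
        field_simp
      rw [h2] at h1
      have h3 : (q : ℝ) * EE (fun i => refl (β i)) (1 / (g.natDegree * B)) 1 1 ≤
          q * (g.natDegree * (A + b * Real.log B)) := by linarith
      exact le_of_mul_le_mul_left h3 hqR

/-- From energies to the Mahler measure. -/
theorem core_energy (A b E0 : ℝ) (hA : 1 ≤ A) (hb : 1 ≤ b)
    (hE0 : E0 = A + b * Real.log (A + b)) (f : ℤ[X]) (hirr : Irreducible f) (hM : 1 < mm f)
    (hM2 : mm f < 2) (n : ℕ) (α : Fin n → ℂ) (hα : IsRoots f α)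
    (hEB : ∀ B : ℝ, 1 ≤ B → EE (fun i => refl (α i)) (1 / (n * B)) 1 1 ≤
      n * (A + b * Real.log B)) :
    1 / (6400 * 40000 ^ 3) * (Real.log E0 / E0) ^ 3 ≤ Real.log (mm f) :=
  core_energy_monic A b E0 hA hb hE0 f.natDegree f le_rfl hirr hM hM2 n α hα hEB

end Pool.Agent.Lib.MP_7ab245_nt.Len
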