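import Mathlib

set_option autoImplicit false

open Polynomial Finset

namespace Pool.Agent.Lib.MP_7ab245_nt.Len

/-- sum over the primitive `m`-th roots of unity -/
private noncomputable def CC (m : ℕ) (H : ℂ → ℝ) : ℝ := ∑ ζ ∈ primitiveRoots m ℂ, H ζ

/-- sum over the square roots -/
private noncomputable def RR (H : ℂ → ℝ) (w : ℂ) : ℝ := ∑ y ∈ (nthRoots 2 w).toFinset, H y

private theorem sq_prim_iff {m : ℕ} (hm : 0 < m) (y : ℂ) :
    IsPrimitiveRoot (y ^ 2) m ↔
      IsPrimitiveRoot y (2 * m) ∨ (Odd m ∧ IsPrimitiveRoot y m) := by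
  constructor
  · intro h
    have h1 : orderOf (y ^ 2) = m := h.eq_orderOf.symm
    have h2 : orderOf (y ^ 2) = orderOf y / Nat.gcd (orderOf y) 2 := orderOf_pow' y two_ne_zero
    have h3 : IsPrimitiveRoot y (orderOf y) := IsPrimitiveRoot.orderOf y
    rw [h1] at h2
    rcases Nat.even_or_odd (orderOf y) with he | ho
    · left
      obtain ⟨k, hk⟩ := he
      have : Nat.gcd (orderOf y) 2 = 2 := Nat.gcd_eq_right ⟨k, by omega⟩
      rw [this] at h2
      have h4 : orderOf y = 2 * m := by omega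
      rwa [h4] at h3
    · right
      have : Nat.gcd (orderOf y) 2 = 1 := by
        rw [← Nat.Coprime, Nat.coprime_two_right]; exact ho
      rw [this, Nat.div_one] at h2
      rw [← h2] at h3 ho
      exact ⟨ho, h3⟩
  · rintro (h | ⟨ho, h⟩)
    · exact h.pow (by omega) rfl
    · exact h.pow_of_coprime 2 (Nat.coprime_two_left.2 ho)

private theorem mem_RR {w y : ℂ} : y ∈ (nthRoots 2 w).toFinset ↔ y ^ 2 = w := by
  rw [Multiset.mem_toFinset, mem_nthRoots two_pos]

private theorem RR_sq (H : ℂ → ℝ) {y : ℂ} (hy : y ≠ 0) : RR H (y ^ 2) = H y + H (-y) := by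
  have h1 : (nthRoots 2 (y ^ 2)).toFinset = {y, -y} := by
    ext x
    rw [mem_RR, Finset.mem_insert, Finset.mem_singleton, sq_eq_sq_iff_eq_or_eq_neg]
  have h2 : y ≠ -y := by
    intro h
    apply hy
    have : (2 : ℂ) * y = 0 := by linear_combination h
    simpa using this
  rw [RR, h1, Finset.sum_pair h2]

private theorem CC_RR {m : ℕ} (hm : 0 < m) (H : ℂ → ℝ) :
    CC m (RR H) = CC (2 * m) H + if Odd m then CC m H else 0 := by
  classical
  set S : Finset ℂ := primitiveRoots (2 * m) ℂ ∪ if Odd m then primitiveRoots m ℂ else ∅ with hS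
  have hmem : ∀ y, y ∈ S ↔ y ^ 2 ∈ primitiveRoots m ℂ := by
    intro y
    rw [hS, Finset.mem_union, mem_primitiveRoots (by omega), mem_primitiveRoots hm,
      sq_prim_iff hm]
    split_ifs with ho
    · rw [mem_primitiveRoots hm]; simp [ho]
    · simp [ho]
  have hdis : Disjoint (primitiveRoots (2 * m) ℂ) (if Odd m then primitiveRoots m ℂ else ∅) := by
    split_ifs with ho
    · rw [Finset.disjoint_left]
      intro y hy hy'
      rw [mem_primitiveRoots (by omega)] at hy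
      rw [mem_primitiveRoots hm] at hy'
      have := hy.unique hy'
      omega
    · simp
  have h1 : ∑ y ∈ S, H y = CC (2 * m) H + if Odd m then CC m H else 0 := by
    rw [hS, Finset.sum_union hdis, CC]
    congr 1
    split_ifs
    · rfl
    · simp
  rw [← h1, ← Finset.sum_fiberwise_of_maps_to (s := S) (t := primitiveRoots m ℂ)
    (g := fun y => y ^ 2) (fun y hy => (hmem y).1 hy), CC]
  refine Finset.sum_congr rfl fun w hw => ?_
  rw [RR]
  refine Finset.sum_congr ?_ fun _ _ => rfl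
  ext y
  rw [mem_RR, Finset.mem_filter]
  constructor
  · intro h
    refine ⟨(hmem y).2 ?_, h⟩
    rw [h]; exact hw
  · exact fun h => h.2

private theorem prim_ne_zero {m : ℕ} (hm : 0 < m) {z : ℂ} (hz : IsPrimitiveRoot z m) : z ≠ 0 :=
  hz.ne_zero (by omega)

private theorem CC_RR_sq {m : ℕ} (hm : 0 < m) (H : ℂ → ℝ) :
    CC m (RR fun y => H (y ^ 2)) = 2 * CC m H := by
  rw [CC, CC, Finset.mul_sum]
  refine Finset.sum_congr rfl fun w hw => ?_
  rw [mem_primitiveRoots hm] at hw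
  obtain ⟨y, hy⟩ := IsAlgClosed.exists_pow_nat_eq w (n := 2) two_pos
  have hw0 := prim_ne_zero hm hw
  have hy0 : y ≠ 0 := by rintro rfl; simp at hy; exact hw0 hy.symm
  rw [← hy, RR_sq _ hy0, neg_sq, hy]; ring

private theorem CC_sq_odd {m : ℕ} (hm : Odd m) (H : ℂ → ℝ) :
    CC m (fun z => H (z ^ 2)) = CC m H := by
  classical
  have hm0 : 0 < m := hm.pos
  have hinj : Set.InjOn (fun z : ℂ => z ^ 2) (primitiveRoots m ℂ : Set ℂ) := by
    intro a ha b hb hab
    simp only [Finset.mem_coe, mem_primitiveRoots hm0] at ha hb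
    simp only at hab
    rcases sq_eq_sq_iff_eq_or_eq_neg.1 hab with h | h
    · exact h
    · exfalso
      have h1 := ha.pow_eq_one
      rw [h, hm.neg_pow, hb.pow_eq_one] at h1
      norm_num at h1
  have himg : (primitiveRoots m ℂ).image (fun z : ℂ => z ^ 2) = primitiveRoots m ℂ := by
    apply Finset.eq_of_subset_of_card_le
    · intro y hy
      obtain ⟨z, hz, rfl⟩ := Finset.mem_image.1 hy
      rw [mem_primitiveRoots hm0] at hz ⊢
      exact hz.pow_of_coprime 2 (Nat.coprime_two_left.2 hm)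
    · rw [Finset.card_image_of_injOn hinj]
  rw [CC, CC]
  conv_rhs => rw [← himg]
  rw [Finset.sum_image hinj]

/-- push forward by squaring -/
private theorem CC_sq {m : ℕ} (hm : 0 < m) : ∃ c m' : ℕ, 0 < m' ∧ c * m'.totient = m.totient ∧
    (∀ H : ℂ → ℝ, CC m (fun z => H (z ^ 2)) = c * CC m' H) ∧
    ((4 ∣ m ∧ c = 2 ∧ m = 2 * m') ∨ (Odd m' ∧ c = 1 ∧ (m = m' ∨ m = 2 * m'))) := by
  rcases Nat.even_or_odd m with he | ho
  · obtain ⟨k, hk⟩ := he
    have hk0 : 0 < k := by omega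
    have hmk : m = 2 * k := by omega
    rcases Nat.even_or_odd k with he | ho
    · refine ⟨2, k, hk0, ?_, ?_, Or.inl ⟨?_, rfl, hmk⟩⟩
      · rw [hmk, Nat.totient_mul_of_prime_of_dvd Nat.prime_two he.two_dvd]
      · intro H
        have h1 := CC_RR hk0 (fun z => H (z ^ 2))
        rw [CC_RR_sq hk0, if_neg (Nat.not_odd_iff_even.2 he), add_zero, ← hmk] at h1
        rw [← h1]; norm_num
      · obtain ⟨l, hl⟩ := he
        exact ⟨l, by omega⟩
    · refine ⟨1, k, hk0, ?_, ?_, Or.inr ⟨ho, rfl, Or.inr hmk⟩⟩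
      · rw [hmk, Nat.totient_mul (Nat.coprime_two_left.2 ho)]; simp
      · intro H
        have h1 := CC_RR hk0 (fun z => H (z ^ 2))
        rw [CC_RR_sq hk0, if_pos ho, ← hmk, CC_sq_odd ho] at h1
        push_cast
        linarith
  · exact ⟨1, m, hm, one_mul _, fun H => by rw [CC_sq_odd ho]; norm_num,
      Or.inr ⟨ho, rfl, Or.inl rfl⟩⟩

private theorem CC_pow (t : ℕ) : ∀ {m : ℕ}, 0 < m → ∃ c m' : ℕ, 0 < m' ∧
    c * m'.totient = m.totient ∧
    ∀ H : ℂ → ℝ, CC m (fun z => H (z ^ (2 ^ t))) = c * CC m' H := by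
  induction t with
  | zero =>
    intro m hm
    exact ⟨1, m, hm, one_mul _, fun H => by simp⟩
  | succ t ih =>
    intro m hm
    obtain ⟨c, m', hm', hc, hH, -⟩ := CC_sq hm
    obtain ⟨c', m'', hm'', hc', hH'⟩ := ih hm'
    refine ⟨c * c', m'', hm'', by rw [mul_assoc, hc', hc], fun H => ?_⟩
    have h1 := hH (fun z => H (z ^ (2 ^ t)))
    rw [hH' H] at h1
    rw [Nat.cast_mul, mul_assoc, ← h1]
    congr 1
    ext z
    rw [← pow_mul, pow_succ, mul_comm 2]

private theorem prim_neg_odd {m : ℕ} (hm : Odd m) (z : ℂ) :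
    IsPrimitiveRoot z m ↔ IsPrimitiveRoot (-z) (2 * m) := by
  have hm0 : 0 < m := hm.pos
  constructor
  · intro h
    have h1 : IsPrimitiveRoot ((-z) ^ 2) m := by
      rw [neg_sq]; exact h.pow_of_coprime 2 (Nat.coprime_two_left.2 hm)
    rcases (sq_prim_iff hm0 _).1 h1 with h2 | ⟨-, h2⟩
    · exact h2
    · exfalso
      have h3 := h2.pow_eq_one
      rw [hm.neg_pow, h.pow_eq_one] at h3
      norm_num at h3
  · intro h
    have h1 : IsPrimitiveRoot (z ^ 2) m := by
      rw [← neg_sq]; exact h.pow (by omega) rfl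
    rcases (sq_prim_iff hm0 _).1 h1 with h2 | ⟨-, h2⟩
    · exfalso
      have e1 : IsPrimitiveRoot (z ^ m) 2 := h2.pow (by omega) (by ring)
      have e2 : IsPrimitiveRoot ((-z) ^ m) 2 := h.pow (by omega) (by ring)
      have e3 := e1.eq_neg_one_of_two_right
      have e4 := e2.eq_neg_one_of_two_right
      rw [hm.neg_pow, e3] at e4
      norm_num at e4
    · exact h2

private theorem CC_neg_odd {m : ℕ} (hm : Odd m) (H : ℂ → ℝ) :
    CC m (fun z => H (-z)) = CC (2 * m) H := by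
  have hm0 : 0 < m := hm.pos
  refine Finset.sum_bij' (fun z _ => -z) (fun z _ => -z) ?_ ?_ ?_ ?_ ?_
  · intro z hz
    rw [mem_primitiveRoots hm0] at hz
    rw [mem_primitiveRoots (by omega)]
    exact (prim_neg_odd hm z).1 hz
  · intro z hz
    rw [mem_primitiveRoots (by omega)] at hz
    rw [mem_primitiveRoots hm0, prim_neg_odd hm, neg_neg]
    exact hz
  · intro z _; simp
  · intro z _; simp
  · intro z _; rfl

private theorem CC_neg_two {m : ℕ} (hm : Odd m) (H : ℂ → ℝ) :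
    CC (2 * m) (fun z => H (-z)) = CC m H := by
  have := CC_neg_odd hm (fun z => H (-z))
  simp only [neg_neg] at this
  rw [← this]

private theorem CC_neg_four {m : ℕ} (hm : 0 < m) (h4 : 4 ∣ m) (H : ℂ → ℝ) :
    CC m (fun z => H (-z)) = CC m H := by
  have key : ∀ z : ℂ, IsPrimitiveRoot z m → IsPrimitiveRoot (-z) m := by
    intro z hz
    obtain ⟨k, hk⟩ := h4
    have h1 : IsPrimitiveRoot ((-z) ^ 2) (2 * k) := by
      rw [neg_sq]; exact hz.pow hm (by omega)
    rcases (sq_prim_iff (by omega) _).1 h1 with h2 | ⟨h3, -⟩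
    · have : 2 * (2 * k) = m := by omega
      rwa [this] at h2
    · exfalso
      exact (Nat.not_odd_iff_even.2 ⟨k, by ring⟩) h3
  refine Finset.sum_bij' (fun z _ => -z) (fun z _ => -z) ?_ ?_ ?_ ?_ ?_
  · intro z hz
    rw [mem_primitiveRoots hm] at hz ⊢
    exact key z hz
  · intro z hz
    rw [mem_primitiveRoots hm] at hz ⊢
    exact key z hz
  · intro z _; simp
  · intro z _; simp
  · intro z _; rfl

private theorem F4_eq (F F4 : ℂ → ℝ)
    (hF4 : ∀ z : ℂ, ‖z‖ = 1 → F4 (z ^ 4) = ∑ ω ∈ nthRootsFinset 4 (1 : ℂ), F (ω * z))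
    {w : ℂ} (hw : ‖w‖ = 1) : F4 w = RR (RR F) w := by
  classical
  obtain ⟨z, hz⟩ := IsAlgClosed.exists_pow_nat_eq w (n := 4) (by norm_num)
  have hz1 : ‖z‖ = 1 := by
    have : ‖z‖ ^ 4 = 1 := by rw [← norm_pow, hz, hw]
    exact (pow_eq_one_iff_of_nonneg (norm_nonneg z) (by norm_num)).1 this
  have hz0 : z ≠ 0 := by rintro rfl; simp at hz1
  have h4 : nthRootsFinset 4 (1 : ℂ) = {1, -1, Complex.I, -Complex.I} := by
    ext x
    rw [mem_nthRootsFinset (by norm_num)]
    simp only [Finset.mem_insert, Finset.mem_singleton]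
    constructor
    · intro h
      have h1 : (x ^ 2) ^ 2 = 1 ^ 2 := by rw [← pow_mul, h]; norm_num
      rcases sq_eq_sq_iff_eq_or_eq_neg.1 h1 with h2 | h2
      · have h3 : x ^ 2 = 1 ^ 2 := by rw [h2]; norm_num
        rcases sq_eq_sq_iff_eq_or_eq_neg.1 h3 with h4 | h4
        · exact Or.inl h4
        · exact Or.inr (Or.inl h4)
      · have h3 : x ^ 2 = Complex.I ^ 2 := by rw [h2, Complex.I_sq]
        rcases sq_eq_sq_iff_eq_or_eq_neg.1 h3 with h4 | h4
        · exact Or.inr (Or.inr (Or.inl h4))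
        · exact Or.inr (Or.inr (Or.inr h4))
    · have hI : Complex.I ^ 4 = 1 := Complex.I_pow_four
      rintro (rfl | rfl | rfl | rfl)
      · norm_num
      · norm_num
      · exact hI
      · rw [show (-Complex.I) ^ 4 = Complex.I ^ 4 by ring, hI]
  have hI0 : Complex.I ≠ 0 := Complex.I_ne_zero
  have d1 : (1 : ℂ) ≠ -1 := by norm_num
  have d2 : (1 : ℂ) ≠ Complex.I := by
    intro h; have := congrArg Complex.im h; simp at this
  have d3 : (1 : ℂ) ≠ -Complex.I := by
    intro h; have := congrArg Complex.im h; simp at this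
  have d4 : (-1 : ℂ) ≠ Complex.I := by
    intro h; have := congrArg Complex.im h; simp at this
  have d5 : (-1 : ℂ) ≠ -Complex.I := by
    intro h; have := congrArg Complex.im h; simp at this
  have d6 : Complex.I ≠ -Complex.I := by
    intro h; have := congrArg Complex.im h; norm_num at this
  rw [← hz, hF4 z hz1, h4]
  have e1 : z ^ 4 = (z ^ 2) ^ 2 := by ring
  have e2 : -(z ^ 2) = (Complex.I * z) ^ 2 := by rw [mul_pow, Complex.I_sq]; ring
  rw [e1, RR_sq _ (pow_ne_zero 2 hz0), RR_sq _ hz0, e2, RR_sq _ (mul_ne_zero hI0 hz0)]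
  rw [Finset.sum_insert (by simp [d1, d2, d3]), Finset.sum_insert (by simp [d4, d5]),
    Finset.sum_pair d6]
  simp only [one_mul, neg_mul]
  ring

private theorem CC_mono_norm {m : ℕ} (hm : 0 < m) {G H : ℂ → ℝ}
    (h : ∀ z, ‖z‖ = 1 → G z = H z) : CC m G = CC m H := by
  refine Finset.sum_congr rfl fun z hz => h z ?_
  rw [mem_primitiveRoots hm] at hz
  exact hz.norm'_eq_one (by omega)

private theorem base (F F4 : ℂ → ℝ) (ε : ℝ)
    (hF : ∀ j : ℕ, 0 < j → CC j F ≤ j.totient * ε)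
    (hF4 : ∀ z : ℂ, ‖z‖ = 1 → F4 (z ^ 4) = ∑ ω ∈ nthRootsFinset 4 (1 : ℂ), F (ω * z))
    {m : ℕ} (hm : 0 < m) :
    1 / 2 * CC m (fun z => F (-z)) + 1 / 2 * CC m (fun z => F4 (z ^ 2)) ≤
      1 / 2 * CC m F + 2 * m.totient * ε := by
  obtain ⟨c, m', hm', hc, hH, hcase⟩ := CC_sq hm
  have h1 : CC m (fun z => F4 (z ^ 2)) = c * CC m' (RR (RR F)) := by
    rw [hH F4, CC_mono_norm hm' fun z hz => F4_eq F F4 hF4 hz]
  rcases hcase with ⟨h4, hc2, hmm⟩ | ⟨ho, hc1, hmm⟩
  · -- 4 ∣ m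
    have hev : ¬ Odd m' := by
      rw [Nat.not_odd_iff_even]
      obtain ⟨k, hk⟩ := h4
      exact ⟨k, by omega⟩
    have hev2 : ¬ Odd (2 * m') := by
      rw [Nat.not_odd_iff_even]; exact ⟨m', by ring⟩
    rw [CC_RR hm', if_neg hev, add_zero, CC_RR (by omega), if_neg hev2, add_zero] at h1
    have h2 := hF (2 * (2 * m')) (by omega)
    have h3 : (2 * (2 * m')).totient = 2 * m.totient := by
      rw [Nat.totient_mul_of_prime_of_dvd Nat.prime_two (Dvd.intro _ rfl), ← hmm]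
    rw [h3] at h2
    push_cast at h2
    rw [h1, CC_neg_four hm h4, hc2]
    push_cast
    linarith
  · have hev2 : ¬ Odd (2 * m') := by
      rw [Nat.not_odd_iff_even]; exact ⟨m', by ring⟩
    rw [CC_RR hm', if_pos ho, CC_RR (by omega), if_neg hev2, add_zero, CC_RR hm', if_pos ho,
      hc1] at h1
    have t0 : (m'.totient : ℝ) = m.totient := by
      have : m'.totient = m.totient := by rw [← hc, hc1, one_mul]
      rw [this]
    have t2 : (2 * m').totient = m'.totient := by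
      rw [Nat.totient_mul (Nat.coprime_two_left.2 ho)]; simp
    have t4 : (2 * (2 * m')).totient = 2 * m'.totient := by
      rw [Nat.totient_mul_of_prime_of_dvd Nat.prime_two (Dvd.intro _ rfl), t2]
    have f1 := hF m' hm'
    have f2 := hF (2 * m') (by omega)
    have f4 := hF (2 * (2 * m')) (by omega)
    rw [t2] at f2
    rw [t4] at f4
    push_cast at f4
    rw [t0] at f1 f2 f4
    rcases hmm with hmm | hmm
    · rw [h1, show CC m (fun z => F (-z)) = CC (2 * m') F by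
        rw [hmm]; exact CC_neg_odd ho F]
      rw [hmm]
      rw [hmm] at f1 f2 f4
      push_cast
      linarith
    · rw [h1, show CC m (fun z => F (-z)) = CC m' F by
        rw [hmm]; exact CC_neg_two ho F]
      have : CC m F = CC (2 * m') F := by rw [hmm]
      rw [this]
      push_cast
      linarith

/-- `F4` is the sum of `F` over the fourth roots; `ζ ↦ ζ ^ (2 ^ t)` is the push forward -/
theorem cyc_ineq (F F4 : ℂ → ℝ) (ε : ℝ) (hε : 0 ≤ ε)
    (hF : ∀ j : ℕ, 0 < j → ∑ ζ ∈ primitiveRoots j ℂ, F ζ ≤ j.totient * ε)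
    (hF4 : ∀ z : ℂ, ‖z‖ = 1 → F4 (z ^ 4) = ∑ ω ∈ nthRootsFinset 4 (1 : ℂ), F (ω * z))
    (t j : ℕ) (hj : 0 < j) :
    1 / 2 * ∑ ζ ∈ primitiveRoots j ℂ, F (-(ζ ^ (2 ^ t)))
      + 1 / 2 * ∑ ζ ∈ primitiveRoots j ℂ, F4 (ζ ^ (2 * 2 ^ t)) ≤
      1 / 2 * ∑ ζ ∈ primitiveRoots j ℂ, F (ζ ^ (2 ^ t)) + 2 * j.totient * ε := by
  obtain ⟨c, m, hm, hc, hH⟩ := CC_pow t hj
  have h1 := hH (fun z => F (-z))
  have h2 := hH (fun z => F4 (z ^ 2))
  have h3 := hH F
  have h4 : CC j (fun z => F4 ((z ^ 2 ^ t) ^ 2)) =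
      ∑ ζ ∈ primitiveRoots j ℂ, F4 (ζ ^ (2 * 2 ^ t)) := by
    refine Finset.sum_congr rfl fun z _ => ?_
    change F4 ((z ^ 2 ^ t) ^ 2) = _
    rw [← pow_mul, mul_comm (2 ^ t)]
  rw [h4] at h2
  have h5 : CC j (fun z => F (-(z ^ 2 ^ t))) =
      ∑ ζ ∈ primitiveRoots j ℂ, F (-(ζ ^ (2 ^ t))) := rfl
  have h6 : CC j (fun z => F (z ^ 2 ^ t)) = ∑ ζ ∈ primitiveRoots j ℂ, F (ζ ^ (2 ^ t)) := rfl
  rw [h5] at h1
  rw [h6] at h3
  rw [h1, h2, h3]
  have hb := base F F4 ε hF hF4 hm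
  have hc' : (j.totient : ℝ) = c * m.totient := by rw [← hc]; push_cast; ring
  rw [hc']
  have := mul_le_mul_of_nonneg_left hb (Nat.cast_nonneg (α := ℝ) c)
  linarith

end Pool.Agent.Lib.MP_7ab245_nt.Len
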