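import Pool.Agent.Lib.MP_7ab245_nt.Len.Defs2

/-! Positivity of the regularised energies: two families, Cauchy-Schwarz. -/

set_option autoImplicit false

open Polynomial Finset

namespace Pool.Agent.Lib.MP_7ab245_nt.Len

/-- power sums -/
private noncomputable def pw {n : ℕ} (w : Fin n → ℂ) (m : ℕ) : ℂ := ∑ i, w i ^ m

private theorem hasSum_ker (s : ℝ) (hs : 0 < s) (x y : ℂ) (hx : ‖x‖ ≤ 1) (hy : ‖y‖ ≤ 1) :
    HasSum (fun l : ℕ => Real.exp (-s * l) / l * ((x * starRingEnd ℂ y) ^ l).re)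
      (ker s x y) := by
  set z : ℂ := (Real.exp (-s) : ℂ) * (x * starRingEnd ℂ y) with hz
  have hz1 : ‖z‖ < 1 := by
    rw [hz, norm_mul, norm_mul, Complex.norm_real, RCLike.norm_conj, Real.norm_eq_abs,
      abs_of_pos (Real.exp_pos _)]
    have h1 : ‖x‖ * ‖y‖ ≤ 1 := mul_le_one₀ hx (norm_nonneg _) hy
    have h2 : Real.exp (-s) < 1 := by
      rw [Real.exp_lt_one_iff]
      linarith
    calc Real.exp (-s) * (‖x‖ * ‖y‖) ≤ Real.exp (-s) * 1 :=
          mul_le_mul_of_nonneg_left h1 (Real.exp_pos _).le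
      _ < 1 := by linarith
  have h' := Complex.hasSum_re (Complex.hasSum_taylorSeries_neg_log hz1)
  have e1 : (-Complex.log (1 - z)).re = ker s x y := by
    rw [Complex.neg_re, Complex.log_re, ker]
  rw [e1] at h'
  have e2 : (fun l : ℕ => (z ^ l / (l : ℂ)).re) =
      fun l : ℕ => Real.exp (-s * l) / l * ((x * starRingEnd ℂ y) ^ l).re := by
    funext l
    have e3 : z ^ l / (l : ℂ) =
        ((Real.exp (-s * l) / l : ℝ) : ℂ) * (x * starRingEnd ℂ y) ^ l := by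
      rw [hz, mul_pow, mul_comm (-s) (l : ℝ), Real.exp_nat_mul]
      push_cast
      ring
    rw [e3, Complex.re_ofReal_mul]
  rwa [e2] at h'

/-- the general mixed term -/
private noncomputable def tx {m n : ℕ} (x : Fin m → ℂ) (w : Fin n → ℂ) (s : ℝ) (a b l : ℕ) : ℝ :=
  Real.exp (-s * l) / l * (pw x (a * l) * starRingEnd ℂ (pw w (b * l))).re

private theorem hasSum_XX {m n : ℕ} (x : Fin m → ℂ) (hx : ∀ i, ‖x i‖ ≤ 1) (w : Fin n → ℂ)
    (hw : ∀ i, ‖w i‖ ≤ 1) (s : ℝ) (hs : 0 < s)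
    (a b : ℕ) : HasSum (tx x w s a b) (XX x w s a b) := by
  have hm : ∀ i (m : ℕ), ‖x i ^ m‖ ≤ 1 := fun i m => by
    rw [norm_pow]
    exact pow_le_one₀ (norm_nonneg _) (hx i)
  have hn : ∀ i (m : ℕ), ‖w i ^ m‖ ≤ 1 := fun i m => by
    rw [norm_pow]
    exact pow_le_one₀ (norm_nonneg _) (hw i)
  have h : HasSum (fun l : ℕ => ∑ i, ∑ j,
      Real.exp (-s * l) / l * ((x i ^ a * starRingEnd ℂ (w j ^ b)) ^ l).re) (XX x w s a b) :=
    hasSum_sum fun i _ => hasSum_sum fun j _ => hasSum_ker s hs _ _ (hm i a) (hn j b)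
  have e : (fun l : ℕ => ∑ i, ∑ j,
      Real.exp (-s * l) / l * ((x i ^ a * starRingEnd ℂ (w j ^ b)) ^ l).re) = tx x w s a b := by
    funext l
    rw [tx, pw, pw, map_sum, Finset.sum_mul_sum, Complex.re_sum, Finset.mul_sum]
    refine Finset.sum_congr rfl fun i _ => ?_
    rw [Complex.re_sum, Finset.mul_sum]
    refine Finset.sum_congr rfl fun j _ => ?_
    rw [mul_pow, ← pow_mul, ← map_pow, ← pow_mul]
  rwa [e] at h

private theorem EE_eq_XX {n : ℕ} (w : Fin n → ℂ) (s : ℝ) (a b : ℕ) :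
    EE w s a b = XX w w s a b := rfl

private theorem hasSum_XX_dvd {m n : ℕ} (x : Fin m → ℂ) (hx : ∀ i, ‖x i‖ ≤ 1) (w : Fin n → ℂ)
    (hw : ∀ i, ‖w i‖ ≤ 1) (s : ℝ) (hs : 0 < s) (a b c : ℕ) (hc : 0 < c) :
    HasSum (fun l => if c ∣ l then tx x w s a b l else 0)
      ((1 / (c : ℝ)) * XX x w (s * c) (a * c) (b * c)) := by
  have hc' : (0 : ℝ) < c := by exact_mod_cast hc
  have h := (hasSum_XX x hx w hw (s * c) (by positivity) (a * c) (b * c)).mul_left (1 / (c : ℝ))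
  have hinj : Function.Injective (fun m : ℕ => c * m) := fun x y hxy =>
    Nat.eq_of_mul_eq_mul_left hc hxy
  rw [← hinj.hasSum_iff]
  · have e : (fun m : ℕ => 1 / (c : ℝ) * tx x w (s * c) (a * c) (b * c) m) =
        (fun l => if c ∣ l then tx x w s a b l else 0) ∘ (fun m : ℕ => c * m) := by
      funext m
      rw [Function.comp_apply, if_pos (Dvd.intro m rfl), tx, tx, mul_assoc a c m,
        mul_assoc b c m]
      push_cast
      rw [show -(s * (c : ℝ)) * (m : ℝ) = -s * ((c : ℝ) * m) by ring, ← mul_assoc]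
      congr 1
      rcases Nat.eq_zero_or_pos m with rfl | hm
      · simp
      · have hm' : (0 : ℝ) < m := by exact_mod_cast hm
        field_simp
    rwa [← e]
  · intro l hl
    rw [if_neg]
    rintro ⟨m, rfl⟩
    exact hl ⟨m, rfl⟩

theorem psd_main2 {m n : ℕ} (x : Fin m → ℂ) (hx : ∀ i, ‖x i‖ ≤ 1) (w : Fin n → ℂ)
    (hw : ∀ i, ‖w i‖ ≤ 1) (s : ℝ) (hs : 0 < s)
    (P : Finset ℕ) (c : ℕ → ℕ) (hc : ∀ q ∈ P, 0 < c q) (hP : ∀ q ∈ P, 0 < q)
    (hcop : ∀ p ∈ P, ∀ q ∈ P, p ≠ q → (c p).Coprime (c q)) (a : ℝ) :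
    0 ≤ EE x s 1 1
      + 2 * a * ∑ q ∈ P, (1 / (c q : ℝ)) * XX x w (s * c q) (c q) (q * c q)
      + a ^ 2 * (∑ q ∈ P, (1 / (c q : ℝ)) * EE w (s * c q) (q * c q) (q * c q)
        + ∑ p ∈ P, ∑ q ∈ P.erase p, (1 / ((c p : ℝ) * c q)) *
            EE w (s * (c p * c q)) (p * (c p * c q)) (q * (c p * c q))) := by
  have h1 : HasSum (tx x x s 1 1) (EE x s 1 1) := hasSum_XX x hx x hx s hs 1 1
  have h2 : HasSum (fun l => 2 * a * ∑ q ∈ P, if c q ∣ l then tx x w s 1 q l else 0)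
      (2 * a * ∑ q ∈ P, (1 / (c q : ℝ)) * XX x w (s * c q) (c q) (q * c q)) := by
    refine HasSum.mul_left _ (hasSum_sum fun q hq => ?_)
    have := hasSum_XX_dvd x hx w hw s hs 1 q (c q) (hc q hq)
    rwa [one_mul] at this
  have h3 : HasSum (fun l => ∑ q ∈ P, if c q ∣ l then tx w w s q q l else 0)
      (∑ q ∈ P, (1 / (c q : ℝ)) * EE w (s * c q) (q * c q) (q * c q)) :=
    hasSum_sum fun q hq => hasSum_XX_dvd w hw w hw s hs q q (c q) (hc q hq)
  have h4 : HasSum (fun l => ∑ p ∈ P, ∑ q ∈ P.erase p,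
        if c p * c q ∣ l then tx w w s p q l else 0)
      (∑ p ∈ P, ∑ q ∈ P.erase p, (1 / ((c p : ℝ) * c q)) *
            EE w (s * (c p * c q)) (p * (c p * c q)) (q * (c p * c q))) := by
    refine hasSum_sum fun p hp => hasSum_sum fun q hq => ?_
    have := hasSum_XX_dvd w hw w hw s hs p q (c p * c q)
      (Nat.mul_pos (hc p hp) (hc q (Finset.mem_of_mem_erase hq)))
    push_cast at this
    exact this
  refine ((h1.add h2).add ((h3.add h4).mul_left (a ^ 2))).nonneg fun l => ?_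
  -- the square
  set T : ℕ → ℂ := fun q => if c q ∣ l then pw w (q * l) else 0 with hT
  have key : Real.exp (-s * l) / l * Complex.normSq (pw x l + (a : ℂ) * ∑ q ∈ P, T q) =
      tx x x s 1 1 l + 2 * a * (∑ q ∈ P, if c q ∣ l then tx x w s 1 q l else 0) +
      a ^ 2 * ((∑ q ∈ P, if c q ∣ l then tx w w s q q l else 0) +
        ∑ p ∈ P, ∑ q ∈ P.erase p, if c p * c q ∣ l then tx w w s p q l else 0) := by
    have t11 : tx x x s 1 1 l = Real.exp (-s * l) / l * Complex.normSq (pw x l) := by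
      rw [tx, one_mul, Complex.mul_conj, Complex.ofReal_re]
    have t1q : ∀ q ∈ P, (if c q ∣ l then tx x w s 1 q l else 0) =
        Real.exp (-s * l) / l * (pw x l * starRingEnd ℂ (T q)).re := by
      intro q _
      by_cases h : c q ∣ l
      · simp only [hT, h, if_true, tx, one_mul]
      · simp only [hT, h, if_false, map_zero, mul_zero, Complex.zero_re]
    have tqq : ∀ q ∈ P, (if c q ∣ l then tx w w s q q l else 0) =
        Real.exp (-s * l) / l * (T q * starRingEnd ℂ (T q)).re := by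
      intro q _
      by_cases h : c q ∣ l
      · simp only [hT, h, if_true, tx]
      · simp only [hT, h, if_false, map_zero, mul_zero, Complex.zero_re]
    have tpq : ∀ p ∈ P, ∀ q ∈ P.erase p, (if c p * c q ∣ l then tx w w s p q l else 0) =
        Real.exp (-s * l) / l * (T p * starRingEnd ℂ (T q)).re := by
      intro p hp q hq
      have hne : p ≠ q := (Finset.ne_of_mem_erase hq).symm
      have hco : (c p).Coprime (c q) := hcop p hp q (Finset.mem_of_mem_erase hq) hne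
      by_cases h : c p * c q ∣ l
      · have h1 : c p ∣ l := (Dvd.intro _ rfl).trans h
        have h2 : c q ∣ l := (Dvd.intro_left _ rfl).trans h
        simp only [hT, h, h1, h2, if_true, tx]
      · by_cases h1 : c p ∣ l
        · by_cases h2 : c q ∣ l
          · exact absurd (hco.mul_dvd_of_dvd_of_dvd h1 h2) h
          · simp only [hT, h, h2, if_false, map_zero, mul_zero, Complex.zero_re]
        · simp only [hT, h, h1, if_false, zero_mul, Complex.zero_re, mul_zero]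
    have hsplit : ∀ p ∈ P, (∑ q ∈ P, (T p * starRingEnd ℂ (T q)).re) =
        (T p * starRingEnd ℂ (T p)).re + ∑ q ∈ P.erase p, (T p * starRingEnd ℂ (T q)).re :=
      fun p hp => (Finset.add_sum_erase P _ hp).symm
    have hnorm : Complex.normSq (pw x l + (a : ℂ) * ∑ q ∈ P, T q) =
        Complex.normSq (pw x l) + 2 * a * (∑ q ∈ P, (pw x l * starRingEnd ℂ (T q)).re) +
        a ^ 2 * ∑ p ∈ P, ∑ q ∈ P, (T p * starRingEnd ℂ (T q)).re := by
      rw [Complex.normSq_add, map_mul, Complex.normSq_ofReal]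
      have e1 : (pw x l * starRingEnd ℂ ((a : ℂ) * ∑ q ∈ P, T q)).re =
          a * ∑ q ∈ P, (pw x l * starRingEnd ℂ (T q)).re := by
        rw [map_mul, Complex.conj_ofReal, map_sum, mul_left_comm, Complex.re_ofReal_mul,
          Finset.mul_sum, Complex.re_sum]
      have e2 : Complex.normSq (∑ q ∈ P, T q) =
          ∑ p ∈ P, ∑ q ∈ P, (T p * starRingEnd ℂ (T q)).re := by
        have : ((Complex.normSq (∑ q ∈ P, T q) : ℝ) : ℂ).re =
            ∑ p ∈ P, ∑ q ∈ P, (T p * starRingEnd ℂ (T q)).re := by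
          rw [← Complex.mul_conj, map_sum, Finset.sum_mul_sum, Complex.re_sum]
          exact Finset.sum_congr rfl fun p _ => Complex.re_sum _ _
        rwa [Complex.ofReal_re] at this
      rw [e1, e2]
      ring
    rw [hnorm, t11, Finset.sum_congr rfl t1q, Finset.sum_congr rfl tqq,
      Finset.sum_congr rfl fun p hp => Finset.sum_congr rfl (tpq p hp),
      Finset.sum_congr rfl hsplit, Finset.sum_add_distrib]
    simp only [← Finset.mul_sum]
    ring
  rw [← key]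
  exact mul_nonneg (div_nonneg (Real.exp_pos _).le (Nat.cast_nonneg _)) (Complex.normSq_nonneg _)

private theorem tx_self {n : ℕ} (w : Fin n → ℂ) (s : ℝ) (a l : ℕ) :
    tx w w s a a l = Real.exp (-s * l) / l * Complex.normSq (pw w (a * l)) := by
  rw [tx, Complex.mul_conj, Complex.ofReal_re]

private theorem tx_self_nonneg {n : ℕ} (w : Fin n → ℂ) (s : ℝ) (a l : ℕ) :
    0 ≤ tx w w s a a l := by
  rw [tx_self]
  exact mul_nonneg (div_nonneg (Real.exp_pos _).le (Nat.cast_nonneg _)) (Complex.normSq_nonneg _)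

theorem EE_anti {n : ℕ} (w : Fin n → ℂ) (hw : ∀ i, ‖w i‖ ≤ 1) (s t : ℝ) (hs : 0 < s)
    (hst : s ≤ t) (a : ℕ) : EE w t a a ≤ EE w s a a := by
  refine hasSum_le (fun l => ?_) (hasSum_XX w hw w hw t (hs.trans_le hst) a a)
    (hasSum_XX w hw w hw s hs a a)
  rw [tx_self, tx_self]
  refine mul_le_mul_of_nonneg_right ?_ (Complex.normSq_nonneg _)
  refine div_le_div_of_nonneg_right ?_ (Nat.cast_nonneg _)
  refine Real.exp_le_exp.mpr ?_
  have : (0 : ℝ) ≤ l := Nat.cast_nonneg _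
  nlinarith

theorem EE_pow_le {n : ℕ} (w : Fin n → ℂ) (hw : ∀ i, ‖w i‖ ≤ 1) (s : ℝ) (hs : 0 < s) (Q : ℕ)
    (hQ : 0 < Q) : EE w (Q * s) Q Q ≤ Q * EE w s 1 1 := by
  have hQ' : (0 : ℝ) < Q := by exact_mod_cast hQ
  have h := hasSum_XX_dvd w hw w hw s hs 1 1 Q hQ
  rw [one_mul] at h
  have h2 : 1 / (Q : ℝ) * EE w (s * Q) Q Q ≤ EE w s 1 1 := by
    refine hasSum_le (fun l => ?_) h (hasSum_XX w hw w hw s hs 1 1)
    by_cases hl : Q ∣ l
    · rw [if_pos hl]
    · rw [if_neg hl]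
      exact tx_self_nonneg w s 1 l
  rw [mul_comm s, one_div, ← div_eq_inv_mul, div_le_iff₀ hQ'] at h2
  linarith

/-- Cauchy-Schwarz for the kernel -/
private theorem ker_cs {ι κ : Type} [Fintype ι] [Fintype κ] (x : ι → ℂ) (hx : ∀ i, ‖x i‖ ≤ 1)
    (y : κ → ℂ) (hy : ∀ j, ‖y j‖ ≤ 1) (b : κ → ℝ) (s : ℝ) (hs : 0 < s) :
    (∑ i, ∑ j, b j * ker s (x i) (y j)) ^ 2 ≤
      (∑ i, ∑ i', ker s (x i) (x i')) * ∑ j, ∑ j', b j * b j' * ker s (y j) (y j') := by
  set A := ∑ i, ∑ i', ker s (x i) (x i') with hA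
  set B := ∑ i, ∑ j, b j * ker s (x i) (y j) with hB
  set D := ∑ j, ∑ j', b j * b j' * ker s (y j) (y j') with hD
  have hA' : HasSum (fun l : ℕ => Real.exp (-s * l) / l *
      ((∑ i, x i ^ l) * starRingEnd ℂ (∑ i, x i ^ l)).re) A := by
    have h : HasSum (fun l : ℕ => ∑ i, ∑ j,
        Real.exp (-s * l) / l * ((x i * starRingEnd ℂ (x j)) ^ l).re) A :=
      hasSum_sum fun i _ => hasSum_sum fun j _ => hasSum_ker s hs _ _ (hx i) (hx j)
    convert h using 2 with l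
    rw [map_sum, Finset.sum_mul_sum, Complex.re_sum, Finset.mul_sum]
    refine Finset.sum_congr rfl fun i _ => ?_
    rw [Complex.re_sum, Finset.mul_sum]
    refine Finset.sum_congr rfl fun j _ => ?_
    rw [mul_pow, ← map_pow]
  have hB' : HasSum (fun l : ℕ => Real.exp (-s * l) / l *
      ((∑ i, x i ^ l) * starRingEnd ℂ (∑ j, (b j : ℂ) * y j ^ l)).re) B := by
    have h : HasSum (fun l : ℕ => ∑ i, ∑ j, b j *
        (Real.exp (-s * l) / l * ((x i * starRingEnd ℂ (y j)) ^ l).re)) B :=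
      hasSum_sum fun i _ => hasSum_sum fun j _ => (hasSum_ker s hs _ _ (hx i) (hy j)).mul_left _
    convert h using 2 with l
    rw [map_sum, Finset.sum_mul_sum, Complex.re_sum, Finset.mul_sum]
    refine Finset.sum_congr rfl fun i _ => ?_
    rw [Complex.re_sum, Finset.mul_sum]
    refine Finset.sum_congr rfl fun j _ => ?_
    rw [mul_pow, ← map_pow, map_mul, Complex.conj_ofReal, mul_left_comm (x i ^ l),
      Complex.re_ofReal_mul]
    ring
  have hD' : HasSum (fun l : ℕ => Real.exp (-s * l) / l *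
      ((∑ j, (b j : ℂ) * y j ^ l) * starRingEnd ℂ (∑ j, (b j : ℂ) * y j ^ l)).re) D := by
    have h : HasSum (fun l : ℕ => ∑ i, ∑ j, b i * b j *
        (Real.exp (-s * l) / l * ((y i * starRingEnd ℂ (y j)) ^ l).re)) D :=
      hasSum_sum fun i _ => hasSum_sum fun j _ => (hasSum_ker s hs _ _ (hy i) (hy j)).mul_left _
    convert h using 2 with l
    rw [map_sum, Finset.sum_mul_sum, Complex.re_sum, Finset.mul_sum]
    refine Finset.sum_congr rfl fun i _ => ?_
    rw [Complex.re_sum, Finset.mul_sum]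
    refine Finset.sum_congr rfl fun j _ => ?_
    rw [mul_pow, ← map_pow, map_mul, Complex.conj_ofReal,
      show (b i : ℂ) * y i ^ l * ((b j : ℂ) * starRingEnd ℂ (y j ^ l)) =
        ((b i * b j : ℝ) : ℂ) * (y i ^ l * starRingEnd ℂ (y j ^ l)) by push_cast; ring,
      Complex.re_ofReal_mul]
    ring
  have hq : ∀ t : ℝ, 0 ≤ A * (t * t) + (2 * B) * t + D := by
    intro t
    have h := ((hA'.mul_left (t * t)).add (hB'.mul_left (2 * t))).add hD'
    have h0 : 0 ≤ t * t * A + 2 * t * B + D := by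
      refine h.nonneg fun l => ?_
      set p := ∑ i, x i ^ l
      set r := ∑ j, (b j : ℂ) * y j ^ l
      have e : t * t * (Real.exp (-s * l) / l * (p * starRingEnd ℂ p).re) +
          2 * t * (Real.exp (-s * l) / l * (p * starRingEnd ℂ r).re) +
          Real.exp (-s * l) / l * (r * starRingEnd ℂ r).re =
          Real.exp (-s * l) / l * Complex.normSq ((t : ℂ) * p + r) := by
        rw [Complex.normSq_add, map_mul, Complex.normSq_ofReal, Complex.mul_conj,
          Complex.mul_conj, Complex.ofReal_re, Complex.ofReal_re, mul_assoc (t : ℂ) p,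
          Complex.re_ofReal_mul]
        ring
      rw [e]
      exact mul_nonneg (div_nonneg (Real.exp_pos _).le (Nat.cast_nonneg _))
        (Complex.normSq_nonneg _)
    linarith
  have := discrim_le_zero hq
  rw [discrim] at this
  nlinarith

private theorem pow_le_one' {n : ℕ} (x : Fin n → ℂ) (hx : ∀ i, ‖x i‖ ≤ 1) (Q : ℕ) (i : Fin n) :
    ‖x i ^ Q‖ ≤ 1 := by
  rw [norm_pow]
  exact pow_le_one₀ (norm_nonneg _) (hx i)

/-- Cauchy-Schwarz, test measure `v` -/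
theorem cs_zero {m n : ℕ} (x : Fin m → ℂ) (hx : ∀ i, ‖x i‖ ≤ 1) (v : Fin n → ℂ)
    (hv : ∀ i, ‖v i‖ ≤ 1) (s : ℝ) (hs : 0 < s) (Q : ℕ) :
    (XX x v s Q 1) ^ 2 ≤ EE x s Q Q * EE v s 1 1 := by
  have h := ker_cs (fun i => x i ^ Q) (pow_le_one' x hx Q) v hv (fun _ => 1) s hs
  simpa [XX, EE] using h

private theorem ker_neg_right (s : ℝ) (x y : ℂ) : ker s x (-y) = ker s (-x) y := by
  rw [ker, ker, map_neg, mul_neg, neg_mul]

/-- Cauchy-Schwarz, test measure: half of `v` and half of `-v` -/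
theorem cs_one {m n : ℕ} (x : Fin m → ℂ) (hx : ∀ i, ‖x i‖ ≤ 1) (v : Fin n → ℂ)
    (hv : ∀ i, ‖v i‖ ≤ 1) (s : ℝ) (hs : 0 < s) (Q : ℕ) :
    (1 / 2 * XX x v s Q 1 + 1 / 2 * ∑ i, ∑ j, ker s (-(x i ^ Q)) (v j)) ^ 2 ≤
      EE x s Q Q * (1 / 2 * EE v s 1 1 + 1 / 2 * ∑ i, ∑ j, ker s (-(v i)) (v j)) := by
  have h := ker_cs (fun i => x i ^ Q) (pow_le_one' x hx Q)
    (Sum.elim v (fun j => -(v j)) : Fin n ⊕ Fin n → ℂ)
    (by rintro (j | j) <;> simp [hv j]) (fun _ => 1 / 2) s hs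
  simp only [Fintype.sum_sum_type, Sum.elim_inl, Sum.elim_inr, ker_neg_right, neg_neg,
    Finset.sum_add_distrib, ← Finset.mul_sum] at h
  simp only [XX, EE, pow_one]
  convert h using 2 <;> ring

private theorem ker_pair (r s : ℝ) (x y : ℂ)
    (h : (Real.exp (-s) : ℂ) * (x * starRingEnd ℂ y) ≠ 1)
    (h' : (Real.exp (-s) : ℂ) * (x * starRingEnd ℂ y) ≠ -1) (X Y : ℂ)
    (hXY : ((Real.exp (-s) : ℂ) * (x * starRingEnd ℂ y)) ^ 2 =
      (Real.exp (-r) : ℂ) * (X * starRingEnd ℂ Y)) :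
    ker s x y + ker s (-x) y = ker r X Y := by
  rw [ker, ker, ker, ← hXY]
  set z : ℂ := (Real.exp (-s) : ℂ) * (x * starRingEnd ℂ y) with hz
  have e : (Real.exp (-s) : ℂ) * (-x * starRingEnd ℂ y) = -z := by
    rw [hz]; ring
  rw [e, ← neg_add, ← Real.log_mul, ← norm_mul]
  · congr 3
    ring
  · rw [norm_ne_zero_iff, sub_ne_zero]
    exact h.symm
  · rw [norm_ne_zero_iff, sub_neg_eq_add]
    intro h2
    exact h' (by linear_combination h2)

private theorem norm_kernel_lt (s : ℝ) (hs : 0 < s) (x y : ℂ) (hx : ‖x‖ ≤ 1) (hy : ‖y‖ ≤ 1) :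
    ‖(Real.exp (-s) : ℂ) * (x * starRingEnd ℂ y)‖ < 1 := by
  rw [norm_mul, norm_mul, Complex.norm_real, RCLike.norm_conj, Real.norm_eq_abs,
    abs_of_pos (Real.exp_pos _)]
  have h1 : ‖x‖ * ‖y‖ ≤ 1 := mul_le_one₀ hx (norm_nonneg _) hy
  have h2 : Real.exp (-s) < 1 := by
    rw [Real.exp_lt_one_iff]
    linarith
  calc Real.exp (-s) * (‖x‖ * ‖y‖) ≤ Real.exp (-s) * 1 :=
        mul_le_mul_of_nonneg_left h1 (Real.exp_pos _).le
    _ < 1 := by linarith

/-- Cauchy-Schwarz, test measure: `± e^{-s} v ^ 2` -/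
theorem cs_two {m n : ℕ} (x : Fin m → ℂ) (hx : ∀ i, ‖x i‖ ≤ 1) (v : Fin n → ℂ)
    (hv : ∀ i, ‖v i‖ ≤ 1) (s : ℝ) (hs : 0 < s) (Q : ℕ) :
    (XX x v (4 * s) (2 * Q) 4) ^ 2 ≤ EE x s Q Q * (2 * EE v (6 * s) 4 4) := by
  set E : ℂ := (Real.exp (-s) : ℂ) with hE
  have hE1 : ‖E‖ ≤ 1 := by
    rw [hE, Complex.norm_real, Real.norm_eq_abs, abs_of_pos (Real.exp_pos _)]
    exact Real.exp_le_one_iff.mpr (by linarith)
  have hy1 : ∀ j, ‖E * v j ^ 2‖ ≤ 1 := fun j => by
    rw [norm_mul]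
    exact mul_le_one₀ hE1 (norm_nonneg _) (pow_le_one' v hv 2 j)
  have h := ker_cs (fun i => x i ^ Q) (pow_le_one' x hx Q)
    (Sum.elim (fun j => E * v j ^ 2) (fun j => -(E * v j ^ 2)) : Fin n ⊕ Fin n → ℂ)
    (by
      rintro (j | j)
      · exact hy1 j
      · rw [Sum.elim_inr, norm_neg]
        exact hy1 j) (fun _ => 1) s hs
  simp only [Fintype.sum_sum_type, Sum.elim_inl, Sum.elim_inr, ker_neg_right, neg_neg,
    Finset.sum_add_distrib, one_mul] at h
  have hne : ∀ a b : ℂ, ‖a‖ ≤ 1 → ‖b‖ ≤ 1 → (Real.exp (-s) : ℂ) * (a * starRingEnd ℂ b) ≠ 1 ∧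
      (Real.exp (-s) : ℂ) * (a * starRingEnd ℂ b) ≠ -1 := by
    intro a b ha hb
    have h3 := norm_kernel_lt s hs a b ha hb
    constructor
    · intro h4
      rw [h4, norm_one] at h3
      exact lt_irrefl _ h3
    · intro h4
      rw [h4, norm_neg, norm_one] at h3
      exact lt_irrefl _ h3
  have hE2 : starRingEnd ℂ E = E := Complex.conj_ofReal _
  have hE4 : (Real.exp (-(4 * s)) : ℂ) = E ^ 4 := by
    rw [hE, show -(4 * s) = (4 : ℕ) * (-s) by push_cast; ring, Real.exp_nat_mul]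
    push_cast
    ring
  have hE6 : (Real.exp (-(6 * s)) : ℂ) = E ^ 6 := by
    rw [hE, show -(6 * s) = (6 : ℕ) * (-s) by push_cast; ring, Real.exp_nat_mul]
    push_cast
    ring
  have e1 : ∀ i j, ker s (x i ^ Q) (E * v j ^ 2) + ker s (-(x i ^ Q)) (E * v j ^ 2) =
      ker (4 * s) (x i ^ (2 * Q)) (v j ^ 4) := by
    intro i j
    obtain ⟨h1, h2⟩ := hne _ _ (pow_le_one' x hx Q i) (hy1 j)
    refine ker_pair _ _ _ _ h1 h2 _ _ ?_
    rw [hE4, map_mul, hE2, ← hE, map_pow, map_pow, mul_comm 2 Q, pow_mul (x i) Q 2]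
    ring
  have e2 : ∀ i j, ker s (E * v i ^ 2) (E * v j ^ 2) + ker s (-(E * v i ^ 2)) (E * v j ^ 2) =
      ker (6 * s) (v i ^ 4) (v j ^ 4) := by
    intro i j
    obtain ⟨h1, h2⟩ := hne _ _ (hy1 i) (hy1 j)
    refine ker_pair _ _ _ _ h1 h2 _ _ ?_
    rw [hE6, map_mul, hE2, ← hE, map_pow, map_pow]
    ring
  have f1 : XX x v (4 * s) (2 * Q) 4 = ∑ i, ∑ j, ker s (x i ^ Q) (E * v j ^ 2) +
      ∑ i, ∑ j, ker s (-(x i ^ Q)) (E * v j ^ 2) := by
    rw [XX, ← Finset.sum_add_distrib]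
    refine Finset.sum_congr rfl fun i _ => ?_
    rw [← Finset.sum_add_distrib]
    exact Finset.sum_congr rfl fun j _ => (e1 i j).symm
  have f2 : EE v (6 * s) 4 4 = ∑ i, ∑ j, ker s (E * v i ^ 2) (E * v j ^ 2) +
      ∑ i, ∑ j, ker s (-(E * v i ^ 2)) (E * v j ^ 2) := by
    rw [EE, ← Finset.sum_add_distrib]
    refine Finset.sum_congr rfl fun i _ => ?_
    rw [← Finset.sum_add_distrib]
    exact Finset.sum_congr rfl fun j _ => (e2 i j).symm
  rw [f1, f2]
  refine h.trans (le_of_eq ?_)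
  rw [EE]
  ring

end Pool.Agent.Lib.MP_7ab245_nt.Len
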