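import Mathlib
import Pool.Agent.Lib.MP_7ab245_nt.Len.Defs2
import Pool.Agent.Lib.MP_7ab245_nt.Len.Refl
import Pool.Agent.Lib.MP_7ab245_nt.Len.Psd
import Pool.Agent.Lib.MP_7ab245_nt.Len.Energy
import Pool.Agent.Lib.MP_7ab245_nt.Len.Expand
import Pool.Agent.Lib.MP_7ab245_nt.Len.MainA
import Pool.Agent.Lib.MP_7ab245_nt.Len.MainB
import Pool.Agent.Lib.MP_7ab245_nt.Len.Psd2
import Pool.Agent.Lib.MP_7ab245_nt.Len.Cyc
import Pool.Agent.Lib.MP_7ab245_nt.Len.Energy2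

/-! The energy of the roots of `g` is controlled by the energy of the roots of `u * g ^ e`. -/

set_option autoImplicit false

open Polynomial Finset

namespace Pool.Agent.Lib.MP_7ab245_nt.Len

/-! ### sums over cyclotomic roots -/

lemma sub_cyc_cons (j : ℕ) (S : Multiset ℕ) (H : ℂ → ℝ) :
    cyc (j ::ₘ S) H = ∑ ζ ∈ primitiveRoots j ℂ, H ζ + cyc S H := by simp [cyc]

lemma sub_cycdeg_cons (j : ℕ) (S : Multiset ℕ) :
    cycdeg (j ::ₘ S) = j.totient + cycdeg S := by simp [cycdeg]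

/-- number of roots -/
lemma sub_cyc_one (S : Multiset ℕ) : cyc S (fun _ => 1) = cycdeg S := by
  induction S using Multiset.induction_on with
  | empty => simp [cyc, cycdeg]
  | cons j S ih =>
    rw [sub_cyc_cons, sub_cycdeg_cons, ih]
    simp [Complex.card_primitiveRoots]

/-- the inequality for one cyclotomic polynomial, summed -/
lemma sub_cyc_ineq (F F4 : ℂ → ℝ) (ε : ℝ) (hε : 0 ≤ ε)
    (hF : ∀ j : ℕ, 0 < j → ∑ ζ ∈ primitiveRoots j ℂ, F ζ ≤ j.totient * ε)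
    (hF4 : ∀ z : ℂ, ‖z‖ = 1 → F4 (z ^ 4) = ∑ ω ∈ nthRootsFinset 4 (1 : ℂ), F (ω * z))
    (t : ℕ) (S : Multiset ℕ) (hS : ∀ j ∈ S, 0 < j) :
    1 / 2 * cyc S (fun ζ => F (-(ζ ^ (2 ^ t)))) + 1 / 2 * cyc S (fun ζ => F4 (ζ ^ (2 * 2 ^ t))) ≤
      1 / 2 * cyc S (fun ζ => F (ζ ^ (2 ^ t))) + 2 * cycdeg S * ε := by
  induction S using Multiset.induction_on with
  | empty => simp [cyc, cycdeg]
  | cons j S ih =>
    have h1 := cyc_ineq F F4 ε hε hF hF4 t j (hS j (Multiset.mem_cons_self j S))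
    have h2 := ih fun k hk => hS k (Multiset.mem_cons_of_mem hk)
    simp only [sub_cyc_cons, sub_cycdeg_cons]
    push_cast
    nlinarith only [h1, h2, h1, h2]

/-- from a quadratic to a linear inequality -/
lemma sub_linear (A D B c : ℝ) (hc : 0 < c) (hD : 0 ≤ D) (hB : 0 ≤ B) (h : A ^ 2 ≤ D * B) :
    |A| ≤ c * B / 2 + D / (2 * c) := by
  have h1 : A ^ 2 ≤ (c * B / 2 + D / (2 * c)) ^ 2 := by
    have h2 : (c * B / 2 + D / (2 * c)) ^ 2 = (c * B / 2 - D / (2 * c)) ^ 2 + D * B := by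
      field_simp
      ring
    nlinarith only [h, h2, sq_nonneg (c * B / 2 - D / (2 * c))]
  have h3 : 0 ≤ c * B / 2 + D / (2 * c) := by positivity
  exact abs_le_of_sq_le_sq h1 h3

/-- the final computation of `sub_step` -/
lemma sub_numeric (e G G' W X1 X2 X3 T T' T2 U n m ε DD EV : ℝ) (he : 0 < e) (hε : 0 ≤ ε)
    (hn : 0 ≤ n) (hU : 0 ≤ U) (hDD : 0 ≤ DD) (hG : 0 ≤ G)
    (hm : m = U + e * n)
    (hX1 : X1 = -T + e * G) (hX2 : X2 = -(T + T') / 2 + e * (G + G') / 2)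
    (hX3 : X3 = -T2 + e * W)
    (hT : T / 2 ≤ T' / 2 + T2 / 2 + 2 * U * ε)
    (hG' : G' ≤ 2 * n * ε) (hW : W ≤ 6 * n * ε) (hEV : EV ≤ 4 * G + 8 * n * ε)
    (h1 : X1 ^ 2 ≤ DD * G) (h2 : X2 ^ 2 ≤ DD * (1 / 2 * G + 1 / 2 * G'))
    (h3 : X3 ^ 2 ≤ DD * (2 * EV)) :
    G ≤ 100 * DD / e ^ 2 + 100 * (m / e) * ε := by
  set H := G + 2 * n * ε with hH
  have hnε : 0 ≤ n * ε := mul_nonneg hn hε
  have hH0 : 0 ≤ H := by rw [hH]; nlinarith only [hG, hnε]
  have hGH : G ≤ H := by rw [hH]; nlinarith only [hnε]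
  have a1 : |X1| ≤ (e / 6) * H / 2 + DD / (2 * (e / 6)) :=
    sub_linear _ _ _ _ (by positivity) hDD hH0
      (h1.trans (mul_le_mul_of_nonneg_left hGH hDD))
  have a2 : |X2| ≤ (e / 6) * (H / 2) / 2 + DD / (2 * (e / 6)) :=
    sub_linear _ _ _ _ (by positivity) hDD (by positivity)
      (h2.trans (mul_le_mul_of_nonneg_left (by rw [hH]; linarith) hDD))
  have a3 : |X3| ≤ (e / 24) * (8 * H) / 2 + DD / (2 * (e / 24)) :=
    sub_linear _ _ _ _ (by positivity) hDD (by positivity)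
      (h3.trans (mul_le_mul_of_nonneg_left (by rw [hH]; linarith) hDD))
  set d := DD / e ^ 2 with hd
  have hDDd : DD = d * e ^ 2 := by rw [hd]; field_simp
  have b1 : DD / (2 * (e / 6)) = 3 * d * e := by rw [hDDd]; field_simp; ring
  have b3 : DD / (2 * (e / 24)) = 12 * d * e := by rw [hDDd]; field_simp; ring
  rw [b1] at a1 a2
  rw [b3] at a3
  have c1 := (abs_le.mp a1).2
  have c2 := (abs_le.mp a2).1
  have c3 := (abs_le.mp a3).1
  have hd0 : 0 ≤ d := by positivity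
  have hm0 : 0 ≤ m := by rw [hm]; positivity
  -- main inequality
  have key : e * G / 2 ≤ 5 / 24 * (e * H) + 12 * d * e + 4 * m * ε := by
    have k1 : e * G' ≤ e * (2 * n * ε) := mul_le_mul_of_nonneg_left hG' he.le
    have k2 : e * W ≤ e * (6 * n * ε) := mul_le_mul_of_nonneg_left hW he.le
    rw [hm]
    nlinarith only [c1, c2, c3, hT, hU, hX1, hX2, hX3, hε, k1, k2]
  have key2 : e * H ≤ e * (24 / 7 * (12 * d + 5 * (m / e) * ε)) := by
    have k3 : e * (n * ε) ≤ m * ε := by rw [hm]; nlinarith only [hU, hε, mul_nonneg hU hε]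
    have k4 : e * (24 / 7 * (12 * d + 5 * (m / e) * ε)) =
        24 / 7 * (12 * d * e + 5 * m * ε) := by field_simp
    rw [k4]
    have k5 : e * H = e * G + 2 * (e * (n * ε)) := by rw [hH]; ring
    linarith only [k3, key]
  have key3 := le_of_mul_le_mul_left key2 he
  have k6 : 0 ≤ (m / e) * ε := by positivity
  have k7 : 100 * DD / e ^ 2 = 100 * d := by rw [hd]; ring
  rw [k7]
  nlinarith only [hG, hnε, k6, key3]

/-- the abstract form of `sub_step`, for points `v` of the closed disc -/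
theorem sub_abs {n m : ℕ} (v : Fin n → ℂ) (hv1 : ∀ i, ‖v i‖ ≤ 1) (x : Fin m → ℂ)
    (hx : ∀ i, ‖x i‖ ≤ 1) (S : Multiset ℕ) (hS : ∀ j ∈ S, 0 < j) (t E : ℕ) (hE : 0 < E)
    (hdec : ∀ H : ℂ → ℝ, ∑ k, H (x k ^ (2 ^ t)) = cyc S (fun ζ => H (ζ ^ (2 ^ t))) +
      E * ∑ i, H (v i)) (s ε : ℝ) (hs : 0 < s) (hε0 : 0 ≤ ε)
    (hF : ∀ j : ℕ, 0 < j → ∑ z ∈ primitiveRoots j ℂ, ∑ i, ker s z (v i) ≤ j.totient * ε)
    (hG' : ∑ i, ∑ j, ker s (-(v i)) (v j) ≤ 2 * n * ε)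
    (hW : EE v (4 * s) 2 4 ≤ 6 * n * ε)
    (hEV : EE v (6 * s) 4 4 ≤ 4 * EE v s 1 1 + 8 * n * ε) :
    EE v s 1 1 ≤ 100 * EE x s (2 ^ t) (2 ^ t) / (E : ℝ) ^ 2 + 100 * (m / E) * ε := by
  set F : ℂ → ℝ := fun z => ∑ i, ker s z (v i) with hFdef
  set F4 : ℂ → ℝ := fun z => ∑ i, ker (4 * s) z (v i ^ 4) with hF4def
  have hF4 : ∀ z : ℂ, ‖z‖ = 1 → F4 (z ^ 4) = ∑ ω ∈ nthRootsFinset 4 (1 : ℂ), F (ω * z) := by
    intro z hz
    rw [hF4def, hFdef]
    simp only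
    rw [Finset.sum_comm]
    refine Finset.sum_congr rfl fun i _ => ?_
    rw [ker_pow 4 (by norm_num) (4 * s) (by positivity) z (v i) hz.le (hv1 i)]
    refine Finset.sum_congr rfl fun ω _ => ?_
    congr 1
    push_cast
    field_simp
  have hcyc := sub_cyc_ineq F F4 ε hε0 hF hF4 t S hS
  -- the quantities
  set G := EE v s 1 1 with hGdef
  set DD := EE x s (2 ^ t) (2 ^ t) with hDDdef
  have hG : G = ∑ i, F (v i) := by simp [hGdef, EE, hFdef]
  have e1 : XX x v s (2 ^ t) 1 = cyc S (fun ζ => F (ζ ^ (2 ^ t))) + E * G := by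
    rw [hG, ← hdec F]
    simp [XX, hFdef]
  have e2 : ∑ i, ∑ j, ker s (-(x i ^ (2 ^ t))) (v j) =
      cyc S (fun ζ => F (-(ζ ^ (2 ^ t)))) + E * ∑ i, ∑ j, ker s (-(v i)) (v j) :=
    hdec fun z => F (-z)
  have e3 : XX x v (4 * s) (2 * 2 ^ t) 4 =
      cyc S (fun ζ => F4 (ζ ^ (2 * 2 ^ t))) + E * EE v (4 * s) 2 4 := by
    have := hdec fun z => F4 (z ^ 2)
    have h2 : ∀ z : ℂ, (z ^ (2 ^ t)) ^ 2 = z ^ (2 * 2 ^ t) := fun z => by
      rw [← pow_mul, mul_comm]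
    simp only [h2] at this
    rw [XX, EE]
    exact this
  have e4 : (m : ℝ) = cycdeg S + E * n := by
    have := hdec fun _ => 1
    simp only [Finset.sum_const, Finset.card_univ, Fintype.card_fin, nsmul_eq_mul, mul_one] at this
    rw [this, sub_cyc_one]
  refine sub_numeric (e := (E : ℝ)) (G := G) (G' := ∑ i, ∑ j, ker s (-(v i)) (v j))
    (W := EE v (4 * s) 2 4) (X1 := XX x v s (2 ^ t) 1)
    (X2 := 1 / 2 * XX x v s (2 ^ t) 1 + 1 / 2 * ∑ i, ∑ j, ker s (-(x i ^ (2 ^ t))) (v j))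
    (X3 := XX x v (4 * s) (2 * 2 ^ t) 4)
    (T := -cyc S (fun ζ => F (ζ ^ (2 ^ t)))) (T' := -cyc S (fun ζ => F (-(ζ ^ (2 ^ t)))))
    (T2 := -cyc S (fun ζ => F4 (ζ ^ (2 * 2 ^ t)))) (U := cycdeg S) (n := n) (m := m) (ε := ε)
    (DD := DD) (EV := EE v (6 * s) 4 4) (by exact_mod_cast hE) hε0 (by positivity) (by positivity)
    (EE_self_nonneg x hx s hs _) (EE_self_nonneg v hv1 s hs 1) e4 ?_ ?_ ?_ ?_ hG' hW hEV
    (cs_zero x hx v hv1 s hs _) (cs_one x hx v hv1 s hs _) (cs_two x hx v hv1 s hs _)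
  · rw [e1]; ring
  · rw [e1, e2]; ring
  · rw [e3]; ring
  · linarith

/-- the case where `g` is not a polynomial in `X ^ 2`; `x` are the roots of `f`, of which the
`2 ^ t`-th powers are considered -/
theorem sub_step (g : ℤ[X]) (hg : g.Monic) (hirr : Irreducible g)
    (hM : 1 < (g.map (Int.castRingHom ℂ)).mahlerMeasure) (h0 : g.coeff 0 ≠ 0) {n : ℕ}
    (γ : Fin n → ℂ) (hγ : IsRoots g γ) (hexp : ¬ ∃ g' : ℤ[X], g = expand ℤ 2 g') {m : ℕ}
    (x : Fin m → ℂ) (hx : ∀ i, ‖x i‖ ≤ 1) (S : Multiset ℕ) (hS : ∀ j ∈ S, 0 < j) (t E : ℕ)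
    (hE : 0 < E)
    (hdec : ∀ H : ℂ → ℝ, ∑ k, H (x k ^ (2 ^ t)) = cyc S (fun ζ => H (ζ ^ (2 ^ t))) +
      E * ∑ i, H (refl (γ i))) (s : ℝ) (hs : 0 < s) :
    EE (fun i => refl (γ i)) s 1 1 ≤ 100 * EE x s (2 ^ t) (2 ^ t) / (E : ℝ) ^ 2 +
      100 * (m / E) * (n * s + hh γ) := by
  have hh0 : 0 ≤ hh γ := hh_nonneg γ
  have hε0 : 0 ≤ (n : ℝ) * s + hh γ := by positivity
  have h1 : 0 ≤ (n : ℝ) * (n * s) := by positivity
  refine sub_abs (fun i => refl (γ i)) (fun i => norm_refl_le _) x hx S hS t E hE hdec s _ hs hε0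
    ?_ ?_ ?_ ?_
  · intro j hj
    have := cyc_energy_le g hg hirr hM γ hγ j 1 1 hj one_pos s hs.le
    simpa using this
  · refine (neg_energy_le g hg hirr hM γ hγ hexp s hs.le).trans ?_
    nlinarith only [h1]
  · refine (EE_two_four_le g hg hirr hM γ hγ s hs.le).trans ?_
    nlinarith
  · refine (EE_four_four_le g hg hirr hM h0 γ hγ s hs).trans ?_
    nlinarith

/-- an irreducible polynomial is a polynomial in `X ^ (2 ^ t)` that is not one in `X ^ 2` -/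
lemma sub_exists_expand (d : ℕ) : ∀ g : ℤ[X], g.natDegree ≤ d → g.Monic → Irreducible g →
    ∃ (t : ℕ) (g2 : ℤ[X]), g = expand ℤ (2 ^ t) g2 ∧ g2.Monic ∧ Irreducible g2 ∧
      ¬ ∃ g' : ℤ[X], g2 = expand ℤ 2 g' := by
  induction d with
  | zero =>
    intro g hd hg hirr
    exfalso
    have h1 : g = 1 := hg.natDegree_eq_zero.mp (Nat.le_zero.mp hd)
    exact hirr.not_isUnit (h1 ▸ isUnit_one)
  | succ d ih =>
    intro g hd hg hirr
    by_cases hex : ∃ g' : ℤ[X], g = expand ℤ 2 g'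
    · obtain ⟨g', hg'⟩ := hex
      have hmon : g'.Monic := by
        have := hg
        rw [hg'] at this
        exact (monic_expand_iff (by norm_num)).mp this
      have hirr' : Irreducible g' := by
        rw [hg'] at hirr
        exact of_irreducible_expand (by norm_num) hirr
      have hpos : 0 < g'.natDegree := by
        rcases Nat.eq_zero_or_pos g'.natDegree with h | h
        · exfalso
          exact hirr'.not_isUnit (hmon.natDegree_eq_zero.mp h ▸ isUnit_one)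
        · exact h
      have hdeg : g.natDegree = g'.natDegree * 2 := by rw [hg', natDegree_expand]
      obtain ⟨t, g2, h1, h2, h3, h4⟩ := ih g' (by omega) hmon hirr'
      refine ⟨t + 1, g2, ?_, h2, h3, h4⟩
      rw [hg', h1, expand_expand]
      congr 1
      rw [pow_succ, mul_comm]
    · exact ⟨0, g, by simp, hg, hirr, hex⟩

/-- sums over the `q`-th powers of the roots of `g(X ^ q)` -/
lemma sub_sum_pow {f g : ℤ[X]} {q : ℕ} (hq : 0 < q) (hfg : f = expand ℤ q g) {n m : ℕ}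
    {α : Fin n → ℂ} {β : Fin m → ℂ} (hα : IsRoots f α) (hβ : IsRoots g β) (F : ℂ → ℝ) :
    ∑ i, F (α i ^ q) = q * ∑ j, F (β j) := by
  have hex : ∀ j, ∃ ρ : ℂ, ρ ^ q = β j := fun j => IsAlgClosed.exists_pow_nat_eq (β j) hq
  choose ρ hρ using hex
  rw [sum_roots_expand hq hfg hα hβ ρ hρ fun z => F (z ^ q), Finset.mul_sum]
  refine Finset.sum_congr rfl fun j _ => ?_
  have : ∀ ω ∈ nthRootsFinset q (1 : ℂ), F ((ω * ρ j) ^ q) = F (β j) := by
    intro ω hω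
    rw [mem_nthRootsFinset hq] at hω
    rw [mul_pow, hω, one_mul, hρ]
  rw [Finset.sum_congr rfl this, Finset.sum_const, nsmul_eq_mul]
  congr 1
  rw [(Complex.isPrimitiveRoot_exp q hq.ne').card_nthRootsFinset]

theorem sub_energy (g : ℤ[X]) (hg : g.Monic) (hirr : Irreducible g)
    (hM : 1 < (g.map (Int.castRingHom ℂ)).mahlerMeasure) (h0 : g.coeff 0 ≠ 0) {n : ℕ}
    (α : Fin n → ℂ) (hα : IsRoots g α) {m : ℕ}
    (x : Fin m → ℂ) (hx : ∀ i, ‖x i‖ ≤ 1) (S : Multiset ℕ) (hS : ∀ j ∈ S, 0 < j) (e : ℕ)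
    (he : 0 < e)
    (hdec : ∀ H : ℂ → ℝ, ∑ k, H (x k) = cyc S H + e * ∑ i, H (refl (α i)))
    (s : ℝ) (hs : 0 < s) :
    EE (fun i => refl (α i)) s 1 1 ≤ 100 * EE x s 1 1 / (e : ℝ) ^ 2 +
      100 * (m / e) * (n * s + hh α) := by
  obtain ⟨t, g2, hgg, hg2, hirr2, hexp⟩ := sub_exists_expand g.natDegree g le_rfl hg hirr
  set Q : ℕ := 2 ^ t with hQ
  have hQ0 : 0 < Q := by positivity
  have hQr : (0 : ℝ) < Q := by exact_mod_cast hQ0
  have her : (0 : ℝ) < e := by exact_mod_cast he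
  -- the roots of `g2`
  obtain ⟨k, γ, hγ⟩ : ∃ (k : ℕ) (γ : Fin k → ℂ), IsRoots g2 γ :=
    ⟨_, exists_isRoots g2 hg2⟩
  have hM2 : 1 < (g2.map (Int.castRingHom ℂ)).mahlerMeasure := by
    have h1 := mm_expand hQ0 g2
    rw [← hgg] at h1
    unfold mm at h1
    rw [← h1]
    exact hM
  have h02 : g2.coeff 0 ≠ 0 := by
    intro h
    apply h0
    rw [hgg, coeff_expand hQ0]
    simp [h]
  have hn : n = k * Q := natDegree_expand_eq hgg hα hγ
  have hnr : (n : ℝ) = k * Q := by exact_mod_cast hn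
  have hhh : hh α = hh γ := by
    have h1 := sub_sum_pow hQ0 hgg hα hγ fun z => Real.posLog ‖z‖
    simp only [norm_pow] at h1
    simp only [Real.posLog_pow] at h1
    rw [← Finset.mul_sum] at h1
    exact mul_left_cancel₀ hQr.ne' h1
  have hdec2 : ∀ H : ℂ → ℝ, ∑ k, H (x k ^ (2 ^ t)) = cyc S (fun ζ => H (ζ ^ (2 ^ t))) +
      ((e * Q : ℕ) : ℝ) * ∑ i, H (refl (γ i)) := by
    intro H
    have h1 := hdec fun z => H (z ^ (2 ^ t))
    rw [h1]
    congr 1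
    have h2 : ∑ i, H (refl (α i) ^ (2 ^ t)) = Q * ∑ j, H (refl (γ j)) := by
      rw [← sub_sum_pow hQ0 hgg hα hγ fun z => H (refl z)]
      refine Finset.sum_congr rfl fun i _ => ?_
      rw [refl_pow]
    rw [h2]
    push_cast
    ring
  have hstep := sub_step g2 hg2 hirr2 hM2 h02 γ hγ hexp x hx S hS t (e * Q) (by positivity) hdec2
    (Q * s) (by positivity)
  have hEE := EE_expand hQ0 hgg hα hγ s hs
  rw [hEE, mul_comm s (Q : ℝ)]
  have hpow := EE_pow_le x hx s hs Q hQ0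
  have h5 := mul_le_mul_of_nonneg_left hstep hQr.le
  refine h5.trans ?_
  rw [hhh, hnr]
  have h6 : (Q : ℝ) * (100 * EE x (Q * s) (2 ^ t) (2 ^ t) / ((e * Q : ℕ) : ℝ) ^ 2) ≤
      100 * EE x s 1 1 / (e : ℝ) ^ 2 := by
    push_cast
    rw [← hQ]
    have h7 : (Q : ℝ) * (100 * EE x (Q * s) Q Q / ((e : ℝ) * Q) ^ 2) =
        100 * (EE x (Q * s) Q Q / Q) / (e : ℝ) ^ 2 := by
      field_simp
    rw [h7]
    have h8 : EE x (Q * s) Q Q / Q ≤ EE x s 1 1 := by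
      rw [div_le_iff₀ hQr, mul_comm (EE x s 1 1)]
      exact hpow
    gcongr
  have h9 : (Q : ℝ) * (100 * (m / ((e * Q : ℕ) : ℝ)) * (k * (Q * s) + hh γ)) =
      100 * (m / e) * (k * Q * s + hh γ) := by
    push_cast
    field_simp
  rw [mul_add, h9]
  linarith

end Pool.Agent.Lib.MP_7ab245_nt.Len
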