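import Mathlib
import Pool.Agent.Lib.MP_7ab245_nt.Len.MainA
import Pool.Agent.Lib.MP_7ab245_nt.Len.ArithB
import Pool.Agent.Lib.MP_7ab245_nt.Len.Expand

/-! The package at a prime for every irreducible polynomial. -/

set_option autoImplicit false

open Polynomial Finset

namespace Pool.Agent.Lib.MP_7ab245_nt.Len

/-- products over the roots of `g(X ^ q)` of a function of the `q`-th power -/
lemma prod_roots_pow_expand {f g : ℤ[X]} {q : ℕ} (hq : 0 < q) (hfg : f = expand ℤ q g) {n m : ℕ}
    {α : Fin n → ℂ} {β : Fin m → ℂ} (hα : IsRoots f α) (hβ : IsRoots g β) (F : ℂ → ℝ) :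
    ∏ i, F (α i ^ q) = (∏ j, F (β j)) ^ q := by
  classical
  have hex : ∀ j, ∃ ρ : ℂ, ρ ^ q = β j := fun j => IsAlgClosed.exists_pow_nat_eq (β j) hq
  choose ρ hρ using hex
  have hcard : (nthRootsFinset q (1 : ℂ)).card = q :=
    (Complex.isPrimitiveRoot_exp q hq.ne').card_nthRootsFinset
  -- both sides depend only on multiplicities
  have hmult : ∀ z : ℂ, ((univ : Finset (Fin n)).filter fun i => α i ^ q = z).card =
      q * ((univ : Finset (Fin m)).filter fun j => β j = z).card := by
    intro z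
    have h1 := sum_roots_expand hq hfg hα hβ ρ hρ (fun x => if x ^ q = z then (1 : ℝ) else 0)
    have h2 : ∀ j : Fin m, ∑ ω ∈ nthRootsFinset q (1 : ℂ),
        (if (ω * ρ j) ^ q = z then (1 : ℝ) else 0) = q * (if β j = z then (1 : ℝ) else 0) := by
      intro j
      have h3 : ∀ ω ∈ nthRootsFinset q (1 : ℂ), (if (ω * ρ j) ^ q = z then (1 : ℝ) else 0) =
          if β j = z then (1 : ℝ) else 0 := by
        intro ω hω
        rw [mem_nthRootsFinset hq] at hω
        rw [mul_pow, hω, one_mul, hρ]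
      rw [Finset.sum_congr rfl h3, Finset.sum_const, hcard, nsmul_eq_mul]
    rw [Finset.sum_congr rfl (fun j _ => h2 j), ← Finset.mul_sum, Finset.sum_boole,
      Finset.sum_boole] at h1
    exact_mod_cast h1
  set Z : Finset ℂ := (univ : Finset (Fin m)).image β with hZ
  have hmem : ∀ i ∈ (univ : Finset (Fin n)), α i ^ q ∈ Z := by
    intro i _
    have h1 := hmult (α i ^ q)
    have h2 : 0 < ((univ : Finset (Fin n)).filter fun i' => α i' ^ q = α i ^ q).card :=
      Finset.card_pos.mpr ⟨i, by simp⟩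
    rw [h1] at h2
    have h3 := Nat.pos_of_mul_pos_left h2
    obtain ⟨j, hj⟩ := Finset.card_pos.mp h3
    rw [Finset.mem_filter] at hj
    rw [hZ, Finset.mem_image]
    exact ⟨j, Finset.mem_univ _, hj.2⟩
  rw [← Finset.prod_fiberwise_of_maps_to hmem, ← Finset.prod_fiberwise_of_maps_to
    (g := β) (t := Z) (fun j _ => Finset.mem_image_of_mem β (Finset.mem_univ j)),
    ← Finset.prod_pow]
  refine Finset.prod_congr rfl fun z _ => ?_
  have h1 : ∏ i ∈ (univ : Finset (Fin n)).filter (fun i => α i ^ q = z), F (α i ^ q) =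
      F z ^ ((univ : Finset (Fin n)).filter fun i => α i ^ q = z).card := by
    rw [← Finset.prod_const]
    refine Finset.prod_congr rfl fun i hi => ?_
    rw [(Finset.mem_filter.mp hi).2]
  have h2 : ∏ j ∈ (univ : Finset (Fin m)).filter (fun j => β j = z), F (β j) =
      F z ^ ((univ : Finset (Fin m)).filter fun j => β j = z).card := by
    rw [← Finset.prod_const]
    refine Finset.prod_congr rfl fun j hj => ?_
    rw [(Finset.mem_filter.mp hj).2]
  rw [h1, h2, hmult z, ← pow_mul, mul_comm]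

/-- the fibres of `ω ↦ ω ^ q` on the `q N`-th roots of unity have `q` elements -/
lemma card_filter_nthRoots_pow {q N : ℕ} (hq : 0 < q) (hN : 0 < N) (p : ℂ → Prop)
    [DecidablePred p] :
    ((nthRootsFinset (q * N) (1 : ℂ)).filter fun ω => p (ω ^ q)).card =
      q * ((nthRootsFinset N (1 : ℂ)).filter p).card := by
  classical
  have hqN : 0 < q * N := Nat.mul_pos hq hN
  have hmaps : ∀ ω ∈ (nthRootsFinset (q * N) (1 : ℂ)).filter (fun ω => p (ω ^ q)),
      ω ^ q ∈ (nthRootsFinset N (1 : ℂ)).filter p := by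
    intro ω hω
    rw [Finset.mem_filter, mem_nthRootsFinset hqN] at hω
    rw [Finset.mem_filter, mem_nthRootsFinset hN]
    exact ⟨by rw [← pow_mul]; exact hω.1, hω.2⟩
  rw [Finset.card_eq_sum_card_fiberwise hmaps]
  have hfib : ∀ η ∈ (nthRootsFinset N (1 : ℂ)).filter p,
      (((nthRootsFinset (q * N) (1 : ℂ)).filter fun ω => p (ω ^ q)).filter
        fun ω => ω ^ q = η).card = q := by
    intro η hη
    rw [Finset.mem_filter, mem_nthRootsFinset hN] at hη
    have hη0 : η ≠ 0 := by
      rintro rfl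
      rw [zero_pow hN.ne'] at hη
      exact zero_ne_one hη.1
    have hprim := Complex.isPrimitiveRoot_exp q hq.ne'
    have h1 : ((nthRootsFinset (q * N) (1 : ℂ)).filter fun ω => p (ω ^ q)).filter
        (fun ω => ω ^ q = η) = (nthRoots q η).toFinset := by
      ext ω
      rw [Finset.mem_filter, Finset.mem_filter, mem_nthRootsFinset hqN, Multiset.mem_toFinset,
        mem_nthRoots hq]
      constructor
      · exact fun h => h.2
      · intro h
        refine ⟨⟨?_, ?_⟩, h⟩
        · rw [pow_mul, h, hη.1]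
        · rw [h]; exact hη.2
    rw [h1, Multiset.toFinset_card_of_nodup (hprim.nthRoots_nodup hη0), hprim.card_nthRoots,
      if_pos (IsAlgClosed.exists_pow_nat_eq η hq)]
  rw [Finset.sum_congr rfl hfib, Finset.sum_const, smul_eq_mul, mul_comm]

/-- the package for one odd prime, without a hypothesis on `f` -/
theorem prime_package_all (f : ℤ[X]) (hf : f.Monic) (hirr : Irreducible f)
    (hM : 1 < (f.map (Int.castRingHom ℂ)).mahlerMeasure) {n : ℕ} (α : Fin n → ℂ)
    (hα : IsRoots f α) (q : ℕ) (hq : q.Prime) (hq2 : q ≠ 2) :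
    ∃ t : ℕ, (q : ℝ) ^ (q ^ t * n) ≤ ∏ i, ∏ j, ‖α i ^ (q ^ t) - α j ^ (q * q ^ t)‖ ∧
      ∃ r : ℕ, 0 < r ∧ r ≤ q ^ t ∧ ∀ i, ((nthRootsFinset (q * q ^ t) (1 : ℂ)).filter
        fun ω => aeval (ω * α i) f = 0).card = r := by
  classical
  obtain ⟨d, hd⟩ : ∃ d, d = f.natDegree := ⟨_, rfl⟩
  induction d using Nat.strong_induction_on generalizing f n with
  | _ d ih =>
  by_cases hexp : ∃ g : ℤ[X], f = expand ℤ q g
  · obtain ⟨g, hfg⟩ := hexp
    have hq0 := hq.pos
    have hg : g.Monic := by
      rw [hfg] at hf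
      exact (monic_expand_iff hq0).mp hf
    have hgirr : Irreducible g := by
      rw [hfg] at hirr
      exact of_irreducible_expand hq.ne_zero hirr
    have hgM : 1 < (g.map (Int.castRingHom ℂ)).mahlerMeasure := by
      have h1 := mm_expand hq0 g
      rw [← hfg] at h1
      unfold mm at h1
      rw [← h1]; exact hM
    have hdeg : f.natDegree = g.natDegree * q := by rw [hfg, natDegree_expand]
    have hgpos : 0 < g.natDegree := by
      rcases Nat.eq_zero_or_pos g.natDegree with h1 | h1
      · exfalso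
        rw [hg.natDegree_eq_zero.mp h1] at hgirr
        exact not_irreducible_one hgirr
      · exact h1
    have hlt : g.natDegree < d := by
      rw [hd, hdeg]
      have := hq.two_le
      nlinarith
    obtain ⟨β, hβ⟩ := exists_isRoots g hg
    obtain ⟨t, ht1, r, hr0, hr1, hr⟩ := ih g.natDegree hlt g hg hgirr hgM β hβ rfl
    have hpw : ∀ z : ℂ, z ^ (q ^ (t + 1)) = (z ^ q) ^ (q ^ t) := by
      intro z
      rw [← pow_mul, pow_succ']
    have hn : n = g.natDegree * q := natDegree_expand_eq hfg hα hβ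
    refine ⟨t + 1, ?_, q * r, Nat.mul_pos hq0 hr0, ?_, ?_⟩
    · have h1 : ∏ i, ∏ j, ‖α i ^ (q ^ (t + 1)) - α j ^ (q * q ^ (t + 1))‖ =
          ((∏ i, ∏ j, ‖β i ^ (q ^ t) - β j ^ (q * q ^ t)‖) ^ q) ^ q := by
        have h2 : ∀ z : ℂ, ∏ j, ‖z ^ (q ^ t) - α j ^ (q * q ^ (t + 1))‖ =
            (∏ j, ‖z ^ (q ^ t) - β j ^ (q * q ^ t)‖) ^ q := by
          intro z
          rw [← prod_roots_pow_expand hq0 hfg hα hβ (fun w => ‖z ^ (q ^ t) - w ^ (q * q ^ t)‖)]
          refine Finset.prod_congr rfl fun j _ => ?_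
          have h6 : q * q ^ (t + 1) = q * (q * q ^ t) := by rw [pow_succ']
          rw [h6, pow_mul (α j) q]
        have h3 := prod_roots_pow_expand hq0 hfg hα hβ
          (fun z => ∏ j, ‖z ^ (q ^ t) - α j ^ (q * q ^ (t + 1))‖)
        calc ∏ i, ∏ j, ‖α i ^ (q ^ (t + 1)) - α j ^ (q * q ^ (t + 1))‖
            = ∏ i, ∏ j, ‖(α i ^ q) ^ (q ^ t) - α j ^ (q * q ^ (t + 1))‖ := by
              refine Finset.prod_congr rfl fun i _ => Finset.prod_congr rfl fun j _ => ?_
              rw [hpw]
          _ = (∏ i, ∏ j, ‖β i ^ (q ^ t) - α j ^ (q * q ^ (t + 1))‖) ^ q := h3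
          _ = _ := by
              congr 1
              rw [← Finset.prod_pow]
              exact Finset.prod_congr rfl fun i _ => h2 (β i)
      rw [h1, hn]
      have h4 : (q : ℝ) ^ (q ^ (t + 1) * (g.natDegree * q)) =
          (((q : ℝ) ^ (q ^ t * g.natDegree)) ^ q) ^ q := by
        rw [← pow_mul, ← pow_mul]
        congr 1
        rw [pow_succ]; ring
      rw [h4]
      have h5 : (0 : ℝ) ≤ (q : ℝ) ^ (q ^ t * g.natDegree) := by positivity
      exact pow_le_pow_left₀ (by positivity) (pow_le_pow_left₀ h5 ht1 q) q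
    · rw [pow_succ']
      exact Nat.mul_le_mul_left q hr1
    · intro i
      have h1 : ∀ ω : ℂ, aeval (ω * α i) f = aeval (ω ^ q * α i ^ q) g := by
        intro ω
        rw [hfg, expand_aeval, mul_pow]
      have h2 : ∃ j, β j = α i ^ q := by
        have h3 : aeval (α i ^ q) g = 0 := by
          have h4 := hα.aeval_root i
          rw [hfg, expand_aeval] at h4
          exact h4
        rw [hβ.aeval_eq, Finset.prod_eq_zero_iff] at h3
        obtain ⟨j, _, hj⟩ := h3
        exact ⟨j, (sub_eq_zero.mp hj).symm⟩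
      obtain ⟨j, hj⟩ := h2
      rw [← hr j]
      have h5 : (nthRootsFinset (q * q ^ (t + 1)) (1 : ℂ)).filter
          (fun ω => aeval (ω * α i) f = 0) = (nthRootsFinset (q * (q * q ^ t)) (1 : ℂ)).filter
          (fun ω => (fun η => aeval (η * β j) g = 0) (ω ^ q)) := by
        rw [pow_succ' q t]
        refine Finset.filter_congr fun ω _ => ?_
        rw [h1, hj]
      rw [h5]
      exact card_filter_nthRoots_pow hq0 (Nat.mul_pos hq0 (pow_pos hq0 t))
        (fun η => aeval (η * β j) g = 0)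
  · obtain ⟨c, hc, h1, h2⟩ := prime_package f hf hirr hM α hα q hq hq2 hexp
    rcases hc with rfl | rfl
    · refine ⟨0, ?_, ?_⟩
      · simpa using h1
      · simpa using h2
    · exact ⟨1, by simpa using h1, by simpa using h2⟩

end Pool.Agent.Lib.MP_7ab245_nt.Len
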