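import Mathlib
import Pool.Agent.Lib.MP_7ab245_nt.Len.CoreE
import Pool.Agent.Lib.MP_7ab245_nt.Len.Defs2
import Pool.Agent.Lib.MP_7ab245_nt.Len.Psd2
import Pool.Agent.Lib.MP_7ab245_nt.Len.Energy2
import Pool.Agent.Lib.MP_7ab245_nt.Len.Pack
import Pool.Agent.Lib.MP_7ab245_nt.Len.Sub

/-! From energies to the Mahler measure, for `f = u * g ^ e`. -/

set_option autoImplicit false

open Polynomial Finset

namespace Pool.Agent.Lib.MP_7ab245_nt.Len

lemma cyc_le_cycdeg (S : Multiset ℕ) (H : ℂ → ℝ) (K : ℝ)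
    (h : ∀ j ∈ S, ∑ ζ ∈ primitiveRoots j ℂ, H ζ ≤ j.totient * K) :
    cyc S H ≤ cycdeg S * K := by
  unfold cyc cycdeg
  induction S using Multiset.induction_on with
  | empty => simp
  | cons a S ih =>
    have h1 := h a (Multiset.mem_cons_self a S)
    have h2 := ih fun j hj => h j (Multiset.mem_cons_of_mem hj)
    rw [Multiset.map_cons, Multiset.sum_cons, Multiset.map_cons, Multiset.sum_cons]
    push_cast
    rw [add_mul]
    push_cast at h2
    linarith

lemma cyc_one (S : Multiset ℕ) : cyc S (fun _ => 1) = cycdeg S := by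
  unfold cyc cycdeg
  induction S using Multiset.induction_on with
  | empty => simp
  | cons a S ih =>
    rw [Multiset.map_cons, Multiset.sum_cons, Multiset.map_cons, Multiset.sum_cons, ih]
    push_cast
    rw [Finset.sum_const, nsmul_eq_mul, mul_one, Complex.card_primitiveRoots]

lemma decomp_card {n m : ℕ} (α : Fin n → ℂ) (x : Fin m → ℂ) (S : Multiset ℕ) (e : ℕ)
    (hdec : ∀ H : ℂ → ℝ, ∑ k, H (x k) = cyc S H + e * ∑ i, H (refl (α i))) :
    (m : ℝ) = cycdeg S + e * n := by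
  have h := hdec fun _ => 1
  rw [cyc_one] at h
  simpa using h

/-- the mixed energy of the roots of `f` and of `g` with the prime `q` -/
lemma term_mixed (g : ℤ[X]) (hg : g.Monic) (hirr : Irreducible g)
    (hM : 1 < (g.map (Int.castRingHom ℂ)).mahlerMeasure) {n m : ℕ} (α : Fin n → ℂ)
    (hα : IsRoots g α) (x : Fin m → ℂ) (S : Multiset ℕ) (hS : ∀ j ∈ S, 0 < j) (e : ℕ)
    (hdec : ∀ H : ℂ → ℝ, ∑ k, H (x k) = cyc S H + e * ∑ i, H (refl (α i)))
    (q c : ℕ) (hq : 2 ≤ q) (hc : 0 < c)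
    (hprod : (q : ℝ) ^ (c * n) ≤ ∏ i, ∏ j, ‖α i ^ c - α j ^ (q * c)‖) (s : ℝ) (hs : 0 < s) :
    (1 / (c : ℝ)) * XX x (fun i => refl (α i)) (s * c) c (q * c) ≤
      m * (n * s + (1 + q) * hh α) - e * n * Real.log q := by
  have hcR : (0 : ℝ) < c := by exact_mod_cast hc
  have hh0 := hh_nonneg α
  have hcard := decomp_card α x S e hdec
  have h1 := hdec fun z => ∑ j, ker (s * c) (z ^ c) (refl (α j) ^ (q * c))
  have h2 : XX x (fun i => refl (α i)) (s * c) c (q * c) =
      cyc S (fun z => ∑ j, ker (s * c) (z ^ c) (refl (α j) ^ (q * c))) +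
        e * EE (fun i => refl (α i)) (s * c) c (q * c) := h1
  have h3 : cyc S (fun z => ∑ j, ker (s * c) (z ^ c) (refl (α j) ^ (q * c))) ≤
      cycdeg S * (n * (s * c) + ((q * c : ℕ) : ℝ) * hh α) := by
    apply cyc_le_cycdeg
    intro j hj
    exact cyc_energy_le g hg hirr hM α hα j c (q * c) (hS j hj) (by positivity) (s * c)
      (by positivity)
  have h4 := term_one g hg hirr hM α hα q c hq hc hprod s hs
  have h5 : (1 / (c : ℝ)) * (cycdeg S * (n * (s * c) + ((q * c : ℕ) : ℝ) * hh α)) =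
      cycdeg S * (n * s + q * hh α) := by
    push_cast
    field_simp
  have h6 : (1 / (c : ℝ)) * cyc S (fun z => ∑ j, ker (s * c) (z ^ c) (refl (α j) ^ (q * c))) ≤
      cycdeg S * (n * s + q * hh α) := by
    rw [← h5]
    exact mul_le_mul_of_nonneg_left h3 (by positivity)
  have h7 : (cycdeg S : ℝ) * (n * s + q * hh α) ≤ cycdeg S * (n * s + (1 + q) * hh α) := by
    gcongr
    linarith only []
  have h8 : (e : ℝ) * ((1 / (c : ℝ)) * EE (fun i => refl (α i)) (s * c) c (q * c)) ≤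
      e * ((n : ℝ) ^ 2 * s + n * (1 + q) * hh α - n * Real.log q) := by gcongr
  rw [h2, mul_add, hcard]
  calc (1 / (c : ℝ)) * cyc S (fun z => ∑ j, ker (s * c) (z ^ c) (refl (α j) ^ (q * c))) +
        1 / (c : ℝ) * (e * EE (fun i => refl (α i)) (s * c) c (q * c))
      ≤ cycdeg S * (n * s + (1 + q) * hh α) +
        e * ((n : ℝ) ^ 2 * s + n * (1 + q) * hh α - n * Real.log q) := by
        have h9 : 1 / (c : ℝ) * (e * EE (fun i => refl (α i)) (s * c) c (q * c)) =
          e * ((1 / (c : ℝ)) * EE (fun i => refl (α i)) (s * c) c (q * c)) := by ring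
        rw [h9]
        linarith only [h6, h7, h8]
    _ = _ := by ring

/-- the main inequality for `f = u * g ^ e` -/
theorem core_ineq_two (g : ℤ[X]) (hg : g.Monic) (hirr : Irreducible g)
    (hM : 1 < (g.map (Int.castRingHom ℂ)).mahlerMeasure) (h0 : g.coeff 0 ≠ 0) {n m : ℕ}
    (hn : 0 < n) (α : Fin n → ℂ) (hα : IsRoots g α)
    (x : Fin m → ℂ) (hx : ∀ i, ‖x i‖ ≤ 1) (S : Multiset ℕ) (hS : ∀ j ∈ S, 0 < j) (e : ℕ)
    (he : 0 < e) (D : ℝ) (hD : 1 ≤ D) (hmD : (m : ℝ) ≤ D * (e * n))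
    (hdec : ∀ H : ℂ → ℝ, ∑ k, H (x k) = cyc S H + e * ∑ i, H (refl (α i)))
    (P : Finset ℕ) (R Q : ℝ) (hR : 2 ≤ R)
    (hP : ∀ q ∈ P, q.Prime ∧ R < q ∧ (q : ℝ) ≤ Q) (s Eb a : ℝ) (hs : 0 < s) (ha : 0 ≤ a)
    (hEb : 0 ≤ Eb) (hE1 : EE x s 1 1 ≤ m * Eb) (hE2 : ∀ q ∈ P, EE x (s / q) 1 1 ≤ m * Eb) :
    0 ≤ D * Eb + 2 * a * P.card * (D * (n * s + (1 + Q) * hh α) - Real.log R)
      + a ^ 2 * (P.card * (100 * D * Eb + 100 * D * (n * s + hh α) + 2 * Q * hh α + n * s)
        + (P.card : ℝ) ^ 2 * (n * s + 2 * Q * hh α)) := by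
  classical
  have hnR : (0 : ℝ) < n := by exact_mod_cast hn
  have heR : (0 : ℝ) < e := by exact_mod_cast he
  have he1 : (1 : ℝ) ≤ e := by exact_mod_cast he
  have hh0 := hh_nonneg α
  have hmR : (0 : ℝ) ≤ m := by positivity
  have hen : (0 : ℝ) < e * n := by positivity
  have hnen : (n : ℝ) ≤ e * n := by nlinarith only [he1]
  -- `m / e ≤ D n`
  have hme : (m : ℝ) / e ≤ D * n := by
    rw [div_le_iff₀ heR]
    linarith
  have key : ∀ q : ℕ, ∃ t : ℕ, q ∈ P → (
      (q : ℝ) ^ (q ^ t * n) ≤ ∏ i, ∏ j, ‖α i ^ (q ^ t) - α j ^ (q * q ^ t)‖ ∧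
      ∃ r : ℕ, 0 < r ∧ r ≤ q ^ t ∧ ∀ i, ((nthRootsFinset (q * q ^ t) (1 : ℂ)).filter
        fun ω => aeval (ω * α i) g = 0).card = r) := by
    intro q
    by_cases hq : q ∈ P
    · obtain ⟨hq1, hq2, hq3⟩ := hP q hq
      have hq4 : q ≠ 2 := by
        rintro rfl
        push_cast at hq2
        linarith
      obtain ⟨t, ht⟩ := prime_package_all g hg hirr hM α hα q hq1 hq4
      exact ⟨t, fun _ => ht⟩
    · exact ⟨1, fun h => absurd h hq⟩
  choose t ht using key
  obtain ⟨c, hc⟩ : ∃ c : ℕ → ℕ, c = fun q => q ^ t q := ⟨_, rfl⟩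
  have hcq : ∀ q, c q = q ^ t q := fun q => by rw [hc]
  have hcpos : ∀ q ∈ P, 0 < c q := by
    intro q hq
    rw [hcq]
    exact pow_pos (hP q hq).1.pos _
  have hmain := psd_main2 x hx (fun i => refl (α i)) (fun i => norm_refl_le _) s hs P c hcpos
    (fun q hq => (hP q hq).1.pos) (by
      intro p hp q hq hpq
      rw [hcq, hcq]
      exact Nat.Coprime.pow _ _ ((Nat.coprime_primes (hP p hp).1 (hP q hq).1).mpr hpq)) a
  have hsum1 : ∑ q ∈ P, (1 / (c q : ℝ)) * XX x (fun i => refl (α i)) (s * c q) (c q) (q * c q) ≤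
      ∑ _q ∈ P, ((e : ℝ) * n) * (D * (n * s + (1 + Q) * hh α) - Real.log R) := by
    apply Finset.sum_le_sum
    intro q hq
    obtain ⟨hq1, hq2, hq3⟩ := hP q hq
    have hprod := (ht q hq).1
    rw [← hcq] at hprod
    have h1 := term_mixed g hg hirr hM α hα x S hS e hdec q (c q) hq1.two_le (hcpos q hq)
      hprod s hs
    refine h1.trans ?_
    have h2 : Real.log R ≤ Real.log q := Real.log_le_log (by linarith only [hR]) hq2.le
    have h3 : (m : ℝ) * (n * s + (1 + q) * hh α) ≤ D * (e * n) * (n * s + (1 + Q) * hh α) := by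
      gcongr
    have h4 : (e : ℝ) * n * Real.log R ≤ e * n * Real.log q := by gcongr
    nlinarith only [h3, h4]
  have hsum2 : ∑ q ∈ P, (1 / (c q : ℝ)) *
      EE (fun i => refl (α i)) (s * c q) (q * c q) (q * c q) ≤
      ∑ _q ∈ P, ((e : ℝ) * n) *
        (100 * D * Eb + 100 * D * (n * s + hh α) + 2 * Q * hh α + n * s) := by
    apply Finset.sum_le_sum
    intro q hq
    obtain ⟨hq1, hq2, hq3⟩ := hP q hq
    obtain ⟨_, r, hr0, hrc, hr⟩ := ht q hq
    rw [← hcq] at hrc hr
    have hq1R : (1 : ℝ) ≤ q := by linarith only [hR, hq2]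
    have h1 := term_two g hg hirr h0 α hα q (c q) r hq1.pos (hcpos q hq) hrc hr s hs
    refine h1.trans ?_
    have h2 := sub_energy g hg hirr hM h0 α hα x hx S hS e he hdec (s / q) (by positivity)
    have h3 : 100 * EE x (s / q) 1 1 / (e : ℝ) ^ 2 ≤ 100 * (D * n) * Eb := by
      have h4 : 100 * EE x (s / q) 1 1 / (e : ℝ) ^ 2 ≤ 100 * (m * Eb) / (e : ℝ) ^ 2 := by
        gcongr
        exact hE2 q hq
      have h5 : 100 * (m * Eb) / (e : ℝ) ^ 2 = 100 * ((m : ℝ) / e) * Eb * (1 / e) := by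
        field_simp
      have h6 : 100 * ((m : ℝ) / e) * Eb * (1 / e) ≤ 100 * ((m : ℝ) / e) * Eb * 1 := by
        gcongr
        rw [div_le_one heR]
        exact he1
      have h7 : 100 * ((m : ℝ) / e) * Eb ≤ 100 * (D * n) * Eb := by gcongr
      linarith only [h4, h5, h6, h7]
    have h4 : 100 * ((m : ℝ) / e) * (n * (s / q) + hh α) ≤ 100 * (D * n) * (n * s + hh α) := by
      have h5 : s / q ≤ s := div_le_self hs.le hq1R
      gcongr
    have h5 : 2 * (n : ℝ) * q * hh α ≤ n * (2 * Q * hh α) := by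
      have : (n : ℝ) * (2 * q * hh α) ≤ n * (2 * Q * hh α) := by gcongr
      linarith only [this]
    have hQ0 : 0 ≤ Q := le_trans (by positivity) hq3
    have h6 : (0 : ℝ) ≤ 100 * D * Eb + 100 * D * (n * s + hh α) + 2 * Q * hh α + n * s := by
      (clear * - hD hEb hQ0 hh0 hn hs; positivity)
    calc EE (fun i => refl (α i)) (s / q) 1 1 + 2 * n * q * hh α + (n : ℝ) ^ 2 * s
        ≤ n * (100 * D * Eb + 100 * D * (n * s + hh α) + 2 * Q * hh α + n * s) := by
          have e1 : (n : ℝ) * (100 * D * Eb + 100 * D * (n * s + hh α) + 2 * Q * hh α + n * s) =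
            100 * (D * n) * Eb + 100 * (D * n) * (n * s + hh α) + n * (2 * Q * hh α)
              + (n : ℝ) ^ 2 * s := by ring
          rw [e1]
          linarith only [h2, h3, h4, h5]
      _ ≤ _ := by gcongr
  have hsum3 : ∑ p ∈ P, ∑ q ∈ P.erase p, (1 / ((c p : ℝ) * c q)) *
            EE (fun i => refl (α i)) (s * (c p * c q)) (p * (c p * c q)) (q * (c p * c q)) ≤
      (P.card : ℝ) ^ 2 * ((e * n) * (n * s + 2 * Q * hh α)) := by
    have hQ0 : 0 ≤ ((e : ℝ) * n) * (n * s + 2 * Q * hh α) ∨ P = ∅ := by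
      rcases P.eq_empty_or_nonempty with h | ⟨q, hq⟩
      · exact Or.inr h
      · left
        have hQ : 0 ≤ Q := le_trans (by positivity) (hP q hq).2.2
        positivity
    rcases hQ0 with hQ0 | hQ0
    swap
    · rw [hQ0]; simp
    calc ∑ p ∈ P, ∑ q ∈ P.erase p, (1 / ((c p : ℝ) * c q)) *
            EE (fun i => refl (α i)) (s * (c p * c q)) (p * (c p * c q)) (q * (c p * c q))
        ≤ ∑ p ∈ P, ∑ _q ∈ P.erase p, (((e : ℝ) * n) * (n * s + 2 * Q * hh α)) := by
          apply Finset.sum_le_sum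
          intro p hp
          apply Finset.sum_le_sum
          intro q hq
          have hq' := Finset.mem_of_mem_erase hq
          have hpq : p ≠ q := (Finset.ne_of_mem_erase hq).symm
          have hQ : 0 ≤ Q := le_trans (by positivity) (hP q hq').2.2
          have h1 := term_three g hg hirr hM α hα p q (c p) (c q) hpq (hcpos p hp)
            (hcpos q hq') s hs
          refine h1.trans ?_
          have h2 : (n : ℝ) * (p + q) * hh α ≤ n * (Q + Q) * hh α := by
            have := (hP p hp).2.2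
            have := (hP q hq').2.2
            gcongr
          calc (n : ℝ) ^ 2 * s + n * (p + q) * hh α ≤ n * (n * s + 2 * Q * hh α) := by
                nlinarith only [h2]
            _ ≤ _ := by gcongr
      _ ≤ ∑ p ∈ P, ∑ _q ∈ P, (((e : ℝ) * n) * (n * s + 2 * Q * hh α)) := by
          apply Finset.sum_le_sum
          intro p hp
          apply Finset.sum_le_sum_of_subset_of_nonneg (Finset.erase_subset _ _)
          intro _ _ _
          exact hQ0
      _ = _ := by
          rw [Finset.sum_const, Finset.sum_const, nsmul_eq_mul, nsmul_eq_mul]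
          ring
  rw [Finset.sum_const, nsmul_eq_mul] at hsum1 hsum2
  have h7 := mul_le_mul_of_nonneg_left hsum1 (by positivity : 0 ≤ 2 * a)
  have h8 := mul_le_mul_of_nonneg_left (add_le_add hsum2 hsum3) (by positivity : 0 ≤ a ^ 2)
  have h10 : (m : ℝ) * Eb ≤ D * (e * n) * Eb := by gcongr
  have h9 : 0 ≤ ((e : ℝ) * n) *
      (D * Eb + 2 * a * P.card * (D * (n * s + (1 + Q) * hh α) - Real.log R)
      + a ^ 2 * (P.card * (100 * D * Eb + 100 * D * (n * s + hh α) + 2 * Q * hh α + n * s)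
        + (P.card : ℝ) ^ 2 * (n * s + 2 * Q * hh α))) := by
    calc (0 : ℝ) ≤ _ := hmain
      _ ≤ D * (e * n) * Eb + 2 * a * ((P.card : ℝ) *
            ((e * n) * (D * (n * s + (1 + Q) * hh α) - Real.log R)))
          + a ^ 2 * ((P.card : ℝ) * ((e * n) *
              (100 * D * Eb + 100 * D * (n * s + hh α) + 2 * Q * hh α + n * s))
            + (P.card : ℝ) ^ 2 * ((e * n) * (n * s + 2 * Q * hh α))) :=
          add_le_add (add_le_add (hE1.trans h10) h7) h8
      _ = _ := by ring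
  exact nonneg_of_mul_nonneg_right h9 hen

/-- the conclusion drawn from the inequality -/
lemma final_numeric_two (E lam N R LR B a x h D Eb ns : ℝ) (hE : 40000 ≤ E) (hlam1 : 1 ≤ lam)
    (hlamE : lam ≤ E) (hN1 : 4 * E ^ 2 / lam ^ 2 ≤ N) (hN2 : N ≤ 5 * E ^ 2 / lam ^ 2)
    (hR1 : 100 ≤ R) (hR2 : R ≤ 4 * E ^ 2 / lam) (hLR : lam ≤ LR) (ha : a = lam / E)
    (hx : x = a * N) (hB : B = 2 * x ^ 2) (hh : 0 ≤ h) (hD : 1 ≤ D) (hDx : D ≤ x)
    (hEb : 100 * D * Eb ≤ E) (hEb0 : 0 ≤ Eb) (hns : 0 ≤ ns) (hDns : D * ns ≤ 1 / B)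
    (hmain : 0 ≤ D * Eb + 2 * a * N * (D * (ns + (1 + 16 * R) * h) - LR)
      + a ^ 2 * (N * (100 * D * Eb + 100 * D * (ns + h) + 2 * (16 * R) * h + ns)
        + N ^ 2 * (ns + 2 * (16 * R) * h))) :
    lam ^ 3 / (5000 * E ^ 3) ≤ h := by
  have hE0 : 0 < E := by linarith
  have hlam0 : 0 < lam := by linarith
  have ha0 : 0 < a := by rw [ha]; positivity
  have ha1 : a ≤ 1 := by
    rw [ha, div_le_one hE0]; exact hlamE
  have hx1 : 4 * E / lam ≤ x := by
    rw [hx, ha]
    calc 4 * E / lam = lam / E * (4 * E ^ 2 / lam ^ 2) := by field_simp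
      _ ≤ lam / E * N := by gcongr
  have hx2 : x ≤ 5 * E / lam := by
    rw [hx, ha]
    calc lam / E * N ≤ lam / E * (5 * E ^ 2 / lam ^ 2) := by gcongr
      _ = 5 * E / lam := by field_simp
  have hx1' : 1 ≤ x := by
    refine le_trans ?_ hx1
    rw [le_div_iff₀ hlam0]
    linarith
  have hx0 : 0 < x := by linarith
  have hxlam : 4 * E ≤ x * lam := by
    rw [div_le_iff₀ hlam0] at hx1
    exact hx1
  have haE : a * E = lam := by rw [ha]; field_simp
  have hB0 : 0 < B := by rw [hB]; positivity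
  have hns' : ns ≤ 1 / B := by
    refine le_trans ?_ hDns
    nlinarith only [hD, hns]
  have hR0 : 0 ≤ R := by linarith
  have hDEb : D * Eb ≤ E := by
    have : 0 ≤ D * Eb := by positivity
    linarith
  have h1 : 0 ≤ E - x * lam + h * (2 * x * D * (1 + 16 * R) + 100 * a * x * D
      + 32 * a * x * R + 32 * x ^ 2 * R) + (2 * x + 101 * a * x + x ^ 2) / B := by
    have hN0 : 0 ≤ N := by
      refine le_trans ?_ hN1
      positivity
    have e1 : D * Eb + 2 * a * N * (D * (ns + (1 + 16 * R) * h) - LR) =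
        D * Eb + 2 * x * (D * ns + D * (1 + 16 * R) * h - LR) := by
      rw [hx]; ring
    have e2 : a ^ 2 * (N * (100 * D * Eb + 100 * D * (ns + h) + 2 * (16 * R) * h + ns)
        + N ^ 2 * (ns + 2 * (16 * R) * h)) =
        a * x * (100 * D * Eb + 100 * (D * ns) + 100 * D * h + 32 * R * h + ns)
        + x ^ 2 * (ns + 32 * R * h) := by
      rw [hx]; ring
    rw [e1, e2] at hmain
    calc (0 : ℝ) ≤ _ := hmain
      _ ≤ E + 2 * x * (1 / B + D * (1 + 16 * R) * h - lam) +
          (a * x * (E + 100 * (1 / B) + 100 * D * h + 32 * R * h + 1 / B)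
        + x ^ 2 * (1 / B + 32 * R * h)) := by
          gcongr
      _ = E + (a * E) * x - 2 * x * lam + h * (2 * x * D * (1 + 16 * R) + 100 * a * x * D
          + 32 * a * x * R + 32 * x ^ 2 * R) + (2 * x + 101 * a * x + x ^ 2) / B := by ring
      _ = _ := by rw [haE]; ring
  have hxx : x ≤ x ^ 2 := by nlinarith only [hD, hDx]
  have hax : a * x ≤ 1 * x := by gcongr
  have h2 : (2 * x + 101 * a * x + x ^ 2) / B ≤ E := by
    have h3 : (2 * x + 101 * a * x + x ^ 2) / B ≤ 52 := by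
      rw [div_le_iff₀ hB0, hB]
      linarith
    linarith only [h3, hE]
  have h3 : 2 * x * D * (1 + 16 * R) + 100 * a * x * D + 32 * a * x * R + 32 * x ^ 2 * R ≤
      99 * x ^ 2 * R := by
    have e1 : 2 * x * D * (1 + 16 * R) ≤ 2 * x * x * (R + 16 * R) := by
      gcongr
      linarith
    have e2 : 100 * a * x * D ≤ R * 1 * x * x := by
      gcongr
    have e3 : 32 * a * x * R ≤ 32 * 1 * x ^ 2 * R := by
      have : a * x ≤ 1 * x ^ 2 := by linarith
      have := mul_le_mul_of_nonneg_right this (show 0 ≤ 32 * R by positivity)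
      linarith
    linarith only [e1, e2, e3]
  have h4 : h * (2 * x * D * (1 + 16 * R) + 100 * a * x * D + 32 * a * x * R + 32 * x ^ 2 * R) ≤
      h * (99 * x ^ 2 * R) := by gcongr
  have h5 : 2 * E ≤ 99 * x ^ 2 * R * h := by linarith only [h1, h2, h4, hxlam]
  have h6 : 99 * x ^ 2 * R * h ≤ 99 * (5 * E / lam) ^ 2 * (4 * E ^ 2 / lam) * h := by
    gcongr
  have h7 : 2 * E ≤ (10000 * E ^ 4 / lam ^ 3) * h := by
    calc 2 * E ≤ _ := h5.trans h6
      _ = (9900 * E ^ 4 / lam ^ 3) * h := by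
        field_simp
        ring
      _ ≤ _ := by
        gcongr
        norm_num
  rw [div_le_iff₀ (by positivity)]
  have h8 : 2 * E * lam ^ 3 ≤ 2 * E * (h * (5000 * E ^ 3)) := by
    have h9 : 2 * E * lam ^ 3 ≤ (10000 * E ^ 4 / lam ^ 3) * h * lam ^ 3 := by gcongr
    have h10 : (10000 * E ^ 4 / lam ^ 3) * h * lam ^ 3 = 2 * E * (h * (5000 * E ^ 3)) := by
      field_simp
      ring
    rw [h10] at h9
    exact h9
  exact le_of_mul_le_mul_left h8 (by positivity)

/-- elementary facts on `E = D (A + b log (D (A + b)))` -/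
lemma E_facts_two (A b D E : ℝ) (hA : 1 ≤ A) (hb : 1 ≤ b) (hD : 1 ≤ D)
    (hE : E = D * (A + b * Real.log (D * (A + b)))) :
    1 ≤ E ∧ D ≤ E ∧ 100 * D * (A + 9 * b * Real.log (100000 * E)) ≤ 100000 * E ∧
      D * Real.log (100000 * E) ≤ 4 * (100000 * E) := by
  obtain ⟨t, ht⟩ : ∃ t, t = Real.log (D * (A + b)) := ⟨_, rfl⟩
  have hDAb : 2 ≤ D * (A + b) := by nlinarith
  have h2 : Real.log 2 ≤ t := by
    rw [ht]; exact Real.log_le_log (by norm_num) hDAb
  have hl2 := Real.log_two_gt_d9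
  have ht0 : 0.69 ≤ t := by linarith
  rw [← ht] at hE
  have hD0 : 0 < D := by linarith
  have hb0 : 0 < b := by linarith
  have hDA : D ≤ D * A := by nlinarith only [hA, hD]
  have hDbt : D * t ≤ D * b * t := by
    have : D * 1 * t ≤ D * b * t := by gcongr
    linarith
  have hEeq : E = D * A + D * b * t := by rw [hE]; ring
  have hDbt0 : 0 ≤ D * b * t := by positivity
  have hDE : D ≤ E := by linarith
  have hE1 : 1 ≤ E := by linarith
  have htab : t ≤ D * (A + b) := by
    have := Real.log_le_sub_one_of_pos (x := D * (A + b)) (by linarith)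
    linarith
  have hE2 : E ≤ (D * (A + b)) ^ 2 := by
    rw [hE]
    have h3 : A + b * t ≤ A + b * (D * (A + b)) := by gcongr
    have h4 : A + b * (D * (A + b)) ≤ D * (A + b) * (A + b) := by
      have h5 : A ≤ A * (D * (A + b)) := by
        have : A * 1 ≤ A * (D * (A + b)) := by
          gcongr
          linarith
        linarith
      linarith
    calc D * (A + b * t) ≤ D * (D * (A + b) * (A + b)) := by
          gcongr
          linarith
      _ = _ := by ring
  have h3 : Real.log (100000 * E) ≤ 20 * t := by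
    rw [Real.log_mul (by norm_num) (by linarith)]
    have h4 : Real.log E ≤ 2 * t := by
      have := Real.log_le_log (by linarith) hE2
      rw [Real.log_pow, ← ht] at this
      push_cast at this
      exact this
    have h5 : Real.log 100000 ≤ 11.8 := by
      have h6 : Real.log 100000 ≤ Real.log ((2 : ℝ) ^ 17) :=
        Real.log_le_log (by norm_num) (by norm_num)
      rw [Real.log_pow] at h6
      push_cast at h6
      have := Real.log_two_lt_d9
      linarith only [h6, hl2, this]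
    linarith
  refine ⟨hE1, hDE, ?_, ?_⟩
  · have h4 : 100 * D * (A + 9 * b * Real.log (100000 * E)) ≤
        100 * D * (A + 9 * b * (20 * t)) := by gcongr
    refine h4.trans ?_
    rw [hEeq]
    have h5 : 0 ≤ D * A := by positivity
    linarith
  · have h4 : D * Real.log (100000 * E) ≤ D * (20 * t) := by gcongr
    linarith

theorem core_two (A b D E0 : ℝ) (hA : 1 ≤ A) (hb : 1 ≤ b) (hD : 1 ≤ D)
    (hE0 : E0 = D * (A + b * Real.log (D * (A + b))))
    (g : ℤ[X]) (hg : g.Monic) (hirr : Irreducible g)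
    (hM : 1 < (g.map (Int.castRingHom ℂ)).mahlerMeasure) (h0 : g.coeff 0 ≠ 0) {n : ℕ}
    (α : Fin n → ℂ) (hα : IsRoots g α) {m : ℕ}
    (x : Fin m → ℂ) (hx : ∀ i, ‖x i‖ ≤ 1) (S : Multiset ℕ) (hS : ∀ j ∈ S, 0 < j) (e : ℕ)
    (he : 0 < e) (hmD : (m : ℝ) ≤ D * (e * n))
    (hdec : ∀ H : ℂ → ℝ, ∑ k, H (x k) = cyc S H + e * ∑ i, H (refl (α i)))
    (hEB : ∀ B : ℝ, 1 ≤ B → EE x (1 / (m * B)) 1 1 ≤ m * (A + b * Real.log B)) :
    1 / 10 ^ 20 * (Real.log E0 / E0) ^ 3 ≤ hh α := by
  have hn := hα.pos hirr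
  have hnR : (0 : ℝ) < n := by exact_mod_cast hn
  have heR : (0 : ℝ) < e := by exact_mod_cast he
  have he1 : (1 : ℝ) ≤ e := by exact_mod_cast he
  have hD0 : 0 < D := by linarith
  have hcard := decomp_card α x S e hdec
  have hcyc0 : (0 : ℝ) ≤ cycdeg S := by positivity
  have hnm : (n : ℝ) ≤ m := by nlinarith only [hcard, he1]
  have hmR : (0 : ℝ) < m := by linarith
  have hh0 : 0 ≤ hh α := hh_nonneg α
  obtain ⟨hE01, hDE0, hE02, hE03⟩ := E_facts_two A b D E0 hA hb hD hE0
  obtain ⟨E, hE⟩ : ∃ E, E = 100000 * E0 := ⟨_, rfl⟩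
  rw [← hE] at hE02 hE03
  have hE4 : 40000 ≤ E := by rw [hE]; linarith
  have hEpos : 0 < E := by linarith
  have hDE : D ≤ E := by rw [hE]; linarith
  have hlam1 : 1 ≤ Real.log E := by
    rw [Real.le_log_iff_exp_le hEpos]
    have := Real.exp_one_lt_d9
    linarith
  have hlam0 : 0 < Real.log E := by linarith
  have hlamE : Real.log E ≤ E := by
    have := Real.log_le_sub_one_of_pos hEpos
    linarith
  obtain ⟨R, P, hR, hP, hN1, hN2, hLR, hR2, hR5⟩ := exists_primes E hE4
  have hRR : (40000 : ℝ) ≤ R := by exact_mod_cast hR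
  -- parameters
  obtain ⟨a, ha⟩ : ∃ a, a = Real.log E / E := ⟨_, rfl⟩
  obtain ⟨y, hy⟩ : ∃ y, y = a * P.card := ⟨_, rfl⟩
  obtain ⟨B, hB⟩ : ∃ B, B = 2 * y ^ 2 := ⟨_, rfl⟩
  obtain ⟨Eb, hEb⟩ : ∃ Eb, Eb = E / (100 * D) := ⟨_, rfl⟩
  have ha0 : 0 ≤ a := by rw [ha]; positivity
  have hy4 : 4 * E / Real.log E ≤ y := by
    rw [hy, ha]
    calc 4 * E / Real.log E = Real.log E / E * (4 * E ^ 2 / Real.log E ^ 2) := by field_simp
      _ ≤ Real.log E / E * P.card := by gcongr
  have hy5 : y ≤ 5 * E / Real.log E := by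
    rw [hy, ha]
    calc Real.log E / E * P.card ≤ Real.log E / E * (5 * E ^ 2 / Real.log E ^ 2) := by gcongr
      _ = 5 * E / Real.log E := by field_simp
  have hDy : D ≤ y := by
    refine le_trans ?_ hy4
    rw [le_div_iff₀ hlam0]
    linarith only [hE03]
  have hy1 : 1 ≤ y := hD.trans hDy
  have hB1 : 1 ≤ B := by rw [hB]; nlinarith only [hD, hDy]
  have hB0 : 0 < B := by linarith
  have hyE : y ≤ 5 * E := by
    refine hy5.trans ?_
    exact div_le_self (by linarith) hlam1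
  have hBE : B ≤ 50 * E ^ 2 := by
    rw [hB]
    calc 2 * y ^ 2 ≤ 2 * (5 * E) ^ 2 := by gcongr
      _ = 50 * E ^ 2 := by ring
  have hEb0 : 0 ≤ Eb := by rw [hEb]; positivity
  have hDEb : 100 * D * Eb = E := by
    rw [hEb]; field_simp
  -- the energy bound
  have hen : ∀ B' : ℝ, 1 ≤ B' → B' ≤ 50 * E ^ 8 →
      EE x (1 / (m * B')) 1 1 ≤ m * Eb := by
    intro B' hB'1 hB'2
    refine (hEB B' hB'1).trans ?_
    have h2 : Real.log B' ≤ 9 * Real.log E := by
      have h3 : B' ≤ E ^ 9 := by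
        calc B' ≤ 50 * E ^ 8 := hB'2
          _ ≤ E * E ^ 8 := by gcongr; linarith only [hE, hE01]
          _ = E ^ 9 := by ring
      have h4 := Real.log_le_log (by linarith) h3
      rw [Real.log_pow] at h4
      push_cast at h4
      exact h4
    have h5 : b * Real.log B' ≤ b * (9 * Real.log E) := by gcongr
    have h6 : A + b * Real.log B' ≤ Eb := by
      have h7 : A + 9 * b * Real.log E ≤ Eb := by
        rw [hEb, le_div_iff₀ (by positivity)]
        linarith only [hE02]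
      linarith
    gcongr
  have hE5 : 1 ≤ E ^ 5 := one_le_pow₀ (by linarith only [hE, hE01])
  have hDB : D * B ≤ 50 * E ^ 3 := by
    calc D * B ≤ E * (50 * E ^ 2) := by gcongr
      _ = 50 * E ^ 3 := by ring
  have hDB1 : 1 ≤ D * B := by nlinarith only [hB, hB1, hD]
  have hcore := core_ineq_two g hg hirr hM h0 hn α hα x hx S hS e he D hD hmD hdec P R (16 * R)
    (by linarith) hP (1 / (m * (D * B))) Eb a (by positivity) ha0 hEb0
    (hen (D * B) hDB1 (by
      calc D * B ≤ 50 * E ^ 3 := hDB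
        _ = 50 * (E ^ 3 * 1) := by ring
        _ ≤ 50 * (E ^ 3 * E ^ 5) := by gcongr
        _ = 50 * E ^ 8 := by ring))
    (by
      intro q hq
      obtain ⟨hq1, hq2, hq3⟩ := hP q hq
      have hq0 : (1 : ℝ) ≤ q := by linarith
      have h1 : 1 / (m * (D * B)) / q = 1 / (m * (D * B * q)) := by
        field_simp
      rw [h1]
      apply hen
      · nlinarith only [hDB1, hRR, hq2]
      · calc D * B * q ≤ (50 * E ^ 3) * E ^ 5 := by
              gcongr
              linarith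
          _ = 50 * E ^ 8 := by ring)
  have hns0 : 0 ≤ (n : ℝ) * (1 / (m * (D * B))) := by positivity
  have hDns : D * ((n : ℝ) * (1 / (m * (D * B)))) ≤ 1 / B := by
    have h1 : D * ((n : ℝ) * (1 / (m * (D * B)))) = (n / m) * (1 / B) := by
      field_simp
    rw [h1]
    have h2 : (n : ℝ) / m ≤ 1 := by
      rw [div_le_one hmR]; exact hnm
    calc (n : ℝ) / m * (1 / B) ≤ 1 * (1 / B) := by gcongr
      _ = _ := one_mul _
  have hfin := final_numeric_two E (Real.log E) P.card R (Real.log R) B a y (hh α) D Eb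
    ((n : ℝ) * (1 / (m * (D * B)))) hE4 hlam1 hlamE hN1 hN2 (by linarith only [hRR]) hR2 hLR ha hy hB hh0
    hD hDy hDEb.le hEb0 hns0 hDns hcore
  refine le_trans ?_ hfin
  have h2 : Real.log E0 ≤ Real.log E := by
    apply Real.log_le_log (by linarith only [hE01])
    rw [hE]
    linarith only [hE01]
  have h3 : 0 ≤ Real.log E0 := Real.log_nonneg hE01
  have hE00 : 0 < E0 := by linarith
  calc 1 / 10 ^ 20 * (Real.log E0 / E0) ^ 3
      = 1 / 10 ^ 20 * (Real.log E0 ^ 3 / E0 ^ 3) := by rw [div_pow]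
    _ ≤ 1 / (5000 * 100000 ^ 3) * (Real.log E0 ^ 3 / E0 ^ 3) := by
        gcongr
        norm_num
    _ = Real.log E0 ^ 3 / (5000 * (100000 * E0) ^ 3) := by
        field_simp
    _ ≤ Real.log E ^ 3 / (5000 * (100000 * E0) ^ 3) := by
        gcongr
    _ = _ := by rw [hE]

end Pool.Agent.Lib.MP_7ab245_nt.Len
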