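import Mathlib
import Pool.Agent.Lib.MP_7ab245_nt.Len.CoreE
import Pool.Agent.Lib.MP_7ab245_nt.Len.Pot5

/-! The length theorem. -/

set_option autoImplicit false

open Polynomial Finset

namespace Pool.Agent.Lib.MP_7ab245_nt.Len

/-- the quantity `Y` -/
noncomputable def YY (f : ℤ[X]) : ℝ :=
  (1 + Real.log (len f)) * Real.log (f.support.card + Real.log (len f) + 2)

lemma len_ge_one (f : ℤ[X]) (hM : 1 < mm f) : 1 ≤ len f := hM.le.trans (mm_le_len f)

lemma YY_facts (f : ℤ[X]) (hM : 1 < mm f) (L T : ℝ) (hL : L = Real.log (len f))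
    (hT : T = f.support.card + L + 2) : 0 ≤ L ∧ 3 ≤ T ∧ 1 + L ≤ T ∧ 1 ≤ Real.log T ∧
      Real.log T + 1 ≤ T ∧ 1 ≤ YY f ∧ YY f = (1 + L) * Real.log T := by
  have h1 := len_ge_one f hM
  have hL0 : 0 ≤ L := by rw [hL]; exact Real.log_nonneg h1
  have hne : f ≠ 0 := by
    rintro rfl
    unfold mm at hM
    simp at hM
    linarith
  have hk : 1 ≤ f.support.card := Finset.card_pos.mpr (support_nonempty.mpr hne)
  have hkR : (1 : ℝ) ≤ f.support.card := by exact_mod_cast hk
  have hT3 : 3 ≤ T := by rw [hT]; linarith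
  have hlogT : 1 ≤ Real.log T := by
    rw [Real.le_log_iff_exp_le (by linarith)]
    have := Real.exp_one_lt_d9
    linarith
  have hYY : YY f = (1 + L) * Real.log T := by
    unfold YY; rw [hT, hL]
  refine ⟨hL0, hT3, by rw [hT]; linarith, hlogT, ?_, ?_, hYY⟩
  · have := Real.log_le_sub_one_of_pos (x := T) (by linarith)
    linarith
  · rw [hYY]
    nlinarith

lemma compare_cube (Y E K : ℝ) (hY : 1 ≤ Y) (hYE : Y ≤ E) (hEK : E ≤ K * Y) (hK : 0 < K) :
    1 / K ^ 3 * (Real.log Y / Y) ^ 3 ≤ (Real.log E / E) ^ 3 := by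
  have h0 : 0 ≤ Real.log Y := Real.log_nonneg hY
  have h1 : Real.log Y ≤ Real.log E := Real.log_le_log (by linarith) hYE
  have h2 : Real.log Y / (K * Y) ≤ Real.log E / E := by
    have : 0 < E := by linarith
    have h3 : 0 ≤ Real.log E := h0.trans h1
    gcongr
  calc 1 / K ^ 3 * (Real.log Y / Y) ^ 3 = (Real.log Y / (K * Y)) ^ 3 := by
        field_simp
    _ ≤ _ := by
        have : 0 ≤ Real.log Y / (K * Y) := by positivity
        gcongr

lemma cube_le_one (Y : ℝ) (hY : 1 ≤ Y) : (Real.log Y / Y) ^ 3 ≤ 1 := by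
  have h2 : Real.log Y / Y ≤ 1 := by
    rw [div_le_one (by linarith)]
    have := Real.log_le_sub_one_of_pos (x := Y) (by linarith)
    linarith
  exact pow_le_one₀ (div_nonneg (Real.log_nonneg hY) (by linarith)) h2

/-- small Mahler measure forces a leading coefficient `±1` -/
lemma monic_or (f : ℤ[X]) (hf : f ≠ 0) (hM2 : mm f < 2) : f.Monic ∨ (-f).Monic := by
  have hlc : |f.leadingCoeff| = 1 := by
    have h2 := leadingCoeff_le_mahlerMeasure (f.map (Int.castRingHom ℂ))
    rw [leadingCoeff_map_of_injective (Int.castRingHom ℂ).injective_int] at h2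
    have h3 : ‖(Int.castRingHom ℂ) f.leadingCoeff‖ = ((|f.leadingCoeff| : ℤ) : ℝ) := by
      simp
    rw [h3] at h2
    change _ ≤ mm f at h2
    have h4 : ((|f.leadingCoeff| : ℤ) : ℝ) < ((2 : ℤ) : ℝ) := by
      push_cast
      push_cast at h2
      linarith
    have h5 : |f.leadingCoeff| < 2 := by exact_mod_cast h4
    have h6 := abs_pos.mpr (leadingCoeff_ne_zero.mpr hf)
    omega
  rcases (abs_eq (by norm_num : (0:ℤ) ≤ 1)).mp hlc with h1 | h1
  · exact Or.inl h1
  · right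
    rw [Monic, leadingCoeff_neg, h1]; norm_num

lemma hh_le_one (f : ℤ[X]) {n : ℕ} (α : Fin n → ℂ) (hα : IsRoots f α) (hM : 1 < mm f)
    (hM2 : mm f < 2) : hh α ≤ 1 := by
  rw [hh_eq_log_mahler f α hα]
  change Real.log (mm f) ≤ 1
  have h1 : Real.log (mm f) ≤ Real.log 2 := Real.log_le_log (by linarith) hM2.le
  have := Real.log_two_lt_d9
  linarith

/-- the monic case -/
lemma length_monic (K : ℝ) (hK : 1 ≤ K) (hEB : ∀ (f : ℤ[X]) (n : ℕ) (α : Fin n → ℂ), IsRoots f α →
    0 < n → f.coeff 0 ≠ 0 → hh α ≤ 1 → ∀ B : ℝ, 1 ≤ B →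
    EE (fun i => refl (α i)) (1 / (n * B)) 1 1 ≤
      K * n * (1 + Real.log (len f)) *
        Real.log (B * (f.support.card + Real.log (len f) + 2)))
    (f : ℤ[X]) (hf : f.Monic) (hirr : Irreducible f) (hM : 1 < mm f) (hM2 : mm f < 2) :
    1 / (6400 * 40000 ^ 3) * (1 / (K * (3 + Real.log K)) ^ 3) * (Real.log (YY f) / YY f) ^ 3 ≤
      Real.log (mm f) := by
  obtain ⟨L, hL⟩ : ∃ x, x = Real.log (len f) := ⟨_, rfl⟩
  obtain ⟨T, hT⟩ : ∃ x, x = f.support.card + L + 2 := ⟨_, rfl⟩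
  obtain ⟨hL0, hT3, hLT, hlogT1, hlogTT, hY1, hYY⟩ := YY_facts f hM L T hL hT
  obtain ⟨α, hα⟩ := exists_isRoots f hf
  have hn := hα.pos hirr
  have hK0 : 0 ≤ Real.log K := Real.log_nonneg hK
  obtain ⟨A, hA⟩ : ∃ A, A = K * YY f := ⟨_, rfl⟩
  obtain ⟨b, hb⟩ : ∃ b, b = K * (1 + L) := ⟨_, rfl⟩
  have hA1 : 1 ≤ A := by rw [hA]; nlinarith
  have hb1 : 1 ≤ b := by rw [hb]; nlinarith
  obtain ⟨E, hE⟩ : ∃ E, E = A + b * Real.log (A + b) := ⟨_, rfl⟩
  have h1 := core_energy A b E hA1 hb1 hE f hirr hM hM2 f.natDegree α hα (by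
    intro B hB
    refine (hEB f f.natDegree α hα hn (coeff_zero_ne_zero f hirr hM)
      (hh_le_one f α hα hM hM2) B hB).trans (le_of_eq ?_)
    rw [← hL, ← hT, Real.log_mul (by linarith) (by linarith), hA, hb, hYY]
    ring)
  have hAE : YY f ≤ E := by
    have h2 : 0 ≤ Real.log (A + b) := Real.log_nonneg (by linarith)
    have h3 : 0 ≤ b * Real.log (A + b) := by positivity
    have h4 : YY f ≤ A := by rw [hA]; nlinarith
    linarith
  have hEY : E ≤ K * (3 + Real.log K) * YY f := by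
    have h2 : A + b ≤ K * T ^ 2 := by
      calc A + b = K * ((1 + L) * (Real.log T + 1)) := by rw [hA, hb, hYY]; ring
        _ ≤ K * (T * T) := by gcongr
        _ = K * T ^ 2 := by ring
    have h3 : Real.log (A + b) ≤ (Real.log K + 2) * Real.log T := by
      have h4 := Real.log_le_log (by linarith) h2
      rw [Real.log_mul (by linarith) (by positivity), Real.log_pow] at h4
      push_cast at h4
      nlinarith
    have h5 : b * Real.log (A + b) ≤ b * ((Real.log K + 2) * Real.log T) := by gcongr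
    calc E ≤ A + b * ((Real.log K + 2) * Real.log T) := by rw [hE]; linarith
      _ = _ := by rw [hA, hb, hYY]; ring
  have h2 := compare_cube (YY f) E (K * (3 + Real.log K)) hY1 hAE hEY (by positivity)
  refine le_trans ?_ h1
  rw [mul_assoc]
  gcongr

theorem length_main : ∃ c : ℝ, 0 < c ∧ ∀ f : ℤ[X], Irreducible f →
    1 < (f.map (Int.castRingHom ℂ)).mahlerMeasure → ∀ Y : ℝ,
    Y = (1 + Real.log (∑ m ∈ f.support, |(f.coeff m : ℝ)|)) *
      Real.log (f.support.card + Real.log (∑ m ∈ f.support, |(f.coeff m : ℝ)|) + 2) →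
    c * (Real.log Y / Y) ^ 3 ≤ Real.log (f.map (Int.castRingHom ℂ)).mahlerMeasure := by
  obtain ⟨K0, hK0, hEB⟩ := energy_bound
  obtain ⟨K, hK⟩ : ∃ K, K = max K0 1 := ⟨_, rfl⟩
  have hK1 : 1 ≤ K := by rw [hK]; exact le_max_right _ _
  have hlogK : 0 ≤ Real.log K := Real.log_nonneg hK1
  have hEB' : ∀ (f : ℤ[X]) (n : ℕ) (α : Fin n → ℂ), IsRoots f α →
    0 < n → f.coeff 0 ≠ 0 → hh α ≤ 1 → ∀ B : ℝ, 1 ≤ B →
    EE (fun i => refl (α i)) (1 / (n * B)) 1 1 ≤
      K * n * (1 + Real.log (len f)) *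
        Real.log (B * (f.support.card + Real.log (len f) + 2)) := by
    intro f n α hα hn h0 hh1 B hB
    refine (hEB f n α hα hn h0 hh1 B hB).trans ?_
    change K0 * n * (1 + Real.log (len f)) *
        Real.log (B * (f.support.card + Real.log (len f) + 2)) ≤ _
    have hne : f ≠ 0 := by rintro rfl; simp at h0
    have hlen : 1 ≤ len f := by
      unfold len
      have h1 : ∀ m ∈ f.support, (0 : ℝ) ≤ |(f.coeff m : ℝ)| := fun _ _ => abs_nonneg _
      refine le_trans ?_ (Finset.single_le_sum h1 (mem_support_iff.mpr h0))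
      exact_mod_cast Int.one_le_abs h0
    have hL0 : 0 ≤ Real.log (len f) := Real.log_nonneg hlen
    have hk0 : (0 : ℝ) ≤ f.support.card := by positivity
    have h2 : 0 ≤ Real.log (B * (f.support.card + Real.log (len f) + 2)) := by
      apply Real.log_nonneg
      nlinarith
    have h3 : K0 ≤ K := by rw [hK]; exact le_max_left _ _
    gcongr
  refine ⟨1 / (6400 * 40000 ^ 3) * (1 / (K * (3 + Real.log K)) ^ 3), by positivity, ?_⟩
  intro f hirr hM Y hY
  have hYf : Y = YY f := hY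
  rw [hYf]
  change 1 < mm f at hM
  change _ ≤ Real.log (mm f)
  have hfne : f ≠ 0 := hirr.ne_zero
  by_cases hM2 : mm f < 2
  · rcases monic_or f hfne hM2 with h1 | h2
    · exact length_monic K hK1 hEB' f h1 hirr hM hM2
    · have h3 : Irreducible (-f) := by
        have := (Associated.refl f).neg_left
        exact this.irreducible_iff.mpr hirr
      have hYn : YY (-f) = YY f := by
        unfold YY
        rw [len_neg, support_neg]
      have h4 := length_monic K hK1 hEB' (-f) h2 h3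
        (by rw [mm_neg]; exact hM) (by rw [mm_neg]; exact hM2)
      rwa [mm_neg, hYn] at h4
  · push Not at hM2
    obtain ⟨hL0, hT3, hLT, hlogT1, hlogTT, hY1, hYY⟩ := YY_facts f hM _ _ rfl rfl
    have hlog2 := Real.log_two_gt_d9
    have h1 : Real.log 2 ≤ Real.log (mm f) := Real.log_le_log (by norm_num) hM2
    have h4 := cube_le_one (YY f) hY1
    have h5 : 1 / (K * (3 + Real.log K)) ^ 3 ≤ (1 : ℝ) := by
      rw [div_le_one (by positivity)]
      apply one_le_pow₀
      nlinarith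
    have h8 : 0 ≤ (Real.log (YY f) / YY f) ^ 3 := by
      have := Real.log_nonneg hY1
      positivity
    have h6 : 1 / (6400 * 40000 ^ 3) * (1 / (K * (3 + Real.log K)) ^ 3) *
        (Real.log (YY f) / YY f) ^ 3 ≤ 1 / (6400 * 40000 ^ 3) * 1 * 1 := by
      gcongr
    have h7 : (1 : ℝ) / (6400 * 40000 ^ 3) * 1 * 1 ≤ 1 / 2 := by norm_num
    linarith

end Pool.Agent.Lib.MP_7ab245_nt.Len
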