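import Pool.Agent.Lib.MP_7ab245_nt.Len.Pot5

/-!
`energy_bound_all`: the energy of the reflected roots at scale `1/(nB)`, without a hypothesis on
the Mahler measure.
-/

set_option autoImplicit false
set_option maxHeartbeats 1000000

open Polynomial Finset MeasureTheory

namespace Pool.Agent.Lib.MP_7ab245_nt.Len

namespace P6

/-- the Mahler measure is at most the length -/
theorem hh_le_log (f : ℤ[X]) {n : ℕ} (α : Fin n → ℂ) (hα : IsRoots f α) :
    hh α ≤ Real.log (∑ m ∈ f.support, |(f.coeff m : ℝ)|) := by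
  rw [hh_eq_log_mahler f α hα]
  have hne : f.map (Int.castRingHom ℂ) ≠ 0 := (hα.monic.map _).ne_zero
  refine Real.log_le_log (mahlerMeasure_pos_of_ne_zero hne) ?_
  refine (mahlerMeasure_le_sum_norm_coeff _).trans (le_of_eq ?_)
  have hinj : Function.Injective (Int.castRingHom ℂ) := by
    intro a b hab
    simpa using hab
  rw [Polynomial.sum, support_map_of_injective _ hinj]
  refine Finset.sum_congr rfl fun m _ => ?_
  rw [coeff_map]
  simp

/-- `Phi_tail` without a bound for the Mahler measure -/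
theorem Phi_tail_gen (f : ℤ[X]) {n : ℕ} (α : Fin n → ℂ) (hα : IsRoots f α) (hn : 0 < n)
    (h0 : f.coeff 0 ≠ 0) (Λ : ℝ) (s : ℝ) (hs : 0 < s)
    (hns : 2 * (Λ + hh α) ≤ n * s) :
    Phi (fun i => refl (α i)) Λ s ≤ 28 * (f.support.card : ℝ) ^ 3 / (n * s) := by
  classical
  have hpi : (0 : ℝ) < 2 * Real.pi := by positivity
  set κ : ℕ := f.support.card with hκ
  have hmem : 0 ∈ f.support := mem_support_iff.mpr h0
  have hκ1 : 1 ≤ κ := Finset.card_pos.mpr ⟨0, hmem⟩
  have hκ0 : (0 : ℝ) < κ := by exact_mod_cast hκ1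
  have hns0 : (0 : ℝ) < n * s := by
    have : (0 : ℝ) < n := by exact_mod_cast hn
    positivity
  set U : ℝ → ℝ := fun θ => max (VV (fun i => refl (α i)) Λ (pt s θ) - n * s) 0 with hU
  have hU0 : ∀ θ, 0 ≤ U θ := fun θ => le_max_right _ _
  have hUm : Measurable U := ((measurable_VV _ Λ s).sub measurable_const).max measurable_const
  set c' : f.support → ℂ := fun m => (f.coeff (m : ℕ) : ℂ) *
      (Real.exp (-(s * ((m : ℕ) : ℝ))) : ℂ) with hc'
  set e' : f.support → ℤ := fun m => ((m : ℕ) : ℤ) with he'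
  -- small values
  have hball : ∀ t : ℝ, 0 < t → volume {θ ∈ Set.Ioc 0 (2 * Real.pi) |
      ‖Mono.ls c' e' (circleMap 0 1 θ)‖ ≤ t} ≤
      ENNReal.ofReal (2 * Real.pi * (14 * κ * t ^ (1 / (κ : ℝ)))) := by
    intro t ht
    have h1 := Mono.small_ball κ hκ1 (by simp [hκ]) c' e' (by
      intro a b hab
      apply Subtype.ext
      simpa [he'] using hab) ⟨0, hmem⟩ (by
      simp only [hc']
      have : (1 : ℝ) ≤ |(f.coeff 0 : ℝ)| := by exact_mod_cast Int.one_le_abs h0
      simpa using this) t ht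
    have h2 : volume {θ ∈ Set.Ioc 0 (2 * Real.pi) |
      ‖Mono.ls c' e' (circleMap 0 1 θ)‖ ≤ t} ≠ ⊤ := by
      apply ne_top_of_le_ne_top _ (measure_mono (t := Set.Ioc 0 (2 * Real.pi))
        (fun θ hθ => hθ.1))
      rw [Real.volume_Ioc]
      exact ENNReal.ofReal_ne_top
    rw [← ENNReal.ofReal_toReal h2]
    exact ENNReal.ofReal_le_ofReal h1
  -- the level sets
  have hlevel : ∀ u : ℝ, 0 < u → (volume.restrict (Set.Ioc 0 (2 * Real.pi))) {θ | u ≤ U θ} ≤
      ENNReal.ofReal ((28 * Real.pi * κ * Real.exp (-(n * s / (2 * κ)))) *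
        Real.exp (-(1 / (κ : ℝ)) * u)) := by
    intro u hu
    rw [Measure.restrict_apply' measurableSet_Ioc]
    have hsub : {θ | u ≤ U θ} ∩ Set.Ioc 0 (2 * Real.pi) ⊆ {θ ∈ Set.Ioc 0 (2 * Real.pi) |
        ‖Mono.ls c' e' (circleMap 0 1 θ)‖ ≤ Real.exp (-(n * s / 2) - u)} := by
      rintro θ ⟨hθ, hθ2⟩
      refine ⟨hθ2, ?_⟩
      rw [← aeval_pt_eq f s θ]
      by_cases hne : aeval (pt s θ) f = 0
      · rw [hne, norm_zero]
        exact (Real.exp_pos _).le
      · have h1 := VV_pt_le f α hα Λ s θ hs hne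
        have h2 : u ≤ VV (fun i => refl (α i)) Λ (pt s θ) - n * s := by
          rcases le_max_iff.mp (show u ≤ max (VV (fun i => refl (α i)) Λ (pt s θ) - n * s) 0
            from hθ) with h | h
          · exact h
          · linarith
        rw [← Real.log_le_iff_le_exp (norm_pos_iff.mpr hne)]
        linarith
    refine (measure_mono hsub).trans ((hball _ (Real.exp_pos _)).trans (le_of_eq ?_))
    congr 1
    rw [← Real.exp_mul]
    have : (-(n * s / 2) - u) * (1 / (κ : ℝ)) = -(n * s / (2 * κ)) + -(1 / (κ : ℝ)) * u := by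
      field_simp
      ring
    rw [this, Real.exp_add]
    ring
  have hneg : -(1 / (κ : ℝ)) < 0 := by
    have : 0 < 1 / (κ : ℝ) := by positivity
    linarith
  have hint := integrableOn_exp_mul_Ioi hneg 0
  have hval := integral_exp_mul_Ioi hneg 0
  -- layer cake
  have hlay : ∫⁻ θ in Set.Ioc 0 (2 * Real.pi), ENNReal.ofReal (U θ) ≤
      ENNReal.ofReal (28 * Real.pi * κ * Real.exp (-(n * s / (2 * κ))) * κ) := by
    rw [lintegral_eq_lintegral_meas_le _ (Filter.Eventually.of_forall hU0) hUm.aemeasurable]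
    calc ∫⁻ t in Set.Ioi 0, (volume.restrict (Set.Ioc 0 (2 * Real.pi))) {a | t ≤ U a}
        ≤ ∫⁻ t in Set.Ioi 0, ENNReal.ofReal ((28 * Real.pi * κ *
            Real.exp (-(n * s / (2 * κ)))) * Real.exp (-(1 / (κ : ℝ)) * t)) := by
          apply setLIntegral_mono' measurableSet_Ioi
          intro t ht
          exact hlevel t ht
      _ = ENNReal.ofReal (∫ t in Set.Ioi 0, (28 * Real.pi * κ *
            Real.exp (-(n * s / (2 * κ)))) * Real.exp (-(1 / (κ : ℝ)) * t)) := by
          rw [ofReal_integral_eq_lintegral_ofReal]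
          · exact hint.const_mul _
          · apply Filter.Eventually.of_forall
            intro t
            positivity
      _ ≤ _ := by
          apply ENNReal.ofReal_le_ofReal
          rw [integral_const_mul, hval]
          apply le_of_eq
          rw [mul_zero, Real.exp_zero]
          field_simp
  have hfin : ∫ θ in (0 : ℝ)..(2 * Real.pi), U θ ≤
      28 * Real.pi * κ * Real.exp (-(n * s / (2 * κ))) * κ := by
    rw [intervalIntegral.integral_of_le hpi.le, integral_eq_lintegral_of_nonneg_ae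
      (Filter.Eventually.of_forall hU0) hUm.aestronglyMeasurable]
    have h1 := ENNReal.toReal_mono ENNReal.ofReal_ne_top hlay
    rwa [ENNReal.toReal_ofReal (by (clear * - hκ1; positivity))] at h1
  have hexp : Real.exp (-(n * s / (2 * κ))) ≤ 2 * κ / (n * s) := by
    have hx : 0 < n * s / (2 * κ) := by (clear * - hn hs hκ1; positivity)
    rw [Real.exp_neg]
    have h1 := Real.add_one_le_exp (n * s / (2 * (κ : ℝ)))
    have h2 : (n * s / (2 * (κ : ℝ))) ≤ Real.exp (n * s / (2 * κ)) := by linarith only [h1]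
    have h3 := inv_anti₀ hx h2
    refine h3.trans (le_of_eq ?_)
    rw [inv_div]
  unfold Phi
  calc (2 * Real.pi)⁻¹ * ∫ θ in (0 : ℝ)..(2 * Real.pi), U θ
      ≤ (2 * Real.pi)⁻¹ * (28 * Real.pi * κ * Real.exp (-(n * s / (2 * κ))) * κ) :=
        mul_le_mul_of_nonneg_left hfin (by positivity)
    _ ≤ (2 * Real.pi)⁻¹ * (28 * Real.pi * κ * (2 * κ / (n * s)) * κ) := by
        apply mul_le_mul_of_nonneg_left _ (by positivity)
        gcongr
    _ = 28 * (κ : ℝ) ^ 3 / (n * s) := by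
        field_simp

end P6

open P5 in
theorem energy_bound_all : ∃ C : ℝ, 1 ≤ C ∧ ∀ (f : ℤ[X]) (n : ℕ) (α : Fin n → ℂ), IsRoots f α →
    0 < n → f.coeff 0 ≠ 0 → ∀ B : ℝ, 1 ≤ B →
    EE (fun i => refl (α i)) (1 / (n * B)) 1 1 ≤
      C * n * (1 + Real.log (∑ m ∈ f.support, |(f.coeff m : ℝ)|)) *
        Real.log (B * (f.support.card + Real.log (∑ m ∈ f.support, |(f.coeff m : ℝ)|) + 2)) := by
  classical
  refine ⟨10000, by norm_num, ?_⟩
  intro f n α hα hn hf0 B hB
  have hL := one_le_length hf0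
  set L : ℝ := ∑ m ∈ f.support, |(f.coeff m : ℝ)| with hLdef
  set Λ : ℝ := Real.log L with hΛdef
  have hΛ0 : 0 ≤ Λ := Real.log_nonneg hL
  have hh1 : hh α ≤ Λ := P6.hh_le_log f α hα
  have hk1 : (1 : ℝ) ≤ (f.support.card : ℝ) := by
    have : 0 < f.support.card := Finset.card_pos.2 ⟨0, Polynomial.mem_support_iff.2 hf0⟩
    exact_mod_cast this
  set k : ℝ := (f.support.card : ℝ) with hkdef
  set w : Fin n → ℂ := fun i => refl (α i) with hwdef
  have hnR : (0 : ℝ) < n := by exact_mod_cast hn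
  have hα0 : ∀ i, α i ≠ 0 := root_ne_zero hα hf0
  have hw : ∀ i, ‖w i‖ ≤ 1 := fun i => norm_refl_le _
  have hw0 : ∀ i, w i ≠ 0 := fun i => refl_ne_zero (hα0 i)
  have hV : ∀ z : ℂ, ‖z‖ < 1 → 0 ≤ VV w Λ z := fun z hz => VV_nonneg f α hα z hz
  set ℓ : ℝ := Real.log (B * (k + Λ + 2)) with hℓdef
  have hS3 : 3 ≤ B * (k + Λ + 2) := by nlinarith
  have hℓ1 : 1 ≤ ℓ := by
    rw [hℓdef, Real.le_log_iff_exp_le (by linarith)]
    have := Real.exp_one_lt_d9
    linarith
  have hlogBℓ : Real.log B ≤ ℓ := Real.log_le_log (by linarith) (by nlinarith)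
  by_cases hcase : (n : ℝ) ≤ Λ
  · -- the trivial case
    have hs0 : (0 : ℝ) < 1 / (n * B) := by positivity
    have hs1 : 1 / (n * B) ≤ 1 := by
      rw [div_le_one (by positivity)]
      have : (1 : ℝ) ≤ n := by exact_mod_cast hn
      nlinarith only [hB, this]
    have h1 := EE_trivial w hw (1 / (n * B)) hs0 hs1
    have h2 : 2 / (1 / ((n : ℝ) * B)) = 2 * n * B := by field_simp
    rw [h2] at h1
    have h3 : Real.log (2 * n * B) ≤ 2 * ℓ := by
      have h4 : 2 * n * B ≤ (B * (k + Λ + 2)) ^ 2 := by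
        have h5 : 3 * (B * (k + Λ + 2)) ≤ (B * (k + Λ + 2)) ^ 2 := by nlinarith only [hB, hS3, hcase, hk1, hnR, hΛ0]
        have h6 : n * B ≤ B * (k + Λ + 2) := by nlinarith only [hB, hcase, hk1]
        nlinarith only [h5, h6, hS3]
      have h5 := Real.log_le_log (by positivity) h4
      rw [Real.log_pow] at h5
      push_cast at h5
      exact h5
    calc EE w (1 / (n * B)) 1 1 ≤ (n : ℝ) ^ 2 * Real.log (2 * n * B) := h1
      _ ≤ (n : ℝ) ^ 2 * (2 * ℓ) := mul_le_mul_of_nonneg_left h3 (by positivity)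
      _ = n * n * (2 * ℓ) := by ring
      _ ≤ n * Λ * (2 * ℓ) := mul_le_mul_of_nonneg_right
          (mul_le_mul_of_nonneg_left hcase hnR.le) (by linarith)
      _ ≤ 10000 * n * (1 + Λ) * ℓ := by
          have h4 : 0 ≤ n * ℓ := by positivity
          have h5 : 0 ≤ n * ℓ * Λ := by positivity
          nlinarith only [h4, h5]
  · push Not at hcase
    -- the number of scales
    have hex : ∃ j : ℕ, (n : ℝ) ≤ 2 ^ j := by
      obtain ⟨j, hj⟩ := pow_unbounded_of_one_lt (n : ℝ) (one_lt_two (α := ℝ))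
      exact ⟨j, hj.le⟩
    obtain ⟨J0, hJ0, hJmin⟩ : ∃ J0 : ℕ, (n : ℝ) ≤ 2 ^ J0 ∧ ∀ j < J0, (2 : ℝ) ^ j < n :=
      ⟨Nat.find hex, Nat.find_spec hex, fun j hj => not_le.1 (Nat.find_min hex hj)⟩
    set a : ℝ := 3 + 6 * Real.log (4 * B) with ha
    set b : ℝ := 6 * Real.log 2 with hb
    set Φ : ℕ → ℝ := fun j => Phi w Λ ((2 : ℝ) ^ j / n) with hΦ
    have hσpos : ∀ j : ℕ, (0 : ℝ) < (2 : ℝ) ^ j / n := fun j => by positivity
    have hΦ0 : ∀ j, 0 ≤ Φ j := fun j => Phi_nonneg _ _ _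
    have hΦΛ : ∀ j, Φ j ≤ Λ := fun j => Phi_le w hw Λ hV _ (hσpos j)
    have hlogB0 : 0 ≤ Real.log B := Real.log_nonneg hB
    have hl2 : 0 < Real.log 2 := Real.log_pos (by norm_num)
    have hl2' : Real.log 2 ≤ 7 / 10 := by
      have := Real.log_two_lt_d9
      norm_num at this ⊢
      linarith
    have hlog4B : Real.log (4 * B) = 2 * Real.log 2 + Real.log B := by
      rw [Real.log_mul (by norm_num) (by linarith), show (4 : ℝ) = 2 ^ 2 by norm_num, Real.log_pow]
      push_cast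
      ring
    have hb0 : 0 ≤ b := by rw [hb]; positivity
    have hab : b ≤ a := by rw [ha, hb, hlog4B]; linarith
    have hb5 : b ≤ 5 := by rw [hb]; linarith
    have ha18 : a ≤ 18 * ℓ := by rw [ha, hlog4B]; linarith
    have ha0 : 0 ≤ a := by linarith
    -- step 1
    have step1 : EE w (1 / (n * B)) 1 1 ≤ ∑ i, ((2 + 4 * n * (-Real.log ‖w i‖)) * a +
        ∑ j ∈ range J0, if Bad w Λ j i then
          4 * (2 : ℝ) ^ j * (3 + 6 * Real.log (4 * 2 ^ j * B)) else 0) := by
      rw [EE_eq w hw0 Λ]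
      refine Finset.sum_le_sum fun i _ => ?_
      have := pointwise hn w hw hw0 Λ hV hcase B hB J0 hJ0 i
      linarith
    have step2 : ∑ i, (2 + 4 * n * (-Real.log ‖w i‖)) * a ≤ (2 * n + 8 * n * Λ) * a := by
      rw [← Finset.sum_mul]
      refine mul_le_mul_of_nonneg_right ?_ ha0
      rw [Finset.sum_add_distrib, Finset.sum_const, Finset.card_univ, Fintype.card_fin,
        nsmul_eq_mul, ← Finset.mul_sum]
      have h1 := sum_delta_le f α hα hf0
      have h2 : ∑ i, -Real.log ‖w i‖ ≤ 2 * Λ := by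
        have : ∑ i, -Real.log ‖w i‖ = ∑ i, -Real.log ‖refl (α i)‖ := rfl
        linarith
      have h3 : 4 * (n : ℝ) * ∑ i, -Real.log ‖w i‖ ≤ 4 * n * (2 * Λ) :=
        mul_le_mul_of_nonneg_left h2 (by positivity)
      linarith
    -- number of bad points
    set κ : ℝ := 4 * Real.pi / Real.log 2 with hκ
    have hκ0 : 0 < κ := by rw [hκ]; positivity
    have hκ22 : κ ≤ 22 := by
      rw [hκ, div_le_iff₀ hl2]
      have h1 := Real.pi_lt_d2
      have h2 := log_two_gt
      norm_num at h1 h2 ⊢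
      linarith
    have hcount : ∀ j < J0, ((univ.filter fun i => Bad w Λ j i).card : ℝ) * (2 : ℝ) ^ j ≤
        n * κ * (Φ j - Φ (j + 1)) := by
      intro j hj
      have hj1 := hJmin j hj
      have h1 : (2 : ℝ) ^ j / n ≤ Real.pi := by
        have h2 : (2 : ℝ) ^ j / n < 1 := by rw [div_lt_one hnR]; exact hj1
        linarith [Real.pi_gt_three]
      have h2 := count_bad w hw hw0 Λ hV _ (hσpos j) h1
      have h3 : 2 * ((2 : ℝ) ^ j / n) = (2 : ℝ) ^ (j + 1) / n := by rw [pow_succ]; ring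
      have h4 : (univ.filter fun i => Bad w Λ j i) = (univ.filter fun i =>
          Real.exp (-((2 : ℝ) ^ j / n)) ≤ ‖w i‖ ∧
          6 * n * ((2 : ℝ) ^ j / n) < VV w Λ (pt (2 * ((2 : ℝ) ^ j / n)) (w i).arg)) := by
        ext i
        rw [Finset.mem_filter, Finset.mem_filter]
        exact Iff.rfl
      rw [h4]
      rw [h3] at h2 ⊢
      have h5 : Φ j - Φ (j + 1) = Phi w Λ ((2 : ℝ) ^ j / n) - Phi w Λ ((2 : ℝ) ^ (j + 1) / n) := rfl
      rw [h5]
      have h6 := mul_le_mul_of_nonneg_left h2 (show 0 ≤ n * κ by positivity)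
      refine le_trans (le_of_eq ?_) h6
      rw [hκ]
      field_simp
    have step3 : ∑ i, ∑ j ∈ range J0, (if Bad w Λ j i then
          4 * (2 : ℝ) ^ j * (3 + 6 * Real.log (4 * 2 ^ j * B)) else 0) ≤
        4 * n * κ * (a * Φ 0 + b * ∑ j ∈ range J0, Φ j) := by
      rw [Finset.sum_comm]
      calc ∑ j ∈ range J0, ∑ i, (if Bad w Λ j i then
          4 * (2 : ℝ) ^ j * (3 + 6 * Real.log (4 * 2 ^ j * B)) else 0)
          ≤ ∑ j ∈ range J0, 4 * n * κ * ((Φ j - Φ (j + 1)) * (a + b * j)) := by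
            refine Finset.sum_le_sum fun j hj => ?_
            rw [← Finset.sum_filter, Finset.sum_const, nsmul_eq_mul]
            have h1 := hcount j (Finset.mem_range.1 hj)
            have h2 : 3 + 6 * Real.log (4 * 2 ^ j * B) = a + b * j := by
              rw [ha, hb, show 4 * (2 : ℝ) ^ j * B = (4 * B) * 2 ^ j by ring,
                Real.log_mul (by positivity) (by positivity), Real.log_pow]
              ring
            rw [h2]
            have h3 : 0 ≤ a + b * (j : ℝ) := by positivity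
            have h4 := mul_le_mul_of_nonneg_right h1 h3
            calc ((univ.filter fun i => Bad w Λ j i).card : ℝ) *
                  (4 * (2 : ℝ) ^ j * (a + b * j)) =
                4 * (((univ.filter fun i => Bad w Λ j i).card : ℝ) * (2 : ℝ) ^ j *
                  (a + b * j)) := by ring
              _ ≤ 4 * (n * κ * (Φ j - Φ (j + 1)) * (a + b * j)) :=
                  mul_le_mul_of_nonneg_left h4 (by norm_num)
              _ = _ := by ring
        _ = 4 * n * κ * ∑ j ∈ range J0, (Φ j - Φ (j + 1)) * (a + b * j) := by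
            rw [Finset.mul_sum]
        _ ≤ _ := mul_le_mul_of_nonneg_left (abel_le Φ hΦ0 a b hb0 hab J0) (by positivity)
    -- the tail
    obtain ⟨J, hJ1, hJ2'⟩ := exists_J k (2 * Λ) B hk1 (by positivity) hB
    have hJ2 : (J : ℝ) ≤ 12 + 6 * ℓ := by
      have h1 : Real.log (B * (k + 2 * Λ + 2)) ≤ Real.log 2 + ℓ := by
        rw [hℓdef, ← Real.log_mul (by norm_num) (by (clear * - hB hk1 hΛ0; positivity))]
        exact Real.log_le_log (by (clear * - hB hk1 hΛ0; positivity)) (by nlinarith only [hB, hk1, hl2, hl2'])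
      linarith
    have hsum : ∑ j ∈ range J0, Φ j ≤ J * Λ + 1 := by
      refine sum_Phi Φ Λ (28 * k ^ 3) hΛ0 J J0 hΦΛ (fun j hj => ?_) (by linarith)
      have h1 : (2 : ℝ) ^ J ≤ 2 ^ j := pow_le_pow_right₀ (by norm_num) hj
      have h2 : (n : ℝ) * ((2 : ℝ) ^ j / n) = 2 ^ j := by field_simp
      have h3 := P6.Phi_tail_gen f α hα hn hf0 Λ ((2 : ℝ) ^ j / n) (hσpos j) (by
        rw [h2]
        have : 0 ≤ 56 * k ^ 3 := by (clear * - hk1; positivity)
        linarith)
      rw [h2] at h3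
      exact h3
    have hJ13 : (J : ℝ) ≤ 18 * ℓ := by linarith
    have step4 : a * Φ 0 + b * ∑ j ∈ range J0, Φ j ≤ 18 * ℓ * Λ + 5 * (18 * ℓ * Λ + 1) := by
      have h1 : a * Φ 0 ≤ 18 * ℓ * Λ := mul_le_mul ha18 (hΦΛ 0) (hΦ0 0) (by linarith)
      have h2 : (J : ℝ) * Λ + 1 ≤ 18 * ℓ * Λ + 1 := by
        have := mul_le_mul_of_nonneg_right hJ13 hΛ0
        linarith
      have h3 : b * ∑ j ∈ range J0, Φ j ≤ 5 * (18 * ℓ * Λ + 1) :=
        mul_le_mul hb5 (hsum.trans h2) (Finset.sum_nonneg fun j _ => hΦ0 j) (by norm_num)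
      linarith
    have step5 : 4 * n * κ * (a * Φ 0 + b * ∑ j ∈ range J0, Φ j) ≤
        4 * n * 22 * (18 * ℓ * Λ + 5 * (18 * ℓ * Λ + 1)) := by
      refine mul_le_mul (mul_le_mul_of_nonneg_left hκ22 (by positivity)) step4 ?_ (by positivity)
      exact add_nonneg (mul_nonneg ha0 (hΦ0 0))
        (mul_nonneg hb0 (Finset.sum_nonneg fun j _ => hΦ0 j))
    rw [Finset.sum_add_distrib] at step1
    have h18 : (2 * n + 8 * n * Λ) * a ≤ (2 * n + 8 * n * Λ) * (18 * ℓ) :=
      mul_le_mul_of_nonneg_left ha18 (by positivity)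
    have hfin : (2 * n + 8 * n * Λ) * (18 * ℓ) + 4 * n * 22 * (18 * ℓ * Λ + 5 * (18 * ℓ * Λ + 1)) ≤
        10000 * n * (1 + Λ) * ℓ := by
      have h1 : (n : ℝ) * 1 ≤ n * ℓ := mul_le_mul_of_nonneg_left hℓ1 hnR.le
      have h2 : 0 ≤ n * ℓ * Λ := by positivity
      have h3 : 0 ≤ n * ℓ := by positivity
      nlinarith only [h1, h2, hnR]
    linarith only [h18, hfin, step1, step2, step3, step5]

end Pool.Agent.Lib.MP_7ab245_nt.Len
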