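import Mathlib
import Pool.Agent.Lib.MP_7ab245_nt.Len.Defs
import Pool.Agent.Lib.MP_7ab245_nt.Len.Defs2

/-! Reductions: Kronecker's theorem in product form and sums over the roots of
`u * g ^ e` with `u` a product of cyclotomic polynomials. -/

set_option autoImplicit false

open Polynomial Finset

namespace Pool.Agent.Lib.MP_7ab245_nt.Len

/-- Kronecker -/
theorem exists_cyc_factor (u : ℤ[X]) (hu : u.Monic) (h0 : u.coeff 0 ≠ 0)
    (hM : (u.map (Int.castRingHom ℂ)).mahlerMeasure = 1) :
    ∃ S : Multiset ℕ, (∀ j ∈ S, 0 < j) ∧ u = (S.map fun j => cyclotomic j ℤ).prod := by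
  obtain ⟨d, hd⟩ : ∃ d, u.natDegree = d := ⟨_, rfl⟩
  induction d using Nat.strong_induction_on generalizing u with
  | _ d ih =>
    by_cases hdeg : u.degree = 0
    · refine ⟨0, by simp, ?_⟩
      have h1 : u = 1 := by
        refine eq_one_of_monic_natDegree_zero hu ?_
        exact natDegree_eq_zero_iff_degree_le_zero.mpr (le_of_eq hdeg)
      simp [h1]
    · have hX : ¬ X ∣ u := by
        rw [X_dvd_iff]
        exact h0
      obtain ⟨n, hn, v, hv⟩ := cyclotomic_dvd_of_mahlerMeasure_eq_one hM hX hdeg
      have hcm : (cyclotomic n ℤ).Monic := cyclotomic.monic n ℤ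
      have hvm : v.Monic := by
        refine hcm.of_mul_monic_left ?_
        rw [← hv]
        exact hu
      have hv0 : v.coeff 0 ≠ 0 := by
        intro h
        apply h0
        rw [hv, mul_coeff_zero, h, mul_zero]
      have hcM : ((cyclotomic n ℤ).map (Int.castRingHom ℂ)).mahlerMeasure = 1 := by
        have := cyclotomic_mahlerMeasure_eq_one (R := ℤ) n
        simpa using this
      have hvM : (v.map (Int.castRingHom ℂ)).mahlerMeasure = 1 := by
        have h1 := hM
        rw [hv, Polynomial.map_mul, mahlerMeasure_mul, hcM, one_mul] at h1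
        exact h1
      have hdegu : u.natDegree = (cyclotomic n ℤ).natDegree + v.natDegree := by
        rw [hv]
        exact hcm.natDegree_mul hvm
      have hlt : v.natDegree < d := by
        have h1 : 0 < (cyclotomic n ℤ).natDegree := by
          rw [natDegree_cyclotomic]
          exact Nat.totient_pos.mpr hn
        omega
      obtain ⟨S, hS, hvS⟩ := ih v.natDegree hlt v hvm hv0 hvM rfl
      refine ⟨n ::ₘ S, ?_, ?_⟩
      · intro j hj
        rcases Multiset.mem_cons.mp hj with h | h
        · rw [h]; exact hn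
        · exact hS j h
      · rw [Multiset.map_cons, Multiset.prod_cons, ← hvS]
        exact hv

/-- the sum of a function over a list of all the roots -/
theorem redA_sum_isRoots (f : ℤ[X]) {n : ℕ} (α : Fin n → ℂ) (hα : IsRoots f α) (H : ℂ → ℝ) :
    ∑ i, H (α i) = ((f.map (Int.castRingHom ℂ)).roots.map H).sum := by
  have h1 : (f.map (Int.castRingHom ℂ)).roots = Multiset.map α Finset.univ.val := by
    rw [hα]
    have h2 : (∏ i, (X - C (α i)) : ℂ[X]) =
        (Multiset.map (fun a => X - C a) (Multiset.map α Finset.univ.val)).prod := by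
      rw [Multiset.map_map]
      rfl
    rw [h2, roots_multiset_prod_X_sub_C]
  rw [h1, Multiset.map_map]
  rfl

/-- sums over the roots of a product of cyclotomic polynomials -/
theorem redA_sum_cyc (S : Multiset ℕ) (hS : ∀ j ∈ S, 0 < j) (H : ℂ → ℝ) :
    ((((S.map fun j => cyclotomic j ℤ).prod).map (Int.castRingHom ℂ)).roots.map H).sum =
      cyc S H := by
  induction S using Multiset.induction_on with
  | empty => simp [cyc]
  | cons j S ih =>
    have hj : 0 < j := hS j (Multiset.mem_cons_self j S)
    have hS' : ∀ i ∈ S, 0 < i := fun i hi => hS i (Multiset.mem_cons_of_mem hi)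
    have hne1 : ((cyclotomic j ℤ).map (Int.castRingHom ℂ)) ≠ 0 := by
      rw [map_cyclotomic]
      exact cyclotomic_ne_zero j ℂ
    have hne2 : (((S.map fun j => cyclotomic j ℤ).prod).map (Int.castRingHom ℂ)) ≠ 0 := by
      have hm : ((S.map fun j => cyclotomic j ℤ).prod).Monic := by
        apply monic_multiset_prod_of_monic
        intro i _
        exact cyclotomic.monic i ℤ
      exact (hm.map _).ne_zero
    rw [Multiset.map_cons, Multiset.prod_cons, Polynomial.map_mul,
      roots_mul (mul_ne_zero hne1 hne2), Multiset.map_add, Multiset.sum_add, ih hS']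
    have : NeZero (j : ℂ) := ⟨by exact_mod_cast hj.ne'⟩
    rw [map_cyclotomic, cyclotomic.roots_eq_primitiveRoots_val]
    simp only [cyc, Multiset.map_cons, Multiset.sum_cons]
    rfl

/-- sums over the roots of `f = u * g ^ e` -/
theorem sum_roots_decomp (S : Multiset ℕ) (hS : ∀ j ∈ S, 0 < j) (g : ℤ[X]) (e : ℕ)
    {n m : ℕ} (α : Fin n → ℂ) (hα : IsRoots g α) (β : Fin m → ℂ)
    (hβ : IsRoots ((S.map fun j => cyclotomic j ℤ).prod * g ^ e) β) (H : ℂ → ℝ) :
    ∑ k, H (β k) = cyc S H + e * ∑ i, H (α i) := by
  rw [redA_sum_isRoots _ β hβ H, redA_sum_isRoots _ α hα H, ← redA_sum_cyc S hS H]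
  have hne1 : (((S.map fun j => cyclotomic j ℤ).prod).map (Int.castRingHom ℂ)) ≠ 0 := by
    have hm : ((S.map fun j => cyclotomic j ℤ).prod).Monic := by
      apply monic_multiset_prod_of_monic
      intro i _
      exact cyclotomic.monic i ℤ
    exact (hm.map _).ne_zero
  have hne2 : ((g ^ e).map (Int.castRingHom ℂ)) ≠ 0 := by
    rw [Polynomial.map_pow]
    apply pow_ne_zero
    rw [hα]
    exact Finset.prod_ne_zero_iff.mpr fun i _ => X_sub_C_ne_zero (α i)
  rw [Polynomial.map_mul, roots_mul (mul_ne_zero hne1 hne2), Multiset.map_add, Multiset.sum_add,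
    Polynomial.map_pow, roots_pow, Multiset.map_nsmul, Multiset.sum_nsmul, nsmul_eq_mul]

end Pool.Agent.Lib.MP_7ab245_nt.Len
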