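import Mathlib
import Pool.Agent.Lib.MP_7ab245_nt.Len.Main
import Pool.Agent.Lib.MP_7ab245_nt.Len.Defs2
import Pool.Agent.Lib.MP_7ab245_nt.Len.Core2
import Pool.Agent.Lib.MP_7ab245_nt.Len.Pot6
import Pool.Agent.Lib.MP_7ab245_nt.Len.RedA

/-! The length theorem for `u * g ^ e`: final reduction. -/

set_option autoImplicit false

open Polynomial Finset

namespace Pool.Agent.Lib.MP_7ab245_nt.Len

/-- `refl` fixes roots of unity -/
lemma cyc_refl (S : Multiset ℕ) (hS : ∀ j ∈ S, 0 < j) (H : ℂ → ℝ) :
    cyc S (fun z => H (refl z)) = cyc S H := by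
  unfold cyc
  congr 1
  refine Multiset.map_congr rfl fun j hj => Finset.sum_congr rfl fun ζ hζ => ?_
  have h1 : ζ ^ j = 1 := ((mem_primitiveRoots (hS j hj)).mp hζ).pow_eq_one
  have h2 : ‖ζ‖ = 1 := Complex.norm_eq_one_of_pow_eq_one h1 (hS j hj).ne'
  change H (refl ζ) = H ζ
  rw [refl_of_le h2.le]

lemma len_X_pow_mul (r : ℕ) (f : ℤ[X]) : len (X ^ r * f) = len f ∧
    (X ^ r * f).support.card = f.support.card := by
  classical
  have h : (X ^ r * f).support = f.support.image (fun i => i + r) := by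
    ext n
    rw [mem_support_iff, coeff_X_pow_mul', Finset.mem_image]
    constructor
    · intro h
      split_ifs at h with h1
      · exact ⟨n - r, mem_support_iff.mpr h, by omega⟩
      · exact absurd rfl h
    · rintro ⟨a, ha, rfl⟩
      rw [if_pos (by omega), Nat.add_sub_cancel]
      exact mem_support_iff.mp ha
  have hinj : Function.Injective (fun i : ℕ => i + r) := fun a b hab => by simpa using hab
  constructor
  · unfold len
    rw [h, Finset.sum_image hinj.injOn]
    refine Finset.sum_congr rfl fun m _ => ?_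
    rw [coeff_X_pow_mul', if_pos (by omega), Nat.add_sub_cancel]
  · rw [h, Finset.card_image_of_injective _ hinj]

lemma mm_pow (f : ℤ[X]) (e : ℕ) : mm (f ^ e) = mm f ^ e := by
  induction e with
  | zero => 
    rw [pow_zero, pow_zero]
    have := mm_C 1
    rw [C_1] at this
    rw [this]; simp
  | succ e ih => rw [pow_succ, mm_mul, ih, pow_succ]

/-- elementary facts on `Y` -/
lemma red_facts (L k T D Y : ℝ) (hL : 1 ≤ L) (hk : 1 ≤ k) (hD : 1 ≤ D)
    (hT : T = k + Real.log L + 2)
    (hY : Y = D * (1 + Real.log L) * Real.log (D * T)) :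
    0 ≤ Real.log L ∧ 3 ≤ T ∧ 1 + Real.log L ≤ T ∧ 1 ≤ Real.log T ∧ Real.log T + 1 ≤ T ∧
      Real.log (D * T) = Real.log D + Real.log T ∧ 0 ≤ Real.log D ∧ 1 ≤ Y := by
  have hL0 : 0 ≤ Real.log L := Real.log_nonneg hL
  have hT3 : 3 ≤ T := by rw [hT]; linarith
  have hlogT : 1 ≤ Real.log T := by
    rw [Real.le_log_iff_exp_le (by linarith)]
    have := Real.exp_one_lt_d9
    linarith
  have hD0 : 0 ≤ Real.log D := Real.log_nonneg hD
  have hDT : Real.log (D * T) = Real.log D + Real.log T :=
    Real.log_mul (by linarith) (by linarith)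
  refine ⟨hL0, hT3, by rw [hT]; linarith, hlogT, ?_, hDT, hD0, ?_⟩
  · have := Real.log_le_sub_one_of_pos (x := T) (by linarith)
    linarith
  · rw [hY, hDT]
    have h1 : 1 ≤ D * (1 + Real.log L) := by nlinarith
    nlinarith

/-- comparison of the two quantities -/
lemma red_compare (K L k T D Y A b E : ℝ) (hK : 1 ≤ K) (hL : 1 ≤ L) (hk : 1 ≤ k) (hD : 1 ≤ D)
    (hT : T = k + Real.log L + 2)
    (hY : Y = D * (1 + Real.log L) * Real.log (D * T))
    (hA : A = K * (1 + Real.log L) * Real.log T) (hb : b = K * (1 + Real.log L))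
    (hE : E = D * (A + b * Real.log (D * (A + b)))) :
    1 ≤ A ∧ 1 ≤ b ∧ Y ≤ E ∧ E ≤ K * (3 + Real.log K) * Y := by
  obtain ⟨hL0, hT3, hLT, hlogT1, hlogTT, hDT, hD0, hY1⟩ := red_facts L k T D Y hL hk hD hT hY
  generalize Real.log L = l at *
  have hK0 : 0 ≤ Real.log K := Real.log_nonneg hK
  have hb1 : 1 ≤ b := by rw [hb]; nlinarith
  have hAb : A = b * Real.log T := by rw [hA, hb]
  have hA1 : 1 ≤ A := by rw [hAb]; nlinarith
  have hAb1 : 1 ≤ A + b := by linarith
  have hlogAb : Real.log (D * (A + b)) = Real.log D + Real.log (A + b) :=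
    Real.log_mul (by linarith) (by linarith)
  have hlogAb0 : 0 ≤ Real.log (A + b) := Real.log_nonneg hAb1
  refine ⟨hA1, hb1, ?_, ?_⟩
  · -- lower bound
    have h1 : Real.log T + Real.log D ≤ Real.log T + Real.log (D * (A + b)) := by
      rw [hlogAb]; linarith
    have h2 : (1 + l) * (Real.log T + Real.log D) ≤ b * (Real.log T + Real.log (D * (A + b))) := by
      have h3 : 1 + l ≤ b := by rw [hb]; nlinarith
      have h4 : 0 ≤ Real.log T + Real.log D := by linarith
      have h5 : 0 ≤ 1 + l := by linarith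
      calc (1 + l) * (Real.log T + Real.log D) ≤ b * (Real.log T + Real.log D) := by gcongr
        _ ≤ _ := by
          have : 0 ≤ b := by linarith
          gcongr
    have h6 : Y = D * ((1 + l) * (Real.log T + Real.log D)) := by rw [hY, hDT]; ring
    have h7 : E = D * (b * (Real.log T + Real.log (D * (A + b)))) := by rw [hE, hAb]; ring
    rw [h6, h7]
    have : 0 ≤ D := by linarith
    gcongr
  · -- upper bound
    have h2 : A + b ≤ K * T ^ 2 := by
      calc A + b = K * ((1 + l) * (Real.log T + 1)) := by rw [hAb, hb]; ring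
        _ ≤ K * (T * T) := by gcongr
        _ = K * T ^ 2 := by ring
    have h3 : Real.log (A + b) ≤ Real.log K + 2 * Real.log T := by
      have h4 := Real.log_le_log (by linarith) h2
      rw [Real.log_mul (by linarith) (by positivity), Real.log_pow] at h4
      push_cast at h4
      exact h4
    have h5 : Real.log T + Real.log (D * (A + b)) ≤ (3 + Real.log K) * Real.log (D * T) := by
      rw [hlogAb, hDT]
      nlinarith
    have h7 : E = D * (b * (Real.log T + Real.log (D * (A + b)))) := by rw [hE, hAb]; ring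
    rw [h7]
    calc D * (b * (Real.log T + Real.log (D * (A + b)))) ≤
        D * (b * ((3 + Real.log K) * Real.log (D * T))) := by
          have : 0 ≤ D := by linarith
          have : 0 ≤ b := by linarith
          gcongr
      _ = K * (3 + Real.log K) * Y := by rw [hY, hb]; ring

/-- the case where `g` and `u` are monic -/
lemma red_monic (K : ℝ) (hK : 1 ≤ K) (hEB : ∀ (f : ℤ[X]) (n : ℕ) (α : Fin n → ℂ), IsRoots f α →
    0 < n → f.coeff 0 ≠ 0 → ∀ B : ℝ, 1 ≤ B →
    EE (fun i => refl (α i)) (1 / (n * B)) 1 1 ≤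
      K * n * (1 + Real.log (len f)) *
        Real.log (B * (f.support.card + Real.log (len f) + 2)))
    (u g : ℤ[X]) (e : ℕ) (he : 0 < e) (hu : u.Monic) (hg : g.Monic) (hMu : mm u = 1)
    (hirr : Irreducible g) (hM : 1 < mm g) (f : ℤ[X]) (D Y : ℝ) (hf : f = u * g ^ e)
    (hD : D = f.natDegree / (e * g.natDegree))
    (hY : Y = D * (1 + Real.log (len f)) *
      Real.log (D * (f.support.card + Real.log (len f) + 2))) :
    1 / 10 ^ 20 * (1 / (K * (3 + Real.log K)) ^ 3) * (Real.log Y / Y) ^ 3 ≤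
      Real.log (mm g) := by
  classical
  have hg0 := coeff_zero_ne_zero g hirr hM
  obtain ⟨α, hα⟩ := exists_isRoots g hg
  have hn := hα.pos hirr
  have hnR : (0 : ℝ) < g.natDegree := by exact_mod_cast hn
  have heR : (0 : ℝ) < e := by exact_mod_cast he
  have hune : u ≠ 0 := hu.ne_zero
  -- remove the factor `X`
  obtain ⟨r, u1, hu1, hu10⟩ : ∃ (r : ℕ) (u1 : ℤ[X]), u = X ^ r * u1 ∧ u1.coeff 0 ≠ 0 := by
    obtain ⟨u1, h1, h2⟩ := exists_eq_pow_rootMultiplicity_mul_and_not_dvd u hune 0
    rw [C_0, sub_zero] at h1 h2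
    exact ⟨_, u1, h1, fun h => h2 (X_dvd_iff.mpr h)⟩
  have hu1m : u1.Monic := by
    rw [hu1] at hu
    exact (monic_X_pow r).of_mul_monic_left hu
  have hMu1 : mm u1 = 1 := by
    have h1 : mm (X ^ r : ℤ[X]) = 1 := by rw [mm_pow, mm_X, one_pow]
    rw [hu1, mm_mul, h1, one_mul] at hMu
    exact hMu
  obtain ⟨S, hS, hSu⟩ := exists_cyc_factor u1 hu1m hu10 hMu1
  set f1 : ℤ[X] := u1 * g ^ e with hf1
  have hff1 : f = X ^ r * f1 := by rw [hf, hu1, hf1]; ring
  have hf1m : f1.Monic := hu1m.mul (hg.pow e)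
  obtain ⟨hlen, hsupp⟩ := len_X_pow_mul r f1
  rw [← hff1] at hlen hsupp
  have hf10 : f1.coeff 0 ≠ 0 := by
    rw [hf1, mul_coeff_zero, coeff_zero_eq_eval_zero (g ^ e), eval_pow, ← coeff_zero_eq_eval_zero]
    exact mul_ne_zero hu10 (pow_ne_zero e hg0)
  obtain ⟨β, hβ⟩ := exists_isRoots f1 hf1m
  have hdeg1 : f1.natDegree = u1.natDegree + e * g.natDegree := by
    rw [hf1, hu1m.natDegree_mul (hg.pow e), hg.natDegree_pow]
  have hdeg : f.natDegree = r + f1.natDegree := by
    rw [hff1, (monic_X_pow r).natDegree_mul hf1m, natDegree_X_pow]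
  have hen : (0 : ℝ) < e * g.natDegree := by positivity
  have hfD : (f.natDegree : ℝ) = D * (e * g.natDegree) := by
    rw [hD, div_mul_cancel₀ _ hen.ne']
  have hm : 0 < f1.natDegree := by
    rw [hdeg1]
    have : 0 < e * g.natDegree := Nat.mul_pos he hn
    omega
  have hmD : (f1.natDegree : ℝ) ≤ D * (e * g.natDegree) := by
    rw [← hfD]
    exact_mod_cast (by omega : f1.natDegree ≤ f.natDegree)
  have hD1 : 1 ≤ D := by
    rw [hD, le_div_iff₀ hen, one_mul]
    have : e * g.natDegree ≤ f.natDegree := by omega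
    exact_mod_cast this
  have hL1 : 1 ≤ len f := by
    rw [hlen]; exact P5.one_le_length hf10
  have hk1 : (1 : ℝ) ≤ f.support.card := by
    rw [hsupp]
    have : 0 < f1.support.card := Finset.card_pos.2 ⟨0, Polynomial.mem_support_iff.2 hf10⟩
    exact_mod_cast this
  obtain ⟨T, hT⟩ : ∃ T, T = (f.support.card : ℝ) + Real.log (len f) + 2 := ⟨_, rfl⟩
  rw [← hT] at hY
  obtain ⟨A, hA⟩ : ∃ A, A = K * (1 + Real.log (len f)) * Real.log T := ⟨_, rfl⟩
  obtain ⟨b, hb⟩ : ∃ b, b = K * (1 + Real.log (len f)) := ⟨_, rfl⟩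
  obtain ⟨E, hE⟩ : ∃ E, E = D * (A + b * Real.log (D * (A + b))) := ⟨_, rfl⟩
  obtain ⟨hL0, hT3, hLT, hlogT1, hlogTT, hDT, hD0, hY1⟩ :=
    red_facts (len f) f.support.card T D Y hL1 hk1 hD1 hT hY
  obtain ⟨hA1, hb1, hYE, hEY⟩ :=
    red_compare K (len f) f.support.card T D Y A b E hK hL1 hk1 hD1 hT hY hA hb hE
  have hcore := core_two A b D E hA1 hb1 hD1 hE g hg hirr hM hg0 α hα
    (fun k => refl (β k)) (fun k => norm_refl_le _) S hS e he hmD (by
      intro H
      have h1 : IsRoots ((S.map fun j => cyclotomic j ℤ).prod * g ^ e) β := by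
        rw [← hSu]; exact hβ
      have h2 := sum_roots_decomp S hS g e α hα β h1 (fun z => H (refl z))
      rw [cyc_refl S hS] at h2
      exact h2) (by
      intro B hB
      refine (hEB f1 f1.natDegree β hβ hm hf10 B hB).trans (le_of_eq ?_)
      rw [← hlen, ← hsupp, ← hT, Real.log_mul (by linarith) (by linarith), hA, hb]
      ring)
  rw [hh_eq_log_mahler g α hα] at hcore
  have h2 := compare_cube Y E (K * (3 + Real.log K)) hY1 hYE hEY (by
    have := Real.log_nonneg hK
    positivity)
  refine le_trans ?_ hcore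
  rw [mul_assoc]
  gcongr

theorem length_cyclotomic_main : ∃ c : ℝ, 0 < c ∧ ∀ (u g : ℤ[X]) (e : ℕ), 0 < e →
    (u.map (Int.castRingHom ℂ)).mahlerMeasure = 1 → Irreducible g →
    1 < (g.map (Int.castRingHom ℂ)).mahlerMeasure → ∀ (f : ℤ[X]) (D Y : ℝ), f = u * g ^ e →
    D = f.natDegree / (e * g.natDegree) →
    Y = D * (1 + Real.log (∑ m ∈ f.support, |(f.coeff m : ℝ)|)) *
      Real.log (D * (f.support.card + Real.log (∑ m ∈ f.support, |(f.coeff m : ℝ)|) + 2)) →
    c * (Real.log Y / Y) ^ 3 ≤ Real.log (g.map (Int.castRingHom ℂ)).mahlerMeasure := by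
  obtain ⟨K, hK, hEB⟩ := energy_bound_all
  have hK0 := Real.log_nonneg hK
  refine ⟨1 / 10 ^ 20 * (1 / (K * (3 + Real.log K)) ^ 3), by positivity, ?_⟩
  intro u g e he hMu hirr hM f D Y hf hD hY
  change mm u = 1 at hMu
  change 1 < mm g at hM
  change _ ≤ Real.log (mm g)
  change Y = D * (1 + Real.log (len f)) * Real.log (D * (f.support.card + Real.log (len f) + 2))
    at hY
  have hune : u ≠ 0 := by
    rintro rfl
    unfold mm at hMu
    simp at hMu
  have hgne : g ≠ 0 := hirr.ne_zero
  have hfne : f ≠ 0 := by rw [hf]; exact mul_ne_zero hune (pow_ne_zero e hgne)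
  have humon := monic_or u hune (by rw [hMu]; norm_num)
  by_cases hM2 : mm g < 2
  · have hgmon := monic_or g hgne hM2
    obtain ⟨g', hg', hgg'⟩ : ∃ g' : ℤ[X], g'.Monic ∧ (g' = g ∨ g' = -g) := by
      rcases hgmon with h | h
      · exact ⟨g, h, Or.inl rfl⟩
      · exact ⟨-g, h, Or.inr rfl⟩
    obtain ⟨u', hu', huu'⟩ : ∃ u' : ℤ[X], u'.Monic ∧ (u' = u ∨ u' = -u) := by
      rcases humon with h | h
      · exact ⟨u, h, Or.inl rfl⟩
      · exact ⟨-u, h, Or.inr rfl⟩
    have hmg : mm g' = mm g := by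
      rcases hgg' with rfl | rfl
      · rfl
      · exact mm_neg g
    have hmu : mm u' = mm u := by
      rcases huu' with rfl | rfl
      · rfl
      · exact mm_neg u
    have hirr' : Irreducible g' := by
      rcases hgg' with rfl | rfl
      · exact hirr
      · have := (Associated.refl g).neg_left
        exact this.irreducible_iff.mpr hirr
    have hdg : g'.natDegree = g.natDegree := by
      rcases hgg' with rfl | rfl
      · rfl
      · exact natDegree_neg g
    have hff : u' * g' ^ e = f ∨ u' * g' ^ e = -f := by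
      have h1 : g' ^ e = g ^ e ∨ g' ^ e = -g ^ e := by
        rcases hgg' with rfl | rfl
        · exact Or.inl rfl
        · rcases Nat.even_or_odd e with h | h
          · left; exact h.neg_pow g
          · right; exact h.neg_pow g
      rw [hf]
      rcases h1 with h1 | h1 <;> rcases huu' with h2 | h2 <;> rw [h1, h2]
      · left; rfl
      · right; ring
      · right; ring
      · left; ring
    have hlen : len (u' * g' ^ e) = len f := by
      rcases hff with h | h <;> rw [h]
      exact len_neg f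
    have hsupp : (u' * g' ^ e).support = f.support := by
      rcases hff with h | h <;> rw [h]
      exact support_neg
    have hdf : (u' * g' ^ e).natDegree = f.natDegree := by
      rcases hff with h | h <;> rw [h]
      exact natDegree_neg f
    have hfin := red_monic K hK hEB u' g' e he hu' hg' (by rw [hmu, hMu]) hirr'
      (by rw [hmg]; exact hM) (u' * g' ^ e) D Y rfl (by rw [hdf, hdg]; exact hD)
      (by rw [hlen, hsupp]; exact hY)
    rw [hmg] at hfin
    exact hfin
  · push Not at hM2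
    have hlog2 := Real.log_two_gt_d9
    have h1 : Real.log 2 ≤ Real.log (mm g) := Real.log_le_log (by norm_num) hM2
    rcases Nat.eq_zero_or_pos g.natDegree with hn0 | hn
    · have hD0 : D = 0 := by rw [hD, hn0]; simp
      have hY0 : Y = 0 := by rw [hY, hD0]; ring
      rw [hY0]
      simp only [Real.log_zero, div_zero, ne_eq, OfNat.ofNat_ne_zero, not_false_eq_true, zero_pow,
        mul_zero]
      linarith
    have hnR : (0 : ℝ) < g.natDegree := by exact_mod_cast hn
    have heR : (0 : ℝ) < e := by exact_mod_cast he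
    have hen : (0 : ℝ) < e * g.natDegree := by positivity
    have hdeg : f.natDegree = u.natDegree + e * g.natDegree := by
      rw [hf, natDegree_mul hune (pow_ne_zero e hgne), natDegree_pow]
    have hD1 : 1 ≤ D := by
      rw [hD, le_div_iff₀ hen, one_mul]
      have : e * g.natDegree ≤ f.natDegree := by omega
      exact_mod_cast this
    have hk : 1 ≤ f.support.card := Finset.card_pos.mpr (support_nonempty.mpr hfne)
    have hkR : (1 : ℝ) ≤ f.support.card := by exact_mod_cast hk
    have hL1 : 1 ≤ len f := by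
      refine le_trans ?_ (mm_le_len f)
      rw [hf, mm_mul, mm_pow, hMu, one_mul]
      exact one_le_pow₀ hM.le
    obtain ⟨T, hT⟩ : ∃ T, T = (f.support.card : ℝ) + Real.log (len f) + 2 := ⟨_, rfl⟩
    rw [← hT] at hY
    obtain ⟨hL0, hT3, hLT, hlogT1, hlogTT, hDT, hD0, hY1⟩ :=
      red_facts (len f) f.support.card T D Y hL1 hkR hD1 hT hY
    have h4 := cube_le_one Y hY1
    have h5 : 1 / (K * (3 + Real.log K)) ^ 3 ≤ (1 : ℝ) := by
      rw [div_le_one (by positivity)]
      apply one_le_pow₀
      nlinarith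
    have h8 : 0 ≤ (Real.log Y / Y) ^ 3 := by
      have := Real.log_nonneg hY1
      positivity
    have h6 : 1 / 10 ^ 20 * (1 / (K * (3 + Real.log K)) ^ 3) *
        (Real.log Y / Y) ^ 3 ≤ 1 / 10 ^ 20 * 1 * 1 := by
      gcongr
    have h7 : (1 : ℝ) / 10 ^ 20 * 1 * 1 ≤ 1 / 2 := by norm_num
    linarith

end Pool.Agent.Lib.MP_7ab245_nt.Len
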