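import Mathlib
import Pool.Agent.Lib.MP_7ab245_nt.Len.Core2
import Pool.Agent.Lib.MP_7ab245_nt.Len.Defs2
import Pool.Agent.Lib.MP_7ab245_nt.Len.Psd2

/-! The passage from energies to the Mahler measure in abstract form. -/

set_option autoImplicit false

open Polynomial Finset

namespace Pool.Agent.Lib.MP_7ab245_nt.Len

/-- the main inequality, in terms of energies -/
theorem core_ineq_abs {n m : ℕ} (hn : 0 < n) (v : Fin n → ℂ) (hv : ∀ i, ‖v i‖ ≤ 1)
    (x : Fin m → ℂ) (hx : ∀ i, ‖x i‖ ≤ 1) (e : ℕ) (he : 0 < e) (D h : ℝ) (hD : 1 ≤ D)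
    (hmD : (m : ℝ) ≤ D * (e * n)) (hh0 : 0 ≤ h) (c : ℕ → ℕ)
    (hc : ∀ q : ℕ, q.Prime → ∃ t, c q = q ^ t)
    (hX : ∀ q : ℕ, q.Prime → q ≠ 2 → ∀ s : ℝ, 0 < s →
      (1 / (c q : ℝ)) * XX x v (s * c q) (c q) (q * c q) ≤
        m * (n * s + (1 + q) * h) - e * n * Real.log q)
    (hDiag : ∀ q : ℕ, q.Prime → q ≠ 2 → ∀ s : ℝ, 0 < s →
      (1 / (c q : ℝ)) * EE v (s * c q) (q * c q) (q * c q) ≤
        EE v (s / q) 1 1 + 2 * n * q * h + (n : ℝ) ^ 2 * s)
    (hOff : ∀ p q : ℕ, p.Prime → q.Prime → p ≠ 2 → q ≠ 2 → p ≠ q → ∀ s : ℝ, 0 < s →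
      (1 / ((c p : ℝ) * c q)) * EE v (s * (c p * c q)) (p * (c p * c q)) (q * (c p * c q)) ≤
        (n : ℝ) ^ 2 * s + n * (p + q) * h)
    (hSub : ∀ s : ℝ, 0 < s → EE v s 1 1 ≤ 100 * EE x s 1 1 / (e : ℝ) ^ 2 +
      100 * (m / e) * (n * s + h))
    (P : Finset ℕ) (R Q : ℝ) (hR : 2 ≤ R)
    (hP : ∀ q ∈ P, q.Prime ∧ R < q ∧ (q : ℝ) ≤ Q) (s Eb a : ℝ) (hs : 0 < s) (ha : 0 ≤ a)
    (hEb : 0 ≤ Eb) (hE1 : EE x s 1 1 ≤ m * Eb) (hE2 : ∀ q ∈ P, EE x (s / q) 1 1 ≤ m * Eb) :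
    0 ≤ D * Eb + 2 * a * P.card * (D * (n * s + (1 + Q) * h) - Real.log R)
      + a ^ 2 * (P.card * (100 * D * Eb + 100 * D * (n * s + h) + 2 * Q * h + n * s)
        + (P.card : ℝ) ^ 2 * (n * s + 2 * Q * h)) := by
  classical
  have hnR : (0 : ℝ) < n := by exact_mod_cast hn
  have heR : (0 : ℝ) < e := by exact_mod_cast he
  have he1 : (1 : ℝ) ≤ e := by exact_mod_cast he
  have hmR : (0 : ℝ) ≤ m := by positivity
  have hen : (0 : ℝ) < e * n := by positivity
  have hnen : (n : ℝ) ≤ e * n := by nlinarith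
  -- `m / e ≤ D n`
  have hme : (m : ℝ) / e ≤ D * n := by
    rw [div_le_iff₀ heR]
    linarith
  have hodd : ∀ q ∈ P, q ≠ 2 := by
    rintro q hq rfl
    have := (hP 2 hq).2.1
    push_cast at this
    linarith
  have hcpos : ∀ q ∈ P, 0 < c q := by
    intro q hq
    obtain ⟨t, ht⟩ := hc q (hP q hq).1
    rw [ht]
    exact pow_pos (hP q hq).1.pos _
  have hmain := psd_main2 x hx v hv s hs P c hcpos
    (fun q hq => (hP q hq).1.pos) (by
      intro p hp q hq hpq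
      obtain ⟨t, ht⟩ := hc q (hP q hq).1
      obtain ⟨t', ht'⟩ := hc p (hP p hp).1
      rw [ht, ht']
      exact Nat.Coprime.pow _ _ ((Nat.coprime_primes (hP p hp).1 (hP q hq).1).mpr hpq)) a
  have hsum1 : ∑ q ∈ P, (1 / (c q : ℝ)) * XX x v (s * c q) (c q) (q * c q) ≤
      ∑ _q ∈ P, ((e : ℝ) * n) * (D * (n * s + (1 + Q) * h) - Real.log R) := by
    apply Finset.sum_le_sum
    intro q hq
    obtain ⟨hq1, hq2, hq3⟩ := hP q hq
    refine (hX q hq1 (hodd q hq) s hs).trans ?_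
    have h2 : Real.log R ≤ Real.log q := Real.log_le_log (by linarith) hq2.le
    have h3 : (m : ℝ) * (n * s + (1 + q) * h) ≤ D * (e * n) * (n * s + (1 + Q) * h) := by
      gcongr
    have h4 : (e : ℝ) * n * Real.log R ≤ e * n * Real.log q := by gcongr
    nlinarith
  have hsum2 : ∑ q ∈ P, (1 / (c q : ℝ)) * EE v (s * c q) (q * c q) (q * c q) ≤
      ∑ _q ∈ P, ((e : ℝ) * n) *
        (100 * D * Eb + 100 * D * (n * s + h) + 2 * Q * h + n * s) := by
    apply Finset.sum_le_sum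
    intro q hq
    obtain ⟨hq1, hq2, hq3⟩ := hP q hq
    have hq1R : (1 : ℝ) ≤ q := by linarith
    refine (hDiag q hq1 (hodd q hq) s hs).trans ?_
    have h2 := hSub (s / q) (by positivity)
    have h3 : 100 * EE x (s / q) 1 1 / (e : ℝ) ^ 2 ≤ 100 * (D * n) * Eb := by
      have h4 : 100 * EE x (s / q) 1 1 / (e : ℝ) ^ 2 ≤ 100 * (m * Eb) / (e : ℝ) ^ 2 := by
        gcongr
        exact hE2 q hq
      have h5 : 100 * (m * Eb) / (e : ℝ) ^ 2 = 100 * ((m : ℝ) / e) * Eb * (1 / e) := by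
        field_simp
      have h6 : 100 * ((m : ℝ) / e) * Eb * (1 / e) ≤ 100 * ((m : ℝ) / e) * Eb * 1 := by
        gcongr
        rw [div_le_one heR]
        exact he1
      have h7 : 100 * ((m : ℝ) / e) * Eb ≤ 100 * (D * n) * Eb := by gcongr
      linarith
    have h4 : 100 * ((m : ℝ) / e) * (n * (s / q) + h) ≤ 100 * (D * n) * (n * s + h) := by
      have h5 : s / q ≤ s := div_le_self hs.le hq1R
      gcongr
    have h5 : 2 * (n : ℝ) * q * h ≤ n * (2 * Q * h) := by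
      have : (n : ℝ) * (2 * q * h) ≤ n * (2 * Q * h) := by gcongr
      linarith
    have hQ0 : 0 ≤ Q := le_trans (by positivity) hq3
    have h6 : (0 : ℝ) ≤ 100 * D * Eb + 100 * D * (n * s + h) + 2 * Q * h + n * s := by
      positivity
    calc EE v (s / q) 1 1 + 2 * n * q * h + (n : ℝ) ^ 2 * s
        ≤ n * (100 * D * Eb + 100 * D * (n * s + h) + 2 * Q * h + n * s) := by
          have e1 : (n : ℝ) * (100 * D * Eb + 100 * D * (n * s + h) + 2 * Q * h + n * s) =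
            100 * (D * n) * Eb + 100 * (D * n) * (n * s + h) + n * (2 * Q * h)
              + (n : ℝ) ^ 2 * s := by ring
          rw [e1]
          linarith
      _ ≤ _ := by gcongr
  have hsum3 : ∑ p ∈ P, ∑ q ∈ P.erase p, (1 / ((c p : ℝ) * c q)) *
            EE v (s * (c p * c q)) (p * (c p * c q)) (q * (c p * c q)) ≤
      (P.card : ℝ) ^ 2 * ((e * n) * (n * s + 2 * Q * h)) := by
    have hQ0 : 0 ≤ ((e : ℝ) * n) * (n * s + 2 * Q * h) ∨ P = ∅ := by
      rcases P.eq_empty_or_nonempty with h | ⟨q, hq⟩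
      · exact Or.inr h
      · left
        have hQ : 0 ≤ Q := le_trans (by positivity) (hP q hq).2.2
        positivity
    rcases hQ0 with hQ0 | hQ0
    swap
    · rw [hQ0]; simp
    calc ∑ p ∈ P, ∑ q ∈ P.erase p, (1 / ((c p : ℝ) * c q)) *
            EE v (s * (c p * c q)) (p * (c p * c q)) (q * (c p * c q))
        ≤ ∑ p ∈ P, ∑ _q ∈ P.erase p, (((e : ℝ) * n) * (n * s + 2 * Q * h)) := by
          apply Finset.sum_le_sum
          intro p hp
          apply Finset.sum_le_sum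
          intro q hq
          have hq' := Finset.mem_of_mem_erase hq
          have hpq : p ≠ q := (Finset.ne_of_mem_erase hq).symm
          have hQ : 0 ≤ Q := le_trans (by positivity) (hP q hq').2.2
          refine (hOff p q (hP p hp).1 (hP q hq').1 (hodd p hp) (hodd q hq') hpq s hs).trans ?_
          have h2 : (n : ℝ) * (p + q) * h ≤ n * (Q + Q) * h := by
            have := (hP p hp).2.2
            have := (hP q hq').2.2
            gcongr
          calc (n : ℝ) ^ 2 * s + n * (p + q) * h ≤ n * (n * s + 2 * Q * h) := by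
                nlinarith
            _ ≤ _ := by gcongr
      _ ≤ ∑ p ∈ P, ∑ _q ∈ P, (((e : ℝ) * n) * (n * s + 2 * Q * h)) := by
          apply Finset.sum_le_sum
          intro p hp
          apply Finset.sum_le_sum_of_subset_of_nonneg (Finset.erase_subset _ _)
          intro _ _ _
          exact hQ0
      _ = _ := by
          rw [Finset.sum_const, Finset.sum_const, nsmul_eq_mul, nsmul_eq_mul]
          ring
  rw [Finset.sum_const, nsmul_eq_mul] at hsum1 hsum2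
  have h7 := mul_le_mul_of_nonneg_left hsum1 (by positivity : 0 ≤ 2 * a)
  have h8 := mul_le_mul_of_nonneg_left (add_le_add hsum2 hsum3) (by positivity : 0 ≤ a ^ 2)
  have h10 : (m : ℝ) * Eb ≤ D * (e * n) * Eb := by gcongr
  have h9 : 0 ≤ ((e : ℝ) * n) *
      (D * Eb + 2 * a * P.card * (D * (n * s + (1 + Q) * h) - Real.log R)
      + a ^ 2 * (P.card * (100 * D * Eb + 100 * D * (n * s + h) + 2 * Q * h + n * s)
        + (P.card : ℝ) ^ 2 * (n * s + 2 * Q * h))) := by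
    calc (0 : ℝ) ≤ _ := hmain
      _ ≤ D * (e * n) * Eb + 2 * a * ((P.card : ℝ) *
            ((e * n) * (D * (n * s + (1 + Q) * h) - Real.log R)))
          + a ^ 2 * ((P.card : ℝ) * ((e * n) *
              (100 * D * Eb + 100 * D * (n * s + h) + 2 * Q * h + n * s))
            + (P.card : ℝ) ^ 2 * ((e * n) * (n * s + 2 * Q * h))) :=
          add_le_add (add_le_add (hE1.trans h10) h7) h8
      _ = _ := by ring
  exact nonneg_of_mul_nonneg_right h9 hen

/-- From energies to a lower bound for `h`, abstract form. -/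
theorem core_abs (A b D E0 : ℝ) (hA : 1 ≤ A) (hb : 1 ≤ b) (hD : 1 ≤ D)
    (hE0 : E0 = D * (A + b * Real.log (D * (A + b)))) {n m : ℕ} (hn : 0 < n)
    (v : Fin n → ℂ) (hv : ∀ i, ‖v i‖ ≤ 1) (x : Fin m → ℂ) (hx : ∀ i, ‖x i‖ ≤ 1) (e : ℕ)
    (he : 0 < e) (hem : (e : ℝ) * n ≤ m) (hmD : (m : ℝ) ≤ D * (e * n)) (h : ℝ) (hh0 : 0 ≤ h)
    (c : ℕ → ℕ) (hc : ∀ q : ℕ, q.Prime → ∃ t, c q = q ^ t)
    (hX : ∀ q : ℕ, q.Prime → q ≠ 2 → ∀ s : ℝ, 0 < s →
      (1 / (c q : ℝ)) * XX x v (s * c q) (c q) (q * c q) ≤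
        m * (n * s + (1 + q) * h) - e * n * Real.log q)
    (hDiag : ∀ q : ℕ, q.Prime → q ≠ 2 → ∀ s : ℝ, 0 < s →
      (1 / (c q : ℝ)) * EE v (s * c q) (q * c q) (q * c q) ≤
        EE v (s / q) 1 1 + 2 * n * q * h + (n : ℝ) ^ 2 * s)
    (hOff : ∀ p q : ℕ, p.Prime → q.Prime → p ≠ 2 → q ≠ 2 → p ≠ q → ∀ s : ℝ, 0 < s →
      (1 / ((c p : ℝ) * c q)) * EE v (s * (c p * c q)) (p * (c p * c q)) (q * (c p * c q)) ≤
        (n : ℝ) ^ 2 * s + n * (p + q) * h)
    (hSub : ∀ s : ℝ, 0 < s → EE v s 1 1 ≤ 100 * EE x s 1 1 / (e : ℝ) ^ 2 +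
      100 * (m / e) * (n * s + h))
    (hEB : ∀ B : ℝ, 1 ≤ B → EE x (1 / (m * B)) 1 1 ≤ m * (A + b * Real.log B)) :
    1 / 10 ^ 20 * (Real.log E0 / E0) ^ 3 ≤ h := by
  have hnR : (0 : ℝ) < n := by exact_mod_cast hn
  have heR : (0 : ℝ) < e := by exact_mod_cast he
  have he1 : (1 : ℝ) ≤ e := by exact_mod_cast he
  have hD0 : 0 < D := by linarith
  have hnm : (n : ℝ) ≤ m := by nlinarith
  have hmR : (0 : ℝ) < m := by linarith
  obtain ⟨hE01, hDE0, hE02, hE03⟩ := E_facts_two A b D E0 hA hb hD hE0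
  obtain ⟨E, hE⟩ : ∃ E, E = 100000 * E0 := ⟨_, rfl⟩
  rw [← hE] at hE02 hE03
  have hE4 : 40000 ≤ E := by rw [hE]; linarith
  have hEpos : 0 < E := by linarith
  have hDE : D ≤ E := by rw [hE]; linarith
  have hlam1 : 1 ≤ Real.log E := by
    rw [Real.le_log_iff_exp_le hEpos]
    have := Real.exp_one_lt_d9
    linarith
  have hlam0 : 0 < Real.log E := by linarith
  have hlamE : Real.log E ≤ E := by
    have := Real.log_le_sub_one_of_pos hEpos
    linarith
  obtain ⟨R, P, hR, hP, hN1, hN2, hLR, hR2, hR5⟩ := exists_primes E hE4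
  have hRR : (40000 : ℝ) ≤ R := by exact_mod_cast hR
  -- parameters
  obtain ⟨a, ha⟩ : ∃ a, a = Real.log E / E := ⟨_, rfl⟩
  obtain ⟨y, hy⟩ : ∃ y, y = a * P.card := ⟨_, rfl⟩
  obtain ⟨B, hB⟩ : ∃ B, B = 2 * y ^ 2 := ⟨_, rfl⟩
  obtain ⟨Eb, hEb⟩ : ∃ Eb, Eb = E / (100 * D) := ⟨_, rfl⟩
  have ha0 : 0 ≤ a := by rw [ha]; positivity
  have hy4 : 4 * E / Real.log E ≤ y := by
    rw [hy, ha]
    calc 4 * E / Real.log E = Real.log E / E * (4 * E ^ 2 / Real.log E ^ 2) := by field_simp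
      _ ≤ Real.log E / E * P.card := by gcongr
  have hy5 : y ≤ 5 * E / Real.log E := by
    rw [hy, ha]
    calc Real.log E / E * P.card ≤ Real.log E / E * (5 * E ^ 2 / Real.log E ^ 2) := by gcongr
      _ = 5 * E / Real.log E := by field_simp
  have hDy : D ≤ y := by
    refine le_trans ?_ hy4
    rw [le_div_iff₀ hlam0]
    linarith
  have hy1 : 1 ≤ y := hD.trans hDy
  have hB1 : 1 ≤ B := by rw [hB]; nlinarith
  have hB0 : 0 < B := by linarith
  have hyE : y ≤ 5 * E := by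
    refine hy5.trans ?_
    exact div_le_self (by linarith) hlam1
  have hBE : B ≤ 50 * E ^ 2 := by
    rw [hB]
    calc 2 * y ^ 2 ≤ 2 * (5 * E) ^ 2 := by gcongr
      _ = 50 * E ^ 2 := by ring
  have hEb0 : 0 ≤ Eb := by rw [hEb]; positivity
  have hDEb : 100 * D * Eb = E := by
    rw [hEb]; field_simp
  -- the energy bound
  have hen : ∀ B' : ℝ, 1 ≤ B' → B' ≤ 50 * E ^ 8 →
      EE x (1 / (m * B')) 1 1 ≤ m * Eb := by
    intro B' hB'1 hB'2
    refine (hEB B' hB'1).trans ?_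
    have h2 : Real.log B' ≤ 9 * Real.log E := by
      have h3 : B' ≤ E ^ 9 := by
        calc B' ≤ 50 * E ^ 8 := hB'2
          _ ≤ E * E ^ 8 := by gcongr; linarith
          _ = E ^ 9 := by ring
      have h4 := Real.log_le_log (by linarith) h3
      rw [Real.log_pow] at h4
      push_cast at h4
      exact h4
    have h5 : b * Real.log B' ≤ b * (9 * Real.log E) := by gcongr
    have h6 : A + b * Real.log B' ≤ Eb := by
      have h7 : A + 9 * b * Real.log E ≤ Eb := by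
        rw [hEb, le_div_iff₀ (by positivity)]
        linarith
      linarith
    gcongr
  have hE5 : 1 ≤ E ^ 5 := one_le_pow₀ (by linarith)
  have hDB : D * B ≤ 50 * E ^ 3 := by
    calc D * B ≤ E * (50 * E ^ 2) := by gcongr
      _ = 50 * E ^ 3 := by ring
  have hDB1 : 1 ≤ D * B := by nlinarith
  have hcore := core_ineq_abs hn v hv x hx e he D h hD hmD hh0 c hc hX hDiag hOff hSub P R
    (16 * R) (by linarith) hP (1 / (m * (D * B))) Eb a (by positivity) ha0 hEb0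
    (hen (D * B) hDB1 (by
      calc D * B ≤ 50 * E ^ 3 := hDB
        _ = 50 * (E ^ 3 * 1) := by ring
        _ ≤ 50 * (E ^ 3 * E ^ 5) := by gcongr
        _ = 50 * E ^ 8 := by ring))
    (by
      intro q hq
      obtain ⟨hq1, hq2, hq3⟩ := hP q hq
      have hq0 : (1 : ℝ) ≤ q := by linarith
      have h1 : 1 / (m * (D * B)) / q = 1 / (m * (D * B * q)) := by
        field_simp
      rw [h1]
      apply hen
      · nlinarith
      · calc D * B * q ≤ (50 * E ^ 3) * E ^ 5 := by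
              gcongr
              linarith
          _ = 50 * E ^ 8 := by ring)
  have hns0 : 0 ≤ (n : ℝ) * (1 / (m * (D * B))) := by positivity
  have hDns : D * ((n : ℝ) * (1 / (m * (D * B)))) ≤ 1 / B := by
    have h1 : D * ((n : ℝ) * (1 / (m * (D * B)))) = (n / m) * (1 / B) := by
      field_simp
    rw [h1]
    have h2 : (n : ℝ) / m ≤ 1 := by
      rw [div_le_one hmR]; exact hnm
    calc (n : ℝ) / m * (1 / B) ≤ 1 * (1 / B) := by gcongr
      _ = _ := one_mul _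
  have hfin := final_numeric_two E (Real.log E) P.card R (Real.log R) B a y h D Eb
    ((n : ℝ) * (1 / (m * (D * B)))) hE4 hlam1 hlamE hN1 hN2 (by linarith) hR2 hLR ha hy hB hh0
    hD hDy hDEb.le hEb0 hns0 hDns hcore
  refine le_trans ?_ hfin
  have h2 : Real.log E0 ≤ Real.log E := by
    apply Real.log_le_log (by linarith)
    rw [hE]
    linarith
  have h3 : 0 ≤ Real.log E0 := Real.log_nonneg hE01
  have hE00 : 0 < E0 := by linarith
  calc 1 / 10 ^ 20 * (Real.log E0 / E0) ^ 3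
      = 1 / 10 ^ 20 * (Real.log E0 ^ 3 / E0 ^ 3) := by rw [div_pow]
    _ ≤ 1 / (5000 * 100000 ^ 3) * (Real.log E0 ^ 3 / E0 ^ 3) := by
        gcongr
        norm_num
    _ = Real.log E0 ^ 3 / (5000 * (100000 * E0) ^ 3) := by
        field_simp
    _ ≤ Real.log E ^ 3 / (5000 * (100000 * E0) ^ 3) := by
        gcongr
    _ = _ := by rw [hE]

end Pool.Agent.Lib.MP_7ab245_nt.Len
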