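import Mathlib
import Pool.Agent.Lib.MP_7ab245_nt.Len.CoreE
import Pool.Agent.Lib.MP_7ab245_nt.Len.Disc

/-! The lower bound of the Mahler measure in terms of the discriminant. -/

set_option autoImplicit false

open Polynomial Finset

namespace Pool.Agent.Lib.MP_7ab245_nt.Len

lemma disc_compare_cube (Y E K : ℝ) (hY : 1 ≤ Y) (hYE : Y ≤ E) (hEK : E ≤ K * Y) (hK : 0 < K) :
    1 / K ^ 3 * (Real.log Y / Y) ^ 3 ≤ (Real.log E / E) ^ 3 := by
  have h0 : 0 ≤ Real.log Y := Real.log_nonneg hY
  have h1 : Real.log Y ≤ Real.log E := Real.log_le_log (by linarith) hYE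
  have h2 : Real.log Y / (K * Y) ≤ Real.log E / E := by
    have : 0 < E := by linarith
    have h3 : 0 ≤ Real.log E := h0.trans h1
    gcongr
  calc 1 / K ^ 3 * (Real.log Y / Y) ^ 3 = (Real.log Y / (K * Y)) ^ 3 := by
        field_simp
    _ ≤ _ := by
        have : 0 ≤ Real.log Y / (K * Y) := by positivity
        gcongr

/-- For monic irreducible `f` of degree `n` with `M(f) > 1` and `W = 2 + log (1 + n / |disc f|^(1/n))`,
`log M(f)` is at least an absolute constant times `(log W / W) ^ 3`. -/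
theorem disc_main (f : ℤ[X]) (hf : f.Monic) (hirr : Irreducible f)
    (hM : 1 < (f.map (Int.castRingHom ℂ)).mahlerMeasure) (W : ℝ)
    (hW : W = 2 + Real.log (1 + f.natDegree / |(f.discr : ℝ)| ^ (1 / (f.natDegree : ℝ)))) :
    1 / (6400 * 160000 ^ 3) * (Real.log W / W) ^ 3 ≤
      Real.log (f.map (Int.castRingHom ℂ)).mahlerMeasure := by
  change 1 < mm f at hM
  change _ ≤ Real.log (mm f)
  obtain ⟨D, hD⟩ : ∃ D : ℝ, D = f.natDegree / |(f.discr : ℝ)| ^ (1 / (f.natDegree : ℝ)) :=
    ⟨_, rfl⟩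
  rw [← hD] at hW
  have hD0 : 0 ≤ D := by rw [hD]; positivity
  have hW2 : 2 ≤ W := by
    have := Real.log_nonneg (show 1 ≤ 1 + D by linarith)
    rw [hW]; linarith
  by_cases hM2 : mm f < 2
  · obtain ⟨α, hα⟩ := exists_isRoots f hf
    have hn := hα.pos hirr
    have hinj := roots_injective f hf hirr α hα
    have hh1 : hh α ≤ 1 := by
      rw [hh_eq_log_mahler f α hα]
      change Real.log (mm f) ≤ 1
      have h1 : Real.log (mm f) ≤ Real.log 2 := Real.log_le_log (by linarith) hM2.le
      have := Real.log_two_lt_d9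
      linarith
    obtain ⟨A, hA⟩ : ∃ A, A = W + 2 := ⟨_, rfl⟩
    obtain ⟨E, hE⟩ : ∃ E, E = A + 1 * Real.log (A + 1) := ⟨_, rfl⟩
    have hnR : (0 : ℝ) < f.natDegree := by exact_mod_cast hn
    have hlogD : Real.log D ≤ Real.log (1 + D) := by
      rcases hD0.eq_or_lt with h | h
      · rw [← h]; simp
      · exact Real.log_le_log h (by linarith)
    have h1 := core_energy A 1 E (by linarith) le_rfl hE f hirr hM hM2 f.natDegree α hα (by
      intro B hB
      have h2 := EE_le_disc hα hn hinj hh1 B hB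
      rw [← hD] at h2
      refine h2.trans ?_
      apply mul_le_mul_of_nonneg_left _ hnR.le
      rw [hA, hW]
      linarith)
    have h3 : 0 ≤ Real.log (A + 1) := Real.log_nonneg (by linarith)
    have h4 : Real.log (A + 1) ≤ A := by
      have := Real.log_le_sub_one_of_pos (x := A + 1) (by linarith)
      linarith
    have h5 := disc_compare_cube W E 4 (by linarith) (by linarith) (by linarith) (by norm_num)
    calc 1 / (6400 * 160000 ^ 3) * (Real.log W / W) ^ 3
        = 1 / (6400 * 40000 ^ 3) * (1 / 4 ^ 3 * (Real.log W / W) ^ 3) := by ring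
      _ ≤ 1 / (6400 * 40000 ^ 3) * (Real.log E / E) ^ 3 := by gcongr
      _ ≤ _ := h1
  · push Not at hM2
    have hlog2 := Real.log_two_gt_d9
    have h1 : Real.log 2 ≤ Real.log (mm f) := Real.log_le_log (by norm_num) hM2
    have h2 : Real.log W / W ≤ 1 := by
      rw [div_le_one (by linarith)]
      have := Real.log_le_sub_one_of_pos (x := W) (by linarith)
      linarith
    have h3 : (Real.log W / W) ^ 3 ≤ 1 :=
      pow_le_one₀ (div_nonneg (Real.log_nonneg (by linarith)) (by linarith)) h2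
    have h6 : 1 / (6400 * 160000 ^ 3) * (Real.log W / W) ^ 3 ≤ 1 / (6400 * 160000 ^ 3) * 1 := by
      gcongr
    have h7 : (1 : ℝ) / (6400 * 160000 ^ 3) * 1 ≤ 1 / 2 := by norm_num
    linarith

end Pool.Agent.Lib.MP_7ab245_nt.Len
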